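import Pool.Agent.H18.KR.Cr

/-!
# Module AA0 (about 60 lines). `A^0(x) = 1/(qx;q)_∞`.

`aa q 0 d = q^d/(q)_d`, by strong induction on `d`. `d = 0`: `Pd 0 = {0}`. For `d ≥ 1` use `cr` with
`w = 0`, `κ = 0` (`Qw α 0 = 0`, `fm 0 α = 0`, `sz 0 = 0`): with `a_d = aa q 0 d`
`(q^{-d} - 1) a_d = Σ_{m + d' = d - 1} [m+1] q^{d'} a_{d'}`, `[m+1] = (1-q^{m+1})/(1-q)`.
The sequence `q^d/(q)_d` satisfies the same recursion:
`(q^{-d} - 1) q^d/(q)_d = 1/(q)_{d-1}` and `Σ_{m+d'=n} [m+1] q^{2d'}/(q)_{d'} = 1/(q)_n`. The last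
identity: `Σ_{m+d'=n} (1-q^{m+1}) q^{2d'}/(q)_{d'} = (1-q)/(q)_n`. Induction on `n`: let
`U(n) = Σ_{d' ≤ n} q^{2d'}/(q)_{d'}` and `V(n) = Σ_{d' ≤ n} q^{n+1+d'}/(q)_{d'}`. Known (easy
induction): `Σ_{d' ≤ n} q^{d'}/(q)_{d'} = 1/(q)_n` and
`Σ_{d' ≤ n} q^{2d'}/(q)_{d'} = (1 - q + q^{n+1})/(q)_n` (step:
`(1-q+q^n)(1-q^n) + q^{2n} = 1 - q + q^{n+1}`), so `U(n) - V(n) = (1-q)/(q)_n`.
-/

set_option autoImplicit false

namespace Pool.Agent.H18.KR

open Finset

variable {F : Type} [Field F] {q : F}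

theorem aa_zero (hq0 : q ≠ 0) (hq : ∀ n : ℕ, 0 < n → q ^ n ≠ 1) (d : ℕ) :
    aa q 0 d = q ^ d / qf q d := by
  have h1q : (1 : F) - q ≠ 0 :=
    sub_ne_zero.2 fun h => hq 1 one_pos (by rw [pow_one]; exact h.symm)
  have hne : ∀ n : ℕ, (1 : F) - q ^ (n + 1) ≠ 0 := fun n =>
    sub_ne_zero.2 fun h => hq (n + 1) n.succ_pos h.symm
  have hqf : ∀ n, qf q n ≠ 0 := fun n => prod_ne_zero_iff.2 fun i _ => hne i
  have hsucc : ∀ n, qf q (n + 1) = qf q n * (1 - q ^ (n + 1)) := fun n => prod_range_succ _ _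
  have hU : ∀ n, ∑ j ∈ range (n + 1), q ^ j / qf q j = 1 / qf q n := by
    intro n
    induction n with
    | zero => simp [qf]
    | succ n ih =>
      rw [sum_range_succ, ih, hsucc]
      have h2 := hqf n
      have h3 := hne n
      rw [div_add_div _ _ h2 (mul_ne_zero h2 h3), div_eq_div_iff
        (mul_ne_zero h2 (mul_ne_zero h2 h3)) (mul_ne_zero h2 h3)]
      ring
  have hU2 : ∀ n, ∑ j ∈ range (n + 1), q ^ j * (q ^ j / qf q j) =
      (1 - q + q ^ (n + 1)) / qf q n := by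
    intro n
    induction n with
    | zero => simp [qf]
    | succ n ih =>
      rw [sum_range_succ, ih, hsucc]
      have h2 := hqf n
      have h3 := hne n
      rw [← mul_div_assoc, div_add_div _ _ h2 (mul_ne_zero h2 h3), div_eq_div_iff
        (mul_ne_zero h2 (mul_ne_zero h2 h3)) (mul_ne_zero h2 h3)]
      ring
  have hS : ∀ n, ∑ x ∈ antidiagonal n, (1 - q ^ (x.1 + 1)) / (1 - q) *
      (q ^ x.2 * (q ^ x.2 / qf q x.2)) = 1 / qf q n := by
    intro n
    rw [← Finset.Nat.sum_antidiagonal_swap,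
      Finset.Nat.sum_antidiagonal_eq_sum_range_succ_mk]
    have h4 : ∀ j ∈ range (n + 1), (1 - q ^ (n - j + 1)) / (1 - q) *
        (q ^ j * (q ^ j / qf q j)) =
        (q ^ j * (q ^ j / qf q j)) / (1 - q) - q ^ (n + 1) * (q ^ j / qf q j) / (1 - q) := by
      intro j hj
      have hj' : j ≤ n := Nat.lt_succ_iff.1 (mem_range.1 hj)
      have h5 : q ^ (n + 1) = q ^ (n - j + 1) * q ^ j := by
        rw [← pow_add]
        congr 1
        omega
      rw [h5]
      ring
    have h6 : ∑ j ∈ range (n + 1), (1 - q ^ (n - j + 1)) / (1 - q) *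
        (q ^ j * (q ^ j / qf q j)) = 1 / qf q n := by
      rw [sum_congr rfl h4, sum_sub_distrib, ← sum_div, ← sum_div, ← mul_sum, hU, hU2]
      have h2 := hqf n
      field_simp
      ring
    exact h6
  induction d using Nat.strong_induction_on with
  | _ d ih =>
    rcases Nat.eq_zero_or_pos d with rfl | hd
    · have hP : Pd 0 = {(0 : Str)} := by
        ext α
        simp only [Pd, mem_filter, Finset.mem_finsupp_iff, mem_singleton]
        constructor
        · rintro ⟨⟨h, -⟩, -⟩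
          exact Finsupp.support_eq_empty.1 (subset_empty.1 (by simpa using h))
        · rintro rfl
          simp [sz]
      unfold aa
      rw [hP, sum_singleton]
      simp [qf, qfp]
    · obtain ⟨n, rfl⟩ : ∃ n, d = n + 1 := ⟨d - 1, by omega⟩
      have h7 := cr hq0 hq 0 (0 : Str) (by simp) (n + 1)
      have h8 : ∑ α ∈ Pd (n + 1), q ^ ((fm α α : ℤ) - (fm (0 : Str) α : ℤ) - (Qw α 0 : ℤ)) /
          qfp q α = aa q 0 (n + 1) := by
        unfold aa
        refine sum_congr rfl fun α _ => ?_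
        have h9 : Qw α 0 = 0 := by
          unfold Qw
          simp
        rw [h9, Nat.cast_zero, sub_zero]
      rw [h8, if_pos (by omega)] at h7
      have h10 : ∑ x ∈ antidiagonal (n + 1 - (0 + 1)), (1 - q ^ (x.1 + 1)) / (1 - q) *
          (q ^ x.2 * aa q (0 : Str) x.2) = 1 / qf q n := by
        rw [← hS n, show n + 1 - (0 + 1) = n by omega]
        refine sum_congr rfl fun x hx => ?_
        have hx' := mem_antidiagonal.1 hx
        rw [ih x.2 (by omega)]
      have h11 : sz (0 : Str) = 0 := by simp [sz]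
      rw [h10, h11, pow_zero, one_mul] at h7
      have h2 := hqf n
      have h3 := hne n
      have hqn : q ^ (n + 1) ≠ 0 := pow_ne_zero _ hq0
      have h12 : aa q (0 : Str) (n + 1) * (1 - q ^ (n + 1)) = q ^ (n + 1) / qf q n := by
        have h13 : q ^ (n + 1) * aa q (0 : Str) (n + 1) =
            aa q (0 : Str) (n + 1) - q ^ (n + 1) * (1 / qf q n) := by
          conv_lhs => rw [h7]
          rw [mul_sub, ← mul_assoc, inv_pow, mul_inv_cancel₀ hqn, one_mul]
        rw [mul_one_div] at h13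
        linear_combination -h13
      rw [hsucc, ← div_div, eq_div_iff h3]
      exact h12

end Pool.Agent.H18.KR
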