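import Pool.Agent.H18.KR.Defs

/-!
# Module PalS (about 100 lines). The palindromic step.

`Pal k u` : `u d = u (k - d)` for `d ≤ k` and `u d = 0` for `d > k`. Let `1 ≤ J` (only `J ≥ 0` is
used) and let `v` satisfy
`v d - v (d-1) = h d := q^{-d} u d - q^{-k} q^{d-J-1} u (d-J-1)` (terms with negative index are
zero; the exponents are integers, here written with `zpow`). Then `Pal (k + J) v`.

Proof. Extend `u` by zero to `ℤ`: `u' z = if 0 ≤ z then u z.toNat else 0`; then `u' (k - z) = u' z` for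
all `z : ℤ`. Put `h' z = q^{-z} u' z - q^{-k} q^{z-J-1} u' (z-J-1)`. Then `h' (k+J+1-z) = - h' z`:
`h'(k+J+1-z) = q^{-(k+J+1-z)} u'(k+J+1-z) - q^{-k} q^{k-z} u'(k-z)
 = q^{-k} q^{z-J-1} u'(z-J-1) - q^{-z} u'(z)`. Moreover `h' z = 0` for `z < 0` and for `z > k+J+1`.
`v d = Σ_{e ≤ d} h e`. Hence `Σ_{e=0}^{k+J+1} h e = 0` (in characteristic two use the cancellation in
pairs, or argue as follows without dividing by two: `v (k+J+1-1-d) + Σ_{e > k+J-d} h e = v(k+J+1)`,
and first show `v (k+J+1) = 0` directly: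
`Σ_{e=0}^{k+J+1} h e = Σ_{e=0}^{k} q^{-e} u e - Σ_{f=0}^{k} q^{f-k} u f` (shift the second sum by
`J + 1`) and reflect `f = k - e`). So `v d = 0` for `d > k + J` (as `h = 0` beyond), and for
`d ≤ k + J`: `v (k+J-d) = - Σ_{e = k+J-d+1}^{k+J+1} h e = Σ_{e'=0}^{d} h e' = v d` with
`e' = k+J+1-e`.
-/

set_option autoImplicit false

namespace Pool.Agent.H18.KR

open Finset

variable {F : Type} [Field F] {q : F}

private theorem pals_lem1 (k J : ℕ) (u v : ℕ → F) (h0 : v 0 = u 0)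
    (hv : ∀ d : ℕ, v (d + 1) - v d =
      q ^ (-((d : ℤ) + 1)) * u (d + 1) -
        if J ≤ d then q ^ (-(k : ℤ)) * q ^ ((d : ℤ) - J) * u (d - J) else 0) (d : ℕ) :
    v d = (∑ e ∈ range (d + 1), q ^ (-(e : ℤ)) * u e) -
      q ^ (-(k : ℤ)) * ∑ f ∈ range (d - J), q ^ (f : ℤ) * u f := by
  induction d with
  | zero => simp [h0]
  | succ d ih =>
    have h1 := hv d
    rw [sum_range_succ _ (d + 1), show ((d + 1 : ℕ) : ℤ) = (d : ℤ) + 1 by push_cast; ring]
    by_cases hJ : J ≤ d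
    · rw [if_pos hJ] at h1
      rw [show d + 1 - J = (d - J) + 1 by omega, sum_range_succ _ (d - J),
        show ((d - J : ℕ) : ℤ) = (d : ℤ) - J by omega]
      linear_combination h1 + ih
    · rw [if_neg hJ] at h1
      have e1 : d + 1 - J = 0 := by omega
      have e2 : d - J = 0 := by omega
      rw [e1]
      rw [e2] at ih
      linear_combination h1 + ih

private theorem pals_lem2 (hq0 : q ≠ 0) (k : ℕ) (u : ℕ → F) (hu : Pal k u) (n : ℕ) :
    q ^ (-(k : ℤ)) * ∑ f ∈ range n, q ^ (f : ℤ) * u f =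
      (∑ e ∈ range (k + 1), q ^ (-(e : ℤ)) * u e) -
        ∑ e ∈ range (k + 1 - n), q ^ (-(e : ℤ)) * u e := by
  induction n with
  | zero => simp
  | succ n ih =>
    rw [sum_range_succ, mul_add, ih]
    by_cases hn : n ≤ k
    · rw [show k + 1 - n = (k - n) + 1 by omega, show k + 1 - (n + 1) = k - n by omega,
        sum_range_succ (fun e => q ^ (-(e : ℤ)) * u e) (k - n),
        show ((k - n : ℕ) : ℤ) = (k : ℤ) - n by omega]
      have h1 : u (k - n) = u n := (hu.1 n hn).symm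
      have h2 : q ^ (-((k : ℤ) - n)) = q ^ (-(k : ℤ)) * q ^ (n : ℤ) := by
        rw [← zpow_add₀ hq0]
        congr 1
        ring
      rw [h1, h2]
      ring
    · have h1 : u n = 0 := hu.2 n (by omega)
      rw [h1, show k + 1 - n = 0 by omega, show k + 1 - (n + 1) = 0 by omega]
      ring

private theorem pals_lem3 (k : ℕ) (u : ℕ → F) (hu : Pal k u) {n : ℕ} (hn : k + 1 ≤ n) :
    ∑ e ∈ range n, q ^ (-(e : ℤ)) * u e = ∑ e ∈ range (k + 1), q ^ (-(e : ℤ)) * u e := by
  induction n, hn using Nat.le_induction with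
  | base => rfl
  | succ n hn ih =>
    rw [sum_range_succ, ih, hu.2 n (by omega)]
    ring

theorem pal_step (hq0 : q ≠ 0) (k J : ℕ) (u v : ℕ → F) (hu : Pal k u) (h0 : v 0 = u 0)
    (hv : ∀ d : ℕ, v (d + 1) - v d =
      q ^ (-((d : ℤ) + 1)) * u (d + 1) -
        if J ≤ d then q ^ (-(k : ℤ)) * q ^ ((d : ℤ) - J) * u (d - J) else 0) :
    Pal (k + J) v := by
  have key : ∀ d, v d = (∑ e ∈ range (d + 1), q ^ (-(e : ℤ)) * u e) -
      ((∑ e ∈ range (k + 1), q ^ (-(e : ℤ)) * u e) -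
        ∑ e ∈ range (k + 1 - (d - J)), q ^ (-(e : ℤ)) * u e) := fun d => by
    rw [pals_lem1 k J u v h0 hv d, pals_lem2 hq0 k u hu]
  have key2 : ∀ d, d ≤ k + J → ∑ e ∈ range (k + 1 - (d - J)), q ^ (-(e : ℤ)) * u e =
      ∑ e ∈ range (k + J - d + 1), q ^ (-(e : ℤ)) * u e := by
    intro d hd
    by_cases hJ : J ≤ d
    · rw [show k + 1 - (d - J) = k + J - d + 1 by omega]
    · rw [show k + 1 - (d - J) = k + 1 by omega]
      exact (pals_lem3 k u hu (by omega)).symm
  constructor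
  · intro d hd
    rw [key d, key (k + J - d), key2 d hd, key2 (k + J - d) (by omega),
      show k + J - (k + J - d) = d by omega]
    ring
  · intro d hd
    rw [key d, show k + 1 - (d - J) = 0 by omega, pals_lem3 k u hu (by omega)]
    simp

end Pool.Agent.H18.KR
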