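import Pool.Agent.H18.KR.GRec
import Pool.Agent.H18.KR.PalS
import Pool.Agent.H18.KR.AA0

/-!
# Module PalT (about 70 lines). `G_κ` is palindromic of degree `|κ|`.

Induction on the number `cnt κ` of strings. `κ = 0`: `gg q 0 d = Σ aa q 0 a * ep q b = [d = 0]` by
`aa_zero` and `euler1`; so `Pal 0`. `κ ≠ 0`: let `j` be the maximum of the support,
`κ = κ0 + single j 1` (`κ0 = κ - single j 1`), all `i` in the support of `κ0` are `≤ j < J := j + 1`,
`sz κ = sz κ0 + J`. `gg q κ 0 = 1 = gg q κ0 0` (`Pd 0 = {0}`, `ep_zero`). `gg_rec` and `pal_step`.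

`aa_eq_conv`: `aa q κ d = Σ gg q κ a * q^b/(q)_b`, as `E f = 1` (`euler1`), e.g. in `PowerSeries F`.
-/

set_option autoImplicit false

namespace Pool.Agent.H18.KR

open Finset

variable {F : Type} [Field F] {q : F}

theorem gg_at_zero (κ : Str) : gg q κ 0 = 1 := by
  simp [gg, aa, Pd_zero, fm_zero_left, fm_zero_right, qfp_zero, ep_zero]

private theorem mk_ep_mul (hq0 : q ≠ 0) (hq : ∀ n : ℕ, 0 < n → q ^ n ≠ 1) :
    PowerSeries.mk (fun n => q ^ n / qf q n) * PowerSeries.mk (ep q) = (1 : PowerSeries F) := by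
  ext n
  rw [PowerSeries.coeff_mul, PowerSeries.coeff_one]
  simp only [PowerSeries.coeff_mk]
  exact euler1 hq0 hq n

private theorem gg_zero (hq0 : q ≠ 0) (hq : ∀ n : ℕ, 0 < n → q ^ n ≠ 1) (d : ℕ) :
    gg q 0 d = if d = 0 then 1 else 0 := by
  rw [gg, ← euler1 hq0 hq d]
  refine sum_congr rfl fun x _ => ?_
  rw [aa_zero hq0 hq]

theorem pal_gg (hq0 : q ≠ 0) (hq : ∀ n : ℕ, 0 < n → q ^ n ≠ 1) (κ : Str) :
    Pal (sz κ) (gg q κ) := by
  induction hn : cnt κ using Nat.strong_induction_on generalizing κ with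
  | _ n ih =>
    by_cases h0 : κ = 0
    · subst h0
      rw [sz_zero]
      constructor
      · intro d hd
        have : d = 0 := by omega
        subst this
        rfl
      · intro d hd
        rw [gg_zero hq0 hq, if_neg (by omega)]
    · have hne : κ.support.Nonempty := Finsupp.support_nonempty_iff.2 h0
      set j := κ.support.max' hne with hj
      have hjmem : j ∈ κ.support := κ.support.max'_mem hne
      have hj1 : 1 ≤ κ j := Nat.one_le_iff_ne_zero.2 (Finsupp.mem_support_iff.1 hjmem)
      set κ0 : Str := κ - Finsupp.single j 1 with hκ0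
      have hsplit : κ0 + Finsupp.single j 1 = κ := by
        apply tsub_add_cancel_of_le
        intro i
        rw [Finsupp.single_apply]
        split_ifs with h
        · rw [← h]
          exact hj1
        · exact Nat.zero_le _
      have hcnt : cnt κ0 + 1 = n := by
        rw [← hn, ← hsplit, cnt_add, cnt_single]
      have hsz : sz κ = sz κ0 + (j + 1) := by
        rw [← hsplit, sz_add, sz_single, mul_one]
      have hsupp : ∀ i ∈ κ0.support, i < j + 1 := by
        intro i hi
        have h1 : i ∈ κ.support := by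
          rw [Finsupp.mem_support_iff] at hi ⊢
          intro h2
          apply hi
          have h3 : κ0 i = κ i - Finsupp.single j 1 i := rfl
          rw [h3, h2, Nat.zero_sub]
        exact Nat.lt_succ_of_le (κ.support.le_max' i h1)
      have hrec := gg_rec hq0 hq (j + 1) (by omega) κ0 hsupp
      have hJ : j + 1 - 1 = j := by omega
      rw [hJ] at hrec
      rw [hsplit] at hrec
      rw [hsz]
      exact pal_step hq0 (sz κ0) (j + 1) (gg q κ0) (gg q κ) (ih (cnt κ0) (by omega) κ0 rfl)
        (by rw [gg_at_zero, gg_at_zero]) hrec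

theorem aa_eq_conv (hq0 : q ≠ 0) (hq : ∀ n : ℕ, 0 < n → q ^ n ≠ 1) (κ : Str) (d : ℕ) :
    aa q κ d = ∑ x ∈ antidiagonal d, gg q κ x.1 * (q ^ x.2 / qf q x.2) := by
  have h1 : PowerSeries.mk (gg q κ) = PowerSeries.mk (aa q κ) * PowerSeries.mk (ep q) := by
    ext n
    rw [PowerSeries.coeff_mul]
    simp only [PowerSeries.coeff_mk]
    rfl
  have h2 : PowerSeries.mk (gg q κ) * PowerSeries.mk (fun n => q ^ n / qf q n) =
      PowerSeries.mk (aa q κ) := by
    rw [h1, mul_assoc, mul_comm (PowerSeries.mk (ep q)), mk_ep_mul hq0 hq, mul_one]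
  have h3 := congrArg (PowerSeries.coeff d) h2
  rw [PowerSeries.coeff_mul] at h3
  simp only [PowerSeries.coeff_mk] at h3
  exact h3.symm

end Pool.Agent.H18.KR
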