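import Pool.Agent.H18.KR.OneFL
import Pool.Agent.H18.KR.PalT

/-!
# Module AS (about 100 lines). The unrestricted sum at one node vanishes in weight `-1`.

`conv_vanish`: in `PowerSeries F` let `A1 = mk (aa q κ1)`, `A2 = mk (aa q⁻¹ κ2)`,
`G1 = mk (gg q κ1)`, `G2 = mk (gg q⁻¹ κ2)`; `A1 = G1 f`, `A2 = G2 f'` by `aa_eq_conv` (for `q` and
`q⁻¹`, `hq_inv`) with `f = mk (q^b/(q)_b)`, `f' = mk (q⁻¹^b/(q⁻¹)_b)`, and `f f' = 1 - X` by
`euler2`. So `A1 A2 = (1 - X) G1 G2`. `G1`, `G2` are palindromic of degrees `k1 = |κ1|`,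
`k2 = |κ2|` (`pal_gg`), so `G1 G2` is palindromic of degree `k = k1 + k2`
(`g d = g (k - d)`, `g d = 0` for `d > k`), and the coefficient of `x^D` in `(1-X) G1 G2` is
`g D - g (D-1)`, which is zero for `2 D = k + 1` (`k - D = D - 1`).

`as_vanish`: `one_fl` with `u i = Qw κ1 (i+1) + Qw κ2 (i+1)`, `v i = Qw κ1 (i+1)`:
`Σ_i v_i α_i = fm α κ1 = fm κ1 α`, `Σ (u_i - v_i) γ_i = fm κ2 γ`; then `conv_vanish`.
-/

set_option autoImplicit false

namespace Pool.Agent.H18.KR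

open Finset

variable {F : Type} [Field F] {q : F}

private theorem AS_conv {k1 k2 : ℕ} {u v : ℕ → F} (hu : ∀ d, k1 < d → u d = 0)
    (hv : ∀ d, k2 < d → v d = 0) (n : ℕ) :
    ∑ x ∈ antidiagonal n, u x.1 * v x.2 =
      ∑ i ∈ range (k1 + 1), ∑ j ∈ range (k2 + 1), if i + j = n then u i * v j else 0 := by
  rw [← Finset.sum_product' (range (k1 + 1)) (range (k2 + 1))
    (fun i j => if i + j = n then u i * v j else 0)]
  rw [← Finset.sum_filter (fun x : ℕ × ℕ => x.1 + x.2 = n) (fun x : ℕ × ℕ => u x.1 * v x.2)]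
  symm
  refine Finset.sum_subset ?_ ?_
  · intro x hx
    rw [Finset.mem_filter] at hx
    rw [HasAntidiagonal.mem_antidiagonal]
    exact hx.2
  · intro x hx hx'
    rw [HasAntidiagonal.mem_antidiagonal] at hx
    rw [Finset.mem_filter, Finset.mem_product, Finset.mem_range, Finset.mem_range] at hx'
    by_cases h1 : k1 < x.1
    · rw [hu _ h1, zero_mul]
    · by_cases h2 : k2 < x.2
      · rw [hv _ h2, mul_zero]
      · exact absurd ⟨⟨by omega, by omega⟩, hx⟩ hx'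

private theorem AS_pal {k1 k2 : ℕ} {u v : ℕ → F} (hu : Pal k1 u) (hv : Pal k2 v) {n n' : ℕ}
    (h : n + n' = k1 + k2) :
    ∑ x ∈ antidiagonal n, u x.1 * v x.2 = ∑ x ∈ antidiagonal n', u x.1 * v x.2 := by
  rw [AS_conv hu.2 hv.2, AS_conv hu.2 hv.2, ← Finset.sum_flip]
  refine Finset.sum_congr rfl fun i hi => ?_
  rw [← Finset.sum_flip]
  refine Finset.sum_congr rfl fun j hj => ?_
  rw [Finset.mem_range] at hi hj
  rw [← hu.1 i (by omega), ← hv.1 j (by omega)]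
  by_cases h1 : i + j = n'
  · rw [if_pos h1, if_pos (by omega)]
  · rw [if_neg h1, if_neg (by omega)]

theorem conv_vanish (hq0 : q ≠ 0) (hq : ∀ n : ℕ, 0 < n → q ^ n ≠ 1) (κ1 κ2 : Str) (D : ℕ)
    (h : 2 * D = sz κ1 + sz κ2 + 1) :
    ∑ x ∈ antidiagonal D, aa q κ1 x.1 * aa q⁻¹ κ2 x.2 = 0 := by
  have hq0' : q⁻¹ ≠ 0 := inv_ne_zero hq0
  have hq' := hq_inv hq
  have hA1 : PowerSeries.mk (aa q κ1) =
      PowerSeries.mk (gg q κ1) * PowerSeries.mk (fun b => q ^ b / qf q b) := by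
    ext d
    rw [PowerSeries.coeff_mul, PowerSeries.coeff_mk, aa_eq_conv hq0 hq]
    simp only [PowerSeries.coeff_mk]
  have hA2 : PowerSeries.mk (aa q⁻¹ κ2) =
      PowerSeries.mk (gg q⁻¹ κ2) * PowerSeries.mk (fun b => q⁻¹ ^ b / qf q⁻¹ b) := by
    ext d
    rw [PowerSeries.coeff_mul, PowerSeries.coeff_mk, aa_eq_conv hq0' hq']
    simp only [PowerSeries.coeff_mk]
  have hf : PowerSeries.mk (fun b => q ^ b / qf q b) *
      PowerSeries.mk (fun b => q⁻¹ ^ b / qf q⁻¹ b) = 1 - PowerSeries.X := by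
    ext d
    rw [PowerSeries.coeff_mul]
    simp only [PowerSeries.coeff_mk]
    rw [euler2 hq0 hq, map_sub, PowerSeries.coeff_one, PowerSeries.coeff_X]
    by_cases h0 : d = 0
    · rw [if_pos h0, if_pos h0, if_neg (by omega), sub_zero]
    · rw [if_neg h0, if_neg h0]
      by_cases h1 : d = 1
      · rw [if_pos h1, if_pos h1, zero_sub]
      · rw [if_neg h1, if_neg h1, sub_zero]
  have hprod : PowerSeries.mk (aa q κ1) * PowerSeries.mk (aa q⁻¹ κ2) =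
      PowerSeries.mk (gg q κ1) * PowerSeries.mk (gg q⁻¹ κ2) -
        PowerSeries.mk (gg q κ1) * PowerSeries.mk (gg q⁻¹ κ2) * PowerSeries.X := by
    rw [hA1, hA2]
    calc PowerSeries.mk (gg q κ1) * PowerSeries.mk (fun b => q ^ b / qf q b) *
          (PowerSeries.mk (gg q⁻¹ κ2) * PowerSeries.mk (fun b => q⁻¹ ^ b / qf q⁻¹ b)) =
        PowerSeries.mk (gg q κ1) * PowerSeries.mk (gg q⁻¹ κ2) *
          (PowerSeries.mk (fun b => q ^ b / qf q b) *
            PowerSeries.mk (fun b => q⁻¹ ^ b / qf q⁻¹ b)) := by ring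
      _ = _ := by
        rw [hf]
        ring
  have hD : PowerSeries.coeff D (PowerSeries.mk (aa q κ1) * PowerSeries.mk (aa q⁻¹ κ2)) =
      ∑ x ∈ antidiagonal D, aa q κ1 x.1 * aa q⁻¹ κ2 x.2 := by
    rw [PowerSeries.coeff_mul]
    simp only [PowerSeries.coeff_mk]
  rw [← hD, hprod, map_sub]
  obtain ⟨m, rfl⟩ : ∃ m, D = m + 1 := ⟨D - 1, by omega⟩
  rw [PowerSeries.coeff_succ_mul_X, PowerSeries.coeff_mul, PowerSeries.coeff_mul]
  simp only [PowerSeries.coeff_mk]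
  rw [AS_pal (pal_gg hq0 hq κ1) (pal_gg hq0' hq' κ2) (n := m + 1) (n' := m) (by omega), sub_self]

private theorem AS_fm (κ α : Str) :
    (α.sum fun i a => (Qw κ (i + 1) : ℤ) * (a : ℤ)) = (fm κ α : ℤ) := by
  rw [fm_comm κ α]
  unfold fm Finsupp.sum
  push_cast
  refine Finset.sum_congr rfl fun i _ => ?_
  ring

theorem as_vanish (hq0 : q ≠ 0) (hq : ∀ n : ℕ, 0 < n → q ^ n ≠ 1) (κ1 κ2 : Str) (D : ℕ)
    (h : 2 * D = sz κ1 + sz κ2 + 1) :
    ∑ α ∈ Pd D, q ^ ((fm α α : ℤ) - (fm κ1 α : ℤ)) *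
      (α.prod fun i a =>
        gb q ((Qw κ1 (i + 1) : ℤ) + (Qw κ2 (i + 1) : ℤ) - 2 * (Qw α (i + 1) : ℤ)) a) = 0 := by
  have h1 := one_fl hq0 hq (fun i => (Qw κ1 (i + 1) : ℤ) + (Qw κ2 (i + 1) : ℤ))
    (fun i => (Qw κ1 (i + 1) : ℤ)) D
  simp only [add_sub_cancel_left, AS_fm] at h1
  rw [h1]
  exact conv_vanish hq0 hq κ1 κ2 D h

end Pool.Agent.H18.KR
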