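import Pool.Agent.H18.KR.Defs

/-!
# Module AntiP (about 60 lines). Products of sums over antidiagonals of finitely supported functions.

`prod_anti`: expand the product over the support of `α` (`Finset.prod_sum` or
`Finset.prod_univ_sum`); the choices of `x_i ∈ antidiagonal (α i)` for `i` in the support are the
pairs `(β, γ)` with `β + γ = α`. `Finset.mem_antidiagonal`. Induction on `α` (`Finsupp.induction`)
is also possible: for `α = single i a + β`, `i ∉ supp β`, the antidiagonal of `α` is the product of
the antidiagonals of `a` and `β`.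
`prod_anti'` is the product form: `y.1.prod g` is the product over `supp α` as `g i 0 = 1`.
-/

set_option autoImplicit false

namespace Pool.Agent.H18.KR

open Finset

variable {F : Type} [CommRing F]

theorem prod_anti (α : ℕ →₀ ℕ) (f : ℕ → ℕ → ℕ → F) :
    ∏ i ∈ α.support, ∑ x ∈ antidiagonal (α i), f i x.1 x.2 =
      ∑ y ∈ antidiagonal α, ∏ i ∈ α.support, f i (y.1 i) (y.2 i) := by
  classical
  rw [Finset.prod_sum]
  refine Finset.sum_bij' (fun p _ => (Finsupp.onFinset α.support
    (fun i => if h : i ∈ α.support then (p i h).1 else 0) (by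
      intro i hi
      by_contra hcon
      exact hi (dif_neg hcon)), Finsupp.onFinset α.support
    (fun i => if h : i ∈ α.support then (p i h).2 else 0) (by
      intro i hi
      by_contra hcon
      exact hi (dif_neg hcon)))) (fun y _ i _ => (y.1 i, y.2 i)) ?_ ?_ ?_ ?_ ?_
  · intro p hp
    rw [Finset.mem_pi] at hp
    rw [HasAntidiagonal.mem_antidiagonal]
    ext i
    by_cases h : i ∈ α.support
    · have h1 := HasAntidiagonal.mem_antidiagonal.mp (hp i h)
      simp only [Finsupp.coe_add, Pi.add_apply, Finsupp.onFinset_apply, dif_pos h]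
      exact h1
    · simp only [Finsupp.coe_add, Pi.add_apply, Finsupp.onFinset_apply, dif_neg h]
      exact (Finsupp.notMem_support_iff.mp h).symm
  · intro y hy
    rw [HasAntidiagonal.mem_antidiagonal] at hy
    rw [Finset.mem_pi]
    intro i hi
    rw [HasAntidiagonal.mem_antidiagonal, ← hy]
    rfl
  · intro p hp
    funext i hi
    simp only [Finsupp.onFinset_apply, dif_pos hi]
  · intro y hy
    rw [HasAntidiagonal.mem_antidiagonal] at hy
    have hz : ∀ i, i ∉ α.support → y.1 i = 0 ∧ y.2 i = 0 := by
      intro i hi
      have h1 : y.1 i + y.2 i = α i := by rw [← hy]; rfl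
      rw [Finsupp.notMem_support_iff.mp hi] at h1
      omega
    refine Prod.ext ?_ ?_
    · ext i
      by_cases h : i ∈ α.support
      · simp only [Finsupp.onFinset_apply, dif_pos h]
      · simp only [Finsupp.onFinset_apply, dif_neg h]
        exact (hz i h).1.symm
    · ext i
      by_cases h : i ∈ α.support
      · simp only [Finsupp.onFinset_apply, dif_pos h]
      · simp only [Finsupp.onFinset_apply, dif_neg h]
        exact (hz i h).2.symm
  · intro p hp
    rw [← Finset.prod_attach α.support]
    refine Finset.prod_congr rfl fun i _ => ?_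
    simp only [Finsupp.onFinset_apply, dif_pos i.2]

theorem prod_anti' (α : ℕ →₀ ℕ) (g h : ℕ → ℕ → F) (hg : ∀ i, g i 0 = 1) (hh : ∀ i, h i 0 = 1) :
    (α.prod fun i a => ∑ x ∈ antidiagonal a, g i x.1 * h i x.2) =
      ∑ y ∈ antidiagonal α, y.1.prod g * y.2.prod h := by
  have h1 := prod_anti α (fun i a b => g i a * h i b)
  refine Eq.trans h1 (Finset.sum_congr rfl fun y hy => ?_)
  rw [HasAntidiagonal.mem_antidiagonal] at hy
  have hz : ∀ i, i ∉ α.support → y.1 i = 0 ∧ y.2 i = 0 := by
    intro i hi
    have h1 : y.1 i + y.2 i = α i := by rw [← hy]; rfl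
    rw [Finsupp.notMem_support_iff.mp hi] at h1
    omega
  have hs1 : y.1.support ⊆ α.support := by
    intro i hi
    by_contra hcon
    exact (Finsupp.mem_support_iff.mp hi) (hz i hcon).1
  have hs2 : y.2.support ⊆ α.support := by
    intro i hi
    by_contra hcon
    exact (Finsupp.mem_support_iff.mp hi) (hz i hcon).2
  rw [Finsupp.prod_of_support_subset y.1 hs1 g (fun i _ => hg i),
    Finsupp.prod_of_support_subset y.2 hs2 h (fun i _ => hh i), Finset.prod_mul_distrib]

end Pool.Agent.H18.KR
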