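import Pool.Agent.H18.KR.Defs5

/-!
# Module Bnd (about 80 lines). Sizes.

`S = size x`. `sum_lt`: by induction on the list, `size (a :: l) = 2 size a + 1 + size l`, `a < 2 ^ size a`
(`size_nat`, `Nat.lt_size_self`), so `a + l.sum < 2^(size a) + 2^(size l) ≤ 2^(size a + size l + 1)`.
`size_pair`: each of the three lists has size at most `S`; `length_le_size`. `norm x` is a permutation of
the three lists. `2(S+1) ≤ 2^(S+1)` (`Nat.lt_two_pow_self`), `5 ≤ 2^3`:
`5 n (2S+1)(2(S+1)) < 2^3 2^S 2^(S+1) 2^(S+1)`.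
-/

set_option autoImplicit false

namespace Pool.Agent.H18.KR

open Pool.Agent.H80.Poly

theorem sum_lt (l : List ℕ) : l.sum < 2 ^ size l := by
  induction l with
  | nil => simp [size_nil]
  | cons a l ih =>
    rw [List.sum_cons, size_cons]
    have h1 : a < 2 ^ size a := by
      rw [size_nat]
      exact Nat.lt_size_self a
    have h2 : 2 ^ (2 * size a + 1 + size l) = 2 * (2 ^ size a * (2 ^ size a * 2 ^ size l)) := by
      rw [pow_add, pow_add, two_mul, pow_add]
      ring
    rw [h2]
    have h3 : 1 ≤ 2 ^ size a := Nat.one_le_two_pow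
    have h4 : 1 ≤ 2 ^ size l := Nat.one_le_two_pow
    have h5 : 2 ^ size a ≤ 2 ^ size a * (2 ^ size a * 2 ^ size l) :=
      Nat.le_mul_of_pos_right _ (Nat.mul_pos (by omega) (by omega))
    have h6 : 2 ^ size l ≤ 2 ^ size a * (2 ^ size a * 2 ^ size l) := by
      rw [← mul_assoc]
      exact Nat.le_mul_of_pos_left _ (Nat.mul_pos (by omega) (by omega))
    omega

theorem norm_length (x : Inp) : (norm x).1.length ≤ size x ∧ (norm x).2.1.length ≤ size x := by
  obtain ⟨a, b, c⟩ := x
  have h1 := length_le_size a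
  have h2 := length_le_size b
  have h3 := length_le_size c
  rw [size_pair, size_pair]
  unfold norm
  split_ifs
  · simp only
    omega
  · simp only
    omega
  · simp only
    omega

theorem bounds (x : Inp) : x.1.sum < 2 ^ bb (size x) ∧ 2 * (size x + 1) < 2 ^ bb (size x) ∧
    5 * x.1.sum * ((2 * size x + 1) * (2 * (size x + 1))) < 2 ^ bb (size x) := by
  generalize hS : size x = S
  have h1 : x.1.sum < 2 ^ S := by
    have h2 : size x.1 ≤ size x := by
      obtain ⟨a, b⟩ := x
      rw [size_pair]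
      show size a ≤ _
      omega
    exact lt_of_lt_of_le (sum_lt x.1) (Nat.pow_le_pow_right (by norm_num) (h2.trans hS.le))
  have h3 : S + 1 ≤ 2 ^ S := Nat.lt_two_pow_self
  have h4 : bb S = 4 * S + 10 := rfl
  set P := 2 ^ S with hP
  have hP1 : 1 ≤ P := Nat.one_le_two_pow
  have h5 : 2 ^ bb S = P * P * P * P * 1024 := by
    rw [h4, pow_add, pow_mul', ← hP]
    ring
  have h6 : P ≤ P * P := Nat.le_mul_of_pos_left P hP1
  have h7 : P * P ≤ P * P * P := Nat.le_mul_of_pos_right _ hP1
  have h8 : P * P * P ≤ P * P * P * P := Nat.le_mul_of_pos_right _ hP1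
  have h9 : 5 * x.1.sum * ((2 * S + 1) * (2 * (S + 1))) ≤ 5 * P * ((2 * P) * (2 * P)) := by
    apply Nat.mul_le_mul
    · omega
    · apply Nat.mul_le_mul <;> omega
  have h10 : 5 * P * ((2 * P) * (2 * P)) = 20 * (P * P * P) := by ring
  rw [h5]
  refine ⟨by omega, by omega, by omega⟩

end Pool.Agent.H18.KR
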