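import Pool.Agent.H18.KR.Defs5

/-!
# Definitions for the final theorem

* `ffS S x`: the number of witnesses accepted by the verifier with size parameter `S`.
* `gk x`: the Kronecker coefficient of a valid input as a natural number, `0` for other inputs.
* `KInp`: the inputs `(N, ℓ, λ, μ, ν)` of the problem KRON; `KValid`: the lists have length `ℓ` and
  entries at most `N`, they are partitions of the same number, and one of them has at most two
  rows.
-/

set_option autoImplicit false

namespace Pool.Agent.H18.KR

open Finset

/-- number of accepted witnesses -/
def ffS (S : ℕ) (x : Inp) : ℕ :=
  (univ.filter fun w : Fin (wl S) → Bool => VV S x (List.ofFn w) = true).card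

/-- the Kronecker coefficient of a valid input, `0` otherwise -/
def gk (x : Inp) : ℕ := if Valid x then (kronL x.1.sum x.1 x.2.1 x.2.2).num.toNat else 0

end Pool.Agent.H18.KR
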