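import Pool.Agent.H18.KR.Bnd
import Pool.Agent.H18.KR.Defs6

/-!
# Module BndS (about 60 lines). Sizes, with a parameter `S ≥ size x`. From `Bnd` by monotonicity
(`2 ^ bb (size x) ≤ 2 ^ bb S`; the third bound as in `bounds` with `S`).
-/

set_option autoImplicit false

namespace Pool.Agent.H18.KR

open Pool.Agent.H80.Poly

theorem boundsS (x : Inp) (S : ℕ) (hS : size x ≤ S) :
    x.1.sum < 2 ^ bb S ∧ 2 * (S + 1) < 2 ^ bb S ∧
    5 * x.1.sum * ((2 * S + 1) * (2 * (S + 1))) < 2 ^ bb S := by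
  have h1 : x.1.sum < 2 ^ S := by
    have h2 : size x.1 ≤ size x := by
      obtain ⟨a, b⟩ := x
      rw [size_pair]
      show size a ≤ _
      omega
    exact lt_of_lt_of_le (sum_lt x.1) (Nat.pow_le_pow_right (by norm_num) (h2.trans hS))
  have h3 : S + 1 ≤ 2 ^ S := Nat.lt_two_pow_self
  have h4 : bb S = 4 * S + 10 := rfl
  set P := 2 ^ S with hP
  have hP1 : 1 ≤ P := Nat.one_le_two_pow
  have h5 : 2 ^ bb S = P * P * P * P * 1024 := by
    rw [h4, pow_add, pow_mul', ← hP]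
    ring
  have h6 : P ≤ P * P := Nat.le_mul_of_pos_left P hP1
  have h7 : P * P ≤ P * P * P := Nat.le_mul_of_pos_right _ hP1
  have h8 : P * P * P ≤ P * P * P * P := Nat.le_mul_of_pos_right _ hP1
  have h9 : 5 * x.1.sum * ((2 * S + 1) * (2 * (S + 1))) ≤ 5 * P * ((2 * P) * (2 * P)) := by
    apply Nat.mul_le_mul
    · omega
    · apply Nat.mul_le_mul <;> omega
  have h10 : 5 * P * ((2 * P) * (2 * P)) = 20 * (P * P * P) := by ring
  rw [h5]
  refine ⟨by omega, by omega, by omega⟩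

end Pool.Agent.H18.KR
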