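import Pool.Agent.H18.KR.Defs3

/-!
# Module Burn (about 200 lines). Burnside for triples of colourings.

`fixc σ η` is the number of `f : Fin n → Fin r` with `f ∘ σ = f` and `η i` elements of colour `i`. So the
product `fixc σ η * fixc σ θ * fixc σ ![n-k, k]` is the number of the triples `(f, g, h)` fixed by `σ` with
these contents. The sum over `σ` counts pairs (triple, σ in its stabiliser); by Burnside
(`MulAction.sum_card_fixedBy_eq_card_orbits_mul_card_group`, action of `Perm (Fin n)` on the triples
with these contents), it is `n!` times the number of orbits. Two triples, i.e. two maps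
`c : Fin n → Fin r × Fin r × Fin 2`, are in the same orbit iff they have the same fibre sizes
(`C x = #{i : c i = x}`; construct a permutation fibrewise: `Equiv.sigmaFiberEquiv`, or use a Mathlib
lemma on `Multiset`/`List.Perm`, for instance `Tuple`/`Equiv.Perm` existence from
`Multiset.map c univ = Multiset.map c' univ`), and every table `C` with `Σ C = n` occurs. The
orbits correspond to the pairs `(A, B)`, `A i j = C (i, j, 0)`, `B i j = C (i, j, 1)` with `Marg A B η θ` and
`Σ B = k`; `Σ (A + B) = Σ η = n`, so all entries are `≤ n`, and `Σ A = n - k` is automatic.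
(Instead of orbits one can count directly: the number of `c` with fibre sizes `C` is `n!/∏ C!`
(`Nat.multinomial`), and the stabiliser has `∏ C!` elements.)
-/

set_option autoImplicit false

/-!
# Module Burn (about 200 lines). Burnside for triples of colourings.

`fixc σ η` is the number of `f : Fin n → Fin r` with `f ∘ σ = f` and `η i` elements of colour `i`. So the
product `fixc σ η * fixc σ θ * fixc σ ![n-k, k]` is the number of the triples `(f, g, h)` fixed by `σ` with
these contents. The sum over `σ` counts pairs (triple, σ in its stabiliser); by Burnside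
(`MulAction.sum_card_fixedBy_eq_card_orbits_mul_card_group`, action of `Perm (Fin n)` on the triples
with these contents), it is `n!` times the number of orbits. Two triples, i.e. two maps
`c : Fin n → Fin r × Fin r × Fin 2`, are in the same orbit iff they have the same fibre sizes
(`C x = #{i : c i = x}`; construct a permutation fibrewise: `Equiv.sigmaFiberEquiv`, or use a Mathlib
lemma on `Multiset`/`List.Perm`, for instance `Tuple`/`Equiv.Perm` existence from
`Multiset.map c univ = Multiset.map c' univ`), and every table `C` with `Σ C = n` occurs. The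
orbits correspond to the pairs `(A, B)`, `A i j = C (i, j, 0)`, `B i j = C (i, j, 1)` with `Marg A B η θ` and
`Σ B = k`; `Σ (A + B) = Σ η = n`, so all entries are `≤ n`, and `Σ A = n - k` is automatic.
(Instead of orbits one can count directly: the number of `c` with fibre sizes `C` is `n!/∏ C!`
(`Nat.multinomial`), and the stabiliser has `∏ C!` elements.)
-/

namespace Pool.Agent.H18.KR

open Finset

section gen

variable {X : Type} [Fintype X] [DecidableEq X] {n : ℕ}

/-- fibre sizes -/
def fsz (c : Fin n → X) (x : X) : ℕ := (univ.filter fun i => c i = x).card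

lemma exists_col (C : X → ℕ) (hC : ∑ x, C x = n) : ∃ c : Fin n → X, ∀ x, fsz c x = C x := by
  have hcard : Fintype.card (Fin n) = Fintype.card (Σ x, Fin (C x)) := by
    rw [Fintype.card_sigma]
    simp [hC]
  let e : Fin n ≃ Σ x, Fin (C x) := Fintype.equivOfCardEq hcard
  refine ⟨fun i => (e i).1, fun x => ?_⟩
  unfold fsz
  rw [← Fintype.card_subtype]
  have e2 : {i // (e i).1 = x} ≃ Fin (C x) :=
    (e.subtypeEquiv (fun i => Iff.rfl) : {i // (e i).1 = x} ≃ {y : Σ x, Fin (C x) // y.1 = x}).trans
      (Equiv.sigmaSubtype x)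
  rw [Fintype.card_congr e2, Fintype.card_fin]

lemma exists_perm_fsz {c c0 : Fin n → X} (h : ∀ x, fsz c x = fsz c0 x) :
    ∃ τ : Equiv.Perm (Fin n), c0 ∘ τ = c := by
  have e : ∀ x, Nonempty ({i // c i = x} ≃ {i // c0 i = x}) := fun x =>
    ⟨Fintype.equivOfCardEq (by rw [Fintype.card_subtype, Fintype.card_subtype]; exact h x)⟩
  exact ⟨Equiv.ofFiberEquiv (fun x => (e x).some),
    funext (Equiv.ofFiberEquiv_map (fun x => (e x).some))⟩

lemma fsz_comp (c : Fin n → X) (τ : Equiv.Perm (Fin n)) (x : X) : fsz (c ∘ τ) x = fsz c x := by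
  unfold fsz
  apply Finset.card_bij (fun i _ => τ i)
  · intro i hi
    simpa using hi
  · intro i _ j _ hij
    exact τ.injective hij
  · intro j hj
    exact ⟨τ.symm j, by simpa using hj, by simp⟩

lemma sum_stab (C : X → ℕ) (hC : ∑ x, C x = n) :
    ∑ c ∈ univ.filter (fun c : Fin n → X => ∀ x, fsz c x = C x),
      (univ.filter fun σ : Equiv.Perm (Fin n) => c ∘ σ = c).card = n.factorial := by
  obtain ⟨c0, hc0⟩ := exists_col C hC
  have h1 : ∀ c ∈ univ.filter (fun c : Fin n → X => ∀ x, fsz c x = C x),
      (univ.filter fun σ : Equiv.Perm (Fin n) => c ∘ σ = c).card =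
      (univ.filter fun τ : Equiv.Perm (Fin n) => c0 ∘ τ = c).card := by
    intro c hc
    obtain ⟨τ, hτ⟩ := exists_perm_fsz (c := c) (c0 := c0)
      (fun x => by rw [(mem_filter.1 hc).2, hc0])
    apply Finset.card_bij (fun σ _ => τ * σ)
    · intro σ hσ
      have hσ' : c ∘ σ = c := (mem_filter.1 hσ).2
      refine mem_filter.2 ⟨mem_univ _, ?_⟩
      rw [Equiv.Perm.coe_mul, ← Function.comp_assoc, hτ, hσ']
    · intro σ _ σ' _ h
      exact mul_left_cancel h
    · intro ρ hρ
      have hρ' : c0 ∘ ρ = c := (mem_filter.1 hρ).2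
      refine ⟨τ⁻¹ * ρ, mem_filter.2 ⟨mem_univ _, ?_⟩, by group⟩
      rw [← hτ, Equiv.Perm.coe_mul, ← Function.comp_assoc, Function.comp_assoc c0,
        ← Equiv.Perm.coe_mul, mul_inv_cancel, Equiv.Perm.coe_one, Function.comp_id, hρ', hτ]
  rw [Finset.sum_congr rfl h1]
  have h2 := Finset.card_eq_sum_card_fiberwise (f := fun τ : Equiv.Perm (Fin n) => c0 ∘ τ)
    (s := univ) (t := univ.filter (fun c : Fin n → X => ∀ x, fsz c x = C x)) (by
      intro τ _
      simp only [coe_filter, mem_univ, true_and, Set.mem_ofPred_eq]
      intro x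
      rw [fsz_comp, hc0])
  rw [← h2, card_univ, Fintype.card_perm, Fintype.card_fin]

end gen

section marg

variable {n r : ℕ} (c : Fin n → Fin r × Fin r × Fin 2)

lemma card_marg1 (i : Fin r) : (univ.filter fun x => (c x).1 = i).card =
    ∑ j, (fsz c (i, j, 0) + fsz c (i, j, 1)) := by
  unfold fsz
  simp only [card_filter]
  simp only [← sum_add_distrib]
  rw [sum_comm]
  apply sum_congr rfl
  intro x _
  obtain ⟨a, b, l⟩ := c x
  simp only [Prod.mk.injEq]
  fin_cases l <;> by_cases h : a = i <;> simp [h]

lemma card_marg2 (j : Fin r) : (univ.filter fun x => (c x).2.1 = j).card =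
    ∑ i, (fsz c (i, j, 0) + fsz c (i, j, 1)) := by
  unfold fsz
  simp only [card_filter]
  simp only [← sum_add_distrib]
  rw [sum_comm]
  apply sum_congr rfl
  intro x _
  obtain ⟨a, b, l⟩ := c x
  simp only [Prod.mk.injEq]
  fin_cases l <;> by_cases h : b = j <;> simp [h]

lemma card_marg3 : (univ.filter fun x => (c x).2.2 = 1).card =
    ∑ i, ∑ j, fsz c (i, j, 1) := by
  unfold fsz
  simp only [card_filter]
  have h1 : ∀ i : Fin r, ∑ j, ∑ x, (if c x = (i, j, 1) then 1 else 0) =
      ∑ x, ∑ j, (if c x = (i, j, 1) then 1 else 0) := fun i => sum_comm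
  simp only [h1]
  rw [sum_comm]
  apply sum_congr rfl
  intro x _
  obtain ⟨a, b, l⟩ := c x
  simp only [Prod.mk.injEq]
  fin_cases l <;> simp [ite_and]

lemma card_marg4 : (univ.filter fun x => (c x).2.2 = 0).card +
    (univ.filter fun x => (c x).2.2 = 1).card = n := by
  have h1 := Finset.card_filter_add_card_filter_not (s := (univ : Finset (Fin n)))
    (fun x => (c x).2.2 = 0)
  rw [card_univ, Fintype.card_fin] at h1
  have h2 : (univ.filter fun x => ¬ (c x).2.2 = 0) = univ.filter fun x => (c x).2.2 = 1 := by
    apply filter_congr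
    intro x _
    have : ∀ l : Fin 2, ¬ l = 0 ↔ l = 1 := by decide
    exact this _
  rw [h2] at h1
  exact h1

end marg

theorem burnside {n r : ℕ} (k : ℕ) (hk : k ≤ n) (η θ : Fin r → ℤ) (hη : ∑ i, η i = n) :
    ∑ σ : Equiv.Perm (Fin n), fixc σ η * fixc σ θ * fixc σ ![(n : ℤ) - k, (k : ℤ)] =
      n.factorial * cT n k η θ := by
  classical
  let good : (Fin n → Fin r × Fin r × Fin 2) → Prop := fun c =>
    (∀ i, ((univ.filter fun x => (c x).1 = i).card : ℤ) = η i) ∧
    (∀ i, ((univ.filter fun x => (c x).2.1 = i).card : ℤ) = θ i) ∧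
    (∀ i, ((univ.filter fun x => (c x).2.2 = i).card : ℤ) =
      (![(n : ℤ) - k, (k : ℤ)] : Fin 2 → ℤ) i)
  have h1 : ∀ σ : Equiv.Perm (Fin n), fixc σ η * fixc σ θ * fixc σ ![(n : ℤ) - k, (k : ℤ)] =
      ((univ.filter good).filter fun c => c ∘ σ = c).card := by
    intro σ
    unfold fixc
    rw [mul_assoc, ← card_product, ← card_product]
    apply Finset.card_nbij' (fun t => fun i => (t.1 i, t.2.1 i, t.2.2 i))
      (fun c => (fun i => (c i).1, fun i => (c i).2.1, fun i => (c i).2.2))
    · intro t ht
      simp only [coe_product, coe_filter, mem_univ, true_and, Set.mem_prod,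
        Set.mem_ofPred_eq] at ht
      obtain ⟨⟨a1, a2⟩, ⟨b1, b2⟩, c1, c2⟩ := ht
      simp only [coe_filter, mem_filter, mem_univ, true_and, Set.mem_ofPred_eq]
      refine ⟨⟨a2, b2, c2⟩, ?_⟩
      funext i
      simp only [Function.comp_apply, a1, b1, c1]
    · intro c hc
      simp only [coe_filter, mem_filter, mem_univ, true_and, Set.mem_ofPred_eq] at hc
      obtain ⟨⟨a2, b2, c2⟩, h⟩ := hc
      simp only [coe_product, coe_filter, mem_univ, true_and, Set.mem_prod,
        Set.mem_ofPred_eq]
      have h' : ∀ i, c (σ i) = c i := fun i => congrFun h i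
      refine ⟨⟨fun x => by rw [h'], a2⟩, ⟨fun x => by rw [h'], b2⟩, fun x => by rw [h'], c2⟩
    · intro t _
      rfl
    · intro c _
      rfl
  rw [sum_congr rfl fun σ _ => h1 σ]
  have h2 := Finset.sum_card_bipartiteAbove_eq_sum_card_bipartiteBelow
    (s := (univ : Finset (Equiv.Perm (Fin n)))) (t := univ.filter good)
    (fun (σ : Equiv.Perm (Fin n)) (c : Fin n → Fin r × Fin r × Fin 2) => c ∘ σ = c)
  unfold Finset.bipartiteAbove Finset.bipartiteBelow at h2
  rw [h2]
  set T := ((Mats r n ×ˢ Mats r n).filter fun p => Marg p.1 p.2 η θ ∧ ∑ i, ∑ j, p.2 i j = k)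
    with hT
  let Φ : (Fin n → Fin r × Fin r × Fin 2) → (Fin r → Fin r → ℕ) × (Fin r → Fin r → ℕ) :=
    fun c => (fun i j => fsz c (i, j, 0), fun i j => fsz c (i, j, 1))
  have hmaps : ∀ c ∈ univ.filter good, Φ c ∈ T := by
    intro c hc
    obtain ⟨a2, b2, c2⟩ := (mem_filter.1 hc).2
    have hle : ∀ x, fsz c x ≤ n := by
      intro x
      unfold fsz
      exact (card_le_univ _).trans (by rw [Fintype.card_fin])
    rw [hT, mem_filter, mem_product]
    refine ⟨⟨?_, ?_⟩, ⟨?_, ?_⟩, ?_⟩
    · simp only [Mats, Fintype.mem_piFinset, mem_range, Φ]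
      intro i j
      exact Nat.lt_succ_of_le (hle _)
    · simp only [Mats, Fintype.mem_piFinset, mem_range, Φ]
      intro i j
      exact Nat.lt_succ_of_le (hle _)
    · intro i
      rw [← a2 i, card_marg1]
    · intro j
      rw [← b2 j, card_marg2]
    · have h3 := c2 1
      rw [card_marg3] at h3
      simp only [Matrix.cons_val_one, Matrix.cons_val_zero, Matrix.cons_val_fin_one] at h3
      exact_mod_cast h3
  rw [← Finset.sum_fiberwise_of_maps_to hmaps]
  have h4 : ∀ AB ∈ T, ∑ c ∈ (univ.filter good).filter (fun c => Φ c = AB),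
      (univ.filter fun σ : Equiv.Perm (Fin n) => c ∘ σ = c).card = n.factorial := by
    rintro ⟨A, B⟩ hAB
    rw [hT, mem_filter, mem_product] at hAB
    obtain ⟨-, ⟨m1, m2⟩, hB⟩ := hAB
    simp only at m1 m2 hB
    let C : Fin r × Fin r × Fin 2 → ℕ := fun x => if x.2.2 = 0 then A x.1 x.2.1 else B x.1 x.2.1
    have hC : ∑ x, C x = n := by
      have h5 : ∑ x, C x = ∑ i, ∑ j, (A i j + B i j) := by
        rw [Fintype.sum_prod_type]
        apply sum_congr rfl
        intro i _
        rw [Fintype.sum_prod_type]
        apply sum_congr rfl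
        intro j _
        rw [Fin.sum_univ_two]
        simp [C]
      rw [h5]
      have h6 : ((∑ i, ∑ j, (A i j + B i j) : ℕ) : ℤ) = n := by
        rw [← hη]
        push_cast
        apply sum_congr rfl
        intro i _
        have := m1 i
        push_cast at this
        exact this
      exact_mod_cast h6
    have hset : (univ.filter good).filter (fun c => Φ c = (A, B)) =
        univ.filter (fun c : Fin n → Fin r × Fin r × Fin 2 => ∀ x, fsz c x = C x) := by
      ext c
      simp only [mem_filter, mem_univ, true_and]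
      constructor
      · rintro ⟨-, h⟩ ⟨i, j, l⟩
        have e1 : ∀ i j, fsz c (i, j, 0) = A i j := fun i j => congrFun (congrFun (congrArg Prod.fst h) i) j
        have e2 : ∀ i j, fsz c (i, j, 1) = B i j := fun i j => congrFun (congrFun (congrArg Prod.snd h) i) j
        fin_cases l
        · simpa [C] using e1 i j
        · simpa [C] using e2 i j
      · intro h
        have e1 : ∀ i j, fsz c (i, j, 0) = A i j := fun i j => by rw [h]; simp [C]
        have e2 : ∀ i j, fsz c (i, j, 1) = B i j := fun i j => by rw [h]; simp [C]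
        have hk1 : (univ.filter fun x => (c x).2.2 = 1).card = k := by
          rw [card_marg3]
          simp only [e2]
          exact hB
        refine ⟨⟨?_, ?_, ?_⟩, ?_⟩
        · intro i
          rw [card_marg1]
          simp only [e1, e2]
          exact m1 i
        · intro j
          rw [card_marg2]
          simp only [e1, e2]
          exact m2 j
        · intro l
          have h7 := card_marg4 c
          rw [hk1] at h7
          fin_cases l
          · have h8 : (univ.filter fun x => (c x).2.2 = 0).card = n - k := by omega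
            simp only [Fin.zero_eta, Matrix.cons_val_zero]
            rw [h8]
            push_cast [hk]
            rfl
          · simp only [Fin.mk_one, Matrix.cons_val_one, Matrix.cons_val_fin_one]
            rw [hk1]
        · exact Prod.ext (funext fun i => funext fun j => e1 i j)
            (funext fun i => funext fun j => e2 i j)
    rw [hset]
    exact sum_stab C hC
  rw [sum_congr rfl h4, sum_const, smul_eq_mul, mul_comm]
  unfold cT
  rw [← hT]

end Pool.Agent.H18.KR
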