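import Pool.Agent.H18.KR.CfB

/-!
# Module Cen (about 80 lines). Centred weights.

`gh s P a = s^(-(P a)) gb (s²) P a`. So `∏ gb = ∏ s^(P a) gh`, and the total exponent is
`EE G m + Σ_k Σ_i Pv_k(i+1) m_k(i)`, where `Σ_i Pv_k(i+1) m_k(i) = N k sz (m k) - 2 fm (m k) (m k)
+ fm (m k) (nbs G m k)` (definitions of `Pv`, `sz`, `fm`), so it is `Σ_k N k sz (m k)`.
(`Finsupp.sum` and `Finsupp.prod` unfold to sums and products over the support; `Finset.prod_zpow`-like
lemma: `∏ s^(e i) = s^(Σ e i)`, by induction with `zpow_add₀`.)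
-/

set_option autoImplicit false

namespace Pool.Agent.H18.KR

open Finset

variable {I : Type} [Fintype I] [DecidableEq I] (G : SimpleGraph I) [DecidableRel G.Adj]
variable {F : Type} [Field F] {s : F}

omit [Fintype I] [DecidableEq I] in
private lemma prod_zpow_eq (hs0 : s ≠ 0) (t : Finset I) (e : I → ℤ) :
    ∏ i ∈ t, s ^ e i = s ^ ∑ i ∈ t, e i := by
  classical
  induction t using Finset.induction_on with
  | empty => simp
  | insert i t hi ih => rw [Finset.prod_insert hi, Finset.sum_insert hi, ih, zpow_add₀ hs0]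

private lemma expo (N : I → ℕ) (m : Cf I) (k : I) :
    ((m k).support.sum fun i => Pv G N m k (i + 1) * ((m k) i : ℤ)) =
      (N k : ℤ) * (sz (m k) : ℤ) - (2 * (fm (m k) (m k) : ℤ) - (fm (m k) (nbs G m k) : ℤ)) := by
  unfold sz fm Finsupp.sum
  push_cast
  rw [Finset.mul_sum, Finset.mul_sum, ← Finset.sum_sub_distrib, ← Finset.sum_sub_distrib]
  refine Finset.sum_congr rfl fun i _ => ?_
  unfold Pv
  push_cast
  ring

theorem wt_eq (N : I → ℕ) (hs0 : s ≠ 0) (m : Cf I) :
    wt G N s m = s ^ (∑ k, (N k : ℤ) * (sz (m k) : ℤ)) *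
      ∏ k, (m k).prod fun i a => gh s (Pv G N m k (i + 1)) a := by
  have h1 : ∀ k, ((m k).prod fun i a => gb (s ^ 2) (Pv G N m k (i + 1)) a) =
      s ^ ((m k).support.sum fun i => Pv G N m k (i + 1) * ((m k) i : ℤ)) *
        (m k).prod fun i a => gh s (Pv G N m k (i + 1)) a := by
    intro k
    rw [← prod_zpow_eq hs0]
    unfold Finsupp.prod
    rw [← Finset.prod_mul_distrib]
    refine Finset.prod_congr rfl fun i _ => ?_
    unfold gh
    rw [← mul_assoc, ← zpow_add₀ hs0, add_neg_cancel, zpow_zero, one_mul]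
  unfold wt
  rw [Finset.prod_congr rfl fun k _ => h1 k, Finset.prod_mul_distrib, ← mul_assoc,
    prod_zpow_eq hs0, ← zpow_add₀ hs0]
  congr 2
  unfold EE
  rw [← Finset.sum_add_distrib]
  refine Finset.sum_congr rfl fun k _ => ?_
  rw [expo]
  ring

end Pool.Agent.H18.KR
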