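import Pool.Agent.H18.KR.StrB

/-!
# Module CfB (about 150 lines). Changing the strings at one node.

`nbs G m k = Σ_{l adjacent to k} m l`. Only the values at neighbours of `k` occur, and `k` is not its
own neighbour.

`EE_update`: `EE G m' = Σ_l (2 fm (m' l) (m' l) - fm (m' l) (nbs G m' l))`. For `m' = update m k α`
compared with `update m k 0`: the term `l = k` is `2 fm α α - fm α (nbs G m k)` instead of `0`; a term
`l` adjacent to `k` decreases by `fm (m l) α` (`nbs_update_adj`, `fm_add_right`), in total by
`fm (nbs G m k) α` (`fm_sum_left`); the others do not change. `fm_comm`.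
-/

set_option autoImplicit false

namespace Pool.Agent.H18.KR

open Finset

variable {I : Type} [Fintype I] [DecidableEq I] {G : SimpleGraph I} [DecidableRel G.Adj]
variable {N : I → ℕ}

theorem nbs_update_adj (m : Cf I) {k l : I} (h : G.Adj l k) (α : Str) :
    nbs G (Function.update m k α) l = nbs G (Function.update m k 0) l + α := by
  unfold nbs
  have hk : k ∈ univ.filter (fun i => G.Adj l i) := mem_filter.2 ⟨mem_univ k, h⟩
  have h1 : ∀ β : Str, ∑ i ∈ (univ.filter (fun i => G.Adj l i)).erase k,
      Function.update m k β i = ∑ i ∈ (univ.filter (fun i => G.Adj l i)).erase k, m i :=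
    fun β => Finset.sum_congr rfl fun i hi => Function.update_of_ne (Finset.ne_of_mem_erase hi) _ _
  rw [← Finset.add_sum_erase _ _ hk, ← Finset.add_sum_erase _ (Function.update m k 0) hk, h1, h1,
    Function.update_self, Function.update_self, zero_add, add_comm]

theorem nbs_update_not (m : Cf I) {k l : I} (h : ¬ G.Adj l k) (α : Str) :
    nbs G (Function.update m k α) l = nbs G m l := by
  unfold nbs
  refine Finset.sum_congr rfl fun i hi => Function.update_of_ne ?_ _ _
  rintro rfl
  exact h (mem_filter.1 hi).2

theorem nbs_update_self (m : Cf I) (k : I) (α : Str) :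
    nbs G (Function.update m k α) k = nbs G m k :=
  nbs_update_not m (G.irrefl) α

theorem EE_update (m : Cf I) (k : I) (α : Str) :
    EE G (Function.update m k α) =
      EE G (Function.update m k 0) + 2 * ((fm α α : ℤ) - (fm (nbs G m k) α : ℤ)) := by
  have key : ∀ l : I,
      (2 * (fm (Function.update m k α l) (Function.update m k α l) : ℤ) -
        (fm (Function.update m k α l) (nbs G (Function.update m k α) l) : ℤ)) =
      (2 * (fm (Function.update m k 0 l) (Function.update m k 0 l) : ℤ) -
        (fm (Function.update m k 0 l) (nbs G (Function.update m k 0) l) : ℤ)) +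
      (if l = k then 2 * (fm α α : ℤ) - (fm (nbs G m k) α : ℤ) else 0) -
      (if G.Adj k l then (fm (m l) α : ℤ) else 0) := by
    intro l
    by_cases hl : l = k
    · subst hl
      rw [Function.update_self, Function.update_self, nbs_update_self, nbs_update_self,
        if_pos rfl, if_neg G.irrefl, fm_zero_left, fm_zero_left, fm_comm α (nbs G m l)]
      push_cast
      ring
    · rw [Function.update_of_ne hl, Function.update_of_ne hl, if_neg hl]
      by_cases ha : G.Adj k l
      · rw [nbs_update_adj m ha.symm α, fm_add_right, if_pos ha]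
        push_cast
        ring
      · have ha' : ¬ G.Adj l k := fun h => ha h.symm
        rw [nbs_update_not m ha' α, nbs_update_not m ha' 0, if_neg ha]
        ring
  have h2 : ∑ l : I, (if G.Adj k l then (fm (m l) α : ℤ) else 0) = (fm (nbs G m k) α : ℤ) := by
    unfold nbs
    rw [fm_sum_left, ← Finset.sum_filter]
    push_cast
    rfl
  unfold EE
  rw [Finset.sum_congr rfl fun l _ => key l, Finset.sum_sub_distrib, Finset.sum_add_distrib, h2,
    Finset.sum_ite_eq' univ k, if_pos (mem_univ k)]
  ring

theorem Pv_update_self (m : Cf I) (k : I) (α : Str) (w : ℕ) :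
    Pv G N (Function.update m k α) k w =
      (N k : ℤ) * w - 2 * (Qw α w : ℤ) + (Qw (nbs G m k) w : ℤ) := by
  unfold Pv
  rw [nbs_update_self, Function.update_self]

theorem Pv_update_adj (m : Cf I) {k l : I} (h : G.Adj l k) (α : Str) (w : ℕ) :
    Pv G N (Function.update m k α) l w = Pv G N (Function.update m k 0) l w + (Qw α w : ℤ) := by
  have hl : l ≠ k := G.ne_of_adj h
  unfold Pv
  rw [nbs_update_adj m h, Function.update_of_ne hl, Function.update_of_ne hl, Qw_add]
  push_cast
  ring

theorem Pv_update_not (m : Cf I) {k l : I} (h : ¬ G.Adj l k) (hl : l ≠ k) (α : Str) (w : ℕ) :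
    Pv G N (Function.update m k α) l w = Pv G N m l w := by
  unfold Pv
  rw [nbs_update_not m h, Function.update_of_ne hl]

theorem sz_nbs (m : Cf I) (k : I) : sz (nbs G m k) = nbd G (fun l => sz (m l)) k := by
  unfold nbs nbd
  exact sz_sum _ _

theorem nbd_congr {d d' : I → ℕ} {k : I} (h : ∀ l, l ≠ k → d l = d' l) :
    nbd G d k = nbd G d' k := by
  unfold nbd
  exact Finset.sum_congr rfl fun l hl => h l (G.ne_of_adj (mem_filter.1 hl).2).symm

theorem mem_Cfg {d : I → ℕ} {m : Cf I} : m ∈ Cfg d ↔ ∀ k, sz (m k) = d k := by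
  unfold Cfg
  rw [Fintype.mem_piFinset]
  exact forall_congr' fun k => mem_Pd

theorem Pv_w0 (m : Cf I) (k : I) : Pv G N m k 0 = 0 := by
  simp [Pv, Qw]

/-- for `w` at least all widths -/
theorem Pv_large {d : I → ℕ} {m : Cf I} (hm : m ∈ Cfg d) (k : I) {w : ℕ} (hw : ∀ l, d l ≤ w) :
    Pv G N m k w = (N k : ℤ) * w - 2 * (d k : ℤ) + (nbd G d k : ℤ) := by
  have hm' := mem_Cfg.1 hm
  have h1 : ∀ l, Qw (m l) w = d l := by
    intro l
    rw [Qw_eq_sz, hm' l]
    intro i hi
    have h2 := le_sz hi
    have h3 := hw l
    rw [hm' l] at h2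
    omega
  have h4 : Qw (nbs G m k) w = nbd G d k := by
    unfold nbs nbd
    rw [Qw_sum]
    exact Finset.sum_congr rfl fun l _ => h1 l
  unfold Pv
  rw [h1, h4]

end Pool.Agent.H18.KR
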