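import Pool.Agent.H18.KR.StrO

/-!
# Module CfgG (about 120 lines). Bounds for the items of a configuration.

All blocks have length at most `R + 1`, so `zk Y k` has length at most `R` (also for `k` beyond the
length of `Y`). The items are `(vac2 - 2 Ql, z.count w)`, `w ∈ distinct z`, `z = zk Y k`, `k < 2L + 1`.
* `1 ≤ z.count w ≤ z.length ≤ R`.
* `pot`: `2 count - 1 ≤ 2 count`, and `Σ_w count w ≤ R` (`sum_count_le`).
* `Phi`: `vac2 L Y k w ≤ 3 w + n + n ≤ 5 n` as `Ql z' w ≤ z'.sum ≤ n` (`Ql_le_sum`), `w ≤ z.sum ≤ n`; so the sum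
  over the items at `k` is at most `5 n Σ_w count w ≤ 5 n R`. Here `(zk Y k).sum ≤ n` for all `k` is a
  hypothesis for `k < 2L+1`; the block `k - 1` of `Y` occurs as entry `k` of `[] :: Y`; the block `2L + 1`
  occurs for `k = 2L` and is `[]` as the length of `Y` is at most `2L + 1`.
-/

set_option autoImplicit false

namespace Pool.Agent.H18.KR

open Finset

private lemma zk_len {R : ℕ} {Y : List (List ℕ)} (hY : ∀ y ∈ Y, y.length ≤ R + 1) (k : ℕ) :
    (zk Y k).length ≤ R := by
  unfold zk
  rw [List.length_tail]
  by_cases hk : k < Y.length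
  · rw [List.getD_eq_getElem _ _ hk]
    have := hY _ (List.getElem_mem hk)
    omega
  · rw [List.getD_eq_default _ _ (by omega)]
    simp

private lemma flat_le {f : ℕ → List (ℕ × ℕ)} {g : ℕ × ℕ → ℕ} {B : ℕ} (l : List ℕ)
    (h : ∀ k ∈ l, ((f k).map g).sum ≤ B) : ((l.flatMap f).map g).sum ≤ l.length * B := by
  induction l with
  | nil => simp
  | cons a l ih =>
    rw [List.flatMap_cons, List.map_append, List.sum_append, List.length_cons]
    have h1 := h a List.mem_cons_self
    have h2 := ih fun k hk => h k (List.mem_cons_of_mem _ hk)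
    calc _ ≤ B + l.length * B := Nat.add_le_add h1 h2
      _ = (l.length + 1) * B := by ring

private lemma sum_le_sum {α : Type} (l : List α) {f g : α → ℕ} (h : ∀ x ∈ l, f x ≤ g x) :
    (l.map f).sum ≤ (l.map g).sum := by
  induction l with
  | nil => simp
  | cons a l ih =>
    rw [List.map_cons, List.map_cons, List.sum_cons, List.sum_cons]
    exact Nat.add_le_add (h a List.mem_cons_self) (ih fun x hx => h x (List.mem_cons_of_mem _ hx))

private lemma sum_mul {α : Type} (l : List α) (c : ℕ) (f : α → ℕ) :
    (l.map fun x => c * f x).sum = c * (l.map f).sum := by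
  induction l with
  | nil => simp
  | cons a l ih => rw [List.map_cons, List.map_cons, List.sum_cons, List.sum_cons, ih, mul_add]

theorem cfg_good (L R : ℕ) (Y : List (List ℕ)) (hY : ∀ y ∈ Y, y.length ≤ R + 1) :
    Good R (cfgItems L Y, 0) := by
  intro x hx
  have hx' : x ∈ (List.range (2 * L + 1)).flatMap fun k => items (vac2 L Y k) (zk Y k) := hx
  rw [List.mem_flatMap] at hx'
  obtain ⟨k, -, hk⟩ := hx'
  unfold items at hk
  rw [List.mem_map] at hk
  obtain ⟨w, hw, rfl⟩ := hk
  have hw1 := (mem_distinct.1 hw).1
  exact ⟨List.count_pos_iff.2 hw1, (List.count_le_length).trans (zk_len hY k)⟩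

theorem cfg_pot (L R : ℕ) (Y : List (List ℕ)) (hY : ∀ y ∈ Y, y.length ≤ R + 1) :
    pot (cfgItems L Y, 0) ≤ 2 * (2 * L + 1) * R := by
  have h := flat_le (f := fun k => items (vac2 L Y k) (zk Y k)) (g := fun x => 2 * x.2 - 1)
    (B := 2 * R) (List.range (2 * L + 1)) (fun k _ => by
      unfold items
      rw [List.map_map]
      calc _ ≤ ((distinct (zk Y k)).map fun w => 2 * (zk Y k).count w).sum :=
            sum_le_sum _ fun w _ => by
              change 2 * (zk Y k).count w - 1 ≤ _
              omega
        _ = 2 * ((distinct (zk Y k)).map fun w => (zk Y k).count w).sum := sum_mul _ 2 _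
        _ ≤ 2 * R := Nat.mul_le_mul_left _ ((sum_count_le _).trans (zk_len hY k)))
  rw [List.length_range] at h
  calc pot (cfgItems L Y, 0) ≤ (2 * L + 1) * (2 * R) := h
    _ = 2 * (2 * L + 1) * R := by ring

theorem cfg_phi (L R n : ℕ) (Y : List (List ℕ)) (hY : ∀ y ∈ Y, y.length ≤ R + 1)
    (hl : Y.length ≤ 2 * L + 1) (hn : ∀ k < 2 * L + 1, (zk Y k).sum ≤ n) :
    Phi (cfgItems L Y, 0) ≤ 5 * n * ((2 * L + 1) * R) := by
  have h := flat_le (f := fun k => items (vac2 L Y k) (zk Y k)) (g := fun x => x.1 * x.2)
    (B := 5 * n * R) (List.range (2 * L + 1)) (fun k hk => by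
      rw [List.mem_range] at hk
      unfold items
      rw [List.map_map]
      calc _ ≤ ((distinct (zk Y k)).map fun w => 5 * n * (zk Y k).count w).sum :=
            sum_le_sum _ fun w hw => by
              change (vac2 L Y k w - 2 * Ql (zk Y k) w) * (zk Y k).count w ≤ _
              refine Nat.mul_le_mul_right _ ((Nat.sub_le _ _).trans ?_)
              have hw1 : w ≤ n := (le_Ql (mem_distinct.1 hw).1).trans
                ((Ql_le_sum _ _).trans (hn k hk))
              have h1 : Ql (((([] : List ℕ) :: Y).getD k []).tail) w ≤ n := by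
                refine (Ql_le_sum _ _).trans ?_
                cases k with
                | zero => simp
                | succ k =>
                  rw [List.getD_cons_succ]
                  exact hn k (by omega)
              have h2 : Ql (zk Y (k + 1)) w ≤ n := by
                refine (Ql_le_sum _ _).trans ?_
                by_cases hk2 : k + 1 < 2 * L + 1
                · exact hn _ hk2
                · unfold zk
                  rw [List.getD_eq_default _ _ (by omega)]
                  simp
              unfold vac2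
              split_ifs <;> omega
        _ = 5 * n * ((distinct (zk Y k)).map fun w => (zk Y k).count w).sum := sum_mul _ _ _
        _ ≤ 5 * n * R := Nat.mul_le_mul_left _ ((sum_count_le _).trans (zk_len hY k)))
  rw [List.length_range] at h
  have e : Phi (cfgItems L Y, 0) =
      ((cfgItems L Y).map fun x => x.1 * x.2).sum := by
    unfold Phi
    simp
  rw [e]
  calc _ ≤ (2 * L + 1) * (5 * n * R) := h
    _ = 5 * n * ((2 * L + 1) * R) := by ring

end Pool.Agent.H18.KR
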