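import Pool.Agent.H18.KR.CfB

/-!
# Module CntB (about 120 lines). An admissible configuration has few strings.

Path with `2L + 1` nodes, source `3` at the centre. Let `c k = cnt (m k) = Qw (m k) 1` (`Qw_one`),
and `c (-1) = c (2L+1) = 0`. The vacancy numbers of width one: for `k ≠ L`
`2 c k ≤ c (k-1) + c (k+1)`, and `2 c L ≤ c (L-1) + c (L+1) + 3`. So the differences
`δ k = c k - c (k-1)` (`k = 0, …, 2L+1`, integers) are nondecreasing for `k ≤ L` and nondecreasing
for `k ≥ L+1`, and `δ L - δ (L+1) ≤ 3`. Hence `c L = Σ_{k ≤ L} δ k ≤ (L+1) δ L` and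
`c L = - Σ_{k > L} δ k ≤ - (L+1) δ (L+1)`, so `2 c L ≤ (L+1) (δ L - δ (L+1)) ≤ 3 (L+1)`, so
`c L ≤ 2 (L+1)`. For `k < L`: `c k ≤ c L`: if `δ L ≤ 0` then all `δ k ≤ 0` for `k ≤ L`, so all
`c k = 0` for `k ≤ L`; otherwise, as the `δ` are nondecreasing, `c` is first nonincreasing and then
nondecreasing on `[-1, L]`, so its maximum is `c (-1) = 0` or `c L`. (Or: `c k ≤ max (c (k-1)) (c (k+1))`
and the maximum principle.) The same for `k > L`.
A simple way: let `M` be the maximum of the `c k`; by the maximum principle (convexity off the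
centre, zero at both ends) it is attained at `L`.
-/

set_option autoImplicit false

namespace Pool.Agent.H18.KR

open Finset

/-- discrete maximum principle -/
private theorem cb_max (N : ℕ) (g : ℕ → ℤ) (h0 : g 0 ≤ 0) (hN : g N ≤ 0)
    (hc : ∀ j, 0 < j → j < N → 2 * g j ≤ g (j - 1) + g (j + 1)) : ∀ j, j ≤ N → g j ≤ 0 := by
  classical
  intro j0 hj0
  by_contra hpos
  rw [not_le] at hpos
  obtain ⟨a, ha, hmax⟩ := Finset.exists_max_image (range (N + 1)) g ⟨j0, mem_range.2 (by omega)⟩
  have hex : ∃ i, i ≤ N ∧ g i = g a := ⟨a, by have := mem_range.1 ha; omega, rfl⟩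
  obtain ⟨hb1, hb2⟩ := Nat.find_spec hex
  set b := Nat.find hex with hb
  have hga : g j0 ≤ g a := hmax j0 (mem_range.2 (by omega))
  have hb0 : b ≠ 0 := by
    intro h
    rw [h] at hb2
    omega
  have hbN : b ≠ N := by
    intro h
    rw [h] at hb2
    omega
  have h1 := hc b (Nat.pos_of_ne_zero hb0) (lt_of_le_of_ne hb1 hbN)
  have h2 : g (b - 1) ≤ g a := hmax _ (mem_range.2 (by omega))
  have h3 : g (b + 1) ≤ g a := hmax _ (mem_range.2 (by omega))
  have h4 : g (b - 1) ≠ g a := by
    intro h
    exact Nat.find_min hex (m := b - 1) (by omega) ⟨by omega, h⟩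
  have h5 : g (b - 1) < g a := lt_of_le_of_ne h2 h4
  omega

/-- the number of strings at the node `j - 1`, zero outside of the path -/
private noncomputable def cbf (L : ℕ) (m : Cf (Fin (2 * L + 1))) (j : ℕ) : ℤ :=
  if h : 1 ≤ j ∧ j ≤ 2 * L + 1 then (cnt (m ⟨j - 1, by omega⟩) : ℤ) else 0

private theorem cbf_nonneg (L : ℕ) (m : Cf (Fin (2 * L + 1))) (j : ℕ) : 0 ≤ cbf L m j := by
  unfold cbf
  split
  · exact Int.natCast_nonneg _
  · exact le_refl _

private theorem cbf_succ (L : ℕ) (m : Cf (Fin (2 * L + 1))) (k : Fin (2 * L + 1)) :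
    cbf L m (k.val + 1) = (cnt (m k) : ℤ) := by
  unfold cbf
  rw [dif_pos ⟨by omega, by have := k.isLt; omega⟩]
  rfl

private theorem cb_nb (L : ℕ) (m : Cf (Fin (2 * L + 1))) (k : Fin (2 * L + 1)) :
    (Qw (nbs (PG (2 * L + 1)) m k) 1 : ℤ) ≤ cbf L m k.val + cbf L m (k.val + 2) := by
  classical
  unfold nbs
  rw [Qw_sum, Nat.cast_sum]
  have hsub : univ.filter (fun l => (PG (2 * L + 1)).Adj k l) ⊆
      univ.filter (fun l : Fin (2 * L + 1) => l.val + 1 = k.val) ∪
        univ.filter (fun l : Fin (2 * L + 1) => k.val + 1 = l.val) := by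
    intro l hl
    rcases (mem_filter.1 hl).2 with h | h
    · exact mem_union_right _ (mem_filter.2 ⟨mem_univ _, h⟩)
    · exact mem_union_left _ (mem_filter.2 ⟨mem_univ _, h⟩)
  have hd : Disjoint (univ.filter (fun l : Fin (2 * L + 1) => l.val + 1 = k.val))
      (univ.filter (fun l : Fin (2 * L + 1) => k.val + 1 = l.val)) := by
    rw [disjoint_filter]
    intro l _ h1 h2
    omega
  refine (sum_le_sum_of_subset_of_nonneg hsub fun l _ _ => Int.natCast_nonneg _).trans ?_
  rw [sum_union hd]
  refine add_le_add ?_ ?_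
  · by_cases h0 : k.val = 0
    · rw [sum_eq_zero]
      · exact cbf_nonneg _ _ _
      · intro l hl
        have := (mem_filter.1 hl).2
        omega
    · have hlt : k.val - 1 < 2 * L + 1 := by have := k.isLt; omega
      have hset : univ.filter (fun l : Fin (2 * L + 1) => l.val + 1 = k.val) ⊆
          {(⟨k.val - 1, hlt⟩ : Fin (2 * L + 1))} := by
        intro l hl
        have := (mem_filter.1 hl).2
        rw [mem_singleton]
        exact Fin.ext (by simp only; omega)
      refine (sum_le_sum_of_subset_of_nonneg hset fun l _ _ => Int.natCast_nonneg _).trans ?_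
      rw [sum_singleton, Qw_one, ← cbf_succ]
      simp only
      rw [Nat.sub_add_cancel (by omega)]
  · by_cases h0 : k.val + 1 < 2 * L + 1
    · have hset : univ.filter (fun l : Fin (2 * L + 1) => k.val + 1 = l.val) ⊆
          {(⟨k.val + 1, h0⟩ : Fin (2 * L + 1))} := by
        intro l hl
        have := (mem_filter.1 hl).2
        rw [mem_singleton]
        exact Fin.ext this.symm
      refine (sum_le_sum_of_subset_of_nonneg hset fun l _ _ => Int.natCast_nonneg _).trans ?_
      rw [sum_singleton, Qw_one, ← cbf_succ]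
    · rw [sum_eq_zero]
      · exact cbf_nonneg _ _ _
      · intro l hl
        have := (mem_filter.1 hl).2
        have := l.isLt
        omega

theorem cnt_le_of_admAll (L : ℕ) (m : Cf (Fin (2 * L + 1)))
    (h : AdmAll (PG (2 * L + 1)) (Nc L 3) m) (k : Fin (2 * L + 1)) :
    cnt (m k) ≤ 2 * (L + 1) := by
  -- convexity off the centre
  have hconv : ∀ j, 0 < j → j < 2 * L + 2 → 2 * cbf L m j ≤
      cbf L m (j - 1) + cbf L m (j + 1) + (if j = L + 1 then 3 else 0) := by
    intro j hj0 hj
    have h1 := h ⟨j - 1, by omega⟩ 1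
    have h2 := cb_nb L m ⟨j - 1, by omega⟩
    have h3 := cbf_succ L m ⟨j - 1, by omega⟩
    simp only [show j - 1 + 1 = j by omega, show j - 1 + 2 = j + 1 by omega] at h2 h3
    unfold Pv at h1
    rw [Qw_one] at h1
    have h4 : ((Nc L 3 ⟨j - 1, by omega⟩ : ℕ) : ℤ) = if j = L + 1 then 3 else 0 := by
      unfold Nc
      simp only
      by_cases hjL : j = L + 1
      · rw [if_pos (by omega), if_pos hjL]
        rfl
      · rw [if_neg (by omega), if_neg hjL]
        rfl
    rw [h4] at h1
    rw [h3]
    push_cast at h1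
    linarith
  have hmain := cb_max (2 * L + 2)
    (fun j => 2 * cbf L m j - 3 * ((min j (2 * L + 2 - j) : ℕ) : ℤ)) (by
      have : cbf L m 0 = 0 := by
        unfold cbf
        rw [dif_neg (by omega)]
      rw [this]
      simp) (by
      have : cbf L m (2 * L + 2) = 0 := by
        unfold cbf
        rw [dif_neg (by omega)]
      rw [this]
      simp) (by
      intro j hj0 hj
      have h1 := hconv j hj0 hj
      by_cases hjL : j = L + 1
      · rw [if_pos hjL] at h1
        have e1 : min j (2 * L + 2 - j) = L + 1 := by omega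
        have e2 : min (j - 1) (2 * L + 2 - (j - 1)) = L := by omega
        have e3 : min (j + 1) (2 * L + 2 - (j + 1)) = L := by omega
        rw [e1, e2, e3]
        push_cast
        linarith
      · rw [if_neg hjL] at h1
        have e1 : (min (j - 1) (2 * L + 2 - (j - 1))) + (min (j + 1) (2 * L + 2 - (j + 1))) =
            2 * min j (2 * L + 2 - j) := by omega
        have e2 : ((min (j - 1) (2 * L + 2 - (j - 1)) : ℕ) : ℤ) +
            ((min (j + 1) (2 * L + 2 - (j + 1)) : ℕ) : ℤ) =
            2 * ((min j (2 * L + 2 - j) : ℕ) : ℤ) := by exact_mod_cast e1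
        linarith)
  have h1 := hmain (k.val + 1) (by have := k.isLt; omega)
  rw [cbf_succ] at h1
  have h2 : min (k.val + 1) (2 * L + 2 - (k.val + 1)) ≤ L + 1 := by omega
  omega

end Pool.Agent.H18.KR
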