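import Pool.Agent.H18.KR.CfB

/-!
# Module Cvx (about 80 lines). It suffices to test the widths that occur.

Fix `k` and let `p w = Pv G N m k w`, `p 0 = 0`. By `Qw_second`, for all `w`
`p w + p (w+2) - 2 p (w+1) = 2 (m k) w - (nbs G m k) w`
(the value of the string `m k` at the index `w` is the number of its strings of width `w + 1`). So
if no string of `m k` has width `w + 1` then `p w + p (w+2) ≤ 2 p (w+1)`. Let `W ≥ 1` be at least all `d l`
and at least `2 d k`; then `p w ≥ 0` for all `w ≥ W` (`Pv_large` and the hypothesis).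
Suppose `p w < 0` for some `w`; then `w < W`. Let `w1` be the smallest point where `p` attains its minimum on
`{0,…,W}`. Then `p w1 < 0`, `0 < w1 < W`, `p (w1 - 1) > p w1`, `p (w1 + 1) ≥ p w1`, so
`p (w1-1) + p (w1+1) > 2 p w1`; hence `(m k) (w1 - 1) ≠ 0`, and `Adm` says `0 ≤ p w1`. Contradiction.
-/

set_option autoImplicit false

namespace Pool.Agent.H18.KR

open Finset

variable {I : Type} [Fintype I] [DecidableEq I] (G : SimpleGraph I) [DecidableRel G.Adj]

theorem admAll_of_adm (N : I → ℕ) (d : I → ℕ) (hdom : ∀ k, N k = 0 → 2 * d k ≤ nbd G d k)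
    (m : Cf I) (hm : m ∈ Cfg d) (h : Adm G N m) : AdmAll G N m := by
  intro k w
  by_contra hneg
  rw [not_le] at hneg
  have hsec : ∀ u : ℕ, Pv G N m k u + Pv G N m k (u + 2) - 2 * Pv G N m k (u + 1) =
      2 * ((m k) u : ℤ) - ((nbs G m k) u : ℤ) := by
    intro u
    have h1 : (2 * (Qw (m k) (u + 1) : ℤ)) = Qw (m k) u + Qw (m k) (u + 2) + (m k) u := by
      exact_mod_cast Qw_second (m k) u
    have h2 : (2 * (Qw (nbs G m k) (u + 1) : ℤ)) =
        Qw (nbs G m k) u + Qw (nbs G m k) (u + 2) + (nbs G m k) u := by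
      exact_mod_cast Qw_second (nbs G m k) u
    unfold Pv
    push_cast
    linarith
  have hdle : ∀ l, d l ≤ ∑ l, d l := fun l => single_le_sum (fun _ _ => Nat.zero_le _) (mem_univ l)
  set W : ℕ := (∑ l, d l) + 2 * d k with hW
  have hlarge : ∀ u, W ≤ u → 0 ≤ Pv G N m k u := by
    intro u hu
    rw [Pv_large hm k (fun l => (hdle l).trans (by omega))]
    by_cases hN : N k = 0
    · have h1 : (2 * (d k : ℤ)) ≤ nbd G d k := by exact_mod_cast hdom k hN
      rw [hN]
      push_cast
      linarith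
    · have h1 : (1 : ℤ) ≤ N k := by exact_mod_cast Nat.one_le_iff_ne_zero.2 hN
      have h2 : (2 * (d k : ℤ)) ≤ u := by exact_mod_cast (by omega : 2 * d k ≤ u)
      have h3 : (0 : ℤ) ≤ nbd G d k := Int.natCast_nonneg _
      have h4 : (0 : ℤ) ≤ u := Int.natCast_nonneg _
      nlinarith
  have hwW : w < W := by
    by_contra hc
    exact absurd (hlarge w (not_lt.1 hc)) (not_le.2 hneg)
  obtain ⟨w1, _, hmin⟩ := exists_min_image (range (W + 1)) (fun u => Pv G N m k u)
    ⟨w, mem_range.2 (by omega)⟩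
  have hv : Pv G N m k w1 < 0 := lt_of_le_of_lt (hmin w (mem_range.2 (by omega))) hneg
  have hglob : ∀ u, Pv G N m k w1 ≤ Pv G N m k u := by
    intro u
    by_cases hu : u < W + 1
    · exact hmin u (mem_range.2 hu)
    · exact hv.le.trans (hlarge u (by omega))
  have hex : ∃ u, Pv G N m k u = Pv G N m k w1 := ⟨w1, rfl⟩
  classical
  have hspec : Pv G N m k (Nat.find hex) = Pv G N m k w1 := Nat.find_spec hex
  have hne0 : Nat.find hex ≠ 0 := by
    intro h0
    rw [h0, Pv_w0] at hspec
    omega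
  obtain ⟨u, hu⟩ := Nat.exists_eq_succ_of_ne_zero hne0
  have hlt : Pv G N m k w1 < Pv G N m k u :=
    lt_of_le_of_ne (hglob u) fun he => Nat.find_min hex (m := u) (by omega) he.symm
  have hge := hglob (u + 2)
  rw [hu] at hspec
  have hspec' : Pv G N m k (u + 1) = Pv G N m k w1 := hspec
  have hs := hsec u
  have hnn : (0 : ℤ) ≤ ((nbs G m k) u : ℤ) := Int.natCast_nonneg _
  have hpos : (0 : ℤ) < ((m k) u : ℤ) := by
    rw [hspec'] at hs
    linarith
  have hmem : u ∈ (m k).support := by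
    rw [Finsupp.mem_support_iff]
    intro h0
    rw [h0] at hpos
    exact absurd hpos (lt_irrefl _)
  have := h k u hmem
  rw [hspec'] at this
  exact absurd this (not_le.2 hv)

theorem admAll_iff_adm (N : I → ℕ) (d : I → ℕ) (hdom : ∀ k, N k = 0 → 2 * d k ≤ nbd G d k)
    (m : Cf I) (hm : m ∈ Cfg d) : AdmAll G N m ↔ Adm G N m :=
  ⟨fun h k i _ => h k (i + 1), admAll_of_adm G N d hdom m hm⟩

end Pool.Agent.H18.KR
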