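import Pool.Agent.H18.KR.Defs4
import Pool.Agent.H80.Poly.More

/-!
# Definitions for part 4: witnesses, the verifier, `#P`

* `nruns b R T σ e`: the number of sequences of `T` blocks that lead from `σ` to the final state
  `([], e)`.
* `cfgs b L lam mu`: the sequences of `2L + 1` blocks that describe an admissible configuration.
* `blocks b R M w`: the bit string `w` cut into `M (R + 1)` numbers of `b` bits, in blocks of `R + 1`.
* `verify L e lam mu bl`: the verifier on `2L + 1` configuration blocks followed by machine blocks.
* `Inp`: inputs `(λ, μ, ν)`. `IsPart n l`: `l` is a partition of `n` (zeros at the end are allowed);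
  `two l`: at most two rows; `Valid`: three partitions of the same number, one of them `two`.
  `norm`: reordered such that the third partition is the one with at most two rows.
* for an input of size `S` the parameters are `L = S`, `R = 2 (S + 1)`, `bb S = 4 S + 10` bits per
  number, `TT S = 2 (2 S + 1) R` machine steps.
* `InSharpP f`: the function `f` is in `#P`.
-/

set_option autoImplicit false

namespace Pool.Agent.H18.KR

open Finset

/-- the number of accepting runs with `T` steps and final weight `e` -/
noncomputable def nruns (b R T : ℕ) (σ : St) (e : ℕ) : ℕ :=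
  ((lists (blks b R) T).filter fun Z => run Z σ = some ([], e)).card

/-- the configurations -/
noncomputable def cfgs (b L : ℕ) (lam mu : List ℕ) : Finset (List (List ℕ)) :=
  (lists (blks b (2 * (L + 1))) (2 * L + 1)).filter fun Y => cfgOk L lam mu Y

/-- cutting a bit string into blocks of numbers -/
def blocks (b R M : ℕ) (w : List Bool) : List (List ℕ) :=
  grp (R + 1) M ((grp b (M * (R + 1)) w).map Pool.Agent.H80.Poly.val)

/-- the final state of the verifier -/
def fin (L : ℕ) (lam mu : List ℕ) (bl : List (List ℕ)) : Option St :=
  (bl.drop (2 * L + 1)).foldl (fun o y => o.bind (stepB y))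
    (if cfgOk L lam mu (bl.take (2 * L + 1)) then some (cfgItems L (bl.take (2 * L + 1)), 0)
      else none)

/-- inputs -/
abbrev Inp : Type := List ℕ × List ℕ × List ℕ

/-- partitions of `n` -/
def IsPart (n : ℕ) (l : List ℕ) : Prop := l.Pairwise (· ≥ ·) ∧ l.sum = n

/-- at most two rows -/
def two (l : List ℕ) : Prop := ∀ x ∈ l.drop 2, x = 0

instance (l : List ℕ) : Decidable (two l) := inferInstanceAs (Decidable (∀ x ∈ l.drop 2, x = 0))

/-- three partitions of the same number, (at least) one of them with at most two rows -/
def Valid (x : Inp) : Prop :=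
  IsPart x.1.sum x.1 ∧ IsPart x.1.sum x.2.1 ∧ IsPart x.1.sum x.2.2 ∧
    (two x.1 ∨ two x.2.1 ∨ two x.2.2)

instance (x : Inp) : Decidable (Valid x) := by unfold Valid IsPart; infer_instance

/-- the partition with at most two rows is moved to the third place -/
def norm (x : Inp) : Inp :=
  if two x.2.2 then x else if two x.2.1 then (x.1, x.2.2, x.2.1) else (x.2.1, x.2.2, x.1)

/-- bits per number -/
def bb (S : ℕ) : ℕ := 4 * S + 10

/-- number of machine steps -/
def TT (S : ℕ) : ℕ := 2 * (2 * S + 1) * (2 * (S + 1))

/-- length of the witnesses for inputs of size `S` -/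
def wl (S : ℕ) : ℕ := (2 * S + 1 + TT S) * (2 * (S + 1) + 1) * bb S

/-- the verifier -/
def VV (S : ℕ) (x : Inp) (w : List Bool) : Bool :=
  decide (Valid x) &&
    decide (fin S (norm x).1 (norm x).2.1 (blocks (bb S) (2 * (S + 1)) (2 * S + 1 + TT S) w) =
      some ([], (norm x).1.sum - 2 * (norm x).2.2.getD 1 0))

/-- the Kronecker coefficient of three lists -/
def kronL (n : ℕ) (lam mu nu : List ℕ) : ℚ := kron n lam.get mu.get nu.get

/-- **the class `#P`**: `f(a)` is the number of bit strings `w` of length `p(|a|)` accepted by a
polynomial-time verifier (a Turing machine of Mathlib) on `(a, w)` -/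
def InSharpP {α : Type} [Pool.Agent.H80.Poly.BEnc α] (f : α → ℕ) : Prop :=
  ∃ (p : Polynomial ℕ) (V : α × Pool.Agent.H80.Poly.Str → Bool),
    Nonempty (Turing.TM2ComputableInPolyTime
      (Pool.Agent.H80.Poly.enc : α × Pool.Agent.H80.Poly.Str → List Bool)
      (Pool.Agent.H80.Poly.enc : Bool → List Bool) V) ∧
    ∀ a, f a = (univ.filter fun w : Fin (p.eval (Pool.Agent.H80.Poly.enc a).length) → Bool =>
      V (a, List.ofFn w) = true).card

end Pool.Agent.H18.KR
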