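import Pool.Agent.H18.KR.PathR

/-!
# Module Dom (about 80 lines). The total widths satisfy the convexity condition off the centre.

`dd lam mu k = Σ_{t : k ≤ L + t} lam t` for `k ≥ L`, `Σ_{t : L ≤ k + t} mu t` for `k < L`. For `k = L + j`,
`1 ≤ j ≤ L`: `nbd = dd (k-1) + dd (k+1)` (the latter is missing for `j = L`), `dd (k-1) = dd k + lam (j-1)`,
`dd k = dd (k+1) + lam j`, so the claim is `lam j ≤ lam (j-1)`. For `k = L - j` the same with `mu`; for `j = 1` the
neighbour `k + 1 = L` has `dd L = Σ lam = n = Σ mu`. Use `nbd_PG`.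
-/

set_option autoImplicit false

namespace Pool.Agent.H18.KR

open Finset

/-- the tail sum -/
private def tl {L : ℕ} (f : Fin (L + 1) → ℕ) (j : ℕ) : ℕ :=
  ∑ t ∈ univ.filter (fun t : Fin (L + 1) => j ≤ t.val), f t

private theorem tl_zero {L : ℕ} (f : Fin (L + 1) → ℕ) : tl f 0 = ∑ i, f i := by
  unfold tl
  rw [Finset.filter_true_of_mem]
  intro t _
  exact Nat.zero_le _

private theorem tl_top {L : ℕ} (f : Fin (L + 1) → ℕ) {j : ℕ} (h : L + 1 ≤ j) : tl f j = 0 := by
  unfold tl
  rw [Finset.filter_false_of_mem, Finset.sum_empty]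
  intro t _
  have := t.2
  omega

private theorem tl_succ {L : ℕ} (f : Fin (L + 1) → ℕ) {j : ℕ} (h : j < L + 1) :
    tl f j = f ⟨j, h⟩ + tl f (j + 1) := by
  unfold tl
  have h1 : univ.filter (fun t : Fin (L + 1) => j ≤ t.val) =
      insert ⟨j, h⟩ (univ.filter (fun t : Fin (L + 1) => j + 1 ≤ t.val)) := by
    ext t
    simp only [Finset.mem_filter, Finset.mem_univ, true_and, Finset.mem_insert, Fin.ext_iff]
    omega
  rw [h1, Finset.sum_insert]
  simp only [Finset.mem_filter, Finset.mem_univ, true_and]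
  omega

private theorem tl_le {L : ℕ} (f : Fin (L + 1) → ℕ) (j : ℕ) : tl f j ≤ ∑ i, f i := by
  unfold tl
  exact Finset.sum_le_sum_of_subset (Finset.filter_subset _ _)

private theorem tl_conv {L : ℕ} {f : Fin (L + 1) → ℕ} (hf : Antitone f) {j : ℕ} (h1 : 1 ≤ j)
    (h2 : j < L + 1) : 2 * tl f j ≤ tl f (j - 1) + tl f (j + 1) := by
  have e1 := tl_succ f h2
  have e2 := tl_succ f (j := j - 1) (by omega)
  rw [Nat.sub_add_cancel h1] at e2
  have h3 : f ⟨j, h2⟩ ≤ f ⟨j - 1, by omega⟩ := hf (by
    rw [Fin.mk_le_mk]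
    omega)
  omega

private theorem dd_right {L : ℕ} (lam mu : Fin (L + 1) → ℕ) (k : Fin (2 * L + 1))
    (h : L ≤ k.val) : dd lam mu k = tl lam (k.val - L) := by
  unfold dd tl
  rw [if_pos h]
  refine Finset.sum_congr ?_ fun _ _ => rfl
  ext t
  simp only [Finset.mem_filter, Finset.mem_univ, true_and]
  omega

private theorem dd_left {L : ℕ} (lam mu : Fin (L + 1) → ℕ) (he : ∑ i, lam i = ∑ i, mu i)
    (k : Fin (2 * L + 1)) (h : k.val ≤ L) : dd lam mu k = tl mu (L - k.val) := by
  by_cases h1 : k.val = L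
  · rw [dd_right lam mu k (by omega), h1, Nat.sub_self, tl_zero, tl_zero, he]
  · unfold dd tl
    rw [if_neg (by omega)]
    refine Finset.sum_congr ?_ fun _ _ => rfl
    ext t
    simp only [Finset.mem_filter, Finset.mem_univ, true_and]
    omega

theorem hdom_dd (L n : ℕ) (lam mu : Fin (L + 1) → ℕ) (hl : ∑ i, lam i = n) (hm : ∑ i, mu i = n)
    (hla : Antitone lam) (hma : Antitone mu) :
    ∀ k, Nc L 3 k = 0 → 2 * dd lam mu k ≤ nbd (PG (2 * L + 1)) (dd lam mu) k := by
  intro k hk
  have hkL : k.val ≠ L := by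
    intro h
    unfold Nc at hk
    rw [if_pos h] at hk
    omega
  have hk2 := k.2
  have he : ∑ i, lam i = ∑ i, mu i := by rw [hl, hm]
  rw [nbd_PG]
  rcases Nat.lt_or_gt_of_ne hkL with h | h
  · -- left of the centre
    have e0 : dd lam mu k = tl mu (L - k.val) := dd_left lam mu he k (by omega)
    have e1 : (if h : k.val + 1 < 2 * L + 1 then dd lam mu ⟨k.val + 1, h⟩ else 0) =
        tl mu (L - k.val - 1) := by
      rw [dif_pos (by omega), dd_left lam mu he _ (by simp only; omega)]
      simp only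
      congr 1
    have e2 : (if h : 0 < k.val then dd lam mu ⟨k.val - 1, by omega⟩ else 0) =
        tl mu (L - k.val + 1) := by
      by_cases h0 : 0 < k.val
      · rw [dif_pos h0, dd_left lam mu he _ (by simp only; omega)]
        simp only
        congr 1
        omega
      · rw [dif_neg h0, tl_top _ (by omega)]
    rw [e0, e1, e2]
    have := tl_conv hma (j := L - k.val) (by omega) (by omega)
    omega
  · -- right of the centre
    have e0 : dd lam mu k = tl lam (k.val - L) := dd_right lam mu k (by omega)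
    have e1 : (if h : k.val + 1 < 2 * L + 1 then dd lam mu ⟨k.val + 1, h⟩ else 0) =
        tl lam (k.val - L + 1) := by
      by_cases h0 : k.val + 1 < 2 * L + 1
      · rw [dif_pos h0, dd_right lam mu _ (by simp only; omega)]
        simp only
        congr 1
        omega
      · rw [dif_neg h0, tl_top _ (by omega)]
    have e2 : (if h : 0 < k.val then dd lam mu ⟨k.val - 1, by omega⟩ else 0) =
        tl lam (k.val - L - 1) := by
      rw [dif_pos (by omega), dd_right lam mu _ (by simp only; omega)]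
      simp only
      congr 1
      omega
    rw [e0, e1, e2]
    have := tl_conv hla (j := k.val - L) (by omega) (by omega)
    omega

theorem dd_centre (L n : ℕ) (lam mu : Fin (L + 1) → ℕ) (hl : ∑ i, lam i = n)
    (k : Fin (2 * L + 1)) (hk : k.val = L) : dd lam mu k = n := by
  rw [dd_right lam mu k (by omega), hk, Nat.sub_self, tl_zero, hl]

theorem dd_le (L n : ℕ) (lam mu : Fin (L + 1) → ℕ) (hl : ∑ i, lam i = n) (hm : ∑ i, mu i = n)
    (k : Fin (2 * L + 1)) : dd lam mu k ≤ n := by
  rcases le_total L k.val with h | h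
  · rw [dd_right lam mu k h]
    exact (tl_le lam _).trans (le_of_eq hl)
  · rw [dd_left lam mu (by rw [hl, hm]) k h]
    exact (tl_le mu _).trans (le_of_eq hm)

end Pool.Agent.H18.KR
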