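import Pool.Agent.H18.KR.Defs4

/-!
# Module LstB (about 120 lines). Sums over lists of fixed length.

`lists A n` is the image of `Fintype.piFinset (fun _ : Fin n => A)` under `List.ofFn`.
`mem_lists`: `List.mem_ofFn`, `List.ofFn_get`. `sum_lists_succ`: `List.ofFn_succ`, `Fin.cons` /
`Fin.consEquiv` (`Finset.sum_bij'`), or from `mem_lists` with `sum_sigma'` and the map `(a, l) ↦ a :: l`.
`sum_lists_add` by induction on `m` (`Nat.succ_add`). `sum_lists_map` by induction on `n`.
-/

set_option autoImplicit false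

namespace Pool.Agent.H18.KR

open Finset

variable {α β M : Type} [AddCommMonoid M]

theorem mem_lists {A : Finset α} {n : ℕ} {l : List α} :
    l ∈ lists A n ↔ l.length = n ∧ ∀ x ∈ l, x ∈ A := by
  constructor
  · intro h
    unfold lists at h
    obtain ⟨y, hy, rfl⟩ := Finset.mem_map.1 h
    rw [Fintype.mem_piFinset] at hy
    refine ⟨List.length_ofFn, ?_⟩
    intro x hx
    obtain ⟨i, rfl⟩ := (List.mem_ofFn (f := y) (a := x)).1 hx
    exact hy i
  · rintro ⟨rfl, h⟩
    unfold lists
    refine Finset.mem_map.2 ⟨l.get, ?_, List.ofFn_get l⟩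
    rw [Fintype.mem_piFinset]
    exact fun i => h _ (List.get_mem l i)

theorem sum_lists_ofFn (A : Finset α) (n : ℕ) (f : List α → M) :
    ∑ l ∈ lists A n, f l = ∑ y ∈ Fintype.piFinset (fun _ : Fin n => A), f (List.ofFn y) := by
  unfold lists
  rw [Finset.sum_map]
  rfl

theorem sum_lists_zero (A : Finset α) (f : List α → M) : ∑ l ∈ lists A 0, f l = f [] := by
  have h : lists A 0 = {[]} := by
    ext l
    rw [mem_lists, Finset.mem_singleton, List.length_eq_zero_iff]
    constructor
    · exact fun h => h.1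
    · rintro rfl
      exact ⟨rfl, by simp⟩
  rw [h, Finset.sum_singleton]

theorem sum_lists_succ (A : Finset α) (n : ℕ) (f : List α → M) :
    ∑ l ∈ lists A (n + 1), f l = ∑ a ∈ A, ∑ l ∈ lists A n, f (a :: l) := by
  rw [← Finset.sum_product']
  refine (Finset.sum_nbij (fun p : α × List α => p.1 :: p.2) ?_ ?_ ?_ ?_).symm
  · rintro ⟨a, l⟩ h
    rw [Finset.mem_product, mem_lists] at h
    rw [mem_lists]
    refine ⟨by simpa using h.2.1, ?_⟩
    intro x hx
    rcases List.mem_cons.1 hx with rfl | hx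
    · exact h.1
    · exact h.2.2 x hx
  · rintro ⟨a, l⟩ _ ⟨a', l'⟩ _ h
    simp only [List.cons.injEq] at h
    exact Prod.ext h.1 h.2
  · intro l hl
    rw [Finset.mem_coe, mem_lists] at hl
    cases l with
    | nil => simp at hl
    | cons a l =>
      refine ⟨(a, l), ?_, rfl⟩
      rw [Finset.mem_coe, Finset.mem_product, mem_lists]
      exact ⟨hl.2 a (by simp), by simpa using hl.1, fun x hx => hl.2 x (by simp [hx])⟩
  · rintro ⟨a, l⟩ _
    rfl

theorem sum_lists_add (A : Finset α) (m n : ℕ) (f : List α → M) :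
    ∑ l ∈ lists A (m + n), f l = ∑ l ∈ lists A m, ∑ l' ∈ lists A n, f (l ++ l') := by
  induction m generalizing f with
  | zero => rw [Nat.zero_add, sum_lists_zero]; rfl
  | succ m ih =>
    rw [Nat.succ_add_eq_add_succ, Nat.add_succ, sum_lists_succ, sum_lists_succ]
    refine Finset.sum_congr rfl fun a _ => ?_
    rw [ih]
    rfl

theorem sum_lists_map (A : Finset α) (B : Finset β) (φ : α → β) (h1 : ∀ a ∈ A, φ a ∈ B)
    (h2 : ∀ a ∈ A, ∀ a' ∈ A, φ a = φ a' → a = a') (h3 : ∀ b ∈ B, ∃ a ∈ A, φ a = b) (n : ℕ)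
    (f : List β → M) : ∑ l ∈ lists A n, f (l.map φ) = ∑ l ∈ lists B n, f l := by
  induction n generalizing f with
  | zero => rw [sum_lists_zero, sum_lists_zero]; rfl
  | succ n ih =>
    rw [sum_lists_succ, sum_lists_succ]
    refine Finset.sum_nbij φ h1 (fun a ha a' ha' h => h2 a ha a' ha' h) ?_ ?_
    · intro b hb
      obtain ⟨a, ha, h⟩ := h3 b hb
      exact ⟨a, ha, h⟩
    · intro a _
      exact ih (fun l => f (φ a :: l))

end Pool.Agent.H18.KR
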