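import Pool.Agent.H18.KR.StrO
import Pool.Agent.H18.KR.LstB

/-!
# Module SrtB (about 180 lines). Sorted lists of fixed length and strings.

`sortedB_iff`: adjacent pairs suffice (`List.isChain`/`List.pairwise_of_isChain` with transitivity, or
induction on the list). Sorted lists of length `R` with entries `≤ d` and sum `d` correspond to the
`α ∈ Pd d` with `cnt α ≤ R`: injective, since `strOf z` determines the counts of the positive entries
(`strOf_apply`), the length determines the number of zeros, and sorted lists with the same counts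
are equal (`List.Perm.eq_of_pairwise` or `List.Perm.eq_of_sorted`, `List.perm_iff_count`). Surjective: for `α` take
the multiset with `α i` copies of `i + 1` and `R - cnt α` zeros and sort it (`Multiset.sort` with `≥`, or
`List.insertionSort (· ≥ ·)`); all entries are `≤ sz α = d < B`.
-/

set_option autoImplicit false

namespace Pool.Agent.H18.KR

open Finset

variable {M : Type} [AddCommMonoid M]

theorem sortedB_cons_cons (x y : ℕ) (t : List ℕ) :
    sortedB (x :: y :: t) = (decide (y ≤ x) && sortedB (y :: t)) := by
  simp [sortedB]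

theorem sortedB_iff (z : List ℕ) : sortedB z = true ↔ z.Pairwise (· ≥ ·) := by
  induction z with
  | nil => simp [sortedB]
  | cons x t ih =>
    cases t with
    | nil => simp [sortedB]
    | cons y t =>
      rw [sortedB_cons_cons, Bool.and_eq_true, decide_eq_true_iff, ih,
        List.pairwise_cons (a := x)]
      constructor
      · rintro ⟨h1, h2⟩
        refine ⟨fun a ha => ?_, h2⟩
        rcases List.mem_cons.1 ha with rfl | ha
        · exact h1
        · exact le_trans ((List.pairwise_cons.1 h2).1 a ha) h1
      · rintro ⟨h1, h2⟩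
        exact ⟨h1 y List.mem_cons_self, h2⟩

theorem length_eq_count (z : List ℕ) : z.length = z.count 0 + cnt (strOf z) := by
  induction z with
  | nil => simp [strOf_nil, cnt_zero]
  | cons x z ih =>
    rw [List.length_cons, ih, List.count_cons, strOf_cons, cnt_add]
    by_cases hx : x = 0
    · subst hx
      simp [cnt_zero]
      omega
    · rw [if_neg hx, cnt_single]
      simp [hx]
      omega

theorem strOf_append (z z' : List ℕ) : strOf (z ++ z') = strOf z + strOf z' := by
  simp [strOf]

theorem strOf_perm {z z' : List ℕ} (h : z.Perm z') : strOf z = strOf z' := by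
  unfold strOf
  exact (h.map _).sum_eq

theorem strOf_inj {z z' : List ℕ} (hl : z.length = z'.length) (h : sortedB z = true)
    (h' : sortedB z' = true) (he : strOf z = strOf z') : z = z' := by
  have hp : z.Perm z' := by
    rw [List.perm_iff_count]
    intro a
    rcases Nat.eq_zero_or_pos a with rfl | ha
    · have h1 := length_eq_count z
      have h2 := length_eq_count z'
      rw [he] at h1
      omega
    · obtain ⟨i, rfl⟩ : ∃ i, a = i + 1 := ⟨a - 1, by omega⟩
      rw [← strOf_apply, ← strOf_apply, he]
  exact hp.eq_of_pairwise (fun a b _ _ h1 h2 => le_antisymm h2 h1) ((sortedB_iff z).1 h)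
    ((sortedB_iff z').1 h')

theorem exists_list (α : Str) : ∃ z : List ℕ, z.length = cnt α ∧ strOf z = α := by
  induction α using Finsupp.induction_linear with
  | zero => exact ⟨[], by simp [cnt_zero], strOf_nil⟩
  | add α β ha hb =>
    obtain ⟨z, h1, h2⟩ := ha
    obtain ⟨z', h1', h2'⟩ := hb
    exact ⟨z ++ z', by rw [List.length_append, h1, h1', cnt_add], by rw [strOf_append, h2, h2']⟩
  | single i a =>
    refine ⟨List.replicate a (i + 1), by rw [List.length_replicate, cnt_single], ?_⟩
    induction a with
    | zero => simp [strOf_nil]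
    | succ a ih =>
      rw [List.replicate_succ, strOf_cons, ih, if_neg (Nat.succ_ne_zero i), Nat.add_sub_cancel,
        ← Finsupp.single_add, add_comm 1 a]

theorem strOf_replicate_zero (n : ℕ) : strOf (List.replicate n 0) = 0 := by
  induction n with
  | zero => simp [strOf_nil]
  | succ n ih => rw [List.replicate_succ, strOf_cons, ih, if_pos rfl, add_zero]

theorem exists_sorted (α : Str) (R : ℕ) (hR : cnt α ≤ R) :
    ∃ z : List ℕ, z.length = R ∧ sortedB z = true ∧ strOf z = α := by
  obtain ⟨z, h1, h2⟩ := exists_list α
  refine ⟨List.insertionSort (· ≥ ·) (z ++ List.replicate (R - cnt α) 0), ?_, ?_, ?_⟩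
  · rw [(List.perm_insertionSort _ _).length_eq, List.length_append, List.length_replicate, h1]
    omega
  · rw [sortedB_iff]
    exact List.pairwise_insertionSort _ _
  · rw [strOf_perm (List.perm_insertionSort _ _), strOf_append, strOf_replicate_zero, h2, add_zero]

theorem sum_sorted (B R d : ℕ) (hd : d < B) (g : Str → M) :
    ∑ z ∈ (lists (range B) R).filter (fun z => sortedB z = true ∧ z.sum = d), g (strOf z) =
      ∑ α ∈ (Pd d).filter (fun α => cnt α ≤ R), g α := by
  refine Finset.sum_bij (fun z _ => strOf z) ?_ ?_ ?_ ?_
  · intro z hz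
    rw [mem_filter, mem_lists] at hz
    obtain ⟨⟨hl, -⟩, -, hs⟩ := hz
    rw [mem_filter, mem_Pd, sz_strOf]
    exact ⟨hs, (cnt_strOf_le z).trans hl.le⟩
  · intro z hz z' hz' he
    rw [mem_filter, mem_lists] at hz hz'
    exact strOf_inj (hz.1.1.trans hz'.1.1.symm) hz.2.1 hz'.2.1 he
  · intro α hα
    rw [mem_filter, mem_Pd] at hα
    obtain ⟨z, h1, h2, h3⟩ := exists_sorted α R hα.2
    have h4 : z.sum = d := by rw [← sz_strOf, h3, hα.1]
    refine ⟨z, ?_, h3⟩
    rw [mem_filter, mem_lists]
    refine ⟨⟨h1, fun x hx => ?_⟩, h2, h4⟩
    rw [mem_range]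
    have h5 : x ≤ z.sum := List.le_sum_of_mem hx
    omega
  · intro z _
    rfl

end Pool.Agent.H18.KR
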