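import Pool.Agent.H18.KR.CfgV
import Pool.Agent.H18.KR.SrtB
import Pool.Agent.H18.KR.CntB
import Pool.Agent.H18.KR.Cvx
import Pool.Agent.H18.KR.Dom
import Pool.Agent.H18.KR.Defs5

/-!
# Module CfgS (about 200 lines). The sum over the configurations.

`Y ↦ mY L Y` is a bijection from `cfgs b L lam mu` onto the admissible configurations in
`Cfg (dd lamF muF)`: `cfgOk L lam mu Y` says that every block is `0 :: z_k` (length `R + 1`,
`R = 2(L+1)`) with `z_k` sorted, `sz (mY L Y k) = z_k.sum = Dl = dd` (`sz_strOf`, `Dl_eq`), and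
`2 Ql z_k w ≤ vac2 L Y k w` for `w ∈ z_k`, i.e. `Adm` (`Pv_mY`, `mem_support_strOf`; for `w = 0` it is trivial as
`Ql z 0 = 0`). Injective by `strOf_inj` and `List.ext`. Surjective: for `m` admissible,
`cnt (m k) ≤ 2 (L + 1)` (`cnt_le_of_admAll`, `admAll_of_adm`, `hdom_dd`), choose `z_k` by `exists_sorted` and
`Y = List.ofFn (fun k => 0 :: z_k)`; entries are `≤ z_k.sum ≤ n < 2^b` (`dd_le`). Then `vl_cfgItems`
(`Finset.sum_bij`).
-/

set_option autoImplicit false

namespace Pool.Agent.H18.KR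

open Finset

variable {F : Type} [Field F]

/-- the sum of a list as a sum over indices -/
theorem cfgS_sum_range (l : List ℕ) : ∀ N, l.length ≤ N → ∑ i ∈ range N, l.getD i 0 = l.sum := by
  induction l with
  | nil =>
    intro N _
    simp
  | cons a l ih =>
    intro N hN
    rw [List.length_cons] at hN
    obtain ⟨M, rfl⟩ : ∃ M, N = M + 1 := ⟨N - 1, by omega⟩
    rw [sum_range_succ', List.sum_cons, ← ih M (by omega), List.getD_cons_zero, add_comm]
    congr 1

theorem cfgS_sum_getD {L n : ℕ} {l : List ℕ} (hl : l.length ≤ L + 1) (h : IsPart n l) :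
    ∑ i : Fin (L + 1), l.getD i 0 = n := by
  rw [Fin.sum_univ_eq_sum_range (fun i => l.getD i 0) (L + 1), cfgS_sum_range l _ hl, h.2]

theorem cfgS_antitone {L n : ℕ} {l : List ℕ} (h : IsPart n l) :
    Antitone fun i : Fin (L + 1) => l.getD i 0 := by
  intro i j hij
  simp only
  have hij' : i.val ≤ j.val := hij
  by_cases hj : j.val < l.length
  · rw [List.getD_eq_getElem _ _ hj, List.getD_eq_getElem _ _ (lt_of_le_of_lt hij' hj)]
    rcases Nat.lt_or_ge i.val j.val with h1 | h1
    · exact List.pairwise_iff_getElem.1 h.1 i.val j.val (lt_of_le_of_lt hij' hj) hj h1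
    · have h2 : i.val = j.val := le_antisymm hij' h1
      simp only [h2]
      exact le_refl _
  · rw [List.getD_eq_default _ _ (by omega)]
    exact Nat.zero_le _

theorem cfgS_mem {b L : ℕ} {lam mu : List ℕ} {Y : List (List ℕ)} (h : Y ∈ cfgs b L lam mu) :
    Y.length = 2 * L + 1 ∧ (∀ y ∈ Y, y.length = 2 * (L + 1) + 1) ∧ cfgOk L lam mu Y := by
  unfold cfgs at h
  rw [mem_filter, mem_lists] at h
  refine ⟨h.1.1, fun y hy => ?_, h.2⟩
  have h1 := h.1.2 y hy
  unfold blks at h1
  exact (mem_lists.1 h1).1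

private theorem cs_blk {R : ℕ} {y : List ℕ} (h : y.length = R + 1) (h0 : y.headD 0 = 0) :
    y = 0 :: y.tail := by
  cases y with
  | nil => simp at h
  | cons a t =>
    simp only [List.headD_cons] at h0
    rw [h0, List.tail_cons]

private theorem cs_inj {b L : ℕ} {lam mu : List ℕ} {Y Y' : List (List ℕ)}
    (h : Y ∈ cfgs b L lam mu) (h' : Y' ∈ cfgs b L lam mu) (he : mY L Y = mY L Y') : Y = Y' := by
  obtain ⟨h1, h2, h3⟩ := cfgS_mem h
  obtain ⟨h1', h2', h3'⟩ := cfgS_mem h'
  refine List.ext_getElem (by rw [h1, h1']) fun k hk hk' => ?_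
  have hk2 : k < 2 * L + 1 := by omega
  have e1 : Y.getD k [] = Y[k] := List.getD_eq_getElem _ _ hk
  have e2 : Y'.getD k [] = Y'[k] := List.getD_eq_getElem _ _ hk'
  have l1 := h2 _ (List.getElem_mem hk)
  have l2 := h2' _ (List.getElem_mem hk')
  obtain ⟨a1, a2, -, -⟩ := h3 k hk2
  obtain ⟨b1, b2, -, -⟩ := h3' k hk2
  have he' := congrFun he ⟨k, hk2⟩
  unfold mY at he'
  simp only at he'
  unfold zk at he' a2 b2
  rw [e1] at he' a1 a2
  rw [e2] at he' b1 b2
  have := strOf_inj (by rw [List.length_tail, List.length_tail, l1, l2]) a2 b2 he'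
  rw [cs_blk l1 a1, cs_blk l2 b1, this]

private theorem cs_le_sum {l : List ℕ} {x : ℕ} (h : x ∈ l) : x ≤ l.sum := by
  induction l with
  | nil => simp at h
  | cons a l ih =>
    rw [List.sum_cons]
    rcases List.mem_cons.1 h with h1 | h1
    · omega
    · have := ih h1
      omega

private theorem cs_Ql_zero (z : List ℕ) : Ql z 0 = 0 := by
  unfold Ql
  induction z with
  | nil => rfl
  | cons a l ih => rw [List.map_cons, List.sum_cons, ih, Nat.zero_min]

open Classical in
theorem sum_cfgs (s : F) (b L n : ℕ) (lam mu : List ℕ) (hll : lam.length ≤ L + 1)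
    (hml : mu.length ≤ L + 1) (hl : IsPart n lam) (hm : IsPart n mu) (hb : n < 2 ^ b) :
    ∑ Y ∈ cfgs b L lam mu, vl s (cfgItems L Y, 0) =
      ∑ m ∈ (Cfg (dd (fun i : Fin (L + 1) => lam.getD i 0)
          (fun i : Fin (L + 1) => mu.getD i 0))).filter
          (fun m => Adm (PG (2 * L + 1)) (Nc L 3) m),
        ∏ k, ((m k).prod fun i a => gh s (Pv (PG (2 * L + 1)) (Nc L 3) m k (i + 1)) a) := by
  have hls := cfgS_sum_getD hll hl
  have hms := cfgS_sum_getD hml hm
  refine sum_bij (fun Y _ => mY L Y) ?_ ?_ ?_ ?_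
  · intro Y hY
    obtain ⟨h1, h2, h3⟩ := cfgS_mem hY
    rw [mem_filter]
    refine ⟨mem_Cfg.2 fun k => ?_, fun k i hi => ?_⟩
    · unfold mY
      rw [sz_strOf, (h3 k k.2).2.2.1, Dl_eq L lam mu hll hml k]
    · rw [Pv_mY L Y h1 k (i + 1)]
      have h4 : i + 1 ∈ zk Y k := mem_support_strOf.1 hi
      have h5 := (h3 k k.2).2.2.2 _ h4
      have h6 : (2 * (Ql (zk Y k) (i + 1) : ℤ)) ≤ (vac2 L Y k (i + 1) : ℤ) := by exact_mod_cast h5
      linarith
  · intro Y hY Y' hY' he
    exact cs_inj hY hY' he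
  · intro m hm'
    rw [mem_filter] at hm'
    obtain ⟨hC, hA⟩ := hm'
    have hdom := hdom_dd L n _ _ hls hms (cfgS_antitone hl) (cfgS_antitone hm)
    have hAll := admAll_of_adm _ _ _ hdom m hC hA
    have hc : ∀ k, cnt (m k) ≤ 2 * (L + 1) := cnt_le_of_admAll L m hAll
    choose z hz1 hz2 hz3 using fun k => exists_sorted (m k) (2 * (L + 1)) (hc k)
    set Y : List (List ℕ) := List.ofFn fun k : Fin (2 * L + 1) => 0 :: z k with hYdef
    have hYlen : Y.length = 2 * L + 1 := by rw [hYdef, List.length_ofFn]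
    have hget : ∀ (k : ℕ) (hk : k < 2 * L + 1), Y.getD k [] = 0 :: z ⟨k, hk⟩ := by
      intro k hk
      rw [List.getD_eq_getElem _ _ (by omega)]
      simp only [hYdef, List.getElem_ofFn]
    have hzk : ∀ (k : ℕ) (hk : k < 2 * L + 1), zk Y k = z ⟨k, hk⟩ := by
      intro k hk
      unfold zk
      rw [hget k hk, List.tail_cons]
    have hmY : mY L Y = m := by
      funext k
      unfold mY
      rw [hzk k k.2]
      exact hz3 k
    have hsum : ∀ k, (z k).sum = dd (fun i : Fin (L + 1) => lam.getD i 0)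
        (fun i : Fin (L + 1) => mu.getD i 0) k := by
      intro k
      rw [← sz_strOf, hz3, mem_Cfg.1 hC k]
    refine ⟨Y, ?_, hmY⟩
    unfold cfgs
    rw [mem_filter, mem_lists]
    refine ⟨⟨hYlen, fun y hy => ?_⟩, fun k hk => ?_⟩
    · rw [hYdef, List.mem_ofFn] at hy
      obtain ⟨k, rfl⟩ := hy
      unfold blks
      rw [mem_lists]
      refine ⟨by rw [List.length_cons, hz1], fun x hx => ?_⟩
      rw [mem_range]
      rcases List.mem_cons.1 hx with h | h
      · rw [h]
        omega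
      · have h1 := cs_le_sum h
        have h2 := dd_le L n _ _ hls hms k
        rw [hsum k] at h1
        omega
    · rw [hzk k hk, hget k hk]
      refine ⟨rfl, hz2 _, ?_, fun w hw => ?_⟩
      · rw [hsum ⟨k, hk⟩]
        exact (Dl_eq L lam mu hll hml ⟨k, hk⟩).symm
      · rcases Nat.eq_zero_or_pos w with h0 | h0
        · rw [h0, cs_Ql_zero]
          exact Nat.zero_le _
        · obtain ⟨i, rfl⟩ : ∃ i, w = i + 1 := ⟨w - 1, by omega⟩
          have h1 : i ∈ (m ⟨k, hk⟩).support := by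
            rw [← hz3 ⟨k, hk⟩]
            exact mem_support_strOf.2 hw
          have h2 := hA ⟨k, hk⟩ i h1
          rw [← hmY, Pv_mY L Y hYlen ⟨k, hk⟩ (i + 1)] at h2
          simp only at h2
          rw [hzk k hk] at h2
          have h3 : (2 * (Ql (z ⟨k, hk⟩) (i + 1) : ℤ)) ≤ (vac2 L Y k (i + 1) : ℤ) := by linarith
          exact_mod_cast h3
  · intro Y hY
    obtain ⟨h1, h2, h3⟩ := cfgS_mem hY
    exact vl_cfgItems s L Y h1 fun k hk => (h3 k hk).2.2.2

end Pool.Agent.H18.KR
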