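import Pool.Agent.H18.KR.Defs3

/-!
# Module PathR (about 120 lines). The reflection permutes the other roots of the path.

Roots of the path with `K` nodes: intervals `[a, b]`, `a ≤ b`. The reflection at `k` fixes the value
off `k` and changes the value at `k` to (sum of the values at the neighbours) - (value at `k`).
For `[a, b] ≠ [k, k]` (`a ≤ b`):
* `k = a < b`: value at `k` becomes `1 - 1 = 0` (the neighbours of `k`: `k-1` has `0`, `k+1` has `1`), so
  `[a, b] ↦ [a + 1, b]`;
* `a < k = b`: `[a, b] ↦ [a, b - 1]`;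
* `a < k < b`: `2 - 1 = 1`, fixed;
* `k + 1 = a`: `1 - 0 = 1`, `[a, b] ↦ [a - 1, b] = [k, b]`; `b + 1 = k`: `[a, b] ↦ [a, b + 1] = [a, k]`;
* `k + 1 < a` or `b + 1 < k`: `0`, fixed.
Define `rfl' k p` by these cases. `nbd (PG K) d k` is the sum over `l` with `l + 1 = k` or `k + 1 = l`;
`nbd_PG` writes it with `if`s.
-/

set_option autoImplicit false

namespace Pool.Agent.H18.KR

open Finset

variable {K : ℕ}

/-- the value at `k - 1` plus the value at `k + 1`, if these are nodes -/
theorem nbd_PG (d : Fin K → ℕ) (k : Fin K) :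
    nbd (PG K) d k = (if h : 0 < k.val then d ⟨k.val - 1, by omega⟩ else 0) +
      (if h : k.val + 1 < K then d ⟨k.val + 1, h⟩ else 0) := by
  unfold nbd
  rw [Finset.sum_filter]
  have h0 : ∀ l : Fin K, (if (PG K).Adj k l then d l else 0) =
      (if l.val + 1 = k.val then d l else 0) + (if k.val + 1 = l.val then d l else 0) := by
    intro l
    have hadj : (PG K).Adj k l ↔ (k.val + 1 = l.val ∨ l.val + 1 = k.val) := Iff.rfl
    by_cases h1 : l.val + 1 = k.val
    · rw [if_pos (hadj.2 (Or.inr h1)), if_pos h1, if_neg (by omega), add_zero]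
    · by_cases h2 : k.val + 1 = l.val
      · rw [if_pos (hadj.2 (Or.inl h2)), if_neg h1, if_pos h2, zero_add]
      · rw [if_neg (fun h => (hadj.1 h).elim h2 h1), if_neg h1, if_neg h2, add_zero]
  rw [Finset.sum_congr rfl fun l _ => h0 l, Finset.sum_add_distrib]
  congr 1
  · by_cases h : 0 < k.val
    · rw [dif_pos h, Finset.sum_eq_single (⟨k.val - 1, by omega⟩ : Fin K)]
      · rw [if_pos (by simp only; omega)]
      · intro l _ hl
        rw [if_neg]
        intro h1
        exact hl (Fin.ext (by simp only; omega))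
      · intro h1; exact absurd (Finset.mem_univ _) h1
    · rw [dif_neg h]
      refine Finset.sum_eq_zero fun l _ => if_neg ?_
      omega
  · by_cases h : k.val + 1 < K
    · rw [dif_pos h, Finset.sum_eq_single (⟨k.val + 1, h⟩ : Fin K)]
      · rw [if_pos rfl]
      · intro l _ hl
        rw [if_neg]
        intro h1
        exact hl (Fin.ext (by simp only; omega))
      · intro h1; exact absurd (Finset.mem_univ _) h1
    · rw [dif_neg h]
      refine Finset.sum_eq_zero fun l _ => if_neg ?_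
      have := l.2
      omega

theorem rt_apply (a b k : Fin K) : rt a b k = if a ≤ k ∧ k ≤ b then 1 else 0 := by
  rfl

theorem rt_ne_zero {a b : Fin K} (h : a ≤ b) : rt a b ≠ 0 := by
  intro h1
  have h2 := DFunLike.congr_fun h1 a
  rw [rt_apply, if_pos ⟨le_refl a, h⟩] at h2
  simp at h2

/-- the reflection on the intervals -/
private def rfl' (k : Fin K) (p : Fin K × Fin K) : Fin K × Fin K :=
  if h1 : p.1.val = k.val ∧ k.val < p.2.val then (⟨k.val + 1, by have := p.2.2; omega⟩, p.2)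
  else if p.1.val < k.val ∧ p.2.val = k.val then (p.1, ⟨k.val - 1, by have := k.2; omega⟩)
  else if k.val + 1 = p.1.val then (k, p.2)
  else if p.2.val + 1 = k.val then (p.1, k)
  else p

private theorem rfl'_cases (k : Fin K) (p : Fin K × Fin K) (h : p.1.val ≤ p.2.val)
    (hk : ¬ (p.1.val = k.val ∧ p.2.val = k.val)) :
    (p.1.val = k.val ∧ k.val < p.2.val ∧ (rfl' k p).1.val = k.val + 1 ∧
      (rfl' k p).2.val = p.2.val) ∨
    (p.1.val < k.val ∧ p.2.val = k.val ∧ (rfl' k p).1.val = p.1.val ∧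
      (rfl' k p).2.val = k.val - 1) ∨
    (k.val + 1 = p.1.val ∧ (rfl' k p).1.val = k.val ∧ (rfl' k p).2.val = p.2.val) ∨
    (p.2.val + 1 = k.val ∧ (rfl' k p).1.val = p.1.val ∧ (rfl' k p).2.val = k.val) ∨
    (((p.1.val < k.val ∧ k.val < p.2.val) ∨ k.val + 1 < p.1.val ∨ p.2.val + 1 < k.val) ∧
      (rfl' k p).1.val = p.1.val ∧ (rfl' k p).2.val = p.2.val) := by
  unfold rfl'
  by_cases c1 : p.1.val = k.val ∧ k.val < p.2.val
  · rw [dif_pos c1]
    exact Or.inl ⟨c1.1, c1.2, rfl, rfl⟩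
  · rw [dif_neg c1]
    by_cases c2 : p.1.val < k.val ∧ p.2.val = k.val
    · rw [if_pos c2]
      exact Or.inr (Or.inl ⟨c2.1, c2.2, rfl, rfl⟩)
    · rw [if_neg c2]
      by_cases c3 : k.val + 1 = p.1.val
      · rw [if_pos c3]
        exact Or.inr (Or.inr (Or.inl ⟨c3, rfl, rfl⟩))
      · rw [if_neg c3]
        by_cases c4 : p.2.val + 1 = k.val
        · rw [if_pos c4]
          exact Or.inr (Or.inr (Or.inr (Or.inl ⟨c4, rfl, rfl⟩)))
        · rw [if_neg c4]
          exact Or.inr (Or.inr (Or.inr (Or.inr ⟨by omega, rfl, rfl⟩)))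

private theorem mem_er (k : Fin K) (p : Fin K × Fin K) : p ∈ (Rts K).erase (k, k) ↔
    p.1.val ≤ p.2.val ∧ ¬ (p.1.val = k.val ∧ p.2.val = k.val) := by
  rw [Finset.mem_erase]
  unfold Rts
  rw [Finset.mem_filter]
  constructor
  · rintro ⟨h1, -, h2⟩
    refine ⟨h2, fun h3 => h1 ?_⟩
    exact Prod.ext (Fin.ext h3.1) (Fin.ext h3.2)
  · rintro ⟨h1, h2⟩
    refine ⟨fun h3 => h2 ?_, Finset.mem_univ _, h1⟩
    rw [h3]
    exact ⟨rfl, rfl⟩

theorem exists_refl (k : Fin K) : ∃ σ : Fin K × Fin K → Fin K × Fin K,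
    (∀ p ∈ (Rts K).erase (k, k), σ p ∈ (Rts K).erase (k, k)) ∧
    (∀ p ∈ (Rts K).erase (k, k), σ (σ p) = p) ∧
    (∀ p ∈ (Rts K).erase (k, k), ∀ l, l ≠ k → rt (σ p).1 (σ p).2 l = rt p.1 p.2 l) ∧
    (∀ p ∈ (Rts K).erase (k, k), rt p.1 p.2 k + rt (σ p).1 (σ p).2 k =
      nbd (PG K) (fun l => rt p.1 p.2 l) k) := by
  refine ⟨rfl' k, ?_, ?_, ?_, ?_⟩
  · intro p hp
    rw [mem_er] at hp ⊢
    have h := rfl'_cases k p hp.1 hp.2
    omega
  · intro p hp
    rw [mem_er] at hp
    have h := rfl'_cases k p hp.1 hp.2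
    have h' := rfl'_cases k (rfl' k p) (by omega) (by omega)
    refine Prod.ext (Fin.ext ?_) (Fin.ext ?_) <;> omega
  · intro p hp l hl
    rw [mem_er] at hp
    have h := rfl'_cases k p hp.1 hp.2
    have hl' : l.val ≠ k.val := fun h1 => hl (Fin.ext h1)
    rw [rt_apply, rt_apply]
    simp only [Fin.le_def]
    refine if_congr ?_ rfl rfl
    omega
  · intro p hp
    rw [mem_er] at hp
    have h := rfl'_cases k p hp.1 hp.2
    have hk := k.2
    have h1 := p.1.2
    have h2 := p.2.2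
    rw [nbd_PG]
    simp only [rt_apply, Fin.le_def]
    generalize (rfl' k p).1.val = x at h ⊢
    generalize (rfl' k p).2.val = y at h ⊢
    generalize p.1.val = a at *
    generalize p.2.val = b at *
    split_ifs <;> omega

end Pool.Agent.H18.KR
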