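import Pool.Agent.H18.KR.StrO
import Pool.Agent.H18.KR.PathR
import Pool.Agent.H18.KR.CfB

/-!
# Module CfgV (about 150 lines). Configurations as lists: vacancy numbers, widths, items.

For `Y` (list of `2L + 1` blocks) let `mY Y k = strOf (zk Y k)`. The neighbours of `k` in the path are
`k - 1` (if `k > 0`) and `k + 1` (if `k < 2L`); `nbs` is additive, so like `nbd_PG`,
`Qw (nbs (PG _) m k) w = [k > 0] Qw (m (k-1)) w + [k < 2L] Qw (m (k+1)) w`. In `vac2` the entry of `[] :: Y` at
`k` is the block `k - 1` of `Y` (or `[]` for `k = 0`), the block `2L + 1` of `Y` is missing, so `zk = []`, `Ql [] w = 0`.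
`Qw_strOf`. `Dl_eq`: `(lam.drop j).sum = Σ_{t < L+1, j ≤ t} lam.getD t 0` if `lam.length ≤ L + 1`.
`vl_cfgItems`: `cfgItems` is a `flatMap`, so the product is the product over `k < 2L + 1`
(`List.prod_flatMap`-like, `Finset.prod_range`, `Fin.prod_univ_eq_prod_range`) of the products of the items, `prod_items`
with `g P a = gh s (P : ℤ) a`; natural subtraction is exact by the hypothesis.
-/

set_option autoImplicit false

namespace Pool.Agent.H18.KR

open Finset

variable {F : Type} [Field F]

/-- the configuration of a list of blocks -/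
noncomputable def mY (L : ℕ) (Y : List (List ℕ)) : Cf (Fin (2 * L + 1)) := fun k => strOf (zk Y k)

private lemma Ql_nil (w : ℕ) : Ql [] w = 0 := rfl

theorem Pv_mY (L : ℕ) (Y : List (List ℕ)) (hY : Y.length = 2 * L + 1) (k : Fin (2 * L + 1))
    (w : ℕ) :
    Pv (PG (2 * L + 1)) (Nc L 3) (mY L Y) k w = (vac2 L Y k w : ℤ) - 2 * (Ql (zk Y k) w : ℤ) := by
  have hQ : ∀ l : Fin (2 * L + 1), Qw (mY L Y l) w = Ql (zk Y l) w := fun l => Qw_strOf _ _
  have h1 : Qw (nbs (PG (2 * L + 1)) (mY L Y) k) w =
      nbd (PG (2 * L + 1)) (fun l => Ql (zk Y l) w) k := by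
    unfold nbs nbd
    rw [Qw_sum]
    exact Finset.sum_congr rfl fun l _ => hQ l
  have h2 : nbd (PG (2 * L + 1)) (fun l => Ql (zk Y l) w) k =
      Ql (((([] : List ℕ) :: Y).getD k.val []).tail) w + Ql (zk Y (k.val + 1)) w := by
    rw [nbd_PG]
    congr 1
    · by_cases h : 0 < k.val
      · rw [dif_pos h]
        obtain ⟨j, hj⟩ : ∃ j, k.val = j + 1 := ⟨k.val - 1, by omega⟩
        show Ql (zk Y (k.val - 1)) w = _
        rw [hj, Nat.add_sub_cancel, List.getD_cons_succ]
        rfl
      · rw [dif_neg h]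
        have h0 : k.val = 0 := by omega
        rw [h0, List.getD_cons_zero]
        rfl
    · by_cases h : k.val + 1 < 2 * L + 1
      · rw [dif_pos h]
      · rw [dif_neg h]
        have h0 : zk Y (k.val + 1) = [] := by
          unfold zk
          rw [List.getD_eq_default _ _ (by rw [hY]; omega)]
          rfl
        rw [h0, Ql_nil]
  unfold Pv
  rw [h1, h2, hQ]
  unfold vac2 Nc
  by_cases h : k.val = L
  · rw [if_pos h, if_pos h]
    push_cast
    ring
  · rw [if_neg h, if_neg h]
    push_cast
    ring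

private lemma drop_sum (l : List ℕ) : ∀ (n j : ℕ), l.length ≤ n →
    (l.drop j).sum = ∑ t ∈ range n, if j ≤ t then l.getD t 0 else 0 := by
  induction l with
  | nil =>
    intro n j _
    rw [List.drop_nil, List.sum_nil]
    refine (Finset.sum_eq_zero fun t _ => ?_).symm
    rw [List.getD_nil, ite_self]
  | cons x l ih =>
    intro n j hn
    rw [List.length_cons] at hn
    obtain ⟨n', rfl⟩ : ∃ n', n = n' + 1 := ⟨n - 1, by omega⟩
    rw [Finset.sum_range_succ', List.getD_cons_zero]
    rcases j with _ | j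
    · rw [List.drop_zero, List.sum_cons, if_pos (Nat.zero_le 0), add_comm]
      congr 1
      have h1 := ih n' 0 (by omega)
      rw [List.drop_zero] at h1
      rw [h1]
      refine Finset.sum_congr rfl fun t _ => ?_
      rw [if_pos (Nat.zero_le _), if_pos (Nat.zero_le _), List.getD_cons_succ]
    · rw [List.drop_succ_cons, if_neg (by omega), add_zero, ih n' j (by omega)]
      refine Finset.sum_congr rfl fun t _ => ?_
      rw [List.getD_cons_succ]
      by_cases h : j ≤ t
      · rw [if_pos h, if_pos (by omega)]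
      · rw [if_neg h, if_neg (by omega)]

private lemma drop_sum' (l : List ℕ) (n j : ℕ) (h : l.length ≤ n) :
    (l.drop j).sum = ∑ t ∈ univ.filter (fun t : Fin n => j ≤ t.val), l.getD t.val 0 := by
  rw [drop_sum l n j h, Finset.sum_filter,
    Fin.sum_univ_eq_sum_range (fun t => if j ≤ t then l.getD t 0 else 0) n]

theorem Dl_eq (L : ℕ) (lam mu : List ℕ) (hl : lam.length ≤ L + 1) (hm : mu.length ≤ L + 1)
    (k : Fin (2 * L + 1)) : Dl L lam mu k =
      dd (fun i : Fin (L + 1) => lam.getD i 0) (fun i : Fin (L + 1) => mu.getD i 0) k := by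
  unfold Dl dd
  by_cases h : L ≤ k.val
  · rw [if_pos h, if_pos h, drop_sum' lam (L + 1) _ hl]
    refine Finset.sum_congr ?_ fun _ _ => rfl
    ext t
    simp only [Finset.mem_filter, Finset.mem_univ, true_and]
    omega
  · rw [if_neg h, if_neg h, drop_sum' mu (L + 1) _ hm]
    refine Finset.sum_congr ?_ fun _ _ => rfl
    ext t
    simp only [Finset.mem_filter, Finset.mem_univ, true_and]
    omega

private lemma prod_flatMap' {α β : Type} (f : β → F) (g : α → List β) (l : List α) :
    ((l.flatMap g).map f).prod = (l.map fun a => ((g a).map f).prod).prod := by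
  induction l with
  | nil => rfl
  | cons a l ih =>
    rw [List.flatMap_cons, List.map_append, List.prod_append, ih, List.map_cons, List.prod_cons]

private lemma prod_range' (f : ℕ → F) (n : ℕ) :
    ((List.range n).map f).prod = ∏ i ∈ range n, f i := by
  induction n with
  | zero => rfl
  | succ n ih =>
    rw [List.range_succ, List.map_append, List.prod_append, ih, Finset.prod_range_succ]
    simp

theorem vl_cfgItems (s : F) (L : ℕ) (Y : List (List ℕ)) (hY : Y.length = 2 * L + 1)
    (h : ∀ k < 2 * L + 1, ∀ w ∈ zk Y k, 2 * Ql (zk Y k) w ≤ vac2 L Y k w) :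
    vl s (cfgItems L Y, 0) =
      ∏ k, ((mY L Y k).prod fun i a => gh s (Pv (PG (2 * L + 1)) (Nc L 3) (mY L Y) k (i + 1)) a) := by
  have hc : ch2 s 0 = 1 := by
    unfold ch2
    simp
  unfold vl cfgItems
  show ch2 s 0 * _ = _
  rw [hc, one_mul, prod_flatMap', prod_range', ← Fin.prod_univ_eq_prod_range
    (fun k => ((items (vac2 L Y k) (zk Y k)).map fun x => gh s (x.1 : ℤ) x.2).prod) (2 * L + 1)]
  refine Finset.prod_congr rfl fun k _ => ?_
  rw [prod_items (vac2 L Y k.val) (zk Y k.val) (fun P a => gh s (P : ℤ) a)]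
  show (strOf (zk Y k.val)).prod _ = (strOf (zk Y k.val)).prod _
  refine Finset.prod_congr rfl fun i hi => ?_
  have h1 : i + 1 ∈ zk Y k.val := mem_support_strOf.1 hi
  have h2 := h k.val k.2 (i + 1) h1
  show gh s ((vac2 L Y k.val (i + 1) - 2 * Qw (strOf (zk Y k.val)) (i + 1) : ℕ) : ℤ) _ =
    gh s (Pv (PG (2 * L + 1)) (Nc L 3) (mY L Y) k (i + 1)) _
  rw [Pv_mY L Y hY, Qw_strOf, Nat.cast_sub h2]
  push_cast
  rfl

end Pool.Agent.H18.KR
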