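import Pool.Agent.H18.KR.Defs

/-!
# Module QNum (about 130 lines). q-numbers.

`q ≠ 0` and `q ^ n ≠ 1` for `n > 0`. All statements are elementary.

* `qf_ne`: product of nonzero factors. `qf_succ`: `prod_range_succ`.
* `gb_eq_zero`: the factor `i = -P-1 < m` is `1 - q^0 = 0`.
* `gb_pascal`, `gb_pascal'`: put `X = ∏_{i<m} (1 - q^{P+1+i})`. Then
  `∏_{i<m+1} (1 - q^{P+1+i}) = X (1 - q^{P+1+m})` and
  `∏_{i<m+1} (1 - q^{P+i}) = (1 - q^P) X`; divide by `(q;q)_{m+1} = (q;q)_m (1 - q^{m+1})` and use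
  `1 - q^{P+1+m} - (1 - q^P) = q^P (1 - q^{m+1})`, resp.
  `1 - q^{P+1+m} - q^{m+1} (1 - q^P) = 1 - q^{m+1}`.
* `gb_expand` (q-binomial theorem): by induction on `m`, for all `P`, for instance from
  `∏_{i<m} (1 - q^{P+1+i}) = Σ_b (-1)^b [m choose b] q^{b(b+1)/2} q^{bP}`,
  `[m choose b] = (q;q)_m/((q;q)_b (q;q)_{m-b})` (or use `gb_pascal` and the corresponding recursion
  of the right side).
* `inv_qf_inv`: `∏ (1 - q^{-(i+1)}) = ∏ (-q^{-(i+1)}) (1 - q^{i+1})`, `Σ_{i<m} (i+1) = m(m+1)/2`.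
* `euler_N`: by `inv_qf_inv` and `gb_expand` for `P = N - 2` the left side is
  `q^n Σ (1/(q)_a) ep(b) q^{b(N-2)} = q^n gb q (N-2) n` (as `q^a q^{-b} q^{Nb} = q^n q^{b(N-2)}`).
* `euler1`: `Σ q^a/(q)_a ep(b) = q^n Σ (1/(q)_a) ep(b) q^{-b} = q^n gb q (-1) n`.
* `euler2` is `euler_N` for `N = 0`: `gb q (-2) n` is `1`, `-q^{-1}`, `0` for `n = 0`, `1`, `≥ 2`.
* `gb_nat`: telescoping.
* `gb_one`: `gb q 1 n = (1 - q^{n+1})/(1-q)`.
-/

set_option autoImplicit false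

namespace Pool.Agent.H18.KR

open Finset

variable {F : Type} [Field F] {q : F}

theorem hq_inv (hq : ∀ n : ℕ, 0 < n → q ^ n ≠ 1) : ∀ n : ℕ, 0 < n → q⁻¹ ^ n ≠ 1 := by
  intro n hn h
  apply hq n hn
  rw [inv_pow] at h
  rw [← inv_inv (q ^ n), h, inv_one]

theorem qf_ne (hq : ∀ n : ℕ, 0 < n → q ^ n ≠ 1) (m : ℕ) : qf q m ≠ 0 := by
  rw [qf, prod_ne_zero_iff]
  intro i _
  rw [sub_ne_zero]
  exact fun h => hq (i + 1) (Nat.succ_pos i) h.symm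

theorem qf_zero (q : F) : qf q 0 = 1 := by simp [qf]

theorem qf_succ (q : F) (m : ℕ) : qf q (m + 1) = qf q m * (1 - q ^ (m + 1)) := by
  rw [qf, prod_range_succ, ← qf]

theorem ep_zero (q : F) : ep q 0 = 1 := by simp [ep, qf]

theorem gb_zero (q : F) (P : ℤ) : gb q P 0 = 1 := by simp [gb, qf]

theorem gb_eq_zero {P : ℤ} {m : ℕ} (hP : P < 0) (h : 0 ≤ P + m) : gb q P m = 0 := by
  rw [gb, prod_eq_zero (i := (-P - 1).toNat) (mem_range.2 (by omega)), zero_div]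
  have h1 : P + 1 + (((-P - 1).toNat : ℕ) : ℤ) = 0 := by omega
  rw [h1, zpow_zero, sub_self]

theorem gb_neg_one (q : F) {m : ℕ} (hm : 0 < m) : gb q (-1) m = 0 :=
  gb_eq_zero (by norm_num) (by omega)

private theorem prod_top (q : F) (P : ℤ) (m : ℕ) :
    ∏ i ∈ range (m + 1), (1 - q ^ (P + 1 + (i : ℤ))) =
      (∏ i ∈ range m, (1 - q ^ (P + 1 + (i : ℤ)))) * (1 - q ^ (P + 1 + (m : ℤ))) := by
  rw [prod_range_succ]

private theorem prod_bot (q : F) (P : ℤ) (m : ℕ) :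
    ∏ i ∈ range (m + 1), (1 - q ^ (P - 1 + 1 + (i : ℤ))) =
      (∏ i ∈ range m, (1 - q ^ (P + 1 + (i : ℤ)))) * (1 - q ^ P) := by
  rw [prod_range_succ']
  congr 1
  · apply prod_congr rfl
    intro i _
    congr 2
    push_cast
    ring
  · simp

private theorem ep_succ' (hq : ∀ n : ℕ, 0 < n → q ^ n ≠ 1) (m : ℕ) :
    ep q (m + 1) * (1 - q ^ (m + 1)) = -(q ^ (m + 1)) * ep q m := by
  have h3 : (1 : F) - q ^ (m + 1) ≠ 0 := sub_ne_zero.2 fun h => hq (m + 1) (Nat.succ_pos m) h.symm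
  have h4 := qf_ne hq m
  have h5 : (m + 1) * (m + 1 + 1) / 2 = m * (m + 1) / 2 + (m + 1) := by
    rw [show (m + 1) * (m + 1 + 1) = m * (m + 1) + (m + 1) * 2 by ring,
      Nat.add_mul_div_right _ _ (by norm_num)]
  rw [ep, ep, qf_succ, h5, pow_add q, pow_succ (-1 : F)]
  field_simp

private theorem gb_rec (hq : ∀ n : ℕ, 0 < n → q ^ n ≠ 1) (P : ℤ) (m : ℕ) :
    gb q P (m + 1) * (1 - q ^ (m + 1)) = gb q P m * (1 - q ^ (P + 1 + (m : ℤ))) := by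
  have h3 : (1 : F) - q ^ (m + 1) ≠ 0 := sub_ne_zero.2 fun h => hq (m + 1) (Nat.succ_pos m) h.symm
  have h4 := qf_ne hq m
  rw [gb, gb, prod_top, qf_succ]
  field_simp

private theorem ex_rec (hq0 : q ≠ 0) (hq : ∀ n : ℕ, 0 < n → q ^ n ≠ 1) (P : ℤ) (m : ℕ) :
    (∑ x ∈ antidiagonal (m + 1), (qf q x.1)⁻¹ * (ep q x.2 * q ^ ((x.2 : ℤ) * P))) *
        (1 - q ^ (m + 1)) =
      (∑ x ∈ antidiagonal m, (qf q x.1)⁻¹ * (ep q x.2 * q ^ ((x.2 : ℤ) * P))) *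
        (1 - q ^ (P + 1 + (m : ℤ))) := by
  have hA : (∑ x ∈ antidiagonal (m + 1), (qf q x.1)⁻¹ * (ep q x.2 * q ^ ((x.2 : ℤ) * P))) *
        (1 - q ^ (m + 1)) =
      (∑ x ∈ antidiagonal (m + 1),
        (qf q x.1)⁻¹ * (1 - q ^ x.1) * (ep q x.2 * q ^ ((x.2 : ℤ) * P))) +
      ∑ x ∈ antidiagonal (m + 1),
        (qf q x.1)⁻¹ * q ^ x.1 * (ep q x.2 * (1 - q ^ x.2) * q ^ ((x.2 : ℤ) * P)) := by
    rw [sum_mul, ← sum_add_distrib]
    apply sum_congr rfl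
    intro x hx
    rw [← mem_antidiagonal.1 hx, pow_add]
    ring
  have hB : (∑ x ∈ antidiagonal (m + 1),
        (qf q x.1)⁻¹ * (1 - q ^ x.1) * (ep q x.2 * q ^ ((x.2 : ℤ) * P))) =
      ∑ x ∈ antidiagonal m, (qf q x.1)⁻¹ * (ep q x.2 * q ^ ((x.2 : ℤ) * P)) := by
    rw [Finset.Nat.sum_antidiagonal_succ]
    simp only [pow_zero, sub_self, mul_zero, zero_mul, zero_add]
    apply sum_congr rfl
    intro x _
    have h3 : (1 : F) - q ^ (x.1 + 1) ≠ 0 :=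
      sub_ne_zero.2 fun h => hq (x.1 + 1) (Nat.succ_pos _) h.symm
    have h4 := qf_ne hq x.1
    rw [qf_succ]
    field_simp
  have hC : (∑ x ∈ antidiagonal (m + 1),
        (qf q x.1)⁻¹ * q ^ x.1 * (ep q x.2 * (1 - q ^ x.2) * q ^ ((x.2 : ℤ) * P))) =
      -∑ x ∈ antidiagonal m,
        (qf q x.1)⁻¹ * (ep q x.2 * q ^ ((x.2 : ℤ) * P)) * q ^ (P + 1 + (m : ℤ)) := by
    rw [Finset.Nat.sum_antidiagonal_succ']
    simp only [pow_zero, sub_self, mul_zero, zero_mul, zero_add, ← sum_neg_distrib]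
    apply sum_congr rfl
    intro x hx
    rw [ep_succ' hq]
    have h5 : q ^ (P + 1 + (m : ℤ)) * q ^ ((x.2 : ℤ) * P) =
        q ^ x.1 * q ^ (x.2 + 1) * q ^ (((x.2 + 1 : ℕ) : ℤ) * P) := by
      rw [← zpow_natCast q x.1, ← zpow_natCast q (x.2 + 1), ← zpow_add₀ hq0, ← zpow_add₀ hq0,
        ← zpow_add₀ hq0]
      congr 1
      rw [← mem_antidiagonal.1 hx]
      push_cast
      ring
    linear_combination (-(qf q x.1)⁻¹ * ep q x.2) * (-h5)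
  rw [hA, hB, hC, ← sum_mul]
  ring

theorem gb_pascal (hq0 : q ≠ 0) (hq : ∀ n : ℕ, 0 < n → q ^ n ≠ 1) (P : ℤ) (m : ℕ) :
    gb q P (m + 1) = gb q (P - 1) (m + 1) + q ^ P * gb q P m := by
  have h1 := prod_top q P m
  have h2 := prod_bot q P m
  have h3 : (1 : F) - q ^ (m + 1) ≠ 0 := sub_ne_zero.2 fun h => hq (m + 1) (Nat.succ_pos m) h.symm
  have h4 := qf_ne hq m
  have h5 : q ^ (P + 1 + (m : ℤ)) = q ^ P * q ^ (m + 1) := by
    rw [← zpow_natCast q (m + 1), ← zpow_add₀ hq0]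
    congr 1
    push_cast
    ring
  rw [gb, gb, gb, h1, h2, qf_succ, h5]
  field_simp
  ring

theorem gb_pascal' (hq0 : q ≠ 0) (hq : ∀ n : ℕ, 0 < n → q ^ n ≠ 1) (P : ℤ) (m : ℕ) :
    gb q P (m + 1) = q ^ (m + 1) * gb q (P - 1) (m + 1) + gb q P m := by
  have h1 := prod_top q P m
  have h2 := prod_bot q P m
  have h3 : (1 : F) - q ^ (m + 1) ≠ 0 := sub_ne_zero.2 fun h => hq (m + 1) (Nat.succ_pos m) h.symm
  have h4 := qf_ne hq m
  have h5 : q ^ (P + 1 + (m : ℤ)) = q ^ P * q ^ (m + 1) := by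
    rw [← zpow_natCast q (m + 1), ← zpow_add₀ hq0]
    congr 1
    push_cast
    ring
  rw [gb, gb, gb, h1, h2, qf_succ, h5]
  field_simp
  ring

theorem gb_expand (hq0 : q ≠ 0) (hq : ∀ n : ℕ, 0 < n → q ^ n ≠ 1) (P : ℤ) (m : ℕ) :
    gb q P m = ∑ x ∈ antidiagonal m, (qf q x.1)⁻¹ * (ep q x.2 * q ^ ((x.2 : ℤ) * P)) := by
  induction m with
  | zero => simp [gb, qf, ep]
  | succ m ih =>
    have h3 : (1 : F) - q ^ (m + 1) ≠ 0 :=
      sub_ne_zero.2 fun h => hq (m + 1) (Nat.succ_pos m) h.symm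
    apply mul_right_cancel₀ h3
    rw [gb_rec hq, ex_rec hq0 hq, ih]

theorem inv_qf_inv (hq0 : q ≠ 0) (hq : ∀ n : ℕ, 0 < n → q ^ n ≠ 1) (m : ℕ) :
    (qf q⁻¹ m)⁻¹ = ep q m := by
  induction m with
  | zero => simp [qf, ep]
  | succ m ih =>
    have h3 : (1 : F) - q ^ (m + 1) ≠ 0 :=
      sub_ne_zero.2 fun h => hq (m + 1) (Nat.succ_pos m) h.symm
    have h6 : (q : F) ^ (m + 1) ≠ 0 := pow_ne_zero _ hq0
    have h7 : (1 : F) - q⁻¹ ^ (m + 1) = -((1 - q ^ (m + 1)) / q ^ (m + 1)) := by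
      rw [inv_pow]
      field_simp
      ring
    apply mul_right_cancel₀ h3
    rw [ep_succ' hq, ← ih, qf_succ, mul_inv, h7, inv_neg, inv_div]
    field_simp

theorem euler_N (hq0 : q ≠ 0) (hq : ∀ n : ℕ, 0 < n → q ^ n ≠ 1) (N n : ℕ) :
    ∑ x ∈ antidiagonal n, q ^ x.1 / qf q x.1 * (q⁻¹ ^ x.2 / qf q⁻¹ x.2 * q ^ (N * x.2)) =
      q ^ n * gb q ((N : ℤ) - 2) n := by
  rw [gb_expand hq0 hq, mul_sum]
  apply sum_congr rfl
  intro x hx
  have h1 := inv_qf_inv hq0 hq x.2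
  have h5 : q ^ n * q ^ ((x.2 : ℤ) * ((N : ℤ) - 2)) =
      q ^ x.1 * (q⁻¹ ^ x.2 * q ^ (N * x.2)) := by
    rw [inv_pow, ← zpow_natCast q x.1, ← zpow_natCast q x.2, ← zpow_natCast q n,
      ← zpow_natCast q (N * x.2), ← zpow_neg, ← zpow_add₀ hq0, ← zpow_add₀ hq0, ← zpow_add₀ hq0]
    congr 1
    rw [← mem_antidiagonal.1 hx]
    push_cast
    ring
  rw [div_eq_mul_inv, div_eq_mul_inv, h1]
  linear_combination ((qf q x.1)⁻¹ * ep q x.2) * (-h5)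

theorem euler1 (hq0 : q ≠ 0) (hq : ∀ n : ℕ, 0 < n → q ^ n ≠ 1) (n : ℕ) :
    ∑ x ∈ antidiagonal n, q ^ x.1 / qf q x.1 * ep q x.2 = if n = 0 then 1 else 0 := by
  have h0 : ∑ x ∈ antidiagonal n, q ^ x.1 / qf q x.1 * ep q x.2 = q ^ n * gb q (-1) n := by
    rw [gb_expand hq0 hq, mul_sum]
    apply sum_congr rfl
    intro x hx
    have h5 : q ^ n * q ^ ((x.2 : ℤ) * (-1)) = q ^ x.1 := by
      rw [← zpow_natCast q x.1, ← zpow_natCast q n, ← zpow_add₀ hq0]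
      congr 1
      rw [← mem_antidiagonal.1 hx]
      push_cast
      ring
    rw [div_eq_mul_inv]
    linear_combination ((qf q x.1)⁻¹ * ep q x.2) * (-h5)
  rw [h0]
  split_ifs with h
  · subst h
    simp [gb_zero]
  · rw [gb_neg_one q (Nat.pos_of_ne_zero h), mul_zero]

theorem euler2 (hq0 : q ≠ 0) (hq : ∀ n : ℕ, 0 < n → q ^ n ≠ 1) (n : ℕ) :
    ∑ x ∈ antidiagonal n, q ^ x.1 / qf q x.1 * (q⁻¹ ^ x.2 / qf q⁻¹ x.2) =
      if n = 0 then 1 else if n = 1 then -1 else 0 := by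
  have h0 := euler_N hq0 hq 0 n
  simp only [zero_mul, pow_zero, mul_one] at h0
  rw [h0]
  split_ifs with h h'
  · subst h
    simp [gb_zero]
  · subst h'
    have h3 : (1 : F) - q ≠ 0 := sub_ne_zero.2 fun h => hq 1 Nat.one_pos (by rw [pow_one, ← h])
    have h8 : (((0 : ℕ) : ℤ) - 2 + 1 + ((0 : ℕ) : ℤ)) = -1 := by norm_num
    rw [gb, qf, prod_range_one, prod_range_one, h8, zpow_neg_one, zero_add, pow_one]
    field_simp
    ring
  · rw [gb_eq_zero (by norm_num) (by omega), mul_zero]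

theorem gb_nat (hq0 : q ≠ 0) (hq : ∀ n : ℕ, 0 < n → q ^ n ≠ 1) (P m : ℕ) :
    gb q (P : ℤ) m = qf q (P + m) / (qf q P * qf q m) := by
  have h4 := qf_ne hq m
  have h5 := qf_ne hq P
  have h6 : qf q (P + m) = qf q P * ∏ i ∈ range m, (1 - q ^ ((P : ℤ) + 1 + (i : ℤ))) := by
    rw [qf, prod_range_add, ← qf]
    congr 1
    apply prod_congr rfl
    intro i _
    rw [← zpow_natCast q (P + i + 1)]
    congr 2
    push_cast
    ring
  rw [h6, gb]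
  field_simp

theorem gb_one (hq0 : q ≠ 0) (hq : ∀ n : ℕ, 0 < n → q ^ n ≠ 1) (n : ℕ) :
    gb q 1 n = (1 - q ^ (n + 1)) / (1 - q) := by
  have h := gb_nat hq0 hq 1 n
  have h4 := qf_ne hq n
  have h1 : qf q 1 = 1 - q := by simp [qf]
  have h3 : (1 : F) - q ≠ 0 := sub_ne_zero.2 fun h => hq 1 Nat.one_pos (by rw [pow_one, ← h])
  rw [Nat.cast_one, h1, Nat.add_comm 1 n, qf_succ] at h
  rw [h]
  field_simp

end Pool.Agent.H18.KR
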