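import Pool.Agent.H18.KR.Defs4
import Pool.Agent.H18.KR.QNum

/-!
# Module Ch2 (about 120 lines). Characters of `SL_2`.

* `ch2_mul_sub`: telescoping: `ch2 s c * (s - s⁻¹) = s^(c+1) - s^(-(c+1))`.
* `ch2_mul` (Clebsch-Gordan): multiply both sides by `s - s⁻¹ ≠ 0` (as `s² ≠ 1`); by symmetry let
  `P ≤ c`; `CG c P = {c - P, c - P + 2, …, c + P}` and `ch2 s P * (s^(c+1) - s^(-(c+1))) =
  Σ_{i ≤ P} (s^(c+1+2i-P) - s^(-(c+1)+2i-P))`; replace `i` by `P - i` in the second sum. (Or: both sides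
  multiplied by `(s - s⁻¹)` are sums over `c' ∈ CG c P` of `s^(c'+1) - s^(-(c'+1))`.)
* `gh_one`: `gb q P 1 = (1 - q^(P+1))/(1 - q) = Σ_{i ≤ P} q^i`, `q = s²`.
-/

set_option autoImplicit false

namespace Pool.Agent.H18.KR

open Finset

variable {F : Type} [Field F] {s : F}

theorem ch2_zero (s : F) : ch2 s 0 = 1 := by
  unfold ch2
  simp

theorem ch2_mul_sub (hs0 : s ≠ 0) (c : ℕ) :
    ch2 s c * (s - s⁻¹) = s ^ ((c : ℤ) + 1) - s ^ (-((c : ℤ) + 1)) := by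
  have h1 : ∀ i : ℕ, s ^ (2 * (i : ℤ) - (c : ℤ)) * (s - s⁻¹) =
      (fun j : ℕ => s ^ (2 * (j : ℤ) - (c : ℤ) - 1)) (i + 1) -
        (fun j : ℕ => s ^ (2 * (j : ℤ) - (c : ℤ) - 1)) i := by
    intro i
    have e1 : 2 * ((i + 1 : ℕ) : ℤ) - (c : ℤ) - 1 = 2 * (i : ℤ) - (c : ℤ) + 1 := by
      push_cast
      ring
    change _ = s ^ (2 * ((i + 1 : ℕ) : ℤ) - (c : ℤ) - 1) - s ^ (2 * (i : ℤ) - (c : ℤ) - 1)
    rw [e1, zpow_add_one₀ hs0, zpow_sub_one₀ hs0, mul_sub]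
  unfold ch2
  rw [Finset.sum_mul, Finset.sum_congr rfl (fun i _ => h1 i)]
  refine Eq.trans (Finset.sum_range_sub (fun j : ℕ => s ^ (2 * (j : ℤ) - (c : ℤ) - 1)) (c + 1)) ?_
  congr 1
  · congr 1
    push_cast
    ring
  · congr 1
    push_cast
    ring

theorem CG_comm (c P : ℕ) : CG c P = CG P c := by
  unfold CG
  ext x
  rw [mem_filter, mem_filter, mem_range, mem_range]
  omega

private theorem ch2_sub_ne (hs0 : s ≠ 0) (hs2 : s ^ 2 ≠ 1) : s - s⁻¹ ≠ 0 := by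
  intro h
  apply hs2
  have h1 : s = s⁻¹ := sub_eq_zero.mp h
  calc s ^ 2 = s * s := by ring
    _ = s * s⁻¹ := by rw [← h1]
    _ = 1 := mul_inv_cancel₀ hs0

private theorem ch2_CG {c P : ℕ} (h : P ≤ c) (g : ℕ → F) :
    ∑ c' ∈ CG c P, g c' = ∑ i ∈ range (P + 1), g (c - P + 2 * i) := by
  refine Finset.sum_bij' (fun c' _ => (c' + P - c) / 2) (fun i _ => c - P + 2 * i) ?_ ?_ ?_ ?_ ?_
  · intro x hx
    unfold CG at hx
    rw [mem_filter, mem_range] at hx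
    rw [mem_range]
    omega
  · intro i hi
    unfold CG
    rw [mem_range] at hi
    rw [mem_filter, mem_range]
    omega
  · intro x hx
    unfold CG at hx
    rw [mem_filter, mem_range] at hx
    omega
  · intro i hi
    omega
  · intro x hx
    unfold CG at hx
    rw [mem_filter, mem_range] at hx
    have h1 : c - P + 2 * ((x + P - c) / 2) = x := by omega
    rw [h1]

private theorem ch2_mul_le (hs0 : s ≠ 0) (hs2 : s ^ 2 ≠ 1) {c P : ℕ} (h : P ≤ c) :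
    ch2 s c * ch2 s P = ∑ c' ∈ CG c P, ch2 s c' := by
  have h0 := ch2_sub_ne hs0 hs2
  refine mul_right_cancel₀ h0 ?_
  rw [Finset.sum_mul, Finset.sum_congr rfl (fun c' _ => ch2_mul_sub hs0 c'),
    ch2_CG h (fun c' => s ^ ((c' : ℤ) + 1) - s ^ (-((c' : ℤ) + 1))), Finset.sum_sub_distrib]
  have h1 : ch2 s c * ch2 s P * (s - s⁻¹) = ch2 s P * (ch2 s c * (s - s⁻¹)) := by ring
  rw [h1, ch2_mul_sub hs0, mul_sub]
  congr 1
  · unfold ch2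
    rw [Finset.sum_mul]
    refine Finset.sum_congr rfl fun i _ => ?_
    rw [← zpow_add₀ hs0]
    congr 1
    push_cast [h]
    ring
  · unfold ch2
    rw [Finset.sum_mul, ← Finset.sum_range_reflect (fun i : ℕ =>
      s ^ (-(((c - P + 2 * i : ℕ) : ℤ) + 1)))]
    refine Finset.sum_congr rfl fun i hi => ?_
    rw [mem_range] at hi
    rw [← zpow_add₀ hs0]
    congr 1
    omega

theorem ch2_mul (hs0 : s ≠ 0) (hs2 : s ^ 2 ≠ 1) (c P : ℕ) :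
    ch2 s c * ch2 s P = ∑ c' ∈ CG c P, ch2 s c' := by
  rcases Nat.le_total P c with h | h
  · exact ch2_mul_le hs0 hs2 h
  · rw [mul_comm, CG_comm]
    exact ch2_mul_le hs0 hs2 h

theorem gh_zero_right (s : F) (P : ℤ) : gh s P 0 = 1 := by
  unfold gh
  rw [gb_zero]
  simp

theorem gh_one (hs0 : s ≠ 0) (hs : ∀ n : ℕ, 0 < n → (s ^ 2) ^ n ≠ 1) (P : ℕ) :
    gh s (P : ℤ) 1 = ch2 s P := by
  have hs2 : s ^ 2 ≠ 1 := by
    have h := hs 1 Nat.one_pos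
    rwa [pow_one] at h
  have h0 := ch2_sub_ne hs0 hs2
  refine mul_right_cancel₀ h0 ?_
  rw [ch2_mul_sub hs0]
  have h1 : gb (s ^ 2) (P : ℤ) 1 = (1 - (s ^ 2) ^ ((P : ℤ) + 1)) / (1 - s ^ 2) := by
    unfold gb qf
    simp
  have h2 : (1 : F) - s ^ 2 = -(s * (s - s⁻¹)) := by
    rw [mul_sub, mul_inv_cancel₀ hs0]
    ring
  have h3 : (s ^ 2) ^ ((P : ℤ) + 1) = s * s ^ ((P : ℤ) + 1) * s ^ (P : ℤ) := by
    rw [← zpow_natCast s 2, ← zpow_mul, mul_assoc, ← zpow_add₀ hs0, ← zpow_one_add₀ hs0]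
    congr 1
    push_cast
    ring
  have h4 : s ^ (-((P : ℤ) * ((1 : ℕ) : ℤ))) = (s ^ (P : ℤ))⁻¹ := by
    rw [← zpow_neg]
    congr 1
    push_cast
    ring
  have h5 : s ^ (-((P : ℤ) + 1)) = (s ^ (P : ℤ))⁻¹ * s⁻¹ := by
    rw [← zpow_neg, ← zpow_sub_one₀ hs0]
    congr 1
    ring
  have h6 : s ^ (P : ℤ) ≠ 0 := zpow_ne_zero _ hs0
  unfold gh
  rw [h1, h2, h3, h4, h5]
  have h7 : -(s * (s - s⁻¹)) ≠ 0 := neg_ne_zero.mpr (mul_ne_zero hs0 h0)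
  rw [mul_div_assoc', div_mul_eq_mul_div, div_eq_iff h7]
  have h8 : (s ^ (P : ℤ))⁻¹ * s ^ (P : ℤ) = 1 := inv_mul_cancel₀ h6
  have h9 : s⁻¹ * s = 1 := inv_mul_cancel₀ hs0
  linear_combination (-(s * s ^ ((P : ℤ) + 1) * (s - s⁻¹))) * h8 -
    ((s ^ (P : ℤ))⁻¹ * (s - s⁻¹)) * h9

end Pool.Agent.H18.KR
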