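import Pool.Agent.H18.KR.StrB

/-!
# Module Dec (about 200 lines). Cutting strings at width `w`.

`loS w α`: the strings of width `≤ w` (indices `i < w`); `hiS w α`: the strings of width `> w`,
each shortened by `w` (`(hiS w α) i = α (i + w)`); `upS w γ`: all strings of `γ` lengthened by `w`
(`(upS w γ) (i + w) = γ i`, `(upS w γ) i = 0` for `i < w`).

`dec_eq`: `α = loS w α + upS w (hiS w α)`, pointwise: for `i < w` only the first, for `i ≥ w` only
the second term contributes (`Finsupp.mapDomain_apply`, `Finsupp.mapDomain_notin_range`).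
All statistics follow from additivity (`sz_add`, `fm_add_left`, ...) and the formulas for
`upS`: `sz (upS w γ) = w * cnt γ + sz γ`, `cnt (upS w γ) = cnt γ`,
`Qw (upS w γ) w' = w' * cnt γ` for `w' ≤ w` (also for `w' = w + 1`), `Qw (upS w γ) (w + i) = w * cnt γ + Qw γ i`,
`fm (upS w γ) (upS w δ) = w * cnt γ * cnt δ + fm γ δ`, `fm β (upS w γ) = cnt γ * sz β` when all
widths of `β` are `≤ w` (`Finsupp.sum_mapDomain_index`).
`sum_dec`: the map `α ↦ (loS w α, hiS w α)` is a bijection from `Pd d` onto the pairs `(β, γ)` with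
`supp β ⊆ range w` and `sz β + w * cnt γ + sz γ = d`; `Finset.sum_sigma'` and `Finset.sum_bij'`.
-/

set_option autoImplicit false

namespace Pool.Agent.H18.KR

open Finset

theorem hiS_apply (w : ℕ) (α : Str) (i : ℕ) : hiS w α i = α (i + w) := rfl

theorem upS_apply (w : ℕ) (γ : Str) (i : ℕ) : upS w γ (i + w) = γ i :=
  Finsupp.mapDomain_apply (fun _ _ h => Nat.add_right_cancel h) γ i

theorem upS_apply_lt (w : ℕ) (γ : Str) {i : ℕ} (h : i < w) : upS w γ i = 0 := by
  refine Finsupp.mapDomain_notin_range γ i ?_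
  rintro ⟨j, hj⟩
  simp only at hj
  omega

private lemma dec_loS_lt (w : ℕ) (α : Str) {i : ℕ} (h : i < w) : loS w α i = α i :=
  Finsupp.filter_apply_pos _ _ h

private lemma dec_loS_ge (w : ℕ) (α : Str) {i : ℕ} (h : w ≤ i) : loS w α i = 0 :=
  Finsupp.filter_apply_neg _ _ (not_lt.2 h)

theorem dec_eq (w : ℕ) (α : Str) : loS w α + upS w (hiS w α) = α := by
  ext i
  rw [Finsupp.add_apply]
  rcases lt_or_ge i w with h | h
  · rw [dec_loS_lt w α h, upS_apply_lt w _ h, add_zero]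
  · obtain ⟨j, rfl⟩ := Nat.exists_eq_add_of_le h
    rw [dec_loS_ge w α h, zero_add, Nat.add_comm w j, upS_apply, hiS_apply]

theorem loS_support (w : ℕ) (α : Str) : ∀ i ∈ (loS w α).support, i < w := by
  intro i hi
  by_contra h
  exact (Finsupp.mem_support_iff.1 hi) (dec_loS_ge w α (not_lt.1 h))

theorem loS_add (w : ℕ) (β γ : Str) (h : ∀ i ∈ β.support, i < w) : loS w (β + upS w γ) = β := by
  ext i
  rcases lt_or_ge i w with hi | hi
  · rw [dec_loS_lt w _ hi, Finsupp.add_apply, upS_apply_lt w _ hi, add_zero]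
  · rw [dec_loS_ge w _ hi]
    by_contra h1
    exact absurd (h i (Finsupp.mem_support_iff.2 (Ne.symm h1))) (not_lt.2 hi)

theorem hiS_add (w : ℕ) (β γ : Str) (h : ∀ i ∈ β.support, i < w) : hiS w (β + upS w γ) = γ := by
  ext i
  rw [hiS_apply, Finsupp.add_apply, upS_apply]
  have h1 : β (i + w) = 0 := by
    by_contra h2
    have h3 := h (i + w) (Finsupp.mem_support_iff.2 h2)
    omega
  rw [h1, zero_add]

private lemma dec_sum_upS (w : ℕ) (γ : Str) (h : ℕ → ℕ → ℕ) (h0 : ∀ i, h i 0 = 0)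
    (hadd : ∀ i a b, h i (a + b) = h i a + h i b) :
    (upS w γ).sum h = γ.sum fun i a => h (i + w) a :=
  Finsupp.sum_mapDomain_index h0 hadd

theorem cnt_upS (w : ℕ) (γ : Str) : cnt (upS w γ) = cnt γ :=
  dec_sum_upS w γ (fun _ a => a) (fun _ => rfl) (fun _ _ _ => rfl)

theorem sz_upS (w : ℕ) (γ : Str) : sz (upS w γ) = w * cnt γ + sz γ := by
  rw [sz, dec_sum_upS w γ (fun i a => (i + 1) * a) (fun i => by simp) (fun i a b => by ring)]
  simp only [cnt, sz, Finsupp.sum, Finset.mul_sum]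
  rw [← Finset.sum_add_distrib]
  exact Finset.sum_congr rfl fun i _ => by ring

theorem sz_dec (w : ℕ) (α : Str) : sz α = sz (loS w α) + w * cnt (hiS w α) + sz (hiS w α) := by
  conv_lhs => rw [← dec_eq w α, sz_add, sz_upS]
  ring

theorem cnt_dec (w : ℕ) (α : Str) : cnt α = cnt (loS w α) + cnt (hiS w α) := by
  conv_lhs => rw [← dec_eq w α, cnt_add, cnt_upS]

private lemma dec_Qw_upS (w : ℕ) (γ : Str) {w' : ℕ} (h : w' ≤ w + 1) :
    Qw (upS w γ) w' = w' * cnt γ := by
  rw [Qw, dec_sum_upS w γ (fun i a => min w' (i + 1) * a) (fun i => by simp)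
    (fun i a b => by ring)]
  simp only [cnt, Finsupp.sum, Finset.mul_sum]
  refine Finset.sum_congr rfl fun i _ => ?_
  rw [min_eq_left (by omega)]

private lemma dec_Qw_upS' (w : ℕ) (γ : Str) (i : ℕ) :
    Qw (upS w γ) (i + w + 1) = w * cnt γ + Qw γ (i + 1) := by
  rw [Qw, dec_sum_upS w γ (fun j a => min (i + w + 1) (j + 1) * a) (fun i => by simp)
    (fun i a b => by ring)]
  simp only [cnt, Qw, Finsupp.sum, Finset.mul_sum]
  rw [← Finset.sum_add_distrib]
  refine Finset.sum_congr rfl fun j _ => ?_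
  have h1 : min (i + w + 1) (j + w + 1) = w + min (i + 1) (j + 1) := by omega
  rw [h1]
  ring

private lemma dec_fm_upS_left (w : ℕ) (γ β : Str) :
    fm (upS w γ) β = γ.sum fun i a => a * Qw β (i + w + 1) := by
  rw [fm, dec_sum_upS w γ (fun i a => a * Qw β (i + 1)) (fun i => by simp) (fun i a b => by ring)]

private lemma dec_fm_upS (w : ℕ) (γ β : Str) (h : ∀ i ∈ β.support, i < w) :
    fm (upS w γ) β = cnt γ * sz β := by
  rw [dec_fm_upS_left]
  simp only [cnt, Finsupp.sum, Finset.sum_mul]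
  refine Finset.sum_congr rfl fun i _ => ?_
  rw [Qw_eq_sz (fun j hj => lt_of_lt_of_le (h j hj) (by omega))]

private lemma dec_fm_upS_upS (w : ℕ) (γ : Str) :
    fm (upS w γ) (upS w γ) = w * cnt γ ^ 2 + fm γ γ := by
  rw [dec_fm_upS_left]
  have h1 : (γ.sum fun i a => a * Qw (upS w γ) (i + w + 1)) =
      γ.sum fun i a => a * (w * cnt γ) + a * Qw γ (i + 1) := by
    refine Finsupp.sum_congr fun i _ => ?_
    rw [dec_Qw_upS', mul_add]
  rw [h1, Finsupp.sum_add]
  have h2 : (γ.sum fun _ a => a * (w * cnt γ)) = w * cnt γ ^ 2 := by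
    have h3 : (γ.sum fun _ a => a * (w * cnt γ)) = cnt γ * (w * cnt γ) := by
      rw [cnt, Finsupp.sum, Finsupp.sum, Finset.sum_mul]
    rw [h3]
    ring
  rw [h2, fm]

theorem Qw_dec (w : ℕ) (α : Str) {w' : ℕ} (h : w' ≤ w + 1) :
    Qw α w' = Qw (loS w α) w' + w' * cnt (hiS w α) := by
  conv_lhs => rw [← dec_eq w α, Qw_add, dec_Qw_upS w _ h]

theorem fm_dec (w : ℕ) (α : Str) :
    fm α α = fm (loS w α) (loS w α) + 2 * (cnt (hiS w α) * sz (loS w α)) +
      w * cnt (hiS w α) ^ 2 + fm (hiS w α) (hiS w α) := by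
  conv_lhs => rw [← dec_eq w α]
  rw [fm_add_left, fm_add_right, fm_add_right, fm_comm (loS w α) (upS w (hiS w α)),
    dec_fm_upS w _ _ (loS_support w α), dec_fm_upS_upS]
  ring

theorem fm_dec' (w : ℕ) (κ α : Str) (hκ : ∀ i ∈ κ.support, i < w) :
    fm κ α = fm κ (loS w α) + cnt (hiS w α) * sz κ := by
  conv_lhs => rw [← dec_eq w α]
  rw [fm_add_right, fm_comm κ (upS w (hiS w α)), dec_fm_upS w _ _ hκ]

theorem qfp_dec {F : Type} [Field F] (q : F) (w : ℕ) (α : Str) :
    qfp q α = qfp q (loS w α) * qfp q (hiS w α) := by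
  conv_lhs => rw [← dec_eq w α]
  have hd : Disjoint (loS w α).support (upS w (hiS w α)).support := by
    rw [Finset.disjoint_left]
    intro i h1 h2
    exact (Finsupp.mem_support_iff.1 h2) (upS_apply_lt w _ (loS_support w α i h1))
  rw [qfp, Finsupp.prod_add_index_of_disjoint hd]
  congr 1
  exact Finsupp.prod_mapDomain_index_inj (fun _ _ h => Nat.add_right_cancel h)

/-- the sum over `Pd d` as a sum over the short and the long parts -/
theorem sum_dec {M : Type} [AddCommMonoid M] (w d : ℕ) (Φ : Str → Str → M) :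
    ∑ α ∈ Pd d, Φ (loS w α) (hiS w α) =
      ∑ t ∈ (range (d + 1) ×ˢ range (d + 1) ×ˢ range (d + 1)).filter
          (fun t => t.1 + w * t.2.1 + t.2.2 = d),
        ∑ β ∈ (Pd t.1).filter (fun β => ∀ i ∈ β.support, i < w),
          ∑ γ ∈ (Pd t.2.2).filter (fun γ => cnt γ = t.2.1), Φ β γ := by
  have hmaps : ∀ α ∈ Pd d, (sz (loS w α), cnt (hiS w α), sz (hiS w α)) ∈
      (range (d + 1) ×ˢ range (d + 1) ×ˢ range (d + 1)).filter
        (fun t => t.1 + w * t.2.1 + t.2.2 = d) := by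
    intro α hα
    have h1 : sz α = d := mem_Pd.1 hα
    have h2 := sz_dec w α
    have h3 := cnt_dec w α
    have h4 := cnt_le_sz α
    have h5 : w * cnt (hiS w α) ≥ 0 := Nat.zero_le _
    simp only [mem_filter, mem_product, mem_range]
    refine ⟨⟨?_, ?_, ?_⟩, ?_⟩ <;> omega
  rw [← Finset.sum_fiberwise_of_maps_to hmaps]
  refine Finset.sum_congr rfl fun t ht => ?_
  obtain ⟨-, ht⟩ := mem_filter.1 ht
  rw [← Finset.sum_product']
  refine Finset.sum_bij' (fun α _ => (loS w α, hiS w α)) (fun p _ => p.1 + upS w p.2)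
    ?_ ?_ ?_ ?_ ?_
  · intro α hα
    obtain ⟨-, h2⟩ := mem_filter.1 hα
    have h3 : sz (loS w α) = t.1 := congrArg Prod.fst h2
    have h4 : cnt (hiS w α) = t.2.1 := congrArg (fun u => u.2.1) h2
    have h5 : sz (hiS w α) = t.2.2 := congrArg (fun u => u.2.2) h2
    refine mem_product.2 ⟨mem_filter.2 ⟨mem_Pd.2 h3, loS_support w α⟩,
      mem_filter.2 ⟨mem_Pd.2 h5, h4⟩⟩
  · intro p hp
    obtain ⟨h1, h2⟩ := mem_product.1 hp
    obtain ⟨h3, h4⟩ := mem_filter.1 h1
    obtain ⟨h5, h6⟩ := mem_filter.1 h2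
    have h7 := mem_Pd.1 h3
    have h8 := mem_Pd.1 h5
    refine mem_filter.2 ⟨mem_Pd.2 ?_, ?_⟩
    · rw [sz_add, sz_upS, h7, h8, h6]
      omega
    · rw [loS_add w _ _ h4, hiS_add w _ _ h4, h7, h6, h8]
  · intro α _
    exact dec_eq w α
  · intro p hp
    obtain ⟨h1, -⟩ := mem_product.1 hp
    obtain ⟨-, h4⟩ := mem_filter.1 h1
    rw [loS_add w _ _ h4, hiS_add w _ _ h4]
  · intro α _
    rfl

end Pool.Agent.H18.KR
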