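import Pool.Agent.H18.KR.AS

/-!
# Module NSV (about 100 lines). The truncated sum vanishes in the weights `-1, …, -e-1`.

Let `τ ≤ κ`, all widths of `κ` at most `w0`, `w ≤ e`, `|κ| + e w0 - 2D = -1 - w`. The sum over the `α`
of total width `D` with all widths `≤ w0` of
`q^{(α,α)-(κ-τ,α)} ∏_i gb(e (i+1) + Qw κ (i+1) - 2 Qw α (i+1), α_i)` is zero.

If `w0 = 0` then `κ = 0` and the sum is empty: `D = 0` is impossible as `-2D = -1-w`, and for `D > 0`
no `α` has total width `D` and no widths. Let `w0 ≥ 1`. Put `κ1 = κ - τ`,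
`κ2 = τ + single (w0-1) (e-w) + single w0 w` (`e - w` strings of width `w0`, `w` strings of width
`w0 + 1`). Then `sz κ1 + sz κ2 = |κ| + e w0 + w = 2D - 1`, so `as_vanish` applies. In its sum the
`α` which have a string of width `> w0` contribute zero: let `i0` be the maximum of the support of
`α`, `i0 ≥ w0`; then `Qw α (i0+1) = sz α = D` and `Qw κj (i0+1) = sz κj` (all widths of `κ1`, `κ2`
are `≤ w0+1 ≤ i0+1`, `Qw_eq_sz`), so the factor of `i0` is `gb q (2D-1-2D) a = gb q (-1) a = 0`,
`a = α i0 > 0` (`gb_neg_one`). For the other `α` and `i` in the support, `i + 1 ≤ w0`, hence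
`Qw κ2 (i+1) = Qw τ (i+1) + (i+1) (e-w) + (i+1) w`, and
`Qw κ1 (i+1) + Qw κ2 (i+1) = Qw κ (i+1) + e (i+1)` (`κ - τ + τ = κ`). So the remaining sum is the
sum of the claim.
-/

set_option autoImplicit false

namespace Pool.Agent.H18.KR

open Finset

variable {F : Type} [Field F] {q : F}

theorem nsv (hq0 : q ≠ 0) (hq : ∀ n : ℕ, 0 < n → q ^ n ≠ 1) (κ τ : Str) (hτ : τ ≤ κ) (w0 : ℕ)
    (hκ : ∀ i ∈ κ.support, i < w0) (e w : ℕ) (hw : w ≤ e) (D : ℕ)
    (h : (sz κ : ℤ) + (e : ℤ) * w0 - 2 * (D : ℤ) = -1 - (w : ℤ)) :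
    ∑ α ∈ (Pd D).filter (fun α => ∀ i ∈ α.support, i < w0),
      q ^ ((fm α α : ℤ) - (fm (κ - τ) α : ℤ)) *
      (α.prod fun i a =>
        gb q ((e : ℤ) * ((i : ℤ) + 1) + (Qw κ (i + 1) : ℤ) - 2 * (Qw α (i + 1) : ℤ)) a) = 0 := by
  have hsub : κ - τ + τ = κ := tsub_add_cancel_of_le hτ
  rcases Nat.eq_zero_or_pos w0 with hw0 | hw0
  · subst hw0
    have hκ0 : κ = 0 := by
      rw [← Finsupp.support_eq_empty, Finset.eq_empty_iff_forall_notMem]
      exact fun i hi => absurd (hκ i hi) (Nat.not_lt_zero i)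
    have hD : D ≠ 0 := by
      rintro rfl
      rw [hκ0, sz_zero] at h
      push_cast at h
      omega
    refine Finset.sum_eq_zero fun α hα => ?_
    rw [Finset.mem_filter, mem_Pd] at hα
    exfalso
    have hα0 : α = 0 := by
      rw [← Finsupp.support_eq_empty, Finset.eq_empty_iff_forall_notMem]
      exact fun i hi => absurd (hα.2 i hi) (Nat.not_lt_zero i)
    apply hD
    rw [← hα.1, hα0, sz_zero]
  · set κ2 : Str := τ + Finsupp.single (w0 - 1) (e - w) + Finsupp.single w0 w with hκ2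
    have hszsub : sz (κ - τ) + sz τ = sz κ := by rw [← sz_add, hsub]
    have hw01 : w0 - 1 + 1 = w0 := Nat.sub_add_cancel hw0
    have hsz2 : sz κ2 = sz τ + w0 * (e - w) + (w0 + 1) * w := by
      rw [hκ2, sz_add, sz_add, sz_single, sz_single, hw01]
    have hsz : 2 * D = sz (κ - τ) + sz κ2 + 1 := by
      rw [hsz2]
      zify [hw]
      have h1 : (sz (κ - τ) : ℤ) + sz τ = sz κ := by exact_mod_cast hszsub
      linear_combination -h - h1
    have hmain := as_vanish hq0 hq (κ - τ) κ2 D hsz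
    rw [← Finset.sum_filter_add_sum_filter_not (Pd D) (fun α => ∀ i ∈ α.support, i < w0)] at hmain
    have hzero : ∑ α ∈ (Pd D).filter (fun α => ¬ ∀ i ∈ α.support, i < w0),
        q ^ ((fm α α : ℤ) - (fm (κ - τ) α : ℤ)) * (α.prod fun i a =>
          gb q ((Qw (κ - τ) (i + 1) : ℤ) + (Qw κ2 (i + 1) : ℤ) - 2 * (Qw α (i + 1) : ℤ)) a)
          = 0 := by
      refine Finset.sum_eq_zero fun α hα => ?_
      rw [Finset.mem_filter, mem_Pd] at hα
      obtain ⟨hαD, hαw⟩ := hα
      push Not at hαw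
      obtain ⟨j, hj, hjw⟩ := hαw
      have hne : α.support.Nonempty := ⟨j, hj⟩
      set i0 := α.support.max' hne with hi0
      have hi0m : i0 ∈ α.support := Finset.max'_mem _ _
      have hji : j ≤ i0 := Finset.le_max' _ _ hj
      have h1 : Qw α (i0 + 1) = D := by
        rw [← hαD]
        exact Qw_eq_sz fun i hi => Nat.lt_succ_of_le (Finset.le_max' _ _ hi)
      have h2 : Qw (κ - τ) (i0 + 1) = sz (κ - τ) := by
        refine Qw_eq_sz fun i hi => ?_
        have h3 : i ∈ κ.support := by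
          rw [Finsupp.mem_support_iff] at hi ⊢
          intro h4
          apply hi
          rw [Finsupp.tsub_apply, h4, Nat.zero_sub]
        have := hκ i h3
        omega
      have h3 : Qw κ2 (i0 + 1) = sz κ2 := by
        refine Qw_eq_sz fun i hi => ?_
        by_contra hcon
        rw [Finsupp.mem_support_iff] at hi
        apply hi
        have h4 : τ i = 0 := by
          have h5 : κ i = 0 := by
            by_contra h6
            have := hκ i (Finsupp.mem_support_iff.2 h6)
            omega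
          have := hτ i
          rw [h5] at this
          exact Nat.le_zero.1 this
        rw [hκ2, Finsupp.add_apply, Finsupp.add_apply, h4, Finsupp.single_apply,
          Finsupp.single_apply, if_neg (by omega), if_neg (by omega), add_zero, add_zero]
      have h4 : (Qw (κ - τ) (i0 + 1) : ℤ) + (Qw κ2 (i0 + 1) : ℤ) - 2 * (Qw α (i0 + 1) : ℤ)
          = -1 := by
        rw [h1, h2, h3]
        have h5 : (2 * D : ℤ) = sz (κ - τ) + sz κ2 + 1 := by exact_mod_cast hsz
        linarith
      have h5 : (α.prod fun i a => gb q ((Qw (κ - τ) (i + 1) : ℤ) + (Qw κ2 (i + 1) : ℤ) -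
          2 * (Qw α (i + 1) : ℤ)) a) = 0 := by
        rw [Finsupp.prod]
        refine Finset.prod_eq_zero hi0m ?_
        rw [h4]
        exact gb_neg_one q (Nat.pos_of_ne_zero (Finsupp.mem_support_iff.1 hi0m))
      rw [h5, mul_zero]
    rw [hzero, add_zero] at hmain
    rw [← hmain]
    refine Finset.sum_congr rfl fun α hα => ?_
    rw [Finset.mem_filter] at hα
    congr 1
    refine Finsupp.prod_congr fun i hi => ?_
    have hi0 := hα.2 i hi
    congr 1
    have h1 : Qw (κ - τ) (i + 1) + Qw τ (i + 1) = Qw κ (i + 1) := by rw [← Qw_add, hsub]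
    have h2 : Qw κ2 (i + 1) = Qw τ (i + 1) + (i + 1) * (e - w) + (i + 1) * w := by
      rw [hκ2, Qw_add, Qw_add, Qw_single, Qw_single, hw01, min_eq_left (by omega),
        min_eq_left (by omega)]
    rw [h2, ← h1]
    push_cast [hw]
    ring

end Pool.Agent.H18.KR
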