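import Pool.Agent.H18.KR.CfB
import Pool.Agent.H18.KR.Dec
import Pool.Agent.H18.KR.NSV

/-!
# Module Cls (about 250 lines). The sum over a class vanishes.

Let `β := m k` have only widths `> w0` (indices `≥ w0`), `c = cnt β`. Let `κ = loS w0 (nbs G m k)`,
`c' = cnt (hiS w0 (nbs G m k))`. By `Qw_eq_mul`, `Qw_dec`, `Qw_eq_sz`:
`Qw β w = w c` for `w ≤ w0 + 1`, `Qw (nbs G m k) w = Qw κ w + w c'` for `w ≤ w0 + 1`, and
`Qw κ w0 = Qw κ (w0+1) = sz κ`. Put `e := N k - 2c + c'` (an integer). Then `h1` says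
`e w0 + sz κ - 2 D0 < 0` and `h2` says `0 ≤ e (w0+1) + sz κ - 2 D0`. So `e > 0`; let
`w := -1 - (e w0 + sz κ - 2 D0) ≥ 0`; then `w ≤ e - 1`, so `w ≤ e` and
`sz κ + e w0 - 2 D0 = -1 - w`: this is the hypothesis of `nsv`.

Let `α ∈ Pd D0` with indices `< w0`, `m' = update m k (α + β)`.
* `EE_update`: `EE G m' = EE G (update m k 0) + 2 (fm (α+β) (α+β) - fm (nbs G m k) (α+β))`;
  `fm (α+β) (α+β) = fm α α + 2 fm β α + fm β β`, `fm β α = c D0` (all widths of `α` are `≤ w0`,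
  all widths of `β` are `> w0`: `fm β α = β.sum (a * Qw α (i+1))`, `Qw α (i+1) = sz α`),
  `fm (nbs G m k) α = fm κ α + c' D0` (`fm_comm`, `fm_dec'` with the roles exchanged, or `dec_eq`).
  So `s ^ EE G m' = const * q^{fm α α - fm κ α}`, `q = s ^ 2`.
* node `k`: `(α+β).prod f = α.prod f * β.prod f` (disjoint supports,
  `Finsupp.prod_add_index_of_disjoint`). For `i` in the support of `α` (`i + 1 ≤ w0`) the vacancy number is
  `N k (i+1) - 2 Qw α (i+1) - 2c (i+1) + Qw κ (i+1) + c' (i+1) = e (i+1) + Qw κ (i+1) - 2 Qw α (i+1)`;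
  for `i` in the support of `β` it does not depend on `α` (`Qw α (i+1) = D0`).
* a node `l ≠ k` which is not adjacent to `k`: no dependence on `α` (`Pv_update_not`).
* a node `l` adjacent to `k`: the vacancy number is
  `Pv G N (update m k 0) l (i+1) + Qw β (i+1) + Qw α (i+1)`. For `i ≥ w0` the last term is `D0`. For
  `i < w0` expand `gb q (P' + Qw α (i+1)) a = Σ_{x ∈ antidiagonal a} (qf q x.1)⁻¹ ep q x.2 q^{x.2 P'}
  q^{x.2 Qw α (i+1)}` (`gb_expand`). With `prod_anti'` for the string `loS w0 (m l)`, the product over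
  the `i < w0` is `Σ_{(σ_l, τ_l) ∈ antidiagonal (loS w0 (m l))} const(σ_l, τ_l) * q^{fm τ_l α}`
  (`fm τ_l α = Σ_i τ_l(i) Qw α (i+1)`).
* The product over the neighbours `l` of these sums is a sum over families (`Finset.prod_sum`, or
  `Finset.prod_univ_sum` with trivial factors at the other nodes) of
  `const * q^{fm τ α}`, `τ = Σ_l τ_l ≤ Σ_l loS w0 (m l) = κ` (`loS` is additive).
* So the sum over `α` is a linear combination of the sums
  `Σ_α q^{fm α α - fm κ α + fm τ α} * α.prod (gb (e(i+1) + Qw κ (i+1) - 2 Qw α (i+1)))`, `τ ≤ κ`,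
  `fm κ α - fm τ α = fm (κ - τ) α`, and all of them are zero by `nsv` (`κ` has widths `≤ w0`).
-/

set_option autoImplicit false

namespace Pool.Agent.H18.KR

open Finset

variable {I : Type} [Fintype I] [DecidableEq I] (G : SimpleGraph I) [DecidableRel G.Adj]
variable {F : Type} [Field F] {s : F}

/-- `Φ` is on `A` a combination of the exponentials `q ^ fm τ α`, `τ ≤ κ` -/
private def cls_Ex (A : Finset Str) (q : F) (κ : Str) (Φ : Str → F) : Prop :=
  ∃ (ι : Type) (_ : Fintype ι) (c : ι → F) (τ : ι → Str),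
    (∀ t, τ t ≤ κ) ∧ ∀ α ∈ A, Φ α = ∑ t, c t * q ^ fm (τ t) α

private lemma cls_const (A : Finset Str) (q : F) (Φ : Str → F) (c : F)
    (h : ∀ α ∈ A, Φ α = c) : cls_Ex A q 0 Φ := by
  refine ⟨Unit, inferInstance, fun _ => c, fun _ => 0, fun _ => le_refl _, fun α hα => ?_⟩
  rw [h α hα, Fintype.sum_unique, fm_zero_left, pow_zero, mul_one]

private lemma cls_mul {A : Finset Str} {q : F} {κ κ' : Str} {Φ Ψ : Str → F}
    (h : cls_Ex A q κ Φ) (h' : cls_Ex A q κ' Ψ) : cls_Ex A q (κ + κ') (fun α => Φ α * Ψ α) := by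
  obtain ⟨ι, hι, c, τ, h1, h2⟩ := h
  obtain ⟨ι', hι', c', τ', h1', h2'⟩ := h'
  refine ⟨ι × ι', inferInstance, fun t => c t.1 * c' t.2, fun t => τ t.1 + τ' t.2,
    fun t => add_le_add (h1 t.1) (h1' t.2), fun α hα => ?_⟩
  change Φ α * Ψ α = _
  rw [h2 α hα, h2' α hα, Fintype.sum_prod_type, Finset.sum_mul_sum]
  refine Finset.sum_congr rfl fun t _ => Finset.sum_congr rfl fun t' _ => ?_
  change _ = c t * c' t' * q ^ fm (τ t + τ' t') α
  rw [fm_add_left, pow_add]
  ring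

private lemma cls_prod {A : Finset Str} {q : F} {J : Type} [DecidableEq J] (S : Finset J)
    (κ : J → Str) (Φ : J → Str → F) (h : ∀ l ∈ S, cls_Ex A q (κ l) (Φ l)) :
    cls_Ex A q (∑ l ∈ S, κ l) (fun α => ∏ l ∈ S, Φ l α) := by
  induction S using Finset.induction_on with
  | empty =>
    rw [Finset.sum_empty]
    exact cls_const A q _ 1 fun α _ => Finset.prod_empty
  | insert a T ha ih =>
    rw [Finset.sum_insert ha]
    have h1 := cls_mul (h a (Finset.mem_insert_self a T))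
      (ih fun l hl => h l (Finset.mem_insert_of_mem hl))
    have h2 : (fun α => ∏ l ∈ insert a T, Φ l α) = fun α => Φ a α * ∏ l ∈ T, Φ l α := by
      funext α
      rw [Finset.prod_insert ha]
    rw [h2]
    exact h1

private lemma cls_gb {q : F} (hq0 : q ≠ 0) (hq : ∀ n : ℕ, 0 < n → q ^ n ≠ 1) (A : Finset Str)
    (i a : ℕ) (P : ℤ) :
    cls_Ex A q (Finsupp.single i a) (fun α => gb q (P + (Qw α (i + 1) : ℤ)) a) := by
  refine ⟨antidiagonal a, inferInstance,
    fun x => (qf q x.1.1)⁻¹ * (ep q x.1.2 * q ^ ((x.1.2 : ℤ) * P)),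
    fun x => Finsupp.single i x.1.2, fun x => ?_, fun α _ => ?_⟩
  · have h1 := HasAntidiagonal.mem_antidiagonal.1 x.2
    exact Finsupp.single_le_single.2 (by omega)
  · change gb q (P + (Qw α (i + 1) : ℤ)) a = _
    rw [gb_expand hq0 hq, ← Finset.sum_coe_sort (antidiagonal a)
      (fun x => (qf q x.1)⁻¹ * (ep q x.2 * q ^ ((x.2 : ℤ) * (P + (Qw α (i + 1) : ℤ)))))]
    refine Finset.sum_congr rfl fun x _ => ?_
    change _ = (qf q x.1.1)⁻¹ * (ep q x.1.2 * q ^ ((x.1.2 : ℤ) * P)) *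
      q ^ fm (Finsupp.single i x.1.2) α
    rw [fm_single_left, mul_add, zpow_add₀ hq0, ← zpow_natCast q (x.1.2 * Qw α (i + 1))]
    push_cast
    ring

private lemma cls_loS_lt (w : ℕ) (α : Str) {i : ℕ} (h : i < w) : loS w α i = α i :=
  Finsupp.filter_apply_pos _ _ h

private lemma cls_loS_ge (w : ℕ) (α : Str) {i : ℕ} (h : ¬ i < w) : loS w α i = 0 :=
  Finsupp.filter_apply_neg _ _ h

private lemma cls_loS (w : ℕ) (α : Str) :
    ∑ i ∈ α.support, (if i < w then Finsupp.single i (α i) else 0) = loS w α := by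
  rw [← Finset.sum_filter]
  conv_rhs => rw [← Finsupp.sum_single (loS w α)]
  have h1 : (loS w α).support = α.support.filter (fun i => i < w) := Finsupp.support_filter _ _
  rw [Finsupp.sum, h1]
  refine Finset.sum_congr rfl fun i hi => ?_
  rw [cls_loS_lt w α (Finset.mem_filter.1 hi).2]

private lemma cls_loS_sum {J : Type} (w : ℕ) (S : Finset J) (f : J → Str) :
    ∑ l ∈ S, loS w (f l) = loS w (∑ l ∈ S, f l) := by
  ext i
  rw [Finsupp.finsetSum_apply]
  by_cases h : i < w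
  · rw [cls_loS_lt w _ h, Finsupp.finsetSum_apply]
    exact Finset.sum_congr rfl fun l _ => cls_loS_lt w _ h
  · rw [cls_loS_ge w _ h]
    exact Finset.sum_eq_zero fun l _ => cls_loS_ge w _ h

/-- the final step: a factor in the span of the exponentials -/
private lemma cls_nsv {q : F} (hq0 : q ≠ 0) (hq : ∀ n : ℕ, 0 < n → q ^ n ≠ 1) (κ : Str) (w0 : ℕ)
    (hκ : ∀ i ∈ κ.support, i < w0) (e w : ℕ) (hw : w ≤ e) (D : ℕ)
    (h : (sz κ : ℤ) + (e : ℤ) * w0 - 2 * (D : ℤ) = -1 - (w : ℤ)) (Φ : Str → F)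
    (hΦ : cls_Ex ((Pd D).filter (fun α => ∀ i ∈ α.support, i < w0)) q κ Φ) :
    ∑ α ∈ (Pd D).filter (fun α => ∀ i ∈ α.support, i < w0),
      q ^ ((fm α α : ℤ) - (fm κ α : ℤ)) *
      (α.prod fun i a =>
        gb q ((e : ℤ) * ((i : ℤ) + 1) + (Qw κ (i + 1) : ℤ) - 2 * (Qw α (i + 1) : ℤ)) a) * Φ α
      = 0 := by
  obtain ⟨ι, hι, c, τ, h1, h2⟩ := hΦ
  have h3 : ∀ α ∈ (Pd D).filter (fun α => ∀ i ∈ α.support, i < w0),
      q ^ ((fm α α : ℤ) - (fm κ α : ℤ)) *
      (α.prod fun i a =>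
        gb q ((e : ℤ) * ((i : ℤ) + 1) + (Qw κ (i + 1) : ℤ) - 2 * (Qw α (i + 1) : ℤ)) a) * Φ α =
      ∑ t, c t * (q ^ ((fm α α : ℤ) - (fm (κ - τ t) α : ℤ)) *
      (α.prod fun i a =>
        gb q ((e : ℤ) * ((i : ℤ) + 1) + (Qw κ (i + 1) : ℤ) - 2 * (Qw α (i + 1) : ℤ)) a)) := by
    intro α hα
    rw [h2 α hα, Finset.mul_sum]
    refine Finset.sum_congr rfl fun t _ => ?_
    have h4 : fm κ α = fm (κ - τ t) α + fm (τ t) α := by
      rw [← fm_add_left, tsub_add_cancel_of_le (h1 t)]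
    have h5 : (fm α α : ℤ) - (fm (κ - τ t) α : ℤ) =
        ((fm α α : ℤ) - (fm κ α : ℤ)) + (fm (τ t) α : ℤ) := by
      rw [h4]
      push_cast
      ring
    rw [h5, zpow_add₀ hq0, zpow_natCast]
    ring
  rw [Finset.sum_congr rfl h3, Finset.sum_comm]
  refine Finset.sum_eq_zero fun t _ => ?_
  rw [← Finset.mul_sum, nsv hq0 hq κ (τ t) (h1 t) w0 hκ e w hw D h, mul_zero]

theorem class_sum (N : I → ℕ) (hs0 : s ≠ 0) (hs : ∀ n : ℕ, 0 < n → (s ^ 2) ^ n ≠ 1) (m : Cf I)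
    (k : I) (w0 D0 : ℕ) (hm : ∀ i ∈ (m k).support, w0 ≤ i)
    (h1 : (N k : ℤ) * w0 - 2 * ((D0 : ℤ) + (Qw (m k) w0 : ℤ)) + (Qw (nbs G m k) w0 : ℤ) < 0)
    (h2 : 0 ≤ (N k : ℤ) * ((w0 : ℤ) + 1) - 2 * ((D0 : ℤ) + (Qw (m k) (w0 + 1) : ℤ)) +
      (Qw (nbs G m k) (w0 + 1) : ℤ)) :
    ∑ α ∈ (Pd D0).filter (fun α => ∀ i ∈ α.support, i < w0),
      wt G N s (Function.update m k (α + m k)) = 0 := by
  classical
  set β : Str := m k with hβ
  set ν : Str := nbs G m k with hν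
  set c : ℕ := cnt β with hc
  set κ : Str := loS w0 ν with hκd
  set c' : ℕ := cnt (hiS w0 ν) with hc'
  set A : Finset Str := (Pd D0).filter (fun α => ∀ i ∈ α.support, i < w0) with hA
  have hq0 : s ^ 2 ≠ 0 := pow_ne_zero 2 hs0
  have hκ : ∀ i ∈ κ.support, i < w0 := loS_support w0 ν
  have hβw : ∀ w, w ≤ w0 + 1 → Qw β w = w * c := fun w hw =>
    Qw_eq_mul fun i hi => le_trans hw (Nat.succ_le_succ (hm i hi))
  have hνw : ∀ w, w ≤ w0 + 1 → Qw ν w = Qw κ w + w * c' := fun w hw => Qw_dec w0 ν hw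
  have hκ0 : Qw κ w0 = sz κ := Qw_eq_sz hκ
  have hκ1 : Qw κ (w0 + 1) = sz κ := Qw_eq_sz fun i hi => lt_trans (hκ i hi) (Nat.lt_succ_self w0)
  rw [hβw w0 (Nat.le_succ w0), hνw w0 (Nat.le_succ w0), hκ0] at h1
  rw [hβw (w0 + 1) (le_refl _), hνw (w0 + 1) (le_refl _), hκ1] at h2
  push_cast at h1 h2
  set E : ℤ := (N k : ℤ) - 2 * (c : ℤ) + (c' : ℤ) with hE
  have h1' : E * w0 + sz κ - 2 * (D0 : ℤ) < 0 := by
    have : E * w0 + sz κ - 2 * (D0 : ℤ) = (N k : ℤ) * w0 - 2 * ((D0 : ℤ) + w0 * c) +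
        ((sz κ : ℤ) + w0 * c') := by rw [hE]; ring
    rw [this]
    exact h1
  have h2' : 0 ≤ E * w0 + sz κ - 2 * (D0 : ℤ) + E := by
    have : E * w0 + sz κ - 2 * (D0 : ℤ) + E = (N k : ℤ) * ((w0 : ℤ) + 1) -
        2 * ((D0 : ℤ) + ((w0 : ℤ) + 1) * c) + ((sz κ : ℤ) + ((w0 : ℤ) + 1) * c') := by
      rw [hE]; ring
    rw [this]
    exact h2
  obtain ⟨e, he⟩ := Int.eq_ofNat_of_zero_le (show 0 ≤ E by linarith)
  obtain ⟨w, hw⟩ := Int.eq_ofNat_of_zero_le
    (show 0 ≤ -1 - (E * w0 + sz κ - 2 * (D0 : ℤ)) by omega)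
  have hwe : w ≤ e := by
    have h3 : (w : ℤ) ≤ (e : ℤ) := by
      rw [← hw, ← he]
      linarith
    exact_mod_cast h3
  have hkey : (sz κ : ℤ) + (e : ℤ) * w0 - 2 * (D0 : ℤ) = -1 - (w : ℤ) := by
    rw [← hw, ← he]
    ring
  have hmemA : ∀ α ∈ A, sz α = D0 ∧ ∀ i ∈ α.support, i < w0 := fun α hα =>
    ⟨mem_Pd.1 (Finset.mem_filter.1 hα).1, (Finset.mem_filter.1 hα).2⟩
  have hQbig : ∀ α ∈ A, ∀ i, w0 ≤ i → Qw α (i + 1) = D0 := by
    intro α hα i hi
    rw [← (hmemA α hα).1]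
    exact Qw_eq_sz fun j hj => lt_of_lt_of_le ((hmemA α hα).2 j hj) (by omega)
  -- the factor of the other nodes
  let Φ : Str → F := fun α => ∏ l ∈ univ.erase k, (m l).prod fun i a =>
    gb (s ^ 2) (Pv G N (Function.update m k (α + β)) l (i + 1)) a
  have hΦl : ∀ l ∈ univ.erase k, cls_Ex A (s ^ 2) (if G.Adj k l then loS w0 (m l) else 0)
      (fun α => (m l).prod fun i a =>
        gb (s ^ 2) (Pv G N (Function.update m k (α + β)) l (i + 1)) a) := by
    intro l hl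
    have hlk : l ≠ k := (Finset.mem_erase.1 hl).1
    by_cases hadj : G.Adj k l
    · rw [if_pos hadj, ← cls_loS]
      have hpv : ∀ α i, Pv G N (Function.update m k (α + β)) l (i + 1) =
          (Pv G N (Function.update m k 0) l (i + 1) + (Qw β (i + 1) : ℤ)) +
            (Qw α (i + 1) : ℤ) := by
        intro α i
        rw [Pv_update_adj m hadj.symm, Qw_add]
        push_cast
        ring
      refine cls_prod (m l).support (fun i => if i < w0 then Finsupp.single i (m l i) else 0)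
        (fun i α => gb (s ^ 2) (Pv G N (Function.update m k (α + β)) l (i + 1)) (m l i))
        fun i _ => ?_
      by_cases hi : i < w0
      · simp only [hpv, if_pos hi]
        exact cls_gb hq0 hs A i (m l i) _
      · simp only [hpv, if_neg hi]
        refine cls_const A (s ^ 2) _ (gb (s ^ 2) ((Pv G N (Function.update m k 0) l (i + 1) +
          (Qw β (i + 1) : ℤ)) + (D0 : ℤ)) (m l i)) fun α hα => ?_
        rw [hQbig α hα i (not_lt.1 hi)]
    · rw [if_neg hadj]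
      refine cls_const A (s ^ 2) _ ((m l).prod fun i a => gb (s ^ 2) (Pv G N m l (i + 1)) a)
        fun α _ => ?_
      refine Finsupp.prod_congr fun i _ => ?_
      rw [Pv_update_not m (fun h => hadj h.symm) hlk]
  have hΦ : cls_Ex A (s ^ 2) κ Φ := by
    have h3 := cls_prod (univ.erase k) _ _ hΦl
    have h4 : ∑ l ∈ univ.erase k, (if G.Adj k l then loS w0 (m l) else 0) = κ := by
      have h5 : ∑ l ∈ univ.erase k, (if G.Adj k l then loS w0 (m l) else 0) =
          ∑ l, (if G.Adj k l then loS w0 (m l) else 0) := by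
        refine Finset.sum_erase _ ?_
        rw [if_neg (G.loopless.irrefl k)]
      rw [h5, ← Finset.sum_filter, cls_loS_sum]
      rfl
    rw [h4] at h3
    exact h3
  have hmain := cls_nsv hq0 hs κ w0 hκ e w hwe D0 hkey Φ hΦ
  -- constants
  let C1 : F := s ^ (EE G (Function.update m k 0) + 2 * (2 * ((c : ℤ) * D0) + (fm β β : ℤ) -
    (fm ν β : ℤ) - (c' : ℤ) * D0))
  let C2 : F := β.prod fun i a => gb (s ^ 2) ((N k : ℤ) * ((i : ℤ) + 1) -
    2 * ((D0 : ℤ) + (Qw β (i + 1) : ℤ)) + (Qw ν (i + 1) : ℤ)) a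
  have hall : ∀ α ∈ A, wt G N s (Function.update m k (α + β)) = C1 * C2 *
      ((s ^ 2) ^ ((fm α α : ℤ) - (fm κ α : ℤ)) * (α.prod fun i a =>
        gb (s ^ 2) ((e : ℤ) * ((i : ℤ) + 1) + (Qw κ (i + 1) : ℤ) - 2 * (Qw α (i + 1) : ℤ)) a) *
        Φ α) := by
    intro α hα
    obtain ⟨hαD, hαw⟩ := hmemA α hα
    have hfβα : fm β α = c * D0 := by
      rw [fm, hc, cnt, Finsupp.sum, Finsupp.sum, Finset.sum_mul]
      refine Finset.sum_congr rfl fun i hi => ?_
      rw [hQbig α hα i (hm i hi)]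
    have hfνα : fm ν α = fm κ α + c' * D0 := by
      have h3 : fm α ν = fm α (loS w0 ν) + cnt (hiS w0 ν) * sz α := fm_dec' w0 α ν hαw
      rw [fm_comm ν α, h3, fm_comm α (loS w0 ν), hαD]
    have hEE : s ^ EE G (Function.update m k (α + β)) =
        C1 * (s ^ 2) ^ ((fm α α : ℤ) - (fm κ α : ℤ)) := by
      have h3 : (s ^ 2 : F) = s ^ (2 : ℤ) := by norm_cast
      rw [h3, ← zpow_mul, ← zpow_add₀ hs0]
      congr 1
      rw [EE_update, fm_add_left, fm_add_right, fm_add_right, fm_comm α β, hfβα,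
        fm_add_right, hfνα]
      push_cast
      ring
    have hnode : ((α + β).prod fun i a =>
        gb (s ^ 2) (Pv G N (Function.update m k (α + β)) k (i + 1)) a) =
        (α.prod fun i a => gb (s ^ 2) ((e : ℤ) * ((i : ℤ) + 1) + (Qw κ (i + 1) : ℤ) -
          2 * (Qw α (i + 1) : ℤ)) a) * C2 := by
      have hd : Disjoint α.support β.support := by
        rw [Finset.disjoint_left]
        intro i hi hi'
        exact absurd (hαw i hi) (not_lt.2 (hm i hi'))
      rw [Finsupp.prod_add_index_of_disjoint hd]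
      congr 1
      · refine Finsupp.prod_congr fun i hi => ?_
        have hi0 := hαw i hi
        rw [Pv_update_self, Qw_add, hβw (i + 1) (by omega), hνw (i + 1) (by omega), ← he, hE]
        congr 1
        push_cast
        ring
      · refine Finsupp.prod_congr fun i hi => ?_
        rw [Pv_update_self, Qw_add, hQbig α hα i (hm i hi)]
        push_cast
        rfl
    rw [wt, hEE, ← Finset.mul_prod_erase univ _ (Finset.mem_univ k)]
    have h3 : (Function.update m k (α + β)) k = α + β := Function.update_self k (α + β) m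
    have h4 : (∏ l ∈ univ.erase k, ((Function.update m k (α + β)) l).prod fun i a =>
        gb (s ^ 2) (Pv G N (Function.update m k (α + β)) l (i + 1)) a) = Φ α := by
      refine Finset.prod_congr rfl fun l hl => ?_
      rw [Function.update_of_ne (Finset.mem_erase.1 hl).1]
    rw [h4, h3, hnode]
    ring
  rw [Finset.sum_congr rfl hall, ← Finset.mul_sum, hmain, mul_zero]

end Pool.Agent.H18.KR
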