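import Pool.Agent.H18.KR.LstG

/-!
# Module CntW (about 100 lines). The number of witnesses.

`Σ_{w ∈ lists univ (wl)} [fin L lam mu (blocks b R N w) = some ([], e)]` is by `sum_blocks` the sum over
`lists (blks b R) (K + T)` (`K = 2L + 1`, `R = 2(L+1)`), by `sum_lists_add` the sum over `Y` and `Z`; for
`Y ∈ lists _ K`: `(Y ++ Z).take K = Y`, `.drop K = Z`. If `cfgOk` fails the fold starts from `none` and stays
`none`; otherwise it is `run Z (cfgItems L Y, 0)`. `card_ofFn`: the bit strings `w : Fin N → Bool` correspond
to `lists univ N` (`sum_lists_ofFn`, `Finset.card_filter`, `Fintype.piFinset_univ`).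
-/

set_option autoImplicit false

namespace Pool.Agent.H18.KR

open Finset

theorem card_ofFn (N : ℕ) (P : List Bool → Prop) [DecidablePred P] :
    (univ.filter fun w : Fin N → Bool => P (List.ofFn w)).card =
      ((lists (univ : Finset Bool) N).filter P).card := by
  rw [Finset.card_filter, Finset.card_filter, sum_lists_ofFn, Fintype.piFinset_univ]

theorem count_fin (b L T e : ℕ) (lam mu : List ℕ) :
    ((lists (univ : Finset Bool) ((2 * L + 1 + T) * (2 * (L + 1) + 1) * b)).filter fun w =>
      fin L lam mu (blocks b (2 * (L + 1)) (2 * L + 1 + T) w) = some ([], e)).card =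
    ∑ Y ∈ cfgs b L lam mu, nruns b (2 * (L + 1)) T (cfgItems L Y, 0) e := by
  have hnone : ∀ Z : List (List ℕ),
      Z.foldl (fun (o : Option St) y => o.bind (stepB y)) none = none := by
    intro Z
    induction Z with
    | nil => rfl
    | cons y Z ih => exact ih
  have h1 := sum_blocks b (2 * (L + 1)) (2 * L + 1 + T)
    (fun Y => if fin L lam mu Y = some ([], e) then 1 else 0)
  rw [Finset.card_filter, h1, sum_lists_add]
  unfold cfgs
  rw [Finset.sum_filter]
  refine Finset.sum_congr rfl fun Y hY => ?_
  rw [mem_lists] at hY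
  have htake : ∀ Z : List (List ℕ), (Y ++ Z).take (2 * L + 1) = Y := fun Z =>
    List.take_left' hY.1
  have hdrop : ∀ Z : List (List ℕ), (Y ++ Z).drop (2 * L + 1) = Z := fun Z =>
    List.drop_left' hY.1
  by_cases hc : cfgOk L lam mu Y
  · rw [if_pos hc]
    unfold nruns
    rw [Finset.card_filter]
    refine Finset.sum_congr rfl fun Z _ => ?_
    have h2 : fin L lam mu (Y ++ Z) = run Z (cfgItems L Y, 0) := by
      unfold fin run
      rw [htake, hdrop, if_pos hc]
    rw [h2]
  · rw [if_neg hc]
    refine Finset.sum_eq_zero fun Z _ => ?_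
    have h2 : fin L lam mu (Y ++ Z) = none := by
      unfold fin
      rw [htake, hdrop, if_neg hc]
      exact hnone Z
    rw [h2, if_neg (by simp)]

end Pool.Agent.H18.KR
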