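import Pool.Agent.H18.KR.Defs3

/-!
# Module Geo (about 120 lines). Coefficients of a quotient by factors `1 - c z^α`.

`geo_one`: `Φ * (1 - monomial α c) = Ψ` says `coeff d Φ = coeff d Ψ + c [α ≤ d] coeff (d - α) Φ`
(`MvPowerSeries.coeff_mul_monomial` or similar; there are lemmas `coeff_mul_monomial`,
`coeff_add_mul_monomial`). By induction on `n` with the hypothesis that `m • α ≤ d` implies `m ≤ n`:
`coeff d Φ = Σ_{e ≤ n} c^e [e • α ≤ d] coeff (d - e • α) Ψ`.
(Induct: if `α ≤ d` then for `d - α` the bound is `n - 1`.)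

`geo`: induction over the finset of factors (state it for `Finset`, the functions `e : ι → ℕ` over
`Fintype.piFinset`/`Finset.pi`, or use `Finset.prod_univ_sum`-like rearrangements), or: the product
`Θ` of the truncated geometric series `Σ_{e ≤ n} (monomial α c)^e` has
`Θ * ∏ (1 - monomial) = ∏ (1 - (monomial α_i c_i)^{n+1})`, whose terms other than `1` do not contribute
at `d`: `coeff d (Φ) = coeff d (Φ ∏ (1 - (monomial (α i) (c i))^{n+1})) = coeff d (Ψ Θ)`, and expand `Θ` by
`Finset.prod_univ_sum` (`monomial_mul_monomial`, `monomial_pow`).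
-/

set_option autoImplicit false

namespace Pool.Agent.H18.KR

open Finset

variable {I F : Type} [DecidableEq I] [Field F]

omit [DecidableEq I] in
private theorem coeff_prod_one_sub {ι : Type} [DecidableEq ι] (α : ι → I →₀ ℕ) (c : ι → F)
    (Φ : MvPowerSeries I F) (n : ℕ) (d : I →₀ ℕ) (hd : ∀ i, ¬ (n + 1) • α i ≤ d) (s : Finset ι) :
    MvPowerSeries.coeff d
      (Φ * ∏ i ∈ s, (1 - MvPowerSeries.monomial (α i) (c i) ^ (n + 1))) =
      MvPowerSeries.coeff d Φ := by
  induction s using Finset.induction_on with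
  | empty => simp
  | insert i s hi ih =>
    rw [Finset.prod_insert hi, mul_left_comm, sub_mul, one_mul, map_sub, ih,
      MvPowerSeries.monomial_pow, MvPowerSeries.coeff_monomial_mul, if_neg (hd i), sub_zero]

theorem geo {ι : Type} [Fintype ι] [DecidableEq ι] (α : ι → I →₀ ℕ) (c : ι → F)
    (Φ Ψ : MvPowerSeries I F)
    (h : Φ * ∏ i, (1 - MvPowerSeries.monomial (α i) (c i)) = Ψ) (n : ℕ) (d : I →₀ ℕ)
    (hd : ∀ i, ∀ m : ℕ, m • α i ≤ d → m ≤ n) :
    MvPowerSeries.coeff d Φ = ∑ e ∈ Fintype.piFinset (fun _ : ι => range (n + 1)),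
      (∏ i, c i ^ e i) *
        MvPowerSeries.coeff d (MvPowerSeries.monomial (∑ i, e i • α i) (1 : F) * Ψ) := by
  have hd' : ∀ i, ¬ (n + 1) • α i ≤ d := fun i hle => by
    have := hd i (n + 1) hle
    omega
  have h1 : Φ * ∏ i, (1 - MvPowerSeries.monomial (α i) (c i) ^ (n + 1)) =
      (∏ i, ∑ e ∈ range (n + 1), MvPowerSeries.monomial (α i) (c i) ^ e) * Ψ := by
    rw [← h, mul_left_comm, ← Finset.prod_mul_distrib]
    congr 1
    refine Finset.prod_congr rfl fun i _ => ?_
    have := mul_neg_geom_sum (MvPowerSeries.monomial (α i) (c i)) (n + 1)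
    rw [mul_comm, this]
  rw [← coeff_prod_one_sub α c Φ n d hd' Finset.univ, h1, Finset.prod_univ_sum, Finset.sum_mul,
    map_sum]
  refine Finset.sum_congr rfl fun e _ => ?_
  simp only [MvPowerSeries.monomial_pow]
  rw [MvPowerSeries.prod_monomial, MvPowerSeries.coeff_monomial_mul,
    MvPowerSeries.coeff_monomial_mul]
  split_ifs
  · rw [one_mul]
  · rw [mul_zero]

end Pool.Agent.H18.KR
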