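import Pool.Agent.H18.KR.Defs3

/-!
# Module RxI (about 120 lines). The roots of the path with `2L + 1` nodes.

A root `[a, b]` (`a ≤ b`) containing the centre `L` is `[L - u, L + t]` for unique `t, u ≤ L`; a root to
the right of `L` (`L < a ≤ b`) is `[L + a' + 1, L + b']`, `a' = a - L - 1 < b' = b - L`; a root to the
left (`a ≤ b < L`) is `[L - b', L - a' - 1]`, `b' = L - a`, `a' = L - b - 1 < b'`. In these cases
`rt a b` is `crv L t u`, `rrv L (a', b')`, `llv L (a', b')` (ext, `omega`). `Finset.prod_bij'` etc.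
-/

set_option autoImplicit false

namespace Pool.Agent.H18.KR

open Finset

variable {M : Type} [CommMonoid M]

theorem RxI.rt_eq {K : ℕ} (a b : Fin K) (g : Fin K → ℕ)
    (h : ∀ k : Fin K, (a.val ≤ k.val ∧ k.val ≤ b.val → g k = 1) ∧
      (¬ (a.val ≤ k.val ∧ k.val ≤ b.val) → g k = 0)) :
    rt a b = Finsupp.equivFunOnFinite.symm g := by
  unfold rt
  congr 1
  funext k
  by_cases hk : a.val ≤ k.val ∧ k.val ≤ b.val
  · rw [(h k).1 hk, if_pos (show a ≤ k ∧ k ≤ b from hk)]
  · rw [(h k).2 hk, if_neg (show ¬ (a ≤ k ∧ k ≤ b) from hk)]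

theorem prod_cross (L : ℕ) (f : (Fin (2 * L + 1) →₀ ℕ) → M) :
    ∏ p ∈ (Rts (2 * L + 1)).filter (fun p => p.1.val ≤ L ∧ L ≤ p.2.val), f (rt p.1 p.2) =
      ∏ t, ∏ u, f (crv L t u) := by
  rw [← Fintype.prod_prod_type' (f := fun t u => f (crv L t u))]
  refine Finset.prod_nbij'
    (fun p => ((⟨p.2.val - L, by have := p.2.isLt; omega⟩ : Fin (L + 1)),
      (⟨L - p.1.val, by omega⟩ : Fin (L + 1))))
    (fun x => ((⟨L - x.2.val, by omega⟩ : Fin (2 * L + 1)),
      (⟨L + x.1.val, by have := x.1.isLt; omega⟩ : Fin (2 * L + 1)))) ?_ ?_ ?_ ?_ ?_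
  · intro p _
    exact mem_univ _
  · rintro ⟨t, u⟩ _
    simp only [Rts, mem_filter, mem_univ, true_and, Fin.le_def]
    omega
  · rintro ⟨a, b⟩ hp
    simp only [Rts, mem_filter, mem_univ, true_and, Fin.le_def] at hp
    simp only [Prod.mk.injEq, Fin.ext_iff]
    omega
  · rintro ⟨t, u⟩ _
    have h1 := t.isLt
    have h2 := u.isLt
    simp only [Prod.mk.injEq, Fin.ext_iff]
    omega
  · rintro ⟨a, b⟩ hp
    simp only [Rts, mem_filter, mem_univ, true_and, Fin.le_def] at hp
    simp only
    congr 1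
    refine RxI.rt_eq a b _ fun k => ⟨fun hk => ?_, fun hk => ?_⟩
    · exact if_pos (by simp only; omega)
    · exact if_neg (by simp only; omega)

theorem prod_noncross (L : ℕ) (f : (Fin (2 * L + 1) →₀ ℕ) → M) :
    ∏ p ∈ (Rts (2 * L + 1)).filter (fun p => ¬ (p.1.val ≤ L ∧ L ≤ p.2.val)), f (rt p.1 p.2) =
      (∏ p ∈ prs (L + 1), f (rrv L p)) * ∏ p ∈ prs (L + 1), f (llv L p) := by
  rw [← Finset.prod_filter_mul_prod_filter_not _ (fun p => L < p.1.val)]
  congr 1
  · refine Finset.prod_nbij'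
      (fun p => ((⟨p.1.val - L - 1, by have := p.1.isLt; omega⟩ : Fin (L + 1)),
        (⟨p.2.val - L, by have := p.2.isLt; omega⟩ : Fin (L + 1))))
      (fun x => ((⟨min (L + x.1.val + 1) (2 * L), by omega⟩ : Fin (2 * L + 1)),
        (⟨L + x.2.val, by have := x.2.isLt; omega⟩ : Fin (2 * L + 1)))) ?_ ?_ ?_ ?_ ?_
    · rintro ⟨a, b⟩ hp
      simp only [Rts, mem_filter, mem_univ, true_and, Fin.le_def] at hp
      simp only [prs, mem_filter, mem_univ, true_and, Fin.lt_def]
      omega
    · rintro ⟨a, b⟩ hp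
      simp only [prs, mem_filter, mem_univ, true_and, Fin.lt_def] at hp
      have h2 := b.isLt
      simp only [Rts, mem_filter, mem_univ, true_and, Fin.le_def]
      omega
    · rintro ⟨a, b⟩ hp
      simp only [Rts, mem_filter, mem_univ, true_and, Fin.le_def] at hp
      have h2 := b.isLt
      simp only [Prod.mk.injEq, Fin.ext_iff]
      omega
    · rintro ⟨a, b⟩ hp
      simp only [prs, mem_filter, mem_univ, true_and, Fin.lt_def] at hp
      have h2 := b.isLt
      simp only [Prod.mk.injEq, Fin.ext_iff]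
      omega
    · rintro ⟨a, b⟩ hp
      simp only [Rts, mem_filter, mem_univ, true_and, Fin.le_def] at hp
      simp only
      congr 1
      refine RxI.rt_eq a b _ fun k => ⟨fun hk => ?_, fun hk => ?_⟩
      · exact if_pos (by simp only; omega)
      · exact if_neg (by simp only; omega)
  · refine Finset.prod_nbij'
      (fun p => ((⟨L - p.2.val - 1, by omega⟩ : Fin (L + 1)),
        (⟨L - p.1.val, by omega⟩ : Fin (L + 1))))
      (fun x => ((⟨L - x.2.val, by omega⟩ : Fin (2 * L + 1)),
        (⟨L - x.1.val - 1, by omega⟩ : Fin (2 * L + 1)))) ?_ ?_ ?_ ?_ ?_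
    · rintro ⟨a, b⟩ hp
      simp only [Rts, mem_filter, mem_univ, true_and, Fin.le_def] at hp
      simp only [prs, mem_filter, mem_univ, true_and, Fin.lt_def]
      omega
    · rintro ⟨a, b⟩ hp
      simp only [prs, mem_filter, mem_univ, true_and, Fin.lt_def] at hp
      have h2 := b.isLt
      simp only [Rts, mem_filter, mem_univ, true_and, Fin.le_def]
      omega
    · rintro ⟨a, b⟩ hp
      simp only [Rts, mem_filter, mem_univ, true_and, Fin.le_def] at hp
      simp only [Prod.mk.injEq, Fin.ext_iff]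
      omega
    · rintro ⟨a, b⟩ hp
      simp only [prs, mem_filter, mem_univ, true_and, Fin.lt_def] at hp
      have h2 := b.isLt
      simp only [Prod.mk.injEq, Fin.ext_iff]
      omega
    · rintro ⟨a, b⟩ hp
      simp only [Rts, mem_filter, mem_univ, true_and, Fin.le_def] at hp
      simp only
      congr 1
      refine RxI.rt_eq a b _ fun k => ⟨fun hk => ?_, fun hk => ?_⟩
      · exact if_pos (by simp only; omega)
      · exact if_neg (by simp only; omega)

end Pool.Agent.H18.KR
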