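import Pool.Agent.H18.KR.Defs3

/-!
# Module T2 (about 150 lines). The exponent condition.

For `X : Fin (L+1) → Fin (L+1) → ℕ` (`X = A + B`), `S, S' ⊆ prs (L+1)`, at the node `k = L + j`
(`0 ≤ j ≤ L`): `Σ_{t,u} X t u * crI L t u k = Σ_{t ≥ j} (row sum t)`, `Σ_{p ∈ S} rrI L p k =
#{(a,b) ∈ S : a + 1 ≤ j ≤ b}`, `llI L p k = 0`, `dd lam mu k = Σ_{t ≥ j} lam t`. Taking differences for
`j` and `j + 1` (for `j = L` the next value is `0`): `(row sum j) + #{b = j} - #{a = j} = lam j`
(`[a+1 ≤ j ≤ b] - [a+1 ≤ j+1 ≤ b] = [b = j] - [a = j]` for `a < b`), i.e.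
`row sum j = lam j + rho S j`. Conversely the sums over `t ≥ j` of these equations give back the
condition at `L + j`. At the nodes `k = L - j`, `1 ≤ j ≤ L`, in the same way:
`Σ_{u ≥ j} (column sum u) + #{(a,b) ∈ S' : a + 1 ≤ j ≤ b} = Σ_{t ≥ j} mu t`, and so
`column sum j = mu j + rho S' j` for `j ≥ 1`. For `j = 0` use the totals:
`Σ (column sums) = Σ (row sums) = Σ lam + Σ rho S = n`, `Σ_i rho S i = 0`.
(Suggestion: a lemma `tail_iff`: for `x y : Fin (L+1) → ℤ`, `(∀ j, Σ_{t ≥ j} x t = Σ_{t ≥ j} y t) ↔ x = y`, and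
`Σ_{t ≥ j} rho S t = - #{(a,b) ∈ S : a < j ≤ b}`.)
-/

set_option autoImplicit false

namespace Pool.Agent.H18.KR

open Finset

/-- the indices `≥ j` -/
private abbrev tl {L : ℕ} (j : Fin (L + 1)) : Finset (Fin (L + 1)) :=
  univ.filter fun t => j.val ≤ t.val

private theorem tail_iff (L : ℕ) (x y : Fin (L + 1) → ℤ) :
    (∀ j, ∑ t ∈ tl j, x t = ∑ t ∈ tl j, y t) ↔ ∀ i, x i = y i := by
  classical
  constructor
  · intro h i
    have hi := h i
    have hset : tl i = insert i (univ.filter fun t : Fin (L + 1) => i.val + 1 ≤ t.val) := by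
      ext t
      simp only [tl, mem_filter, mem_univ, true_and, mem_insert]
      constructor
      · intro ht
        by_cases h' : t = i
        · exact Or.inl h'
        · right
          have : t.val ≠ i.val := fun h'' => h' (Fin.ext h'')
          omega
      · rintro (rfl | ht)
        · exact le_refl _
        · omega
    have hni : i ∉ univ.filter fun t : Fin (L + 1) => i.val + 1 ≤ t.val := by
      rw [mem_filter]
      omega
    rw [hset, sum_insert hni, sum_insert hni] at hi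
    by_cases hlt : i.val + 1 < L + 1
    · have h2 := h ⟨i.val + 1, hlt⟩
      simp only [tl] at h2
      linarith
    · have hem : (univ.filter fun t : Fin (L + 1) => i.val + 1 ≤ t.val) = ∅ := by
        rw [filter_eq_empty_iff]
        intro t _
        have := t.isLt
        omega
      rw [hem, sum_empty, sum_empty] at hi
      linarith
  · intro h j
    exact sum_congr rfl fun t _ => h t

private theorem rho_tail (L : ℕ) (S : Finset (Fin (L + 1) × Fin (L + 1))) (hS : S ⊆ prs (L + 1))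
    (j : Fin (L + 1)) : ∑ t ∈ tl j, rho S t =
      -∑ p ∈ S, (if p.1.val < j.val ∧ j.val ≤ p.2.val then (1 : ℤ) else 0) := by
  classical
  unfold rho
  rw [sum_comm, ← sum_neg_distrib]
  refine sum_congr rfl fun p hp => ?_
  have hlt : p.1.val < p.2.val := (mem_filter.1 (hS hp)).2
  rw [sum_sub_distrib, sum_ite_eq', sum_ite_eq']
  simp only [tl, mem_filter, mem_univ, true_and]
  split_ifs <;> omega

private theorem node_R (L : ℕ) (X : Fin (L + 1) → Fin (L + 1) → ℕ) (lam mu : Fin (L + 1) → ℕ)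
    (S S' : Finset (Fin (L + 1) × Fin (L + 1))) (hS : S ⊆ prs (L + 1)) (j : Fin (L + 1))
    (k : Fin (2 * L + 1)) (hk : k.val = L + j.val) :
    ((∑ t, ∑ u, X t u * crI L t u k) + (∑ p ∈ S, rrI L p k) + (∑ p ∈ S', llI L p k) =
      dd lam mu k) ↔
    ∑ t ∈ tl j, ((∑ u, X t u : ℕ) : ℤ) = ∑ t ∈ tl j, ((lam t : ℤ) + rho S t) := by
  classical
  have h1 : (∑ t, ∑ u, X t u * crI L t u k) = ∑ t ∈ tl j, ∑ u, X t u := by
    rw [sum_filter]
    refine sum_congr rfl fun t _ => ?_
    unfold crI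
    by_cases h : j.val ≤ t.val
    · rw [if_pos h]
      refine sum_congr rfl fun u _ => ?_
      rw [if_pos ⟨by omega, by omega⟩, mul_one]
    · rw [if_neg h]
      refine sum_eq_zero fun u _ => ?_
      rw [if_neg (by omega), mul_zero]
  have h2 : (∑ p ∈ S, rrI L p k) =
      ∑ p ∈ S, (if p.1.val < j.val ∧ j.val ≤ p.2.val then 1 else 0) := by
    refine sum_congr rfl fun p _ => ?_
    unfold rrI
    by_cases h : p.1.val < j.val ∧ j.val ≤ p.2.val
    · rw [if_pos h, if_pos (by omega)]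
    · rw [if_neg h, if_neg (by omega)]
  have h3 : (∑ p ∈ S', llI L p k) = 0 := by
    refine sum_eq_zero fun p _ => ?_
    unfold llI
    rw [if_neg (by omega)]
  have h4 : dd lam mu k = ∑ t ∈ tl j, lam t := by
    unfold dd
    rw [if_pos (by omega)]
    refine sum_congr (filter_congr fun t _ => ?_) fun t _ => rfl
    omega
  rw [h1, h2, h3, h4, add_zero, ← Nat.cast_inj (R := ℤ), sum_add_distrib, rho_tail L S hS j]
  push_cast
  constructor
  · intro h
    linarith
  · intro h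
    linarith

private theorem node_C (L : ℕ) (X : Fin (L + 1) → Fin (L + 1) → ℕ) (lam mu : Fin (L + 1) → ℕ)
    (S S' : Finset (Fin (L + 1) × Fin (L + 1))) (hS' : S' ⊆ prs (L + 1)) (j : Fin (L + 1))
    (hj : 1 ≤ j.val) (k : Fin (2 * L + 1)) (hk : k.val + j.val = L) :
    ((∑ t, ∑ u, X t u * crI L t u k) + (∑ p ∈ S, rrI L p k) + (∑ p ∈ S', llI L p k) =
      dd lam mu k) ↔
    ∑ u ∈ tl j, ((∑ t, X t u : ℕ) : ℤ) = ∑ u ∈ tl j, ((mu u : ℤ) + rho S' u) := by
  classical
  have h1 : (∑ t, ∑ u, X t u * crI L t u k) = ∑ u ∈ tl j, ∑ t, X t u := by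
    rw [sum_comm, sum_filter]
    refine sum_congr rfl fun u _ => ?_
    unfold crI
    by_cases h : j.val ≤ u.val
    · rw [if_pos h]
      refine sum_congr rfl fun t _ => ?_
      rw [if_pos ⟨by omega, by omega⟩, mul_one]
    · rw [if_neg h]
      refine sum_eq_zero fun t _ => ?_
      rw [if_neg (by omega), mul_zero]
  have h2 : (∑ p ∈ S', llI L p k) =
      ∑ p ∈ S', (if p.1.val < j.val ∧ j.val ≤ p.2.val then 1 else 0) := by
    refine sum_congr rfl fun p _ => ?_
    unfold llI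
    by_cases h : p.1.val < j.val ∧ j.val ≤ p.2.val
    · rw [if_pos h, if_pos (by omega)]
    · rw [if_neg h, if_neg (by omega)]
  have h3 : (∑ p ∈ S, rrI L p k) = 0 := by
    refine sum_eq_zero fun p _ => ?_
    unfold rrI
    rw [if_neg (by omega)]
  have h4 : dd lam mu k = ∑ t ∈ tl j, mu t := by
    unfold dd
    rw [if_neg (by omega)]
    refine sum_congr (filter_congr fun t _ => ?_) fun t _ => rfl
    omega
  rw [h1, h2, h3, h4, add_zero, ← Nat.cast_inj (R := ℤ), sum_add_distrib, rho_tail L S' hS' j]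
  push_cast
  constructor
  · intro h
    linarith
  · intro h
    linarith

theorem cond_iff (L n : ℕ) (lam mu : Fin (L + 1) → ℕ) (hl : ∑ i, lam i = n) (hm : ∑ i, mu i = n)
    (A B : Fin (L + 1) → Fin (L + 1) → ℕ) (S S' : Finset (Fin (L + 1) × Fin (L + 1)))
    (hS : S ⊆ prs (L + 1)) (hS' : S' ⊆ prs (L + 1)) :
    (∀ k, (∑ t, ∑ u, (A t u + B t u) * crI L t u k) + (∑ p ∈ S, rrI L p k) +
      (∑ p ∈ S', llI L p k) = dd lam mu k) ↔
    Marg A B (fun i => (lam i : ℤ) + rho S i) (fun i => (mu i : ℤ) + rho S' i) := by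
  classical
  have hR := fun (j : Fin (L + 1)) (k : Fin (2 * L + 1)) (hk : k.val = L + j.val) =>
    node_R L (fun t u => A t u + B t u) lam mu S S' hS j k hk
  have hC := fun (j : Fin (L + 1)) (hj : 1 ≤ j.val) (k : Fin (2 * L + 1))
    (hk : k.val + j.val = L) => node_C L (fun t u => A t u + B t u) lam mu S S' hS' j hj k hk
  unfold Marg
  rw [← tail_iff L (fun i => ((∑ j, (A i j + B i j) : ℕ) : ℤ)) (fun i => (lam i : ℤ) + rho S i),
    ← tail_iff L (fun j => ((∑ i, (A i j + B i j) : ℕ) : ℤ)) (fun i => (mu i : ℤ) + rho S' i)]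
  -- the totals
  have htl0 : ∀ j : Fin (L + 1), j.val = 0 → tl j = univ := by
    intro j hj
    refine filter_true_of_mem fun t _ => ?_
    rw [hj]
    exact Nat.zero_le _
  have hrho0 : ∀ T : Finset (Fin (L + 1) × Fin (L + 1)), T ⊆ prs (L + 1) →
      ∀ j : Fin (L + 1), j.val = 0 → ∑ t ∈ tl j, rho T t = 0 := by
    intro T hT j hj
    rw [rho_tail L T hT j, neg_eq_zero]
    refine sum_eq_zero fun p _ => ?_
    rw [if_neg (by omega)]
  have htot : (∀ j, ∑ t ∈ tl j, ((∑ u, (A t u + B t u) : ℕ) : ℤ) =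
      ∑ t ∈ tl j, ((lam t : ℤ) + rho S t)) → ∀ j : Fin (L + 1), j.val = 0 →
      ∑ u ∈ tl j, ((∑ t, (A t u + B t u) : ℕ) : ℤ) = ∑ u ∈ tl j, ((mu u : ℤ) + rho S' u) := by
    intro h j hj
    have h0 := h j
    rw [sum_add_distrib, hrho0 S hS j hj] at h0
    rw [sum_add_distrib, hrho0 S' hS' j hj]
    rw [htl0 j hj] at h0 ⊢
    have e1 : ∑ u, ((∑ t, (A t u + B t u) : ℕ) : ℤ) = ∑ t, ((∑ u, (A t u + B t u) : ℕ) : ℤ) := by
      rw [← Nat.cast_sum, ← Nat.cast_sum, sum_comm]
    rw [e1, h0, ← Nat.cast_sum, ← Nat.cast_sum, hl, hm]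
  constructor
  · intro h
    have hRall : ∀ j, ∑ t ∈ tl j, ((∑ u, (A t u + B t u) : ℕ) : ℤ) =
        ∑ t ∈ tl j, ((lam t : ℤ) + rho S t) := by
      intro j
      have hlt : L + j.val < 2 * L + 1 := by have := j.isLt; omega
      exact (hR j ⟨L + j.val, hlt⟩ rfl).1 (h _)
    refine ⟨hRall, fun j => ?_⟩
    by_cases hj : j.val = 0
    · exact htot hRall j hj
    · have hle : j.val ≤ L := by have := j.isLt; omega
      have hlt : L - j.val < 2 * L + 1 := by omega
      exact (hC j (by omega) ⟨L - j.val, hlt⟩ (by simp only; omega)).1 (h _)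
  · rintro ⟨h1, h2⟩ k
    by_cases hk : L ≤ k.val
    · have hlt : k.val - L < L + 1 := by have := k.isLt; omega
      exact (hR ⟨k.val - L, hlt⟩ k (by simp only; omega)).2 (h1 _)
    · have hlt : L - k.val < L + 1 := by omega
      exact (hC ⟨L - k.val, hlt⟩ (by simp only; omega) k (by simp only; omega)).2 (h2 _)

end Pool.Agent.H18.KR
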