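import Pool.Agent.H18.KR.Defs3

/-!
# Module Weyl (about 150 lines). The Weyl denominator.

`Σ_{S ⊆ prs r} (-1)^{|S|} x^{rho S} = ∏_{a < b} (1 - x_a x_b⁻¹) = Σ_w sgn(w) ∏_i x_i^{w(i) - i}`.
Multiply by `∏_i x_i^i`: `rho S i + i ≥ 0` since `rho S i = #{(i,b) ∈ S} - #{(a,i) ∈ S}` and
`#{(a,i) ∈ S} ≤ i`. In `MvPolynomial (Fin r) ℤ`:
`∏_{a<b} (X_b - X_a) = Matrix.det (vandermonde X) = Σ_w sgn(w) ∏_i X_i^{w i}` (`Matrix.det_vandermonde`,
`Matrix.det_apply`/`det_apply'`; products over `Finset.Ioi`), and by `Finset.prod_sub`/`prod_add`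
`∏_{(a,b) ∈ prs r} (X_b - X_a) = Σ_{S ⊆ prs r} (-1)^{|S|} ∏_{(a,b) ∈ S} X_a ∏_{(a,b) ∉ S} X_b`,
the exponent of `X_i` in the term `S` being `#{(i,b) ∈ S} + #{(a,i) ∉ S} = i + rho S i`. So for every
`g : (Fin r →₀ ℕ) → M` the sums `Σ_S (-1)^{|S|} g(i ↦ i + rho S i)` and `Σ_w sgn(w) g(w)` agree: compare
coefficients of both sides, the coefficient of `X^v` is `Σ_{S : i + rho S i = v} (-1)^{|S|}`, and
`Σ_S (-1)^{|S|} g(..S) = Σ_v g(v) * (coefficient of v)`. (Or apply the additive map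
`MvPolynomial`-coefficients: `Finsupp.lsum`/`Finsupp.liftAddHom` to the identity.) Finally
`g(v) = φ(i ↦ v i - i)`.
-/

set_option autoImplicit false

namespace Pool.Agent.H18.KR

open Finset

/-- the number of the pairs with given second entry -/
theorem wy_count {r : ℕ} (i : Fin r) :
    ∑ p ∈ prs r, (if i = p.2 then (1 : ℤ) else 0) = (i : ℤ) := by
  have h1 : ∑ p ∈ prs r, (if i = p.2 then (1 : ℤ) else 0) =
      ∑ a : Fin r, ∑ b : Fin r, if a < b then (if i = b then (1 : ℤ) else 0) else 0 := by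
    unfold prs
    rw [sum_filter, ← univ_product_univ, sum_product]
  rw [h1]
  have h2 : ∀ a : Fin r, (∑ b : Fin r, if a < b then (if i = b then (1 : ℤ) else 0) else 0) =
      if a < i then 1 else 0 := by
    intro a
    rw [sum_eq_single i]
    · simp
    · intro b _ hb
      have hb' : ¬ i = b := fun h => hb h.symm
      simp [hb']
    · intro h
      exact absurd (mem_univ i) h
  rw [sum_congr rfl fun a _ => h2 a, ← sum_filter, sum_const, nsmul_eq_mul, mul_one]
  have h3 : (univ.filter fun a : Fin r => a < i) = Iio i := by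
    ext a
    simp
  rw [h3, Fin.card_Iio]

/-- the exponent of the term `S` -/
noncomputable def wyv {r : ℕ} (S : Finset (Fin r × Fin r)) : Fin r →₀ ℕ :=
  ∑ p ∈ S, Finsupp.single p.1 1 + ∑ p ∈ prs r \ S, Finsupp.single p.2 1

theorem wyv_apply {r : ℕ} (S : Finset (Fin r × Fin r)) (hS : S ⊆ prs r) (i : Fin r) :
    ((wyv S i : ℕ) : ℤ) - (i : ℤ) = rho S i := by
  have h0 := wy_count i
  rw [← sum_sdiff hS] at h0
  have h1 : ((wyv S i : ℕ) : ℤ) = ∑ p ∈ S, (if i = p.1 then (1 : ℤ) else 0) +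
      ∑ p ∈ prs r \ S, (if i = p.2 then (1 : ℤ) else 0) := by
    unfold wyv
    rw [Finsupp.add_apply, Finsupp.finsetSum_apply, Finsupp.finsetSum_apply]
    push_cast
    congr 1
    · refine sum_congr rfl fun p _ => ?_
      rw [Finsupp.single_apply]
      by_cases h : p.1 = i
      · rw [if_pos h, if_pos h.symm]
        rfl
      · rw [if_neg h, if_neg fun h' => h h'.symm]
        rfl
    · refine sum_congr rfl fun p _ => ?_
      rw [Finsupp.single_apply]
      by_cases h : p.2 = i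
      · rw [if_pos h, if_pos h.symm]
        rfl
      · rw [if_neg h, if_neg fun h' => h h'.symm]
        rfl
  rw [h1]
  unfold rho
  rw [sum_sub_distrib]
  linarith

theorem wy_left (r : ℕ) :
    ∏ p ∈ prs r, ((MvPolynomial.X p.2 : MvPolynomial (Fin r) ℤ) - MvPolynomial.X p.1) =
      ∑ S ∈ (prs r).powerset, (-1 : ℤ) ^ S.card • MvPolynomial.monomial (wyv S) (1 : ℤ) := by
  have h1 : ∀ p : Fin r × Fin r, (MvPolynomial.X p.2 : MvPolynomial (Fin r) ℤ) -
      MvPolynomial.X p.1 = -MvPolynomial.X p.1 + MvPolynomial.X p.2 := by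
    intro p
    ring
  rw [prod_congr rfl fun p _ => h1 p, prod_add]
  refine sum_congr rfl fun S _ => ?_
  have h2 : ∏ p ∈ S, (MvPolynomial.X p.1 : MvPolynomial (Fin r) ℤ) =
      MvPolynomial.monomial (∑ p ∈ S, Finsupp.single p.1 1) (1 : ℤ) := by
    rw [MvPolynomial.monomial_sum_one]
    rfl
  have h3 : ∏ p ∈ prs r \ S, (MvPolynomial.X p.2 : MvPolynomial (Fin r) ℤ) =
      MvPolynomial.monomial (∑ p ∈ prs r \ S, Finsupp.single p.2 1) (1 : ℤ) := by
    rw [MvPolynomial.monomial_sum_one]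
    rfl
  have h4 : ∏ p ∈ S, (-MvPolynomial.X p.1 : MvPolynomial (Fin r) ℤ) =
      (-1 : ℤ) ^ S.card • ∏ p ∈ S, (MvPolynomial.X p.1 : MvPolynomial (Fin r) ℤ) := by
    rw [prod_neg, zsmul_eq_mul]
    push_cast
    rfl
  rw [h4, h2, h3, smul_mul_assoc, MvPolynomial.monomial_mul, one_mul]
  rfl

theorem wy_right (r : ℕ) :
    ∏ p ∈ prs r, ((MvPolynomial.X p.2 : MvPolynomial (Fin r) ℤ) - MvPolynomial.X p.1) =
      ∑ w : Equiv.Perm (Fin r), (Equiv.Perm.sign w : ℤ) •
        MvPolynomial.monomial (∑ i, Finsupp.single i (w i : ℕ)) (1 : ℤ) := by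
  have h1 := Matrix.det_vandermonde (fun i : Fin r => (MvPolynomial.X i : MvPolynomial (Fin r) ℤ))
  rw [← Matrix.det_transpose, Matrix.det_apply'] at h1
  have h2 : ∏ p ∈ prs r, ((MvPolynomial.X p.2 : MvPolynomial (Fin r) ℤ) - MvPolynomial.X p.1) =
      ∏ i : Fin r, ∏ j ∈ Ioi i, ((MvPolynomial.X j : MvPolynomial (Fin r) ℤ) -
        MvPolynomial.X i) := by
    unfold prs
    rw [prod_filter, ← univ_product_univ, prod_product]
    refine prod_congr rfl fun i _ => ?_
    rw [← prod_filter]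
    refine prod_congr ?_ fun _ _ => rfl
    ext j
    simp
  rw [h2, ← h1]
  refine sum_congr rfl fun w _ => ?_
  rw [zsmul_eq_mul]
  congr 1
  rw [MvPolynomial.monomial_sum_one]
  refine prod_congr rfl fun i _ => ?_
  rw [Matrix.transpose_apply, Matrix.vandermonde_apply, MvPolynomial.X_pow_eq_monomial]

theorem weyl {r : ℕ} {M : Type} [AddCommGroup M] (φ : (Fin r → ℤ) → M) :
    ∑ S ∈ (prs r).powerset, (-1 : ℤ) ^ S.card • φ (rho S) =
      ∑ w : Equiv.Perm (Fin r), (Equiv.Perm.sign w : ℤ) • φ (fun i => (w i : ℤ) - (i : ℤ)) := by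
  set g : (Fin r →₀ ℕ) → M := fun v => φ (fun i => ((v i : ℕ) : ℤ) - (i : ℤ)) with hg
  set Λ := (MvPolynomial.basisMonomials (Fin r) ℤ).constr ℤ g with hΛ
  have hm : ∀ v, Λ (MvPolynomial.monomial v (1 : ℤ)) = g v := by
    intro v
    have h := (MvPolynomial.basisMonomials (Fin r) ℤ).constr_basis ℤ g v
    rw [MvPolynomial.coe_basisMonomials] at h
    exact h
  have h1 := (wy_left r).symm.trans (wy_right r)
  have h2 := congrArg Λ h1
  rw [map_sum, map_sum] at h2
  have h3 : ∑ S ∈ (prs r).powerset, Λ ((-1 : ℤ) ^ S.card • MvPolynomial.monomial (wyv S) (1 : ℤ)) =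
      ∑ S ∈ (prs r).powerset, (-1 : ℤ) ^ S.card • φ (rho S) := by
    refine sum_congr rfl fun S hS => ?_
    rw [map_zsmul, hm]
    congr 1
    rw [hg]
    dsimp only
    congr 1
    funext i
    exact wyv_apply S (mem_powerset.mp hS) i
  have h4 : ∑ w : Equiv.Perm (Fin r), Λ ((Equiv.Perm.sign w : ℤ) •
      MvPolynomial.monomial (∑ i, Finsupp.single i (w i : ℕ)) (1 : ℤ)) =
      ∑ w : Equiv.Perm (Fin r), (Equiv.Perm.sign w : ℤ) • φ (fun i => (w i : ℤ) - (i : ℤ)) := by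
    refine sum_congr rfl fun w _ => ?_
    rw [map_zsmul, hm]
    congr 1
    rw [hg]
    dsimp only
    congr 1
    funext i
    congr 2
    rw [Finsupp.finsetSum_apply, sum_eq_single i]
    · rw [Finsupp.single_eq_same]
    · intro b _ hb
      rw [Finsupp.single_apply, if_neg hb]
    · intro h
      exact absurd (mem_univ i) h
  rw [← h3, ← h4]
  exact h2

/-- the form used in module Coef -/
theorem weyl' {r : ℕ} {M : Type} [AddCommGroup M] (lam : Fin r → ℕ) (φ : (Fin r → ℤ) → M) :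
    ∑ S ∈ (prs r).powerset, (-1 : ℤ) ^ S.card • φ (fun i => (lam i : ℤ) + rho S i) =
      ∑ w : Equiv.Perm (Fin r), (Equiv.Perm.sign w : ℤ) • φ (sh lam w) := by
  rw [weyl (fun v => φ (fun i => (lam i : ℤ) + v i))]
  refine sum_congr rfl fun w _ => ?_
  congr 2
  funext i
  simp only [sh]
  ring

end Pool.Agent.H18.KR
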