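import Pool.Agent.H18.KR.NNs
import Pool.Agent.H18.KR.Geo
import Pool.Agent.H18.KR.RxI
import Pool.Agent.H18.KR.T2
import Pool.Agent.H18.KR.Weyl

/-!
# Module Coef (about 200 lines). `N(d) = Σ_k a_k q^{n+k}`.

Let `q = s ^ 2`, `d = dd lam mu` (as a finsupp). By `NNser_path`, `prod_cross`, `prod_noncross`,
`NNser * ∏_{t,u} (1 - q z^{crv t u}) * ∏_{t,u} (1 - q² z^{crv t u}) =
∏_p (1 - z^{rrv p}) * ∏_p (1 - z^{llv p})`.
Apply `geo` with `ι = (Fin (L+1) × Fin (L+1)) × Bool` or a `Sum` type (the factor `(t,u,false)` with `c = q`, the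
factor `(t,u,true)` with `c = q²`); `hd`: at the centre `crv L t u L = 1` and `d L = Σ lam = n`. Functions
`e` on `ι` with values `≤ n` correspond to pairs `(A, B) ∈ Mats (L+1) n ×ˢ Mats (L+1) n`, `∏ c^e = q^{Σ A + 2 Σ B}`.
By `Finset.prod_sub`-like expansion the right side is
`Σ_{S, S' ⊆ prs (L+1)} (-1)^{|S|+|S'|} z^{Σ_S rrv + Σ_S' llv}`, and the coefficient of `d` in
`monomial e * monomial e'` is `1` if `e + e' = d` and `0` otherwise. So
`NN d = Σ_{A,B} q^{ΣA + 2ΣB} Σ_{S,S'} (-1)^{|S|+|S'|} [Σ (A+B) crv + Σ_S rrv + Σ_S' llv = d]`,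
the condition is `Marg A B (lam + rho S) (mu + rho S')` (`cond_iff`), under it `ΣA + ΣB = n`
(sum of the row sums, `Σ_i rho S i = 0`), so with `k = Σ B`: `q^{ΣA + 2ΣB} = q^{n+k}`, `k ≤ n`. Collect by
`k`: `Σ_{S,S'} (-1)^{..} cT n k (lam + rho S) (mu + rho S')`, and use `weyl'` twice to get `akk`.
-/

set_option autoImplicit false

namespace Pool.Agent.H18.KR

open Finset

variable {F : Type} [Field F] {s : F}

private lemma prod_mon {I J : Type} [DecidableEq I] [DecidableEq J] (T : Finset J)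
    (v : J → I →₀ ℕ) (c : J → F) :
    ∏ p ∈ T, MvPowerSeries.monomial (v p) (c p) =
      MvPowerSeries.monomial (∑ p ∈ T, v p) (∏ p ∈ T, c p) := by
  induction T using Finset.induction_on with
  | empty => simp
  | insert a T ha ih =>
    rw [prod_insert ha, sum_insert ha, prod_insert ha, ih, MvPowerSeries.monomial_mul_monomial]

private lemma prod_one_sub_mon {I J : Type} [DecidableEq I] [DecidableEq J] (T : Finset J)
    (v : J → I →₀ ℕ) :
    ∏ p ∈ T, (1 - MvPowerSeries.monomial (v p) (1 : F)) =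
      ∑ S ∈ T.powerset, MvPowerSeries.monomial (∑ p ∈ S, v p) ((-1 : F) ^ S.card) := by
  simp only [sub_eq_neg_add]
  rw [Finset.prod_add]
  refine sum_congr rfl fun S _ => ?_
  rw [prod_const_one, mul_one]
  simp only [← map_neg]
  rw [prod_mon, prod_const]

private lemma coef_two {I J J' : Type} [DecidableEq I] [DecidableEq J] [DecidableEq J']
    (T : Finset J) (T' : Finset J') (v : J → I →₀ ℕ) (v' : J' → I →₀ ℕ) (e d : I →₀ ℕ) :
    MvPowerSeries.coeff d (MvPowerSeries.monomial e (1 : F) *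
      ((∏ p ∈ T, (1 - MvPowerSeries.monomial (v p) (1 : F))) *
        ∏ p ∈ T', (1 - MvPowerSeries.monomial (v' p) (1 : F)))) =
      ∑ S ∈ T.powerset, ∑ S' ∈ T'.powerset,
        if e + ∑ p ∈ S, v p + ∑ p ∈ S', v' p = d then (-1 : F) ^ S.card * (-1) ^ S'.card else 0 := by
  rw [prod_one_sub_mon, prod_one_sub_mon, sum_mul_sum, mul_sum, map_sum]
  refine sum_congr rfl fun S _ => ?_
  rw [mul_sum, map_sum]
  refine sum_congr rfl fun S' _ => ?_
  rw [MvPowerSeries.monomial_mul_monomial, MvPowerSeries.monomial_mul_monomial,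
    MvPowerSeries.coeff_monomial, one_mul, ← add_assoc]
  by_cases h : e + ∑ p ∈ S, v p + ∑ p ∈ S', v' p = d
  · rw [if_pos h, if_pos h.symm]
  · rw [if_neg h, if_neg fun h' => h h'.symm]

private lemma sum_rho {r : ℕ} (S : Finset (Fin r × Fin r)) : ∑ i, rho S i = 0 := by
  unfold rho
  rw [sum_comm]
  refine sum_eq_zero fun p _ => ?_
  rw [sum_sub_distrib]
  simp

private lemma akk_eq {r : ℕ} (n k : ℕ) (lam mu : Fin r → ℕ) :
    ∑ S ∈ (prs r).powerset, ∑ S' ∈ (prs r).powerset,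
      (-1 : ℤ) ^ S.card * (-1) ^ S'.card *
        (cT n k (fun i => (lam i : ℤ) + rho S i) (fun i => (mu i : ℤ) + rho S' i) : ℤ) =
      akk n lam mu k := by
  have h1 : ∀ η : Fin r → ℤ, ∑ S' ∈ (prs r).powerset,
      (-1 : ℤ) ^ S'.card * (cT n k η (fun i => (mu i : ℤ) + rho S' i) : ℤ) =
      ∑ w' : Equiv.Perm (Fin r), (Equiv.Perm.sign w' : ℤ) * (cT n k η (sh mu w') : ℤ) := by
    intro η
    have := weyl' mu (fun θ => (cT n k η θ : ℤ))
    simpa only [smul_eq_mul] using this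
  have h2 := weyl' lam (fun η => ∑ w' : Equiv.Perm (Fin r),
    (Equiv.Perm.sign w' : ℤ) * (cT n k η (sh mu w') : ℤ))
  simp only [smul_eq_mul] at h2
  unfold akk
  calc _ = ∑ S ∈ (prs r).powerset, (-1 : ℤ) ^ S.card * ∑ w' : Equiv.Perm (Fin r),
        (Equiv.Perm.sign w' : ℤ) * (cT n k (fun i => (lam i : ℤ) + rho S i) (sh mu w') : ℤ) := by
        refine sum_congr rfl fun S _ => ?_
        rw [← h1, mul_sum]
        exact sum_congr rfl fun S' _ => by ring
    _ = _ := h2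
    _ = _ := by
        refine sum_congr rfl fun w _ => ?_
        rw [mul_sum]
        exact sum_congr rfl fun w' _ => by ring

/-- pairs of matrices as exponents -/
private def eM {L : ℕ} (A B : Fin (L + 1) → Fin (L + 1) → ℕ) :
    (Fin (L + 1) × Fin (L + 1)) ⊕ (Fin (L + 1) × Fin (L + 1)) → ℕ :=
  Sum.elim (fun p => A p.1 p.2) (fun p => B p.1 p.2)

private lemma sum_pi {L n : ℕ}
    (φ : ((Fin (L + 1) × Fin (L + 1)) ⊕ (Fin (L + 1) × Fin (L + 1)) → ℕ) → F) :
    ∑ e ∈ Fintype.piFinset (fun _ : (Fin (L + 1) × Fin (L + 1)) ⊕ (Fin (L + 1) × Fin (L + 1)) =>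
      range (n + 1)), φ e =
      ∑ p ∈ Mats (L + 1) n ×ˢ Mats (L + 1) n, φ (eM p.1 p.2) := by
  symm
  refine sum_bij' (fun p _ => eM p.1 p.2)
    (fun e _ => (fun t u => e (Sum.inl (t, u)), fun t u => e (Sum.inr (t, u)))) ?_ ?_ ?_ ?_ ?_
  · rintro ⟨A, B⟩ h
    rw [mem_product] at h
    simp only [Mats, Fintype.mem_piFinset] at h ⊢
    rintro (p | p)
    · exact h.1 p.1 p.2
    · exact h.2 p.1 p.2
  · intro e h
    rw [mem_product]
    simp only [Mats, Fintype.mem_piFinset] at h ⊢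
    exact ⟨fun t u => h _, fun t u => h _⟩
  · rintro ⟨A, B⟩ _
    rfl
  · intro e _
    funext x
    rcases x with p | p <;> rfl
  · intro p _
    rfl

/-- the sum over the pairs of matrices with given marginals -/
private lemma sum_marg {r n : ℕ} (q : F) (η θ : Fin r → ℤ) (hη : ∑ i, η i = n) :
    ∑ p ∈ Mats r n ×ˢ Mats r n, (if Marg p.1 p.2 η θ then
      q ^ (∑ i, ∑ j, p.1 i j) * (q ^ 2) ^ (∑ i, ∑ j, p.2 i j) else 0) =
      ∑ k ∈ range (n + 1), (cT n k η θ : F) * q ^ (n + k) := by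
  have h1 : ∀ p : (Fin r → Fin r → ℕ) × (Fin r → Fin r → ℕ), Marg p.1 p.2 η θ →
      ∑ i, ∑ j, p.1 i j + ∑ i, ∑ j, p.2 i j = n := by
    intro p hp
    have h2 : ((∑ i, ∑ j, (p.1 i j + p.2 i j) : ℕ) : ℤ) = n := by
      rw [← hη]
      push_cast
      refine sum_congr rfl fun i _ => ?_
      have := hp.1 i
      push_cast at this
      exact this
    have h3 : ∑ i, ∑ j, (p.1 i j + p.2 i j) = ∑ i, ∑ j, p.1 i j + ∑ i, ∑ j, p.2 i j := by
      simp only [sum_add_distrib]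
    rw [← h3]
    exact_mod_cast h2
  have h4 : ∀ k, (cT n k η θ : F) = ∑ p ∈ Mats r n ×ˢ Mats r n,
      if Marg p.1 p.2 η θ ∧ ∑ i, ∑ j, p.2 i j = k then 1 else 0 := by
    intro k
    unfold cT
    rw [← sum_filter, sum_const, nsmul_eq_mul, mul_one]
  simp only [h4, sum_mul]
  rw [sum_comm]
  refine sum_congr rfl fun p _ => ?_
  by_cases hp : Marg p.1 p.2 η θ
  · rw [if_pos hp]
    have h5 := h1 p hp
    rw [sum_eq_single (∑ i, ∑ j, p.2 i j)]
    · rw [if_pos ⟨hp, rfl⟩, one_mul, ← pow_mul, ← pow_add]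
      congr 1
      omega
    · intro k _ hk
      rw [if_neg fun h => hk h.2.symm, zero_mul]
    · intro h
      rw [mem_range] at h
      omega
  · rw [if_neg hp]
    symm
    refine sum_eq_zero fun k _ => ?_
    rw [if_neg fun h => hp h.1, zero_mul]

theorem NN_path (L n : ℕ) (lam mu : Fin (L + 1) → ℕ) (hl : ∑ i, lam i = n) (hm : ∑ i, mu i = n)
    (hs0 : s ≠ 0) (hs : ∀ n : ℕ, 0 < n → (s ^ 2) ^ n ≠ 1) :
    NN (PG (2 * L + 1)) (Nc L 3) s (dd lam mu) =
      ∑ k ∈ range (n + 1), (akk n lam mu k : F) * (s ^ 2) ^ (n + k) := by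
  classical
  set q : F := s ^ 2 with hq
  let Q := Fin (L + 1) × Fin (L + 1)
  let d : Fin (2 * L + 1) →₀ ℕ := Finsupp.equivFunOnFinite.symm (dd lam mu)
  have hdk : ∀ k, d k = dd lam mu k := fun k => rfl
  let α : Q ⊕ Q → Fin (2 * L + 1) →₀ ℕ :=
    Sum.elim (fun p => crv L p.1 p.2) (fun p => crv L p.1 p.2)
  let c : Q ⊕ Q → F := Sum.elim (fun _ => q) (fun _ => q ^ 2)
  let Ψ : MvPowerSeries (Fin (2 * L + 1)) F :=
    (∏ p ∈ prs (L + 1), (1 - MvPowerSeries.monomial (rrv L p) (1 : F))) *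
      ∏ p ∈ prs (L + 1), (1 - MvPowerSeries.monomial (llv L p) (1 : F))
  have hΦ : NNser (PG (2 * L + 1)) (Nc L 3) s * ∏ i, (1 - MvPowerSeries.monomial (α i) (c i)) =
      Ψ := by
    have h1 := NNser_path L hs0 hs
    rw [prod_cross L (fun β => (1 - MvPowerSeries.monomial β (s ^ 2)) *
      (1 - MvPowerSeries.monomial β ((s ^ 2) ^ 2))),
      prod_noncross L (fun β => 1 - MvPowerSeries.monomial β (1 : F))] at h1
    rw [← hq] at h1
    refine Eq.trans ?_ h1
    congr 1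
    rw [Fintype.prod_sum_type, ← prod_mul_distrib, Fintype.prod_prod_type]
    rfl
  have hd : ∀ i, ∀ m : ℕ, m • α i ≤ d → m ≤ n := by
    intro i m h
    have h1 := h ⟨L, by omega⟩
    have h2 : α i ⟨L, by omega⟩ = 1 := by
      rcases i with p | p <;>
      · change crI L p.1 p.2 ⟨L, _⟩ = 1
        unfold crI
        simp
    have h3 : d ⟨L, by omega⟩ = n := by
      rw [hdk]
      unfold dd
      simp [hl]
    rw [Finsupp.smul_apply, h2, h3] at h1
    simpa using h1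
  have hgeo := geo α c _ Ψ hΦ n d hd
  have hco : MvPowerSeries.coeff d (NNser (PG (2 * L + 1)) (Nc L 3) s) =
      NN (PG (2 * L + 1)) (Nc L 3) s (dd lam mu) := rfl
  rw [hco] at hgeo
  rw [hgeo, sum_pi]
  -- the summands
  have hterm : ∀ p ∈ Mats (L + 1) n ×ˢ Mats (L + 1) n,
      (∏ i, c i ^ eM p.1 p.2 i) *
        MvPowerSeries.coeff d (MvPowerSeries.monomial (∑ i, eM p.1 p.2 i • α i) (1 : F) * Ψ) =
      ∑ S ∈ (prs (L + 1)).powerset, ∑ S' ∈ (prs (L + 1)).powerset,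
        ((-1 : F) ^ S.card * (-1) ^ S'.card) *
          (if Marg p.1 p.2 (fun i => (lam i : ℤ) + rho S i) (fun i => (mu i : ℤ) + rho S' i) then
            q ^ (∑ i, ∑ j, p.1 i j) * (q ^ 2) ^ (∑ i, ∑ j, p.2 i j) else 0) := by
    intro p _
    rw [coef_two]
    have h1 : ∏ i, c i ^ eM p.1 p.2 i =
        q ^ (∑ i, ∑ j, p.1 i j) * (q ^ 2) ^ (∑ i, ∑ j, p.2 i j) := by
      rw [Fintype.prod_sum_type]
      simp only [c, eM, Sum.elim_inl, Sum.elim_inr]
      rw [prod_pow_eq_pow_sum, prod_pow_eq_pow_sum, Fintype.sum_prod_type, Fintype.sum_prod_type]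
    rw [h1, mul_sum]
    refine sum_congr rfl fun S hS => ?_
    rw [mul_sum]
    refine sum_congr rfl fun S' hS' => ?_
    have h2 : (∑ i, eM p.1 p.2 i • α i + ∑ p ∈ S, rrv L p + ∑ p ∈ S', llv L p = d) ↔
        Marg p.1 p.2 (fun i => (lam i : ℤ) + rho S i) (fun i => (mu i : ℤ) + rho S' i) := by
      rw [← cond_iff L n lam mu hl hm p.1 p.2 S S' (mem_powerset.1 hS) (mem_powerset.1 hS'),
        Finsupp.ext_iff]
      refine forall_congr' fun k => ?_
      rw [hdk, Finsupp.add_apply, Finsupp.add_apply, Finsupp.finsetSum_apply,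
        Finsupp.finsetSum_apply, Finsupp.finsetSum_apply, Fintype.sum_sum_type,
        Fintype.sum_prod_type, Fintype.sum_prod_type, ← sum_add_distrib]
      have h3 : ∑ x, (∑ x_1, (eM p.1 p.2 (Sum.inl (x, x_1)) • α (Sum.inl (x, x_1))) k +
          ∑ x_1, (eM p.1 p.2 (Sum.inr (x, x_1)) • α (Sum.inr (x, x_1))) k) =
          ∑ t, ∑ u, (p.1 t u + p.2 t u) * crI L t u k := by
        refine sum_congr rfl fun t _ => ?_
        rw [← sum_add_distrib]
        refine sum_congr rfl fun u _ => ?_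
        change p.1 t u * crI L t u k + p.2 t u * crI L t u k = _
        ring
      rw [h3]
      rfl
    by_cases h4 : Marg p.1 p.2 (fun i => (lam i : ℤ) + rho S i) (fun i => (mu i : ℤ) + rho S' i)
    · rw [if_pos (h2.2 h4), if_pos h4]
      ring
    · rw [if_neg (fun h => h4 (h2.1 h)), if_neg h4, mul_zero, mul_zero]
  rw [sum_congr rfl hterm, sum_comm]
  have hswap : ∀ S ∈ (prs (L + 1)).powerset,
      ∑ p ∈ Mats (L + 1) n ×ˢ Mats (L + 1) n, ∑ S' ∈ (prs (L + 1)).powerset,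
        ((-1 : F) ^ S.card * (-1) ^ S'.card) *
          (if Marg p.1 p.2 (fun i => (lam i : ℤ) + rho S i) (fun i => (mu i : ℤ) + rho S' i) then
            q ^ (∑ i, ∑ j, p.1 i j) * (q ^ 2) ^ (∑ i, ∑ j, p.2 i j) else 0) =
      ∑ k ∈ range (n + 1), (∑ S' ∈ (prs (L + 1)).powerset, ((-1 : F) ^ S.card * (-1) ^ S'.card) *
        (cT n k (fun i => (lam i : ℤ) + rho S i) (fun i => (mu i : ℤ) + rho S' i) : F)) *
          q ^ (n + k) := by
    intro S _
    rw [sum_comm]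
    have h1 : ∑ i, ((lam i : ℤ) + rho S i) = n := by
      rw [sum_add_distrib, sum_rho, add_zero, ← hl]
      push_cast
      rfl
    simp only [← mul_sum]
    simp only [sum_marg q _ _ h1]
    simp only [mul_sum, sum_mul]
    rw [sum_comm]
    refine sum_congr rfl fun k _ => sum_congr rfl fun S' _ => ?_
    ring
  rw [sum_congr rfl hswap, sum_comm]
  refine sum_congr rfl fun k _ => ?_
  rw [← sum_mul, ← akk_eq]
  congr 1
  push_cast
  rfl

end Pool.Agent.H18.KR
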