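import Pool.Agent.H18.KR.HId

/-!
# Module Cr (about 150 lines). The effect of one more string of the maximal width.

Let all widths of `κ` be at most `w` (`w = 0` is allowed: then `κ = 0`). Then for all `d`

  `Σ_{α ∈ Pd d} q^{(α,α)-(κ,α)-Qw α w}/(q)_α
     = q^{-d} aa κ d - q^{-|κ|} Σ_{m + d' = d - w - 1} [m+1] q^{d'} aa κ d'`

(the last sum is absent for `d < w + 1`). Proof. `q^{-d} aa κ d - LHS =
Σ_α q^{(α,α)-(κ,α)-d} (1 - q^{d - Qw α w})/(q)_α`. Write `α = (β, γ)`, `β = loS w α`, `γ = hiS w α`,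
`c = cnt γ`, `e = sz γ`, `d0 = sz β`, `d = d0 + w c + e` (module Dec). Then `Qw α w = d0 + w c`, so
`d - Qw α w = e`; `(α,α) = (β,β) + 2 c d0 + w c^2 + (γ,γ)`, `(κ,α) = (κ,β) + c |κ|`. Put
`b(d0) = Σ_{β ∈ Pd d0, widths ≤ w} q^{(β,β)-(κ,β)}/(q)_β`. By `sum_dec`

  `q^{-d} aa κ d - LHS = Σ_{d0 + w c + e = d} b(d0) q^{2 c d0 + w c^2 - c|κ| - d} (1-q^e) hh(c, e)`,

where only `c ≥ 1`, `e ≥ 1` contribute. In the same way (with no factor)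
`aa κ d' = Σ_{d0 + w c' + e' = d'} b(d0) q^{2 c' d0 + w c'^2 - c'|κ|} hh(c', e')`, so that
`q^{-|κ|} Σ_{m + d' = d-w-1} [m+1] q^{d'} aa κ d'` is the sum over `(d0, c', e', m)` with
`d0 + w c' + e' + m = d - w - 1` of
`b(d0) q^{-|κ| + d0 + w c' + e' + 2c'd0 + w c'^2 - c'|κ|} [m+1] hh(c', e')`.
With `c = c' + 1`, `e = e' + m + 1` the conditions match, and the exponents agree:
`2 c d0 + w c^2 - c|κ| - d + e = (2c-1) d0 + w (c^2 - c) - c|κ|`, and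
`-|κ| + d0 + w c' + 2 c' d0 + w c'^2 - c'|κ| = (2c-1) d0 + w c (c-1) - c|κ|`.
So for each `(d0, c)` the claim is `q^{-e} (1-q^e) hh(c,e) = Σ_{m+e'=e-1} [m+1] q^{e'} hh(c-1,e')`,
`hh_id`.
-/

set_option autoImplicit false

namespace Pool.Agent.H18.KR

open Finset

variable {F : Type} [Field F] {q : F}

private def TT (w d : ℕ) : Finset (ℕ × ℕ × ℕ) :=
  ((range (d + 1) ×ˢ range (d + 1) ×ˢ range (d + 1)).filter
    (fun t => t.1 + w * t.2.1 + t.2.2 = d)).filter (fun t => t.2.1 ≤ t.2.2)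

private lemma mem_TT {w d : ℕ} {t : ℕ × ℕ × ℕ} :
    t ∈ TT w d ↔ t.1 + w * t.2.1 + t.2.2 = d ∧ t.2.1 ≤ t.2.2 := by
  simp only [TT, mem_filter, mem_product, mem_range, Nat.lt_succ_iff]
  constructor
  · rintro ⟨⟨-, h1⟩, h2⟩
    exact ⟨h1, h2⟩
  · rintro ⟨h1, h2⟩
    refine ⟨⟨⟨?_, ?_, ?_⟩, h1⟩, h2⟩ <;> omega

private noncomputable def bb (q : F) (κ : Str) (w d0 : ℕ) : F :=
  ∑ β ∈ (Pd d0).filter (fun β => ∀ i ∈ β.support, i < w),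
    q ^ ((fm β β : ℤ) - (fm κ β : ℤ)) / qfp q β

private def ex (κ : Str) (w d0 c : ℕ) : ℤ :=
  2 * ((c : ℤ) * d0) + w * (c : ℤ) ^ 2 - c * sz κ

private lemma gen (hq0 : q ≠ 0) (w : ℕ) (κ : Str) (hκ : ∀ i ∈ κ.support, i < w) (d : ℕ)
    (X : ℕ → ℕ → ℕ → F) :
    ∑ α ∈ Pd d, q ^ ((fm α α : ℤ) - (fm κ α : ℤ)) / qfp q α *
        X (sz (loS w α)) (cnt (hiS w α)) (sz (hiS w α)) =
      ∑ t ∈ TT w d, bb q κ w t.1 *
        (q ^ ex κ w t.1 t.2.1 * hh q t.2.1 t.2.2 * X t.1 t.2.1 t.2.2) := by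
  let Φ : Str → Str → F := fun β γ => q ^ ((fm β β : ℤ) - (fm κ β : ℤ)) / qfp q β *
    (q ^ ex κ w (sz β) (cnt γ) * (q ^ fm γ γ / qfp q γ) * X (sz β) (cnt γ) (sz γ))
  have key : ∀ α ∈ Pd d, q ^ ((fm α α : ℤ) - (fm κ α : ℤ)) / qfp q α *
      X (sz (loS w α)) (cnt (hiS w α)) (sz (hiS w α)) = Φ (loS w α) (hiS w α) := by
    intro α _
    have h1 : ((fm α α : ℤ) - (fm κ α : ℤ)) =
        ((fm (loS w α) (loS w α) : ℤ) - (fm κ (loS w α) : ℤ)) +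
        (ex κ w (sz (loS w α)) (cnt (hiS w α)) + (fm (hiS w α) (hiS w α) : ℤ)) := by
      rw [fm_dec w α, fm_dec' w κ α hκ, ex]
      push_cast
      ring
    simp only [Φ]
    rw [h1, zpow_add₀ hq0, zpow_add₀ hq0, zpow_natCast, qfp_dec q w α]
    ring
  rw [sum_congr rfl key, sum_dec w d Φ]
  rw [TT, sum_filter (fun t : ℕ × ℕ × ℕ => t.2.1 ≤ t.2.2)]
  refine sum_congr rfl fun t ht => ?_
  rcases lt_or_ge t.2.2 t.2.1 with hlt | hge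
  · rw [if_neg (not_le.2 hlt)]
    refine sum_eq_zero fun β _ => sum_eq_zero fun γ hγ => ?_
    exfalso
    have hγ1 : sz γ = t.2.2 := mem_Pd.1 (mem_filter.1 hγ).1
    have hγ2 : cnt γ = t.2.1 := (mem_filter.1 hγ).2
    have := cnt_le_sz γ
    omega
  rw [if_pos hge]
  rw [bb, sum_mul]
  refine sum_congr rfl fun β hβ => ?_
  have hβ1 : sz β = t.1 := mem_Pd.1 (mem_filter.1 hβ).1
  rw [hh, mul_sum, sum_mul, mul_sum]
  refine sum_congr rfl fun γ hγ => ?_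
  have hγ1 : sz γ = t.2.2 := mem_Pd.1 (mem_filter.1 hγ).1
  have hγ2 : cnt γ = t.2.1 := (mem_filter.1 hγ).2
  simp only [Φ]
  rw [hβ1, hγ1, hγ2]

theorem cr (hq0 : q ≠ 0) (hq : ∀ n : ℕ, 0 < n → q ^ n ≠ 1) (w : ℕ) (κ : Str)
    (hκ : ∀ i ∈ κ.support, i < w) (d : ℕ) :
    ∑ α ∈ Pd d, q ^ ((fm α α : ℤ) - (fm κ α : ℤ) - (Qw α w : ℤ)) / qfp q α =
      q⁻¹ ^ d * aa q κ d -
        if w + 1 ≤ d then
          q⁻¹ ^ sz κ * ∑ x ∈ antidiagonal (d - (w + 1)),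
            (1 - q ^ (x.1 + 1)) / (1 - q) * (q ^ x.2 * aa q κ x.2)
        else 0 := by
  classical
  have hA : ∑ α ∈ Pd d, q ^ ((fm α α : ℤ) - (fm κ α : ℤ) - (Qw α w : ℤ)) / qfp q α =
      ∑ t ∈ TT w d, bb q κ w t.1 * (q ^ ex κ w t.1 t.2.1 * hh q t.2.1 t.2.2 *
        q ^ (-((t.1 : ℤ) + w * t.2.1))) := by
    rw [← gen hq0 w κ hκ d (fun a b _ => q ^ (-((a : ℤ) + w * b)))]
    refine sum_congr rfl fun α _ => ?_
    have h1 : (Qw α w : ℤ) = (sz (loS w α) : ℤ) + w * (cnt (hiS w α) : ℤ) := by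
      rw [Qw_dec w α (Nat.le_succ w), Qw_eq_sz (loS_support w α)]
      push_cast
      ring
    rw [h1, sub_eq_add_neg ((fm α α : ℤ) - (fm κ α : ℤ)), zpow_add₀ hq0]
    ring
  have hB : q⁻¹ ^ d * aa q κ d =
      ∑ t ∈ TT w d, bb q κ w t.1 * (q ^ ex κ w t.1 t.2.1 * hh q t.2.1 t.2.2 * q⁻¹ ^ d) := by
    rw [← gen hq0 w κ hκ d (fun _ _ _ => q⁻¹ ^ d), ← sum_mul, mul_comm, aa]
  have hC : ∀ d' : ℕ, aa q κ d' =
      ∑ t ∈ TT w d', bb q κ w t.1 * (q ^ ex κ w t.1 t.2.1 * hh q t.2.1 t.2.2) := by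
    intro d'
    have h := gen hq0 w κ hκ d' (fun _ _ _ => 1)
    simp only [mul_one] at h
    rw [← h, aa]
  rw [hA, hB, eq_sub_iff_add_eq, ← eq_sub_iff_add_eq', ← sum_sub_distrib]
  -- the difference of the two sums
  have hD : ∑ t ∈ TT w d, (bb q κ w t.1 * (q ^ ex κ w t.1 t.2.1 * hh q t.2.1 t.2.2 * q⁻¹ ^ d) -
        bb q κ w t.1 * (q ^ ex κ w t.1 t.2.1 * hh q t.2.1 t.2.2 *
          q ^ (-((t.1 : ℤ) + w * t.2.1)))) =
      ∑ t ∈ (TT w d).filter (fun t => 1 ≤ t.2.1),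
        ∑ x ∈ (antidiagonal (t.2.2 - 1)).filter (fun x => t.2.1 ≤ x.2 + 1), bb q κ w t.1 *
          (q ^ (ex κ w t.1 t.2.1 - ((t.1 : ℤ) + w * t.2.1)) *
            ((1 - q ^ (x.1 + 1)) / (1 - q) * (q ^ x.2 * hh q (t.2.1 - 1) x.2))) := by
    rw [sum_filter]
    refine sum_congr rfl fun t ht => ?_
    obtain ⟨ht2, ht3⟩ := mem_TT.1 ht
    have h1 : q⁻¹ ^ d = q ^ (-((t.1 : ℤ) + w * t.2.1)) * q⁻¹ ^ t.2.2 := by
      rw [← ht2, pow_add, zpow_neg, inv_pow q (t.1 + w * t.2.1), ← zpow_natCast q (t.1 + w * t.2.1)]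
      push_cast
      rfl
    have h3 : bb q κ w t.1 * (q ^ ex κ w t.1 t.2.1 * hh q t.2.1 t.2.2 * q⁻¹ ^ d) -
        bb q κ w t.1 * (q ^ ex κ w t.1 t.2.1 * hh q t.2.1 t.2.2 *
          q ^ (-((t.1 : ℤ) + w * t.2.1))) =
        bb q κ w t.1 * (q ^ (ex κ w t.1 t.2.1 - ((t.1 : ℤ) + w * t.2.1)) *
          (q⁻¹ ^ t.2.2 * (1 - q ^ t.2.2) * hh q t.2.1 t.2.2)) := by
      have h4 : q⁻¹ ^ t.2.2 * q ^ t.2.2 = 1 := by
        rw [← mul_pow, inv_mul_cancel₀ hq0, one_pow]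
      rw [h1, sub_eq_add_neg (ex κ w t.1 t.2.1), zpow_add₀ hq0]
      linear_combination (bb q κ w t.1 * q ^ ex κ w t.1 t.2.1 * hh q t.2.1 t.2.2 *
        q ^ (-((t.1 : ℤ) + w * t.2.1))) * h4
    rw [h3]
    split_ifs with h5
    · rw [hh_id hq0 hq h5 (h5.trans ht3), mul_sum, mul_sum, sum_filter]
      refine sum_congr rfl fun x _ => ?_
      split_ifs with h6
      · rfl
      · rw [hh_of_lt (q := q) (show x.2 < t.2.1 - 1 by omega), mul_zero, mul_zero, mul_zero,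
          mul_zero]
    · have h7 : t.2.1 = 0 := by omega
      rcases Nat.eq_zero_or_pos t.2.2 with h6 | h6
      · rw [h6, pow_zero, pow_zero, sub_self, mul_zero, zero_mul, mul_zero, mul_zero]
      · rw [h7, hh_zero_pos h6, mul_zero, mul_zero, mul_zero]
  rw [hD]
  split_ifs with hd
  · rw [mul_sum]
    simp only [hC, mul_sum]
    rw [sum_sigma', sum_sigma']
    refine sum_bij' (fun p _ => ⟨(p.2.1, p.2.2.1 + 1, p.1.1 + p.2.2.2 + 1), (p.1.1, p.2.2.2)⟩)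
      (fun p _ => ⟨(p.2.1, p.1.1 + w * (p.1.2.1 - 1) + p.2.2), (p.1.1, p.1.2.1 - 1, p.2.2)⟩)
      ?_ ?_ ?_ ?_ ?_
    · rintro ⟨⟨m, d'⟩, ⟨d0, c, e⟩⟩ h
      simp only [mem_sigma, HasAntidiagonal.mem_antidiagonal, mem_TT] at h
      simp only [mem_sigma, HasAntidiagonal.mem_antidiagonal, mem_TT, mem_filter]
      obtain ⟨h1, h2, h3⟩ := h
      have h6 : w * (c + 1) = w * c + w := by ring
      refine ⟨⟨⟨?_, ?_⟩, ?_⟩, ?_, ?_⟩
      · rw [h6]; omega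
      · omega
      · omega
      · omega
      · omega
    · rintro ⟨⟨d0, c, e⟩, ⟨m, e'⟩⟩ h
      simp only [mem_sigma, HasAntidiagonal.mem_antidiagonal, mem_TT, mem_filter] at h
      simp only [mem_sigma, HasAntidiagonal.mem_antidiagonal, mem_TT]
      obtain ⟨⟨⟨h1, h2⟩, h3⟩, h4, h5⟩ := h
      obtain ⟨c, rfl⟩ : ∃ b, c = b + 1 := ⟨c - 1, by omega⟩
      have h8 : w * (c + 1) = w * c + w := by ring
      rw [h8] at h1
      rw [Nat.add_sub_cancel]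
      refine ⟨?_, trivial, ?_⟩ <;> omega
    · rintro ⟨⟨m, d'⟩, ⟨d0, c, e⟩⟩ h
      simp only [mem_sigma, HasAntidiagonal.mem_antidiagonal, mem_TT] at h
      obtain ⟨h1, h2, h3⟩ := h
      simp only [Nat.add_sub_cancel]
      subst h2
      rfl
    · rintro ⟨⟨d0, c, e⟩, ⟨m, e'⟩⟩ h
      simp only [mem_sigma, HasAntidiagonal.mem_antidiagonal, mem_TT, mem_filter] at h
      obtain ⟨⟨⟨h1, h2⟩, h3⟩, h4, h5⟩ := h
      have h8 : c - 1 + 1 = c := by omega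
      have h9 : m + e' + 1 = e := by omega
      simp only [h8, h9]
    · rintro ⟨⟨m, d'⟩, ⟨d0, c, e⟩⟩ h
      simp only [mem_sigma, HasAntidiagonal.mem_antidiagonal, mem_TT] at h
      obtain ⟨h1, h2, h3⟩ := h
      simp only [Nat.add_sub_cancel]
      have h6 : q⁻¹ ^ sz κ * q ^ d' * q ^ ex κ w d0 c =
          q ^ (ex κ w d0 (c + 1) - ((d0 : ℤ) + w * ((c + 1 : ℕ) : ℤ))) * q ^ e := by
        rw [inv_pow, ← zpow_natCast q (sz κ), ← zpow_neg, ← zpow_natCast q d', ← zpow_add₀ hq0,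
          ← zpow_add₀ hq0, ← zpow_natCast q e, ← zpow_add₀ hq0, ← h2]
        congr 1
        simp only [ex]
        push_cast
        ring
      linear_combination (bb q κ w d0 * ((1 - q ^ (m + 1)) / (1 - q)) * hh q c e) * h6
  · symm
    refine sum_eq_zero fun t ht => ?_
    exfalso
    obtain ⟨h1, h2⟩ := mem_filter.1 ht
    obtain ⟨h4, h5⟩ := mem_TT.1 h1
    have h6 : w * 1 ≤ w * t.2.1 := Nat.mul_le_mul_left w h2
    omega

end Pool.Agent.H18.KR
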