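import Mathlib

/-!
# MP_bd45e0_lc: definitions for the fermionic formula of Kronecker products

`q` is an element of a field, `q ≠ 0` and not a root of unity (hypotheses `q ≠ 0` and
`∀ n, 0 < n → q ^ n ≠ 1` of the lemmas).

* `qf q m = (q;q)_m`, `gb q P m = (q^{P+1};q)_m/(q;q)_m` (`P : ℤ`), `ep q m = 1/(q⁻¹;q⁻¹)_m`.
* `Str = ℕ →₀ ℕ`: a multiset of strings; `α i` is the number of strings of width `i + 1`
  (that is a partition, all functions of partitions below are indexed by widths `w`).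
* `sz α` total width, `cnt α` number of strings, `Qw α w = Σ min(w, width)`,
  `fm α β = Σ Σ min(width, width')` (symmetric bilinear form), `qfp q α = ∏ (q;q)_{α i}`.
* `Pd d`: the finite set of all `α` with `sz α = d`.
* For a simple graph `G` on the finite set `I` of nodes: a configuration is `m : Cf I = I → Str`,
  `nbs G m k` the sum of the strings at the neighbours of `k`, `Pv G N m k w` the vacancy number,
  `EE G m` twice the energy, `wt` the weight (everything in powers of `s`, `q = s ^ 2`).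
-/

set_option autoImplicit false

namespace Pool.Agent.H18.KR

open Finset

section Field
variable {F : Type} [Field F]

/-- `(q;q)_m` -/
def qf (q : F) (m : ℕ) : F := ∏ i ∈ range m, (1 - q ^ (i + 1))

/-- `(q^{P+1};q)_m / (q;q)_m`; the Gaussian binomial `[P+m choose m]` for `P ≥ 0` -/
def gb (q : F) (P : ℤ) (m : ℕ) : F := (∏ i ∈ range m, (1 - q ^ (P + 1 + (i : ℤ)))) / qf q m

/-- `(-1)^m q^{m(m+1)/2}/(q;q)_m = 1/(q⁻¹;q⁻¹)_m`, the coefficients of `(qx;q)_∞` -/
def ep (q : F) (m : ℕ) : F := (-1) ^ m * q ^ (m * (m + 1) / 2) / qf q m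

end Field

/-- strings: `α i` strings of width `i + 1` -/
abbrev Str : Type := ℕ →₀ ℕ

/-- total width -/
def sz (α : Str) : ℕ := α.sum fun i a => (i + 1) * a

/-- number of strings -/
def cnt (α : Str) : ℕ := α.sum fun _ a => a

/-- `Σ min(w, width)` -/
def Qw (α : Str) (w : ℕ) : ℕ := α.sum fun i a => min w (i + 1) * a

/-- `Σ Σ min(width, width')` -/
def fm (α β : Str) : ℕ := α.sum fun i a => a * Qw β (i + 1)

/-- `∏ (q;q)_{α i}` -/
noncomputable def qfp {F : Type} [Field F] (q : F) (α : Str) : F := α.prod fun _ a => qf q a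

/-- all `α` with `sz α = d` -/
noncomputable def Pd (d : ℕ) : Finset Str :=
  ((range d).finsupp fun _ => range (d + 1)).filter fun α => sz α = d

/-- the strings of `α` of width at most `w` -/
noncomputable def loS (w : ℕ) (α : Str) : Str := α.filter fun i => i < w

/-- the strings of `α` of width more than `w`, shortened by `w` -/
noncomputable def hiS (w : ℕ) (α : Str) : Str :=
  α.comapDomain (fun i => i + w) (fun _ _ _ _ h => Nat.add_right_cancel h)

/-- the inverse of the shift: all strings are lengthened by `w` -/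
noncomputable def upS (w : ℕ) (α : Str) : Str := α.mapDomain fun i => i + w

section OneNode
variable {F : Type} [Field F]

/-- coefficient of `x^d` in `A^κ(x) = Σ_α x^{|α|} q^{(α,α)-(κ,α)}/(q)_α` -/
noncomputable def aa (q : F) (κ : Str) (d : ℕ) : F :=
  ∑ α ∈ Pd d, q ^ ((fm α α : ℤ) - (fm κ α : ℤ)) / qfp q α

/-- coefficient of `x^d` in `G_κ(x) = A^κ(x) (qx;q)_∞` -/
noncomputable def gg (q : F) (κ : Str) (d : ℕ) : F :=
  ∑ x ∈ antidiagonal d, aa q κ x.1 * ep q x.2

/-- sum over the `α` with `c` strings and total width `e` of `q^{(α,α)}/(q)_α` -/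
noncomputable def hh (q : F) (c e : ℕ) : F :=
  ∑ α ∈ (Pd e).filter (fun α => cnt α = c), q ^ fm α α / qfp q α

/-- a palindromic sequence of length `k + 1` -/
def Pal (k : ℕ) (u : ℕ → F) : Prop := (∀ d, d ≤ k → u d = u (k - d)) ∧ ∀ d, k < d → u d = 0

end OneNode

section Nodes
variable {I : Type} [Fintype I] [DecidableEq I] (G : SimpleGraph I) [DecidableRel G.Adj]

/-- configurations -/
abbrev Cf (I : Type) : Type := I → Str

/-- all strings at the neighbours of `k` -/
noncomputable def nbs (m : Cf I) (k : I) : Str := ∑ l ∈ univ.filter (fun l => G.Adj k l), m l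

/-- sum of the `d l` over the neighbours `l` of `k` -/
def nbd (d : I → ℕ) (k : I) : ℕ := ∑ l ∈ univ.filter (fun l => G.Adj k l), d l

/-- twice the energy -/
noncomputable def EE (m : Cf I) : ℤ := ∑ k, (2 * (fm (m k) (m k) : ℤ) - (fm (m k) (nbs G m k) : ℤ))

/-- the vacancy number of width `w` at the node `k` -/
noncomputable def Pv (N : I → ℕ) (m : Cf I) (k : I) (w : ℕ) : ℤ :=
  (N k : ℤ) * w - 2 * (Qw (m k) w : ℤ) + (Qw (nbs G m k) w : ℤ)

/-- the weight of a configuration, `q = s ^ 2` -/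
noncomputable def wt {F : Type} [Field F] (N : I → ℕ) (s : F) (m : Cf I) : F :=
  s ^ EE G m * ∏ k, (m k).prod fun i a => gb (s ^ 2) (Pv G N m k (i + 1)) a

/-- all configurations with total widths `d` -/
noncomputable def Cfg (d : I → ℕ) : Finset (Cf I) := Fintype.piFinset fun k => Pd (d k)

/-- the unrestricted sum -/
noncomputable def NN {F : Type} [Field F] (N : I → ℕ) (s : F) (d : I → ℕ) : F :=
  ∑ m ∈ Cfg d, wt G N s m

/-- all vacancy numbers are nonnegative -/
def AdmAll (N : I → ℕ) (m : Cf I) : Prop := ∀ (k : I) (w : ℕ), 0 ≤ Pv G N m k w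

/-- the vacancy numbers of the widths that occur are nonnegative -/
def Adm (N : I → ℕ) (m : Cf I) : Prop := ∀ k, ∀ i ∈ (m k).support, 0 ≤ Pv G N m k (i + 1)

/-- the coefficients of `A(z) = Σ_m z^{|m|} q^{E(m)}/(q)_m` -/
noncomputable def AA {F : Type} [Field F] (s : F) : MvPowerSeries I F :=
  fun d => ∑ m ∈ Cfg (fun k => d k), s ^ EE G m / ∏ k, qfp (s ^ 2) (m k)

/-- `φ` is invariant under the reflection `d_k ↦ (sum of the d_l over the neighbours) - d_k` of the
exponents -/
def SymK {F : Type} [Field F] (k : I) (φ : MvPowerSeries I F) : Prop :=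
  (∀ d d' : I →₀ ℕ, (∀ l, l ≠ k → d l = d' l) → d k + d' k = nbd G (fun l => d l) k →
    MvPowerSeries.coeff d φ = MvPowerSeries.coeff d' φ) ∧
  ∀ d : I →₀ ℕ, nbd G (fun l => d l) k < d k → MvPowerSeries.coeff d φ = 0

end Nodes

/-- `u(z^α)` for a power series `u` in one variable -/
noncomputable def em {I F : Type} [Field F] (α : I →₀ ℕ) (u : PowerSeries F) :
    MvPowerSeries I F := by
  classical
  exact fun d => if h : ∃ m : ℕ, d = m • α then PowerSeries.coeff (Nat.find h) u else 0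

/-- the power series `(qx;q)_∞` -/
noncomputable def epS {F : Type} [Field F] (q : F) : PowerSeries F := PowerSeries.mk (ep q)

/-- the path with `K` nodes -/
def PG (K : ℕ) : SimpleGraph (Fin K) where
  Adj u v := u.val + 1 = v.val ∨ v.val + 1 = u.val
  symm := ⟨fun _ _ h => h.symm⟩
  loopless := ⟨fun u h => by rcases h with h | h <;> omega⟩

instance (K : ℕ) : DecidableRel (PG K).Adj := fun u v =>
  inferInstanceAs (Decidable (u.val + 1 = v.val ∨ v.val + 1 = u.val))

/-- the root (interval) `[a, b]` of the path -/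
noncomputable def rt {K : ℕ} (a b : Fin K) : Fin K →₀ ℕ :=
  Finsupp.equivFunOnFinite.symm fun k => if a ≤ k ∧ k ≤ b then 1 else 0

/-- the intervals `a ≤ b` -/
def Rts (K : ℕ) : Finset (Fin K × Fin K) := univ.filter fun p => p.1 ≤ p.2

/-- the sources: `c` at the centre `L` of the path with `2L + 1` nodes -/
def Nc (L c : ℕ) : Fin (2 * L + 1) → ℕ := fun k => if k.val = L then c else 0

/-- the total widths: tails of `lam` to the right of the centre, of `mu` to the left -/
def dd {L : ℕ} (lam mu : Fin (L + 1) → ℕ) : Fin (2 * L + 1) → ℕ := fun k =>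
  if L ≤ k.val then ∑ t ∈ univ.filter (fun t : Fin (L + 1) => k.val ≤ L + t.val), lam t
  else ∑ t ∈ univ.filter (fun t : Fin (L + 1) => L ≤ k.val + t.val), mu t

section Characters

/-- the number of colourings of `{0,…,n-1}` by `Fin r` that are fixed by `σ` and have `η i` elements
of colour `i` for all `i`; the character of the permutation module `M^η` -/
def fixc {n r : ℕ} (σ : Equiv.Perm (Fin n)) (η : Fin r → ℤ) : ℕ :=
  (univ.filter fun f : Fin n → Fin r =>
    (∀ x, f (σ x) = f x) ∧ ∀ i, ((univ.filter fun x => f x = i).card : ℤ) = η i).card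

/-- `λ_i - i + w(i)` -/
def sh {r : ℕ} (lam : Fin r → ℕ) (w : Equiv.Perm (Fin r)) : Fin r → ℤ :=
  fun i => (lam i : ℤ) - (i : ℤ) + (w i : ℤ)

/-- the irreducible character `χ^λ` of `S_n` by Frobenius' (determinantal) formula
`χ^λ = Σ_w sgn(w) π_{(λ_i - i + w(i))_i}`, `π_η` the character of the permutation module `M^η` -/
def chi {n r : ℕ} (lam : Fin r → ℕ) (σ : Equiv.Perm (Fin n)) : ℤ :=
  ∑ w : Equiv.Perm (Fin r), (Equiv.Perm.sign w : ℤ) * (fixc σ (sh lam w) : ℤ)

/-- the Kronecker coefficient `(1/n!) Σ_σ χ^λ(σ) χ^μ(σ) χ^ν(σ)` -/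
def kron {r r' r'' : ℕ} (n : ℕ) (lam : Fin r → ℕ) (mu : Fin r' → ℕ) (nu : Fin r'' → ℕ) : ℚ :=
  (∑ σ : Equiv.Perm (Fin n), ((chi lam σ * chi mu σ * chi nu σ : ℤ) : ℚ)) / (n.factorial : ℚ)

/-- `r × r` matrices with entries at most `n` -/
def Mats (r n : ℕ) : Finset (Fin r → Fin r → ℕ) :=
  Fintype.piFinset fun _ => Fintype.piFinset fun _ => range (n + 1)

/-- `A + B` has row sums `η` and column sums `θ` -/
def Marg {r : ℕ} (A B : Fin r → Fin r → ℕ) (η θ : Fin r → ℤ) : Prop :=
  (∀ i, ((∑ j, (A i j + B i j) : ℕ) : ℤ) = η i) ∧ ∀ j, ((∑ i, (A i j + B i j) : ℕ) : ℤ) = θ j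

instance {r : ℕ} (A B : Fin r → Fin r → ℕ) (η θ : Fin r → ℤ) : Decidable (Marg A B η θ) :=
  inferInstanceAs (Decidable (_ ∧ _))

/-- the number of pairs `(A, B)` with row sums `η` and column sums `θ` of `A + B` and sum `k` of the
entries of `B` -/
def cT {r : ℕ} (n k : ℕ) (η θ : Fin r → ℤ) : ℕ :=
  ((Mats r n ×ˢ Mats r n).filter fun p => Marg p.1 p.2 η θ ∧ ∑ i, ∑ j, p.2 i j = k).card

/-- the multiplicity `a_k` of the trivial module of `S_k × S_{n-k}` in `χ^λ χ^μ` -/
def akk {r : ℕ} (n : ℕ) (lam mu : Fin r → ℕ) (k : ℕ) : ℤ :=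
  ∑ w : Equiv.Perm (Fin r), ∑ w' : Equiv.Perm (Fin r),
    (Equiv.Perm.sign w : ℤ) * (Equiv.Perm.sign w' : ℤ) * (cT n k (sh lam w) (sh mu w') : ℤ)

end Characters

section SL2
variable {F : Type} [Field F]

/-- `s^{-c} + s^{-c+2} + … + s^c` -/
def ch2 (s : F) (c : ℕ) : F := ∑ i ∈ range (c + 1), s ^ (2 * (i : ℤ) - (c : ℤ))

/-- the Gaussian binomial `[P+m choose m]` in `q = s ^ 2`, centred: `s^{-Pm} [P+m choose m]` -/
def gh (s : F) (P : ℤ) (m : ℕ) : F := s ^ (-(P * (m : ℤ))) * gb (s ^ 2) P m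

/-- the weights `c'` that occur in `V_c ⊗ V_P` -/
def CG (c P : ℕ) : Finset ℕ :=
  (range (c + P + 1)).filter fun c' => c ≤ c' + P ∧ P ≤ c' + c ∧ (c + P + c') % 2 = 0

end SL2

end Pool.Agent.H18.KR
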