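import Pool.Agent.H18.KR.Defs

/-!
# Definitions for part 3: product formula, coefficients, characters

* `NNser` the generating series of the sums `NN`.
* `prs r` the pairs `a < b`, `rho S = Σ_{(a,b) ∈ S} (e_a - e_b)`.
* the roots (intervals) of the path with `2L + 1` nodes and centre `L`: those which contain `L` are
  `[L - u, L + t]` (`crI`, `crv`), the others are `[L + a + 1, L + b]` (`rrI`, `rrv`) and
  `[L - b, L - a - 1]` (`llI`, `llv`), `a < b ≤ L`.
-/

set_option autoImplicit false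

namespace Pool.Agent.H18.KR

open Finset

/-- generating series of the unrestricted sums -/
noncomputable def NNser {I : Type} [Fintype I] [DecidableEq I] (G : SimpleGraph I)
    [DecidableRel G.Adj] {F : Type} [Field F] (N : I → ℕ) (s : F) : MvPowerSeries I F :=
  fun d => NN G N s (fun k => d k)

/-- the pairs `a < b` -/
def prs (r : ℕ) : Finset (Fin r × Fin r) := univ.filter fun p => p.1 < p.2

/-- `Σ_{(a,b) ∈ S} (e_a - e_b)` -/
def rho {r : ℕ} (S : Finset (Fin r × Fin r)) : Fin r → ℤ := fun i =>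
  ∑ p ∈ S, ((if i = p.1 then 1 else 0) - (if i = p.2 then 1 else 0))

/-- the interval `[L - u, L + t]` -/
def crI (L : ℕ) (t u : Fin (L + 1)) (k : Fin (2 * L + 1)) : ℕ :=
  if L ≤ k.val + u.val ∧ k.val ≤ L + t.val then 1 else 0

/-- the interval `[L + a + 1, L + b]`, `p = (a, b)` -/
def rrI (L : ℕ) (p : Fin (L + 1) × Fin (L + 1)) (k : Fin (2 * L + 1)) : ℕ :=
  if L + p.1.val + 1 ≤ k.val ∧ k.val ≤ L + p.2.val then 1 else 0

/-- the interval `[L - b, L - a - 1]`, `p = (a, b)` -/
def llI (L : ℕ) (p : Fin (L + 1) × Fin (L + 1)) (k : Fin (2 * L + 1)) : ℕ :=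
  if L ≤ k.val + p.2.val ∧ k.val + p.1.val + 1 ≤ L then 1 else 0

/-- `crI` as an exponent -/
noncomputable def crv (L : ℕ) (t u : Fin (L + 1)) : Fin (2 * L + 1) →₀ ℕ :=
  Finsupp.equivFunOnFinite.symm (crI L t u)

/-- `rrI` as an exponent -/
noncomputable def rrv (L : ℕ) (p : Fin (L + 1) × Fin (L + 1)) : Fin (2 * L + 1) →₀ ℕ :=
  Finsupp.equivFunOnFinite.symm (rrI L p)

/-- `llI` as an exponent -/
noncomputable def llv (L : ℕ) (p : Fin (L + 1) × Fin (L + 1)) : Fin (2 * L + 1) →₀ ℕ :=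
  Finsupp.equivFunOnFinite.symm (llI L p)

end Pool.Agent.H18.KR
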