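import Pool.Agent.H18.KR.Defs3

/-!
# Definitions for part 4: multiplicities of `SL_2` and the machine

* `vk P α i = (P + 2)(i + 1) - 2 Qw α (i + 1)`.
* `lists A n`: the lists of length `n` with all entries in `A`; `grp g M l`: `M` consecutive groups
  of `g` entries.
* A sorted (nonincreasing) list of naturals stands for the multiset of strings with these widths
  (zeros are ignored): `strOf`. `distinct y`: the distinct positive entries; `Ql y w = Σ min(w, y_j)`.
* State of the machine: `St`, a list of items `(P, m)` (meaning the Gaussian binomial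
  `[P+m choose m]`) and a weight `c`. `stepB y σ`: one step guided by the block `y`.
* `vl s σ`: its value `ch2 s c ∏ gh s P m`; `pot`, `Phi`: potential and size.
* `cfgOk`, `cfgItems`: a configuration is given by `2L + 1` blocks `0 :: z_k`, `z_k` sorted.
-/

set_option autoImplicit false

namespace Pool.Agent.H18.KR

open Finset

/-- vacancy numbers in the formula of O'Hara and Zeilberger -/
def vk (P : ℤ) (α : Str) (i : ℕ) : ℤ := (P + 2) * ((i : ℤ) + 1) - 2 * (Qw α (i + 1) : ℤ)

/-- lists of length `n` with entries in `A` -/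
noncomputable def lists {α : Type} (A : Finset α) (n : ℕ) : Finset (List α) :=
  (Fintype.piFinset fun _ : Fin n => A).map ⟨List.ofFn, List.ofFn_injective⟩

/-- `M` groups of `g` entries -/
def grp {α : Type} (g M : ℕ) (l : List α) : List (List α) :=
  (List.range M).map fun i => (l.drop (i * g)).take g

/-- the strings with widths the positive entries of `z` -/
noncomputable def strOf (z : List ℕ) : Str :=
  (z.map fun x => if x = 0 then 0 else Finsupp.single (x - 1) 1).sum

/-- `Σ min(w, z_j)` -/
def Ql (z : List ℕ) (w : ℕ) : ℕ := (z.map fun x => min w x).sum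

/-- the distinct positive entries -/
def distinct (z : List ℕ) : List ℕ :=
  z.foldl (fun acc x => if x = 0 ∨ x ∈ acc then acc else x :: acc) []

/-- nonincreasing -/
def sortedB (z : List ℕ) : Bool := (List.zipWith (fun a b => decide (b ≤ a)) z z.tail).all id

/-- state: items `(P, m)` and a weight -/
abbrev St : Type := List (ℕ × ℕ) × ℕ

/-- the items of the strings `z` for the (positive part of the) vacancy numbers `f w` -/
def items (f : ℕ → ℕ) (z : List ℕ) : List (ℕ × ℕ) :=
  (distinct z).map fun w => (f w - 2 * Ql z w, z.count w)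

/-- one step of the machine, guided by the block `y` -/
def stepB (y : List ℕ) (σ : St) : Option St :=
  match σ.1 with
  | [] => if ∀ x ∈ y, x = 0 then some ([], σ.2) else none
  | (P, m) :: rest =>
    if m = 1 then
      if σ.2 ≤ y.headD 0 + P ∧ P ≤ y.headD 0 + σ.2 ∧ y.headD 0 ≤ σ.2 + P ∧
          (σ.2 + P + y.headD 0) % 2 = 0 ∧ ∀ x ∈ y.tail, x = 0 then some (rest, y.headD 0)
      else none
    else
      if y.headD 0 * (2 * m - 2) ≤ P ∧ sortedB y.tail = true ∧ y.tail.sum = m ∧
          2 ≤ y.tail.headD 0 ∧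
          ∀ w ∈ y.tail, 2 * Ql y.tail w ≤ (P - y.headD 0 * (2 * m - 2) + 2) * w then
        some (items (fun w => (P - y.headD 0 * (2 * m - 2) + 2) * w) y.tail ++ rest, σ.2)
      else none

/-- the run of the machine on a list of blocks -/
def run (Z : List (List ℕ)) (σ : St) : Option St := Z.foldl (fun o y => o.bind (stepB y)) (some σ)

/-- value of a state -/
def vl {F : Type} [Field F] (s : F) (σ : St) : F :=
  ch2 s σ.2 * (σ.1.map fun x => gh s (x.1 : ℤ) x.2).prod

/-- potential -/
def pot (σ : St) : ℕ := (σ.1.map fun x => 2 * x.2 - 1).sum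

/-- size -/
def Phi (σ : St) : ℕ := σ.2 + (σ.1.map fun x => x.1 * x.2).sum

/-- all items have `1 ≤ m ≤ R` -/
def Good (R : ℕ) (σ : St) : Prop := ∀ x ∈ σ.1, 1 ≤ x.2 ∧ x.2 ≤ R

/-- the blocks: lists of `R + 1` numbers less than `2 ^ b` -/
noncomputable def blks (b R : ℕ) : Finset (List ℕ) := lists (range (2 ^ b)) (R + 1)

/-- the total widths as lists -/
def Dl (L : ℕ) (lam mu : List ℕ) (k : ℕ) : ℕ :=
  if L ≤ k then (lam.drop (k - L)).sum else (mu.drop (L - k)).sum

/-- the strings of block `k` -/
def zk (Y : List (List ℕ)) (k : ℕ) : List ℕ := (Y.getD k []).tail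

/-- positive part of the vacancy number of width `w` at the node `k` -/
def vac2 (L : ℕ) (Y : List (List ℕ)) (k w : ℕ) : ℕ :=
  (if k = L then 3 * w else 0) + Ql (((([] : List ℕ) :: Y).getD k []).tail) w + Ql (zk Y (k + 1)) w

/-- the blocks `Y` describe an admissible configuration with total widths `Dl L lam mu` -/
def cfgOk (L : ℕ) (lam mu : List ℕ) (Y : List (List ℕ)) : Prop :=
  ∀ k < 2 * L + 1, (Y.getD k []).headD 0 = 0 ∧ sortedB (zk Y k) = true ∧
    (zk Y k).sum = Dl L lam mu k ∧ ∀ w ∈ zk Y k, 2 * Ql (zk Y k) w ≤ vac2 L Y k w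

instance (L : ℕ) (lam mu : List ℕ) (Y : List (List ℕ)) : Decidable (cfgOk L lam mu Y) :=
  inferInstanceAs (Decidable (∀ k < 2 * L + 1, _))

/-- the items of a configuration -/
def cfgItems (L : ℕ) (Y : List (List ℕ)) : List (ℕ × ℕ) :=
  (List.range (2 * L + 1)).flatMap fun k => items (vac2 L Y k) (zk Y k)

end Pool.Agent.H18.KR
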