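import Pool.Agent.H18.KR.Defs6

/-!
# Definitions for the transposition (partitions with at most two columns)

* `PX r ρ = ∏_{k ∈ ρ} p_k(X_0, …, X_{r-1})`; `CycL σ ρ`: `ρ` is the list of the lengths of the cycles of
  `σ` (fixed points included), expressed by its two consequences that are needed.
* `mm ρ A B`: signed number of ways to go from the set of beads `A` to `B` by moving one bead by `k`
  to a free place, for `k` in `ρ` (Murnaghan-Nakayama).
* `dual N A`: the complement of `A` in `{0, …, N-1}`, reversed. `beads r l`: the beads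
  `l_i + r - 1 - i`, `i < r`. `conj m l`: the first `m` entries of the conjugate partition.
* `twoC l`: at most two columns. `thin l`: at most two rows or at most two columns.
-/

set_option autoImplicit false

namespace Pool.Agent.H18.KR

open Finset

/-- product of power sums -/
noncomputable def PX (r : ℕ) (ρ : List ℕ) : MvPolynomial (Fin r) ℤ :=
  (ρ.map fun k => MvPolynomial.psum (Fin r) ℤ k).prod

/-- `ρ` lists the lengths of the cycles of `σ` -/
def CycL {n : ℕ} (σ : Equiv.Perm (Fin n)) (ρ : List ℕ) : Prop :=
  (∀ k ∈ ρ, 1 ≤ k) ∧ (Equiv.Perm.sign σ : ℤ) = (ρ.map fun k => (-1 : ℤ) ^ (k - 1)).prod ∧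
  ∀ r : ℕ, ∑ f ∈ univ.filter (fun f : Fin n → Fin r => ∀ x, f (σ x) = f x),
    ∏ x, (MvPolynomial.X (f x) : MvPolynomial (Fin r) ℤ) = PX r ρ

/-- signed number of sequences of moves -/
def mm : List ℕ → Finset ℕ → Finset ℕ → ℤ
  | [], A, B => if A = B then 1 else 0
  | k :: ρ, A, B => ∑ a ∈ A.filter (fun a => a + k ∉ A),
      (-1) ^ ((A.filter (fun b => a < b ∧ b < a + k)).card) *
        mm ρ (insert (a + k) (A.erase a)) B

/-- complement, reversed -/
def dual (N : ℕ) (A : Finset ℕ) : Finset ℕ := (range N \ A).image fun a => N - 1 - a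

/-- beads of a partition -/
def beads (r : ℕ) (l : List ℕ) : Finset ℕ := (range r).image fun i => l.getD i 0 + (r - 1 - i)

/-- the first `m` entries of the conjugate partition -/
def conj (m : ℕ) (l : List ℕ) : List ℕ := (List.range m).map fun j => l.countP fun x => decide (j < x)

/-- the alternating polynomial `det (X_i ^ β_j)` -/
noncomputable def alt {r : ℕ} (β : Fin r → ℕ) : MvPolynomial (Fin r) ℤ :=
  Matrix.det (Matrix.of fun i j => (MvPolynomial.X i : MvPolynomial (Fin r) ℤ) ^ β j)

/-- at most two columns -/
def twoC (l : List ℕ) : Prop := ∀ x ∈ l, x ≤ 2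

instance (l : List ℕ) : Decidable (twoC l) := inferInstanceAs (Decidable (∀ x ∈ l, x ≤ 2))

/-- at most two rows or at most two columns -/
def thin (l : List ℕ) : Prop := two l ∨ twoC l

instance (l : List ℕ) : Decidable (thin l) := inferInstanceAs (Decidable (two l ∨ twoC l))

/-- three partitions of the same number, one of them `thin` -/
def ValidT (x : Inp) : Prop :=
  IsPart x.1.sum x.1 ∧ IsPart x.1.sum x.2.1 ∧ IsPart x.1.sum x.2.2 ∧
    (thin x.1 ∨ thin x.2.1 ∨ thin x.2.2)

instance (x : Inp) : Decidable (ValidT x) := by unfold ValidT IsPart; infer_instance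

/-- the conjugate of a partition whose first part is at most `M` -/
def cj (M : ℕ) (l : List ℕ) : List ℕ := conj (min (l.headD 0) M) l

/-- a triple with the same Kronecker coefficient and a partition with at most two rows; `M` is an
upper bound of the first parts in the relevant cases; invalid triples are sent to an invalid triple -/
def tc (M : ℕ) (x : Inp) : Inp :=
  if ValidT x then
    if two x.1 ∨ two x.2.1 ∨ two x.2.2 then x
    else if twoC x.2.2 then (cj M x.1, x.2.1, cj M x.2.2) else (cj M x.1, cj M x.2.1, x.2.2)
  else ([1], [], [])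

end Pool.Agent.H18.KR
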