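import Pool.Agent.H18.KR.Defs3

/-!
# Module Em (about 130 lines). The series `u(z^α)`.

`em α u` has the coefficient `u_m` at `m • α` and `0` at all other exponents. For `α ≠ 0` the `m` with
`d = m • α` is unique if it exists (look at an index `k` with `α k ≠ 0`).

`em_mul`: compare the coefficients of `d` (`MvPowerSeries.coeff_mul`, needs `DecidableEq I` or
`classical`): the nonzero terms of the antidiagonal of `d` are the `(i • α, j • α)`, and then
`d = (i + j) • α` (`PowerSeries.coeff_mul`; `Finset.sum_bij_ne_zero` or `Finset.sum_nbij'`).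
`em_rescale`: `MvPowerSeries.coeff_rescale`, `PowerSeries.coeff_rescale`;
`(m • α).prod (fun k e => a k ^ e) = (α.prod fun k e => a k ^ e) ^ m`.
-/

set_option autoImplicit false

namespace Pool.Agent.H18.KR

open Finset

variable {I F : Type} [Field F] {α : I →₀ ℕ}

private theorem em_smul_inj (hα : α ≠ 0) {m n : ℕ} (h : m • α = n • α) : m = n := by
  obtain ⟨k, hk⟩ : ∃ k, α k ≠ 0 := by
    by_contra hc
    push Not at hc
    exact hα (Finsupp.ext hc)
  have h1 := DFunLike.congr_fun h k
  rw [Finsupp.smul_apply, Finsupp.smul_apply, smul_eq_mul, smul_eq_mul] at h1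
  exact Nat.eq_of_mul_eq_mul_right (Nat.pos_of_ne_zero hk) h1

theorem coeff_em_smul (hα : α ≠ 0) (u : PowerSeries F) (m : ℕ) :
    MvPowerSeries.coeff (m • α) (em α u) = PowerSeries.coeff m u := by
  classical
  have hex : ∃ n : ℕ, m • α = n • α := ⟨m, rfl⟩
  have h1 : MvPowerSeries.coeff (m • α) (em α u) = em α u (m • α) := rfl
  rw [h1]
  unfold em
  rw [dif_pos hex]
  congr 1
  congr 1
  exact (em_smul_inj hα (Nat.find_spec hex)).symm

theorem coeff_em_of_ne (u : PowerSeries F) {d : I →₀ ℕ} (h : ∀ m : ℕ, d ≠ m • α) :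
    MvPowerSeries.coeff d (em α u) = 0 := by
  classical
  have hex : ¬ ∃ n : ℕ, d = n • α := fun ⟨n, hn⟩ => h n hn
  have h1 : MvPowerSeries.coeff d (em α u) = em α u d := rfl
  rw [h1]
  unfold em
  rw [dif_neg hex]

theorem em_mul (hα : α ≠ 0) (u v : PowerSeries F) : em α (u * v) = em α u * em α v := by
  classical
  ext d
  rw [MvPowerSeries.coeff_mul]
  by_cases hd : ∃ m : ℕ, d = m • α
  · obtain ⟨m, rfl⟩ := hd
    rw [coeff_em_smul hα, PowerSeries.coeff_mul]
    symm
    have hinj : Function.Injective (fun x : ℕ × ℕ => ((x.1 • α, x.2 • α) : (I →₀ ℕ) × (I →₀ ℕ))) := by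
      intro x y hxy
      have h1 := congrArg Prod.fst hxy
      have h2 := congrArg Prod.snd hxy
      exact Prod.ext (em_smul_inj hα h1) (em_smul_inj hα h2)
    have hsub : (antidiagonal m).map ⟨_, hinj⟩ ⊆ antidiagonal (m • α) := by
      intro p hp
      rw [mem_map] at hp
      obtain ⟨x, hx, rfl⟩ := hp
      rw [HasAntidiagonal.mem_antidiagonal] at hx ⊢
      change x.1 • α + x.2 • α = m • α
      rw [← add_smul, hx]
    rw [← sum_subset hsub, sum_map]
    · refine sum_congr rfl fun x _ => ?_
      change MvPowerSeries.coeff (x.1 • α) (em α u) * MvPowerSeries.coeff (x.2 • α) (em α v) = _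
      rw [coeff_em_smul hα, coeff_em_smul hα]
    · intro p hp hnp
      by_cases h1 : ∃ i : ℕ, p.1 = i • α
      · by_cases h2 : ∃ j : ℕ, p.2 = j • α
        · exfalso
          obtain ⟨i, hi⟩ := h1
          obtain ⟨j, hj⟩ := h2
          apply hnp
          rw [mem_map]
          refine ⟨(i, j), ?_, ?_⟩
          · rw [HasAntidiagonal.mem_antidiagonal] at hp ⊢
            rw [hi, hj, ← add_smul] at hp
            exact em_smul_inj hα hp
          · exact Prod.ext hi.symm hj.symm
        · push Not at h2
          rw [coeff_em_of_ne v h2, mul_zero]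
      · push Not at h1
        rw [coeff_em_of_ne u h1, zero_mul]
  · push Not at hd
    rw [coeff_em_of_ne _ hd]
    symm
    apply sum_eq_zero
    intro p hp
    rw [HasAntidiagonal.mem_antidiagonal] at hp
    by_cases h1 : ∃ i : ℕ, p.1 = i • α
    · by_cases h2 : ∃ j : ℕ, p.2 = j • α
      · exfalso
        obtain ⟨i, hi⟩ := h1
        obtain ⟨j, hj⟩ := h2
        apply hd (i + j)
        rw [← hp, hi, hj, add_smul]
      · push Not at h2
        rw [coeff_em_of_ne v h2, mul_zero]
    · push Not at h1
      rw [coeff_em_of_ne u h1, zero_mul]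

theorem em_one (hα : α ≠ 0) : em α (1 : PowerSeries F) = 1 := by
  classical
  ext d
  rw [MvPowerSeries.coeff_one]
  by_cases hd : ∃ m : ℕ, d = m • α
  · obtain ⟨m, rfl⟩ := hd
    rw [coeff_em_smul hα, PowerSeries.coeff_one]
    by_cases hm : m = 0
    · subst hm
      rw [if_pos rfl, zero_smul, if_pos rfl]
    · rw [if_neg hm, if_neg]
      intro h
      exact hm (em_smul_inj hα (h.trans (zero_smul ℕ α).symm))
  · push Not at hd
    rw [coeff_em_of_ne _ hd, if_neg]
    intro h
    exact hd 0 (h.trans (zero_smul ℕ α).symm)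

theorem em_geo (hα : α ≠ 0) (c : F) :
    em α (1 - PowerSeries.C c * PowerSeries.X) = 1 - MvPowerSeries.monomial α c := by
  classical
  ext d
  rw [map_sub, MvPowerSeries.coeff_one, MvPowerSeries.coeff_monomial]
  by_cases hd : ∃ m : ℕ, d = m • α
  · obtain ⟨m, rfl⟩ := hd
    rw [coeff_em_smul hα, map_sub, PowerSeries.coeff_one, PowerSeries.coeff_C_mul,
      PowerSeries.coeff_X]
    have h0 : (m • α = 0) ↔ m = 0 := by
      constructor
      · intro h
        exact em_smul_inj hα (h.trans (zero_smul ℕ α).symm)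
      · rintro rfl
        exact zero_smul ℕ α
    have h1 : (m • α = α) ↔ m = 1 := by
      constructor
      · intro h
        exact em_smul_inj hα (h.trans (one_smul ℕ α).symm)
      · rintro rfl
        exact one_smul ℕ α
    simp only [h0, h1, mul_ite, mul_one, mul_zero]
  · push Not at hd
    rw [coeff_em_of_ne _ hd, if_neg, if_neg, sub_zero]
    · intro h
      exact hd 1 (h.trans (one_smul ℕ α).symm)
    · intro h
      exact hd 0 (h.trans (zero_smul ℕ α).symm)

theorem constantCoeff_em (hα : α ≠ 0) (u : PowerSeries F) :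
    MvPowerSeries.constantCoeff (em α u) = PowerSeries.constantCoeff u := by
  have h := coeff_em_smul hα u 0
  rw [zero_smul, MvPowerSeries.coeff_zero_eq_constantCoeff_apply,
    PowerSeries.coeff_zero_eq_constantCoeff_apply] at h
  exact h

theorem em_rescale (a : I → F) (u : PowerSeries F) :
    MvPowerSeries.rescale a (em α u) =
      em α (PowerSeries.rescale (α.prod fun k e => a k ^ e) u) := by
  classical
  ext d
  rw [MvPowerSeries.coeff_rescale]
  by_cases hα : α = 0
  · subst hα
    by_cases hd : d = 0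
    · subst hd
      have key : ∀ v : PowerSeries F, MvPowerSeries.coeff (0 : I →₀ ℕ) (em 0 v) =
          PowerSeries.coeff 0 v := by
        intro v
        have hex : ∃ n : ℕ, (0 : I →₀ ℕ) = n • 0 := ⟨0, (zero_smul ℕ _).symm⟩
        have h1 : MvPowerSeries.coeff (0 : I →₀ ℕ) (em 0 v) = em 0 v 0 := rfl
        rw [h1]
        unfold em
        rw [dif_pos hex]
        congr 1
        congr 1
        exact (Nat.find_eq_zero hex).mpr (zero_smul ℕ _).symm
      rw [key, key, PowerSeries.coeff_rescale, Finsupp.prod_zero_index, one_mul, pow_zero, one_mul]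
    · have hne : ∀ m : ℕ, d ≠ m • (0 : I →₀ ℕ) := by
        intro m h
        exact hd (h.trans (smul_zero m))
      rw [coeff_em_of_ne _ hne, coeff_em_of_ne _ hne, mul_zero]
  · by_cases hd : ∃ m : ℕ, d = m • α
    · obtain ⟨m, rfl⟩ := hd
      rw [coeff_em_smul hα, coeff_em_smul hα, PowerSeries.coeff_rescale]
      congr 1
      rw [Finsupp.prod_of_support_subset (m • α) (s := α.support) Finsupp.support_smul _
        (fun k _ => pow_zero _), Finsupp.prod, ← Finset.prod_pow]
      refine prod_congr rfl fun k _ => ?_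
      rw [Finsupp.smul_apply, smul_eq_mul, mul_comm, pow_mul]
    · push Not at hd
      rw [coeff_em_of_ne _ hd, coeff_em_of_ne _ hd, mul_zero]

end Pool.Agent.H18.KR
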