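import Pool.Agent.H18.KR.CfB
import Pool.Agent.H18.KR.QNum
import Pool.Agent.H18.KR.AntiP

/-!
# Module FLm (about 180 lines). Factorisation of the unrestricted sum.

Fix `m ∈ Cfg d`. For each node `k`, by `gb_expand` and `prod_anti'` (with `g i a = (qf q a)⁻¹`,
`h i b = ep q b * q^{b Pv_k(i+1)}`, `q = s ^ 2`),
`(m k).prod (gb ...) = Σ_{(β_k, γ_k) ∈ antidiagonal (m k)} 1/qfp q β_k * ∏ ep(γ_{k,i}) *
q^{Σ_i γ_{k,i} Pv_k(i+1)}` and `∏ ep(γ_{k,i}) = 1/qfp q⁻¹ γ_k` (`inv_qf_inv`). The product over `k`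
is a sum over families (`Finset.prod_univ_sum`). The exponent:
`Σ_i γ_{k,i} Pv_k(i+1) = N_k sz γ_k - 2 fm γ_k (m k) + fm γ_k (nbs G m k)`, and, with
`m = β + γ` (pointwise), `EE G m = EE G β + EE G γ + 4 Σ_k fm γ_k β_k - 2 Σ_k fm γ_k (nbs G β k)`
(use `nbs (β+γ) = nbs β + nbs γ` and the symmetry
`Σ_k fm β_k (nbs γ k) = Σ_k fm γ_k (nbs β k)`, a double sum over adjacent pairs). Hence
`EE G m + 2 Σ_k Σ_i γ_{k,i} Pv_k(i+1) = EE G β - EE G γ + 2 Σ_k N_k sz γ_k`: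
the mixed terms cancel. So `wt G N s m` is the sum over `β + γ = m` of
`s^{EE β}/∏ qfp (s²) β_k * (s⁻¹)^{EE γ}/∏ qfp ((s⁻¹)²) γ_k * (s²)^{Σ N_k sz γ_k}`.
Finally `Σ_{m ∈ Cfg d} Σ_{β + γ = m} = Σ_{x ∈ antidiagonal d} Σ_{β ∈ Cfg x.1} Σ_{γ ∈ Cfg x.2}`
(`x.1 k = sz β_k`, `x.2 k = sz γ_k`; `mem_Cfg`, `sz_add`; `Finset.sum_sigma'`, `Finset.sum_bij'`).
-/

set_option autoImplicit false

namespace Pool.Agent.H18.KR

open Finset

variable {I : Type} [Fintype I] [DecidableEq I] (G : SimpleGraph I) [DecidableRel G.Adj]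
variable {F : Type} [Field F] {s : F}

theorem coeff_AA (s : F) (d : I →₀ ℕ) : MvPowerSeries.coeff d (AA G s) =
    ∑ m ∈ Cfg (fun k => d k), s ^ EE G m / ∏ k, qfp (s ^ 2) (m k) := rfl

theorem FLm.prod_zpow {ι : Type} {q : F} (hq0 : q ≠ 0) (t : Finset ι) (f : ι → ℤ) :
    ∏ i ∈ t, q ^ f i = q ^ ∑ i ∈ t, f i := by
  classical
  induction t using Finset.induction_on with
  | empty => simp
  | insert a t ha ih => rw [prod_insert ha, sum_insert ha, zpow_add₀ hq0, ih]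

omit [DecidableEq I] in
theorem FLm.fm_nbs (β : Str) (γ : Cf I) (k : I) :
    fm β (nbs G γ k) = ∑ l, if G.Adj k l then fm β (γ l) else 0 := by
  unfold nbs
  rw [fm_comm, fm_sum_left, Finset.sum_filter]
  refine Finset.sum_congr rfl fun l _ => ?_
  rw [fm_comm]

omit [DecidableEq I] in
theorem FLm.C_comm (β γ : Cf I) :
    ∑ k, fm (β k) (nbs G γ k) = ∑ k, fm (γ k) (nbs G β k) := by
  simp only [FLm.fm_nbs]
  rw [Finset.sum_comm]
  exact Finset.sum_congr rfl fun l _ => Finset.sum_congr rfl fun k _ =>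
    if_congr (G.adj_comm k l) (fm_comm _ _) rfl

omit [DecidableEq I] in
theorem FLm.nbs_add (β γ : Cf I) (k : I) :
    nbs G (β + γ) k = nbs G β k + nbs G γ k := by
  unfold nbs
  simp only [Pi.add_apply]
  exact Finset.sum_add_distrib

theorem FLm.expo (N : I → ℕ) (β γ : Cf I) :
    EE G (β + γ) + 2 * ∑ k, ((N k : ℤ) * (sz (γ k) : ℤ) - 2 * (fm (γ k) ((β + γ) k) : ℤ) +
      (fm (γ k) (nbs G (β + γ) k) : ℤ)) =
      EE G β - EE G γ + 2 * ∑ k, (N k : ℤ) * (sz (γ k) : ℤ) := by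
  have hC : ∑ k, (fm (β k) (nbs G γ k) : ℤ) = ∑ k, (fm (γ k) (nbs G β k) : ℤ) := by
    exact_mod_cast FLm.C_comm G β γ
  have hk : ∀ k, (2 * (fm ((β + γ) k) ((β + γ) k) : ℤ) - (fm ((β + γ) k) (nbs G (β + γ) k) : ℤ)) +
      2 * ((N k : ℤ) * (sz (γ k) : ℤ) - 2 * (fm (γ k) ((β + γ) k) : ℤ) +
      (fm (γ k) (nbs G (β + γ) k) : ℤ)) =
      (2 * (fm (β k) (β k) : ℤ) - (fm (β k) (nbs G β k) : ℤ)) -
      (2 * (fm (γ k) (γ k) : ℤ) - (fm (γ k) (nbs G γ k) : ℤ)) +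
      2 * ((N k : ℤ) * (sz (γ k) : ℤ)) +
      ((fm (γ k) (nbs G β k) : ℤ) - (fm (β k) (nbs G γ k) : ℤ)) := by
    intro k
    rw [FLm.nbs_add, Pi.add_apply]
    simp only [fm_add_left, fm_add_right, Nat.cast_add]
    rw [fm_comm (β k) (γ k)]
    ring
  unfold EE
  rw [Finset.mul_sum, Finset.mul_sum, ← Finset.sum_add_distrib, ← Finset.sum_sub_distrib,
    ← Finset.sum_add_distrib, Finset.sum_congr rfl fun k _ => hk k, Finset.sum_add_distrib,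
    Finset.sum_sub_distrib (f := fun k => (fm (γ k) (nbs G β k) : ℤ)), hC, sub_self, add_zero]

omit [DecidableEq I] in
theorem FLm.expo_node (N : I → ℕ) (m : Cf I) (k : I) (γ : Str) :
    ∑ i ∈ γ.support, (γ i : ℤ) * Pv G N m k (i + 1) =
      (N k : ℤ) * (sz γ : ℤ) - 2 * (fm γ (m k) : ℤ) + (fm γ (nbs G m k) : ℤ) := by
  unfold Pv sz fm Finsupp.sum
  push_cast
  rw [Finset.mul_sum, Finset.mul_sum, ← Finset.sum_sub_distrib, ← Finset.sum_add_distrib]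
  refine Finset.sum_congr rfl fun i _ => ?_
  ring

theorem FLm.wt_expand (N : I → ℕ) (hs0 : s ≠ 0) (hs : ∀ n : ℕ, 0 < n → (s ^ 2) ^ n ≠ 1)
    (m : Cf I) :
    wt G N s m = ∑ y ∈ Fintype.piFinset (fun k => antidiagonal (m k)),
      s ^ EE G m * ∏ k, ((qfp (s ^ 2) (y k).1)⁻¹ * ((qfp (s ^ 2)⁻¹ (y k).2)⁻¹ *
        (s ^ 2) ^ ((N k : ℤ) * (sz (y k).2 : ℤ) - 2 * (fm (y k).2 (m k) : ℤ) +
          (fm (y k).2 (nbs G m k) : ℤ)))) := by
  have hq0 : s ^ 2 ≠ 0 := pow_ne_zero 2 hs0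
  unfold wt
  rw [← Finset.mul_sum]
  congr 1
  rw [← Finset.prod_univ_sum (t := fun k => antidiagonal (m k))
    (f := fun k y => ((qfp (s ^ 2) y.1)⁻¹ * ((qfp (s ^ 2)⁻¹ y.2)⁻¹ *
        (s ^ 2) ^ ((N k : ℤ) * (sz y.2 : ℤ) - 2 * (fm y.2 (m k) : ℤ) +
          (fm y.2 (nbs G m k) : ℤ)))))]
  refine Finset.prod_congr rfl fun k _ => ?_
  have h1 : ((m k).prod fun i a => gb (s ^ 2) (Pv G N m k (i + 1)) a) =
      (m k).prod fun i a => ∑ x ∈ antidiagonal a, (qf (s ^ 2) x.1)⁻¹ *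
        (ep (s ^ 2) x.2 * (s ^ 2) ^ ((x.2 : ℤ) * Pv G N m k (i + 1))) :=
    Finset.prod_congr rfl fun i _ => gb_expand hq0 hs _ _
  rw [h1, prod_anti' (m k) (fun _ a => (qf (s ^ 2) a)⁻¹)
    (fun i b => ep (s ^ 2) b * (s ^ 2) ^ ((b : ℤ) * Pv G N m k (i + 1)))
    (fun i => by rw [qf_zero, inv_one]) (fun i => by simp [ep_zero])]
  refine Finset.sum_congr rfl fun y _ => ?_
  have e1 : (y.1.prod fun _ a => (qf (s ^ 2) a)⁻¹) = (qfp (s ^ 2) y.1)⁻¹ := by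
    simp only [qfp, Finsupp.prod, Finset.prod_inv_distrib]
  have e2 : (y.2.prod fun i b => ep (s ^ 2) b * (s ^ 2) ^ ((b : ℤ) * Pv G N m k (i + 1))) =
      (qfp (s ^ 2)⁻¹ y.2)⁻¹ * (s ^ 2) ^ ((N k : ℤ) * (sz y.2 : ℤ) - 2 * (fm y.2 (m k) : ℤ) +
          (fm y.2 (nbs G m k) : ℤ)) := by
    rw [← FLm.expo_node G N m k y.2, ← FLm.prod_zpow hq0]
    simp only [qfp, Finsupp.prod]
    rw [Finset.prod_mul_distrib, ← Finset.prod_inv_distrib]
    congr 1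
    exact Finset.prod_congr rfl fun i _ => (inv_qf_inv hq0 hs _).symm
  rw [e1, e2]

theorem FLm.term (N : I → ℕ) (hs0 : s ≠ 0) (β γ : Cf I) (x2 : I → ℕ) (hx : ∀ k, sz (γ k) = x2 k) :
    s ^ EE G (β + γ) * ∏ k, ((qfp (s ^ 2) (β k))⁻¹ * ((qfp (s ^ 2)⁻¹ (γ k))⁻¹ *
        (s ^ 2) ^ ((N k : ℤ) * (sz (γ k) : ℤ) - 2 * (fm (γ k) ((β + γ) k) : ℤ) +
          (fm (γ k) (nbs G (β + γ) k) : ℤ)))) =
      s ^ EE G β / (∏ k, qfp (s ^ 2) (β k)) *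
        (s⁻¹ ^ EE G γ / (∏ k, qfp (s⁻¹ ^ 2) (γ k)) * (s ^ 2) ^ (∑ k, N k * x2 k)) := by
  have hq0 : s ^ 2 ≠ 0 := pow_ne_zero 2 hs0
  have e3 : s ^ EE G (β + γ) * (s ^ 2) ^ (∑ k, ((N k : ℤ) * (sz (γ k) : ℤ) -
      2 * (fm (γ k) ((β + γ) k) : ℤ) + (fm (γ k) (nbs G (β + γ) k) : ℤ))) =
      s ^ EE G β * (s⁻¹ ^ EE G γ * (s ^ 2) ^ (∑ k, N k * x2 k)) := by
    have h2 : ∀ z : ℤ, (s ^ 2) ^ z = s ^ (2 * z) := by
      intro z
      rw [zpow_mul, zpow_ofNat]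
    have h3 : (s ^ 2) ^ (∑ k, N k * x2 k) = s ^ (2 * ∑ k, (N k : ℤ) * (sz (γ k) : ℤ)) := by
      rw [← h2, ← zpow_natCast]
      congr 1
      push_cast
      exact Finset.sum_congr rfl fun k _ => by rw [hx]
    rw [h2, h3, ← zpow_add₀ hs0, FLm.expo G N β γ, inv_zpow', ← zpow_add₀ hs0, ← zpow_add₀ hs0]
    congr 1
    ring
  rw [Finset.prod_mul_distrib, Finset.prod_mul_distrib, FLm.prod_zpow hq0,
    Finset.prod_inv_distrib, Finset.prod_inv_distrib, inv_pow, div_eq_mul_inv, div_eq_mul_inv]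
  linear_combination (∏ k, qfp (s ^ 2) (β k))⁻¹ * (∏ k, qfp (s ^ 2)⁻¹ (γ k))⁻¹ * e3

theorem NN_eq (N : I → ℕ) (hs0 : s ≠ 0) (hs : ∀ n : ℕ, 0 < n → (s ^ 2) ^ n ≠ 1) (d : I →₀ ℕ) :
    NN G N s (fun k => d k) =
      ∑ x ∈ antidiagonal d, MvPowerSeries.coeff x.1 (AA G s) *
        (MvPowerSeries.coeff x.2 (AA G s⁻¹) * (s ^ 2) ^ (∑ k, N k * x.2 k)) := by
  have hR : ∀ x ∈ antidiagonal d, MvPowerSeries.coeff x.1 (AA G s) *
        (MvPowerSeries.coeff x.2 (AA G s⁻¹) * (s ^ 2) ^ (∑ k, N k * x.2 k)) =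
      ∑ p ∈ Cfg (fun k => x.1 k) ×ˢ Cfg (fun k => x.2 k),
        s ^ EE G p.1 / (∏ k, qfp (s ^ 2) (p.1 k)) *
        (s⁻¹ ^ EE G p.2 / (∏ k, qfp (s⁻¹ ^ 2) (p.2 k)) * (s ^ 2) ^ (∑ k, N k * x.2 k)) := by
    intro x _
    rw [coeff_AA, coeff_AA, Finset.sum_mul, Finset.sum_product]
    refine Finset.sum_congr rfl fun β _ => ?_
    rw [Finset.sum_mul, Finset.mul_sum]
  rw [Finset.sum_congr rfl hR]
  unfold NN
  rw [Finset.sum_congr rfl fun m _ => FLm.wt_expand G N hs0 hs m, Finset.sum_sigma',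
    Finset.sum_sigma']
  refine Finset.sum_nbij'
    (fun a => ⟨(Finsupp.equivFunOnFinite.symm fun k => sz (a.2 k).1,
      Finsupp.equivFunOnFinite.symm fun k => sz (a.2 k).2),
      (fun k => (a.2 k).1, fun k => (a.2 k).2)⟩)
    (fun b => ⟨b.2.1 + b.2.2, fun k => (b.2.1 k, b.2.2 k)⟩) ?_ ?_ ?_ ?_ ?_
  · rintro ⟨m, y⟩ ha
    simp only [Finset.mem_sigma, mem_Cfg, Fintype.mem_piFinset, HasAntidiagonal.mem_antidiagonal] at ha
    simp only [Finset.mem_sigma, Finset.mem_product, mem_Cfg, HasAntidiagonal.mem_antidiagonal]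
    refine ⟨?_, fun k => rfl, fun k => rfl⟩
    ext k
    have := ha.1 k
    rw [← ha.2 k, sz_add] at this
    exact this
  · rintro ⟨x, β, γ⟩ hb
    simp only [Finset.mem_sigma, Finset.mem_product, mem_Cfg, HasAntidiagonal.mem_antidiagonal] at hb
    simp only [Finset.mem_sigma, mem_Cfg, Fintype.mem_piFinset, HasAntidiagonal.mem_antidiagonal]
    refine ⟨fun k => ?_, fun k => rfl⟩
    rw [Pi.add_apply, sz_add, hb.2.1 k, hb.2.2 k, ← hb.1]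
    rfl
  · rintro ⟨m, y⟩ ha
    simp only [Finset.mem_sigma, mem_Cfg, Fintype.mem_piFinset, HasAntidiagonal.mem_antidiagonal] at ha
    have hm : (fun k => (y k).1) + (fun k => (y k).2) = m := by
      funext k
      exact ha.2 k
    simp only [hm]
  · rintro ⟨x, β, γ⟩ hb
    simp only [Finset.mem_sigma, Finset.mem_product, mem_Cfg, HasAntidiagonal.mem_antidiagonal] at hb
    have h1 : (Finsupp.equivFunOnFinite.symm fun k => sz (β k)) = x.1 := by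
      ext k
      exact hb.2.1 k
    have h2 : (Finsupp.equivFunOnFinite.symm fun k => sz (γ k)) = x.2 := by
      ext k
      exact hb.2.2 k
    simp only [h1, h2]
  · rintro ⟨m, y⟩ ha
    simp only [Finset.mem_sigma, mem_Cfg, Fintype.mem_piFinset, HasAntidiagonal.mem_antidiagonal] at ha
    have hm : m = (fun k => (y k).1) + (fun k => (y k).2) := by
      funext k
      exact (ha.2 k).symm
    have := FLm.term G N hs0 (fun k => (y k).1) (fun k => (y k).2)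
      (fun k => (Finsupp.equivFunOnFinite.symm fun k => sz (y k).2 : I →₀ ℕ) k) (fun k => rfl)
    rw [← hm] at this
    exact this

end Pool.Agent.H18.KR
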