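import Pool.Agent.H18.KR.Defs3
import Pool.Agent.H18.KR.QNum
import Pool.Agent.H18.KR.FLm

/-!
# Module EmI (about 120 lines). Identities in one variable; the generating series of the sums.

`epS q = Σ ep q m x^m = (qx;q)_∞`, and `epS q⁻¹ = Σ x^m/(q;q)_m` by `inv_qf_inv` (for `q⁻¹`; see the
statement in QNum: `ep q m = 1/(q⁻¹;q⁻¹)_m`, with `q⁻¹` in place of `q`: `ep q⁻¹ m = 1/(q;q)_m`).

* `epS_mul_inv` is `gb_expand` for `P = 0`: `gb q P m = Σ (qf q a)⁻¹ ep q b q^{bP}`, and `gb q 0 m = 1`; so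
  `(epS q * epS q⁻¹)` has all coefficients `1`.
* `epS_mul_inv3`: the coefficient of `x^m` of `epS q * rescale (q^3) (epS q⁻¹)` is
  `Σ ep q b (qf q a)⁻¹ q^{3a} = q^{3m} Σ (qf q a)⁻¹ ep q b q^{-3b} = q^{3m} gb q (-3) m`, which is
  `1`, `-(q + q^2)`, `q^3`, `0` for `m = 0, 1, 2, ≥ 3`.
* `NNser_eq`: `NN_eq`, `MvPowerSeries.coeff_mul`, `MvPowerSeries.coeff_rescale`
  (`x.2.prod fun k e => ((s^2)^(N k))^e = (s^2)^(Σ_k N k * x.2 k)`, `Finsupp.prod_fintype`).
-/

set_option autoImplicit false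

namespace Pool.Agent.H18.KR

open Finset

section One
variable {F : Type} [Field F] {q : F}

private theorem emi_ep_inv (hq0 : q ≠ 0) (hq : ∀ n : ℕ, 0 < n → q ^ n ≠ 1) (m : ℕ) :
    ep q⁻¹ m = (qf q m)⁻¹ := by
  have h := inv_qf_inv (inv_ne_zero hq0) (hq_inv hq) m
  rw [inv_inv] at h
  exact h.symm

private theorem emi_gb_zero (hq0 : q ≠ 0) (hq : ∀ n : ℕ, 0 < n → q ^ n ≠ 1) (m : ℕ) :
    gb q 0 m = 1 := by
  have h := gb_nat hq0 hq 0 m
  have h4 := qf_ne hq m
  rw [Nat.cast_zero, qf_zero, Nat.zero_add, one_mul, div_self h4] at h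
  exact h

private theorem emi_coeff (hq0 : q ≠ 0) (hq : ∀ n : ℕ, 0 < n → q ^ n ≠ 1) (t : F) (m : ℕ) :
    PowerSeries.coeff m (epS q * PowerSeries.rescale t (epS q⁻¹)) =
      ∑ x ∈ antidiagonal m, t ^ x.1 * ((qf q x.1)⁻¹ * ep q x.2) := by
  rw [mul_comm, PowerSeries.coeff_mul]
  refine sum_congr rfl fun x _ => ?_
  rw [PowerSeries.coeff_rescale, epS, epS, PowerSeries.coeff_mk, PowerSeries.coeff_mk,
    emi_ep_inv hq0 hq, mul_assoc]

theorem epS_mul_inv (hq0 : q ≠ 0) (hq : ∀ n : ℕ, 0 < n → q ^ n ≠ 1) :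
    epS q * epS q⁻¹ * (1 - PowerSeries.X) = 1 := by
  have h : epS q * epS q⁻¹ = PowerSeries.mk 1 := by
    ext m
    have h1 := emi_coeff hq0 hq 1 m
    rw [PowerSeries.rescale_one, RingHom.id_apply] at h1
    have h2 := gb_expand hq0 hq 0 m
    rw [emi_gb_zero hq0 hq m] at h2
    rw [h1, PowerSeries.coeff_mk, Pi.one_apply]
    refine Eq.trans ?_ h2.symm
    refine sum_congr rfl fun x _ => ?_
    rw [one_pow, one_mul, mul_zero, zpow_zero, mul_one]
  rw [h]
  exact PowerSeries.mk_one_mul_one_sub_eq_one F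

theorem epS_mul_inv3 (hq0 : q ≠ 0) (hq : ∀ n : ℕ, 0 < n → q ^ n ≠ 1) :
    epS q * PowerSeries.rescale (q ^ 3) (epS q⁻¹) =
      (1 - PowerSeries.C q * PowerSeries.X) * (1 - PowerSeries.C (q ^ 2) * PowerSeries.X) := by
  have hR : (1 - PowerSeries.C q * PowerSeries.X) * (1 - PowerSeries.C (q ^ 2) * PowerSeries.X) =
      (1 : PowerSeries F) - PowerSeries.C (q + q ^ 2) * PowerSeries.X +
        PowerSeries.C (q ^ 3) * PowerSeries.X ^ 2 := by
    have h3 : PowerSeries.C (q ^ 3) = PowerSeries.C q * PowerSeries.C (q ^ 2) := by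
      rw [← map_mul]
      congr 1
      ring
    rw [h3, map_add]
    ring
  have hL : ∀ m : ℕ, PowerSeries.coeff m (epS q * PowerSeries.rescale (q ^ 3) (epS q⁻¹)) =
      q ^ (3 * m) * gb q (-3) m := by
    intro m
    rw [emi_coeff hq0 hq, gb_expand hq0 hq, mul_sum]
    refine sum_congr rfl fun x hx => ?_
    have h5 : q ^ (3 * m) * q ^ ((x.2 : ℤ) * (-3)) = (q ^ 3) ^ x.1 := by
      rw [← pow_mul, ← zpow_natCast q (3 * m), ← zpow_natCast q (3 * x.1), ← zpow_add₀ hq0]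
      congr 1
      rw [← HasAntidiagonal.mem_antidiagonal.1 hx]
      push_cast
      ring
    linear_combination ((qf q x.1)⁻¹ * ep q x.2) * (-h5)
  rw [hR]
  ext m
  rw [hL]
  have e1 : (1 : F) - q ≠ 0 := sub_ne_zero.2 fun h => hq 1 Nat.one_pos (by rw [pow_one, ← h])
  have e2 : (1 : F) - q ^ 2 ≠ 0 := sub_ne_zero.2 fun h => hq 2 (by norm_num) h.symm
  rw [map_add (PowerSeries.coeff m), map_sub (PowerSeries.coeff m), PowerSeries.coeff_C_mul,
    PowerSeries.coeff_C_mul, PowerSeries.coeff_one, PowerSeries.coeff_X, PowerSeries.coeff_X_pow]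
  rcases m with _ | _ | _ | m
  · simp [gb_zero]
  · simp only [gb, qf, zero_add, prod_range_one, Nat.cast_zero, add_zero, mul_one]
    norm_num
    field_simp
    ring
  · simp only [gb, qf, zero_add, prod_range_succ, prod_range_zero, one_mul, Nat.cast_zero,
      Nat.cast_one, add_zero, mul_one]
    norm_num
    field_simp
    ring
  · rw [gb_eq_zero (by norm_num) (by push_cast; omega)]
    simp

end One

variable {I : Type} [Fintype I] [DecidableEq I] (G : SimpleGraph I) [DecidableRel G.Adj]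
variable {F : Type} [Field F] {s : F}

theorem NNser_eq (N : I → ℕ) (hs0 : s ≠ 0) (hs : ∀ n : ℕ, 0 < n → (s ^ 2) ^ n ≠ 1) :
    NNser G N s = AA G s * MvPowerSeries.rescale (fun k => (s ^ 2) ^ N k) (AA G s⁻¹) := by
  ext d
  have h0 : MvPowerSeries.coeff d (NNser G N s) = NN G N s (fun k => d k) := rfl
  rw [h0, NN_eq G N hs0 hs, MvPowerSeries.coeff_mul]
  refine sum_congr rfl fun x _ => ?_
  rw [MvPowerSeries.coeff_rescale, mul_comm (MvPowerSeries.coeff x.2 (AA G s⁻¹))]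
  congr 2
  rw [Finsupp.prod_fintype _ _ (fun k => pow_zero _), ← prod_pow_eq_pow_sum]
  exact prod_congr rfl fun k _ => by rw [pow_mul]

end Pool.Agent.H18.KR
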