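import Pool.Agent.H18.KR.Defs3

/-!
# Module PadL (about 150 lines). Characters: adding a zero row; two rows; symmetry.

`fixc_neg`: a negative entry is not a number of elements. `chi_snoc`: in `chi (Fin.snoc lam 0)` the last
entry of `sh` is `0 - r + w(r)`, which is negative unless `w` fixes the last element; the `w` that do are
the permutations of `Fin r` (for instance `Equiv.Perm.decomposeFin`-like equivalences, or
`Equiv.Perm.subtypeEquivSubtypePerm`/`Equiv.Perm.extendDomain`, `Fin.castSucc`; sign preserved), the first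
`r` entries are `sh lam w'`, the last is `0`; and `fixc σ (Fin.snoc η 0) = fixc σ η` (no element has the last
colour; compose with `Fin.castSucc`). `chi_two`: `Equiv.Perm (Fin 2)` has two elements
(`Equiv.Perm.sum_fin_two`-like, or `decide`/`Fintype` unfolding). -/

set_option autoImplicit false

namespace Pool.Agent.H18.KR

open Finset

theorem fixc_neg {n r : ℕ} (σ : Equiv.Perm (Fin n)) (η : Fin r → ℤ) (i : Fin r) (h : η i < 0) :
    fixc σ η = 0 := by
  unfold fixc
  rw [card_eq_zero, filter_eq_empty_iff]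
  rintro f - ⟨-, hf⟩
  have h1 := hf i
  have h2 : (0 : ℤ) ≤ ((univ.filter fun x => f x = i).card : ℤ) := Int.natCast_nonneg _
  omega

theorem fixc_snoc {n r : ℕ} (σ : Equiv.Perm (Fin n)) (η : Fin r → ℤ) :
    fixc σ (Fin.snoc (α := fun _ => ℤ) η 0) = fixc σ η := by
  unfold fixc
  symm
  refine card_bij (fun f _ => fun x => (f x).castSucc) ?_ ?_ ?_
  · intro f hf
    rw [mem_filter] at hf ⊢
    refine ⟨mem_univ _, fun x => congrArg Fin.castSucc (hf.2.1 x), fun i => ?_⟩
    refine Fin.lastCases ?_ (fun j => ?_) i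
    · rw [Fin.snoc_last]
      have h : (univ.filter fun x : Fin n => (f x).castSucc = Fin.last r) = ∅ := by
        rw [filter_eq_empty_iff]
        intro x _
        exact (Fin.castSucc_lt_last (f x)).ne
      rw [h]
      rfl
    · rw [Fin.snoc_castSucc, ← hf.2.2 j]
      congr 2
      refine filter_congr fun x _ => ?_
      exact Fin.castSucc_inj
  · intro f _ g _ h
    funext x
    exact Fin.castSucc_injective r (congrFun h x)
  · intro g hg
    rw [mem_filter] at hg
    have h0 := hg.2.2 (Fin.last r)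
    rw [Fin.snoc_last] at h0
    have h1 : (univ.filter fun x : Fin n => g x = Fin.last r).card = 0 := by exact_mod_cast h0
    rw [card_eq_zero, filter_eq_empty_iff] at h1
    have h2 : ∀ x, g x ≠ Fin.last r := fun x => h1 (mem_univ x)
    refine ⟨fun x => (g x).castPred (h2 x), ?_, ?_⟩
    · rw [mem_filter]
      refine ⟨mem_univ _, fun x => ?_, fun i => ?_⟩
      · have h3 := hg.2.1 x
        apply Fin.castSucc_injective r
        rw [Fin.castSucc_castPred, Fin.castSucc_castPred, h3]
      · have h3 := hg.2.2 i.castSucc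
        rw [Fin.snoc_castSucc] at h3
        rw [← h3]
        congr 2
        refine filter_congr fun x _ => ?_
        constructor
        · intro h
          rw [← h, Fin.castSucc_castPred]
        · intro h
          apply Fin.castSucc_injective r
          rw [Fin.castSucc_castPred, h]
    · funext x
      rw [Fin.castSucc_castPred]

/-- extension of a permutation by a fixed last element -/
noncomputable def extL {r : ℕ} (w : Equiv.Perm (Fin r)) : Equiv.Perm (Fin (r + 1)) :=
  w.extendDomain (finSuccAboveEquiv (Fin.last r))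

theorem extL_castSucc {r : ℕ} (w : Equiv.Perm (Fin r)) (j : Fin r) :
    extL w j.castSucc = (w j).castSucc := by
  have h := Equiv.Perm.extendDomain_apply_image w (finSuccAboveEquiv (Fin.last r)) j
  have h1 : ∀ a : Fin r, ((finSuccAboveEquiv (Fin.last r) a : {x // x ≠ Fin.last r}) :
      Fin (r + 1)) = a.castSucc := by
    intro a
    rw [finSuccAboveEquiv_apply]
    exact Fin.succAbove_last_apply a
  rw [h1, h1] at h
  exact h

theorem extL_last {r : ℕ} (w : Equiv.Perm (Fin r)) : extL w (Fin.last r) = Fin.last r := by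
  unfold extL
  exact Equiv.Perm.extendDomain_apply_not_subtype w (finSuccAboveEquiv (Fin.last r))
    (b := Fin.last r) (by simp)

theorem extL_sign {r : ℕ} (w : Equiv.Perm (Fin r)) :
    Equiv.Perm.sign (extL w) = Equiv.Perm.sign w := by
  unfold extL
  exact Equiv.Perm.sign_extendDomain w _

theorem extL_surj {r : ℕ} (w : Equiv.Perm (Fin (r + 1))) (hw : w (Fin.last r) = Fin.last r) :
    ∃ w' : Equiv.Perm (Fin r), extL w' = w := by
  have h1 : ∀ j : Fin r, w j.castSucc ≠ Fin.last r := by
    intro j h
    have h2 := w.injective (h.trans hw.symm)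
    exact (Fin.castSucc_lt_last j).ne h2
  have hinj : Function.Injective (fun j : Fin r => (w j.castSucc).castPred (h1 j)) := by
    intro a b h
    have h3 := congrArg Fin.castSucc h
    simp only [Fin.castSucc_castPred] at h3
    exact Fin.castSucc_injective r (w.injective h3)
  have hbij : Function.Bijective (fun j : Fin r => (w j.castSucc).castPred (h1 j)) :=
    Finite.injective_iff_bijective.mp hinj
  refine ⟨Equiv.ofBijective _ hbij, ?_⟩
  refine Equiv.ext fun i => ?_
  refine Fin.lastCases ?_ (fun j => ?_) i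
  · rw [extL_last, hw]
  · rw [extL_castSucc, Equiv.ofBijective_apply, Fin.castSucc_castPred]

theorem chi_snoc {n r : ℕ} (lam : Fin r → ℕ) (σ : Equiv.Perm (Fin n)) :
    chi (Fin.snoc (α := fun _ => ℕ) lam 0) σ = chi lam σ := by
  classical
  unfold chi
  have h0 : ∑ w : Equiv.Perm (Fin (r + 1)), (Equiv.Perm.sign w : ℤ) *
      (fixc σ (sh (Fin.snoc (α := fun _ => ℕ) lam 0) w) : ℤ) =
      ∑ w ∈ univ.filter (fun w : Equiv.Perm (Fin (r + 1)) => w (Fin.last r) = Fin.last r),
        (Equiv.Perm.sign w : ℤ) * (fixc σ (sh (Fin.snoc (α := fun _ => ℕ) lam 0) w) : ℤ) := by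
    symm
    refine sum_filter_of_ne fun w _ h => ?_
    by_contra hne
    apply h
    rw [fixc_neg σ _ (Fin.last r)]
    · simp
    · unfold sh
      rw [Fin.snoc_last]
      have h1 : (w (Fin.last r)).val < r := by
        have h2 := (w (Fin.last r)).isLt
        have h3 : (w (Fin.last r)).val ≠ r := fun h4 => hne (Fin.ext h4)
        omega
      have h5 : ((Fin.last r : Fin (r + 1)) : ℕ) = r := rfl
      rw [h5]
      push_cast
      have h6 : ((w (Fin.last r)).val : ℤ) < r := by exact_mod_cast h1
      linarith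
  rw [h0]
  symm
  refine sum_bij (fun w _ => extL w) ?_ ?_ ?_ ?_
  · intro w _
    rw [mem_filter]
    exact ⟨mem_univ _, extL_last w⟩
  · intro a _ b _ h
    refine Equiv.ext fun j => ?_
    have h1 := congrArg (fun e : Equiv.Perm (Fin (r + 1)) => e j.castSucc) h
    simp only [extL_castSucc] at h1
    exact Fin.castSucc_injective r h1
  · intro w hw
    obtain ⟨w', h⟩ := extL_surj w (mem_filter.mp hw).2
    exact ⟨w', mem_univ _, h⟩
  · intro w _
    rw [extL_sign]
    congr 2
    rw [← fixc_snoc σ (sh lam w)]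
    congr 1
    funext i
    refine Fin.lastCases ?_ (fun j => ?_) i
    · unfold sh
      rw [Fin.snoc_last, Fin.snoc_last, extL_last]
      push_cast
      ring
    · rw [Fin.snoc_castSucc]
      unfold sh
      rw [Fin.snoc_castSucc, extL_castSucc]
      rfl

theorem chi_two {n : ℕ} (a b : ℕ) (σ : Equiv.Perm (Fin n)) :
    chi ![a, b] σ = (fixc σ ![(a : ℤ), (b : ℤ)] : ℤ) - (fixc σ ![(a : ℤ) + 1, (b : ℤ) - 1] : ℤ) := by
  unfold chi
  have h0 : (univ : Finset (Equiv.Perm (Fin 2))) = {1, Equiv.swap 0 1} := by decide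
  have hne : (1 : Equiv.Perm (Fin 2)) ≠ Equiv.swap 0 1 := by decide
  rw [h0, sum_pair hne]
  have h1 : sh ![a, b] (1 : Equiv.Perm (Fin 2)) = ![(a : ℤ), (b : ℤ)] := by
    funext i
    fin_cases i <;> simp [sh]
  have h2 : sh ![a, b] (Equiv.swap 0 1 : Equiv.Perm (Fin 2)) = ![(a : ℤ) + 1, (b : ℤ) - 1] := by
    funext i
    fin_cases i <;> simp [sh]
  rw [h1, h2, Equiv.Perm.sign_one, Equiv.Perm.sign_swap (by decide)]
  push_cast
  ring

theorem kron_snoc {r r' r'' : ℕ} (n : ℕ) (lam : Fin r → ℕ) (mu : Fin r' → ℕ) (nu : Fin r'' → ℕ) :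
    kron n (Fin.snoc (α := fun _ => ℕ) lam 0) mu nu = kron n lam mu nu ∧
    kron n lam (Fin.snoc (α := fun _ => ℕ) mu 0) nu = kron n lam mu nu ∧
    kron n lam mu (Fin.snoc (α := fun _ => ℕ) nu 0) = kron n lam mu nu := by
  refine ⟨?_, ?_, ?_⟩ <;> simp only [kron, chi_snoc]

theorem kron_swap12 {r r' r'' : ℕ} (n : ℕ) (lam : Fin r → ℕ) (mu : Fin r' → ℕ)
    (nu : Fin r'' → ℕ) : kron n lam mu nu = kron n mu lam nu := by
  unfold kron
  congr 1
  refine sum_congr rfl fun σ _ => ?_
  congr 1
  ring

theorem kron_swap23 {r r' r'' : ℕ} (n : ℕ) (lam : Fin r → ℕ) (mu : Fin r' → ℕ)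
    (nu : Fin r'' → ℕ) : kron n lam mu nu = kron n lam nu mu := by
  unfold kron
  congr 1
  refine sum_congr rfl fun σ _ => ?_
  congr 1
  ring

end Pool.Agent.H18.KR
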