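import Pool.Agent.H18.KR.Defs5
import Pool.Agent.H18.KR.PadL

/-!
# Module Norm (about 150 lines). Kronecker coefficients of lists; normalisation of the input.

`chi_getD`: by induction on `m` from `l.length`: `(fun i : Fin (m+1) => l.getD i 0)` is
`Fin.snoc (fun i : Fin m => l.getD i 0) 0` if `l.length ≤ m`; `chi_snoc`. `chi_two_list`: if `two nu`
then all entries from the third on are `0`, so `nu.getD i 0 = (nu.take 2).getD i 0`, and (`chi_getD` for `nu.take 2`
with `m = nu.length` if `2 ≤ nu.length`, and with `m = 2`; or `chi_getD` for `nu` with `m = 2` if `nu.length ≤ 2`)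
`chi nu.get = chi ![nu.getD 0 0, nu.getD 1 0]`, and `nu.getD 0 0 = n - k` with `k = nu.getD 1 0`, `n = nu.sum`.
`norm_valid`: cases; `norm_kron`: `kron_swap12`, `kron_swap23`.
-/

set_option autoImplicit false

namespace Pool.Agent.H18.KR

open Finset

private theorem chi_getD_aux {n : ℕ} (l : List ℕ) (σ : Equiv.Perm (Fin n)) (k : ℕ) :
    chi (fun i : Fin (l.length + k) => l.getD i 0) σ = chi l.get σ := by
  induction k with
  | zero =>
    congr 1
    funext i
    exact List.getD_eq_getElem l 0 i.isLt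
  | succ k ih =>
    rw [← ih, ← chi_snoc (fun i : Fin (l.length + k) => l.getD i 0) σ]
    congr 1
    funext i
    refine Fin.lastCases ?_ (fun j => ?_) i
    · refine Eq.trans ?_ (Fin.snoc_last (α := fun _ => ℕ) _ _).symm
      exact List.getD_eq_default l 0 (by simp)
    · exact (Fin.snoc_castSucc (α := fun _ => ℕ) 0 (fun i : Fin (l.length + k) => l.getD i 0) j).symm

theorem chi_getD {n : ℕ} (l : List ℕ) (m : ℕ) (h : l.length ≤ m) (σ : Equiv.Perm (Fin n)) :
    chi (fun i : Fin m => l.getD i 0) σ = chi l.get σ := by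
  obtain ⟨k, rfl⟩ := Nat.exists_eq_add_of_le h
  exact chi_getD_aux l σ k

private theorem getD_two (nu : List ℕ) (h2 : two nu) (i : ℕ) :
    nu.getD i 0 = [nu.getD 0 0, nu.getD 1 0].getD i 0 := by
  match i with
  | 0 => rfl
  | 1 => rfl
  | i + 2 =>
    have h3 : [nu.getD 0 0, nu.getD 1 0].getD (i + 2) 0 = 0 := rfl
    rw [h3]
    by_cases hlt : i + 2 < nu.length
    · rw [List.getD_eq_getElem nu 0 hlt]
      refine h2 _ ?_
      have h4 : i < (nu.drop 2).length := by rw [List.length_drop]; omega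
      have h5 : (nu.drop 2)[i] = nu[i + 2] := by
        rw [List.getElem_drop]
        congr 1
        omega
      rw [← h5]
      exact List.getElem_mem h4
    · exact List.getD_eq_default nu 0 (by omega)

private theorem sum_two (nu : List ℕ) (h2 : two nu) :
    nu.sum = nu.getD 0 0 + nu.getD 1 0 := by
  match nu, h2 with
  | [], _ => rfl
  | [a], _ => simp
  | a :: b :: t, h2 =>
    have h3 : t.sum = 0 := List.sum_eq_zero fun x hx => h2 x (by simpa using hx)
    simp only [List.sum_cons, h3, add_zero, List.getD_cons_zero, List.getD_cons_succ]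

private theorem le_two {N : ℕ} (nu : List ℕ) (h : IsPart N nu) : nu.getD 1 0 ≤ nu.getD 0 0 := by
  match nu, h with
  | [], _ => exact le_rfl
  | [a], _ => simp
  | a :: b :: t, h =>
    have h3 := (List.pairwise_cons.mp h.1).1 b (by simp)
    simpa using h3

theorem chi_two_list {n N : ℕ} (nu : List ℕ) (h : IsPart N nu) (h2 : two nu)
    (σ : Equiv.Perm (Fin n)) :
    chi nu.get σ = chi ![N - nu.getD 1 0, nu.getD 1 0] σ ∧ 2 * nu.getD 1 0 ≤ N := by
  have hs := sum_two nu h2
  rw [h.2] at hs
  have hl := le_two nu h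
  have e1 : N - nu.getD 1 0 = nu.getD 0 0 := by omega
  refine ⟨?_, by omega⟩
  rw [e1, ← chi_getD nu (max nu.length 2) (le_max_left _ _) σ]
  have e2 : (fun i : Fin (max nu.length 2) => nu.getD i 0) =
      fun i : Fin (max nu.length 2) => [nu.getD 0 0, nu.getD 1 0].getD i 0 := by
    funext i
    exact getD_two nu h2 i
  rw [e2, chi_getD [nu.getD 0 0, nu.getD 1 0] (max nu.length 2) (le_max_right _ _) σ]
  have e3 : (![nu.getD 0 0, nu.getD 1 0] : Fin 2 → ℕ) = [nu.getD 0 0, nu.getD 1 0].get := by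
    funext i
    fin_cases i <;> rfl
  rw [e3]

theorem norm_valid {x : Inp} (h : Valid x) :
    IsPart x.1.sum (norm x).1 ∧ IsPart x.1.sum (norm x).2.1 ∧ IsPart x.1.sum (norm x).2.2 ∧
      two (norm x).2.2 := by
  obtain ⟨h1, h2, h3, h4⟩ := h
  unfold norm
  split_ifs with ha hb
  · exact ⟨h1, h2, h3, ha⟩
  · exact ⟨h1, h3, h2, hb⟩
  · refine ⟨h2, h3, h1, ?_⟩
    rcases h4 with h4 | h4 | h4
    · exact h4
    · exact absurd h4 hb
    · exact absurd h4 ha

theorem norm_kron (n : ℕ) (x : Inp) :
    kronL n (norm x).1 (norm x).2.1 (norm x).2.2 = kronL n x.1 x.2.1 x.2.2 := by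
  by_cases ha : two x.2.2
  · have e : norm x = x := if_pos ha
    rw [e]
  · by_cases hb : two x.2.1
    · have e : norm x = (x.1, x.2.2, x.2.1) := (if_neg ha).trans (if_pos hb)
      rw [e]
      exact kron_swap23 n _ _ _
    · have e : norm x = (x.2.1, x.2.2, x.1) := (if_neg ha).trans (if_neg hb)
      rw [e]
      exact (kron_swap23 n _ _ _).trans (kron_swap12 n _ _ _)

theorem kronL_eq (n m : ℕ) (lam mu nu : List ℕ) (hl : lam.length ≤ m) (hm : mu.length ≤ m)
    (hn : IsPart n nu) (h2 : two nu) :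
    kronL n lam mu nu = kron n (fun i : Fin m => lam.getD i 0) (fun i : Fin m => mu.getD i 0)
      ![n - nu.getD 1 0, nu.getD 1 0] := by
  unfold kronL kron
  congr 1
  refine sum_congr rfl fun σ _ => ?_
  rw [chi_getD lam m hl σ, chi_getD mu m hm σ, (chi_two_list nu hn h2 σ).1]

end Pool.Agent.H18.KR
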