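import Pool.Agent.H18.KR.StrO

/-!
# Module StpI (about 150 lines). Invariants of the machine.

Unfold `stepB` (cases on `σ.1`, `m = 1`). The items of a block `z` (sum `m`, head at least `2`) are
`(f w - 2 Ql z w, z.count w)`, `w ∈ distinct z`, `f w = (Pt + 2) w`, `Pt = P - t(2m-2) ≤ P`.
* `count w ≥ 1` for `w ∈ z`; `count w ≤ z.length ≤ R`.
* `Ql z w ≥ w` (`le_Ql`), so `f w - 2 Ql z w ≤ Pt * w` and `Σ (f w - 2 Ql z w) count w ≤ Pt Σ w count w =
  Pt m ≤ P m` (`sum_count`).
* `Σ (2 count w - 1) = 2 Σ count w - #distinct ≤ 2 (m - 1) - 1` (`sum_count_lt`; `distinct z` is nonempty), and the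
  item `(P, m)` had `2m - 1`.
In the case `m = 1` the new weight is `≤ c + P`. In the case `[]` nothing changes and `pot = 0`.
-/

set_option autoImplicit false

namespace Pool.Agent.H18.KR

open Finset

private theorem stpi_cases {y : List ℕ} {l : List (ℕ × ℕ)} {c : ℕ} {σ' : St}
    (h : stepB y (l, c) = some σ') :
    (l = [] ∧ σ' = ([], c)) ∨
    (∃ P rest, l = (P, 1) :: rest ∧ σ' = (rest, y.headD 0) ∧ y.headD 0 ≤ c + P) ∨
    (∃ P m rest Pt x, l = (P, m) :: rest ∧ Pt ≤ P ∧ y.tail.sum = m ∧ x ∈ y.tail ∧ 2 ≤ x ∧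
      σ' = (items (fun w => (Pt + 2) * w) y.tail ++ rest, c)) := by
  rcases l with _ | ⟨⟨P, m⟩, rest⟩
  · left
    simp only [stepB] at h
    split_ifs at h with h1
    · exact ⟨rfl, (Option.some.inj h).symm⟩
  · right
    simp only [stepB] at h
    split_ifs at h with h1 h2 h3
    · left
      subst h1
      exact ⟨P, rest, rfl, (Option.some.inj h).symm, h2.2.2.1⟩
    · right
      obtain ⟨g1, g2, g3, g4, g5⟩ := h3
      refine ⟨P, m, rest, P - y.headD 0 * (2 * m - 2), y.tail.headD 0, rfl, Nat.sub_le _ _, g3, ?_,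
        g4, (Option.some.inj h).symm⟩
      rcases hz : y.tail with _ | ⟨a, z⟩
      · rw [hz] at g4
        simp at g4
      · simp

private theorem stpi_items {z : List ℕ} {f : ℕ → ℕ} {x : ℕ × ℕ} (hx : x ∈ items f z) :
    1 ≤ x.2 ∧ x.2 ≤ z.length := by
  unfold items at hx
  rw [List.mem_map] at hx
  obtain ⟨w, hw, rfl⟩ := hx
  exact ⟨List.count_pos_iff.2 (mem_distinct.1 hw).1, List.count_le_length⟩

theorem step_pos {y : List ℕ} {σ σ' : St} (hg : ∀ x ∈ σ.1, 1 ≤ x.2) (h : stepB y σ = some σ') :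
    ∀ x ∈ σ'.1, 1 ≤ x.2 := by
  obtain ⟨l, c⟩ := σ
  rcases stpi_cases h with ⟨h1, h2⟩ | ⟨P, rest, h1, h2, h3⟩ | ⟨P, m, rest, Pt, x, h1, h2, h3, h4, h5, h6⟩
  · subst h2
    intro x hx
    simp at hx
  · subst h2
    intro x hx
    refine hg x ?_
    simp only [h1]
    exact List.mem_cons_of_mem _ hx
  · subst h6
    intro x hx
    rcases List.mem_append.1 hx with hx | hx
    · exact (stpi_items hx).1
    · refine hg x ?_
      simp only [h1]
      exact List.mem_cons_of_mem _ hx

theorem step_good {R : ℕ} {y : List ℕ} {σ σ' : St} (hy : y.length ≤ R + 1) (hg : Good R σ)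
    (h : stepB y σ = some σ') : Good R σ' := by
  obtain ⟨l, c⟩ := σ
  rcases stpi_cases h with ⟨h1, h2⟩ | ⟨P, rest, h1, h2, h3⟩ | ⟨P, m, rest, Pt, x, h1, h2, h3, h4, h5, h6⟩
  · subst h2
    intro x hx
    simp at hx
  · subst h2
    intro x hx
    refine hg x ?_
    simp only [h1]
    exact List.mem_cons_of_mem _ hx
  · subst h6
    intro x hx
    rcases List.mem_append.1 hx with hx | hx
    · refine ⟨(stpi_items hx).1, (stpi_items hx).2.trans ?_⟩
      rw [List.length_tail]
      omega
    · refine hg x ?_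
      simp only [h1]
      exact List.mem_cons_of_mem _ hx

theorem step_phi {y : List ℕ} {σ σ' : St} (h : stepB y σ = some σ') : Phi σ' ≤ Phi σ := by
  obtain ⟨l, c⟩ := σ
  rcases stpi_cases h with ⟨h1, h2⟩ | ⟨P, rest, h1, h2, h3⟩ | ⟨P, m, rest, Pt, x, h1, h2, h3, h4, h5, h6⟩
  · subst h2
    simp [Phi, h1]
  · subst h2
    simp only [Phi, h1, List.map_cons, List.sum_cons, mul_one]
    omega
  · subst h6
    have e1 : ((items (fun w => (Pt + 2) * w) y.tail).map fun x => x.1 * x.2).sum ≤ P * m := by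
      unfold items
      rw [List.map_map]
      have e2 : ((distinct y.tail).map ((fun x : ℕ × ℕ => x.1 * x.2) ∘ fun w =>
          ((Pt + 2) * w - 2 * Ql y.tail w, y.tail.count w))).sum ≤
          ((distinct y.tail).map fun w => Pt * (w * y.tail.count w)).sum := by
        refine List.sum_le_sum fun w hw => ?_
        simp only [Function.comp]
        have e3 := le_Ql (mem_distinct.1 hw).1
        have e4 : (Pt + 2) * w - 2 * Ql y.tail w ≤ Pt * w := by
          have : (Pt + 2) * w = Pt * w + 2 * w := by ring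
          omega
        calc ((Pt + 2) * w - 2 * Ql y.tail w) * y.tail.count w ≤ Pt * w * y.tail.count w :=
              Nat.mul_le_mul_right _ e4
          _ = Pt * (w * y.tail.count w) := by ring
      refine e2.trans ?_
      rw [List.sum_map_mul_left, sum_count, h3]
      exact Nat.mul_le_mul_right _ h2
    simp only [Phi, h1, List.map_append, List.sum_append, List.map_cons, List.sum_cons]
    omega

theorem step_pot {y : List ℕ} {σ σ' : St} (hg : ∀ x ∈ σ.1, 1 ≤ x.2) (h : stepB y σ = some σ') :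
    pot σ' ≤ pot σ - 1 := by
  obtain ⟨l, c⟩ := σ
  rcases stpi_cases h with ⟨h1, h2⟩ | ⟨P, rest, h1, h2, h3⟩ | ⟨P, m, rest, Pt, x, h1, h2, h3, h4, h5, h6⟩
  · subst h2
    simp [pot]
  · subst h2
    simp only [pot, h1, List.map_cons, List.sum_cons]
    omega
  · subst h6
    have e0 := sum_count_lt y.tail x h4 h5
    have e1 : ((items (fun w => (Pt + 2) * w) y.tail).map fun x => 2 * x.2 - 1).sum ≤
        2 * ((distinct y.tail).map fun w => y.tail.count w).sum := by
      unfold items
      rw [List.map_map, ← List.sum_map_mul_left]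
      refine List.sum_le_sum fun w _ => ?_
      simp only [Function.comp]
      omega
    simp only [pot, h1, List.map_append, List.sum_append, List.map_cons, List.sum_cons]
    omega

end Pool.Agent.H18.KR
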