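import Pool.Agent.H18.KR.PtB
import Pool.Agent.H18.KR.StpI

/-!
# Module PtR (about 120 lines). Running the machine in polynomial time.

`PolyTime.foldl_inv` with the invariant `I a o := ∀ σ, o = some σ → (∀ x ∈ σ.1, 1 ≤ x.2) ∧ pot σ ≤ T a ∧ Phi σ ≤ B a`,
preserved by `step_pos`, `step_pot`, `step_phi`. Size: for such a `σ = (l, c)`: each item `(P, m)` has `m ≥ 1`,
`P ≤ P m ≤ Phi σ ≤ B`, `m ≤ 2m - 1 ≤ pot σ ≤ T`, and `l.length ≤ pot σ ≤ T`, `c ≤ B`; with
`size_nat_mono`, `size_nat_le_self`, `size_list_le`, `size_pair`, `size_some` the size of `some σ` is at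
most a polynomial in `T a` and `size (B a)`.
-/

set_option autoImplicit false

namespace Pool.Agent.H18.KR

open Pool.Agent.H80.Poly

variable {α : Type} [BEnc α]

private theorem length_le_pot_ptR {l : List (ℕ × ℕ)} (hl : ∀ x ∈ l, 1 ≤ x.2) :
    l.length ≤ (l.map fun x => 2 * x.2 - 1).sum := by
  induction l with
  | nil => simp
  | cons x l ih =>
    have h1 := hl x List.mem_cons_self
    have h2 := ih (fun y hy => hl y (List.mem_cons_of_mem _ hy))
    rw [List.length_cons, List.map_cons, List.sum_cons]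
    omega

private theorem le_sum_map_ptR {f : ℕ × ℕ → ℕ} {l : List (ℕ × ℕ)} {x : ℕ × ℕ} (hx : x ∈ l) :
    f x ≤ (l.map f).sum :=
  List.le_sum_of_mem (List.mem_map_of_mem hx)

private theorem size_st_ptR {σ : St} {T B : ℕ} (h1 : ∀ x ∈ σ.1, 1 ≤ x.2) (h2 : pot σ ≤ T)
    (h3 : Phi σ ≤ B) :
    size σ ≤ 2 * (T * (2 * (2 * size B + 1 + T) + 1)) + 1 + size B := by
  have hlen : σ.1.length ≤ T := (length_le_pot_ptR h1).trans h2
  have hit : ∀ x ∈ σ.1, size x ≤ 2 * size B + 1 + T := by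
    intro x hx
    rw [size_prod]
    have hm := h1 x hx
    have e1 : x.1 * x.2 ≤ Phi σ := by
      have := le_sum_map_ptR (f := fun x => x.1 * x.2) hx
      have h4 : (σ.1.map fun x => x.1 * x.2).sum ≤ Phi σ := Nat.le_add_left _ _
      exact this.trans h4
    have e2 : x.1 ≤ B := (Nat.le_mul_of_pos_right _ hm).trans (e1.trans h3)
    have e3 : size x.1 ≤ size B := size_nat_mono e2
    have e4 : 2 * x.2 - 1 ≤ pot σ := le_sum_map_ptR (f := fun x => 2 * x.2 - 1) hx
    have e5 : size x.2 ≤ x.2 := size_nat_le_self _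
    omega
  have hc : size σ.2 ≤ size B := size_nat_mono ((Nat.le_add_right _ _).trans h3)
  have hl := size_list_le σ.1 hit
  have hl2 : σ.1.length * (2 * (2 * size B + 1 + T) + 1) ≤ T * (2 * (2 * size B + 1 + T) + 1) :=
    Nat.mul_le_mul_right _ hlen
  rw [size_prod]
  omega

theorem ptRun {Z : α → List (List ℕ)} {o : α → Option St} {T B : α → ℕ} (hZ : PolyTime Z)
    (ho : PolyTime o) (hT : ∃ b, PB b ∧ ∀ a, T a ≤ b (size a))
    (hB : ∃ b, PB b ∧ ∀ a, size (B a) ≤ b (size a))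
    (h : ∀ a σ, o a = some σ → (∀ x ∈ σ.1, 1 ≤ x.2) ∧ pot σ ≤ T a ∧ Phi σ ≤ B a) :
    PolyTime (fun a => (Z a).foldl (fun o y => o.bind (stepB y)) (o a)) := by
  obtain ⟨bT, hbT, hT⟩ := hT
  obtain ⟨bB, hbB, hB⟩ := hB
  have hstep : PolyTime (fun x : α × Option St × List ℕ => x.2.1.bind (stepB x.2.2)) := by
    have hw : PolyTime (fun w : St × (α × Option St × List ℕ) => w) := PolyTime.id
    have hv : PolyTime (fun w : α × Option St × List ℕ => w) := PolyTime.id
    have hg : PolyTime (fun w : St × (α × Option St × List ℕ) => stepB w.2.2.2 w.1) :=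
      ptStep.comp (hw.snd.snd.snd.pair hw.fst)
    exact (PolyTime.optBind (g := fun w : St × (α × Option St × List ℕ) => stepB w.2.2.2 w.1)
      hv.snd.fst hg).congr (fun _ => rfl)
  refine PolyTime.foldl_inv (h := fun x : α × Option St × List ℕ => x.2.1.bind (stepB x.2.2))
    hZ ho hstep
    (fun a o => ∀ σ, o = some σ → (∀ x ∈ σ.1, 1 ≤ x.2) ∧ pot σ ≤ T a ∧ Phi σ ≤ B a)
    h ?_ ?_
  · intro a s x _ hs σ' hσ'
    obtain ⟨σ, rfl, hσ⟩ := Option.bind_eq_some_iff.1 hσ'
    obtain ⟨h1, h2, h3⟩ := hs σ rfl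
    exact ⟨step_pos h1 hσ, ((step_pot h1 hσ).trans (Nat.sub_le _ _)).trans h2,
      (step_phi hσ).trans h3⟩
  · refine ⟨fun n => 2 * (bT n * (2 * (2 * bB n + 1 + bT n) + 1)) + 1 + bB n + 1,
      ((((PB.const 2).mul (hbT.mul (((PB.const 2).mul ((((PB.const 2).mul hbB).add
        (PB.const 1)).add hbT)).add (PB.const 1)))).add (PB.const 1)).add hbB).add
        (PB.const 1), ?_⟩
    intro a s hs
    cases s with
    | none =>
      rw [size_none]
      exact Nat.zero_le _
    | some σ =>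
      obtain ⟨h1, h2, h3⟩ := hs σ rfl
      have h4 := size_st_ptR h1 h2 h3
      rw [size_some]
      have hT' := hT a
      have hB' := hB a
      have e1 : 2 * size (B a) + 1 + T a ≤ 2 * bB (size a) + 1 + bT (size a) := by omega
      have e2 : T a * (2 * (2 * size (B a) + 1 + T a) + 1) ≤
          bT (size a) * (2 * (2 * bB (size a) + 1 + bT (size a)) + 1) :=
        Nat.mul_le_mul hT' (by omega)
      show size σ + 1 ≤ 2 * (bT (size a) * (2 * (2 * bB (size a) + 1 + bT (size a)) + 1)) + 1 +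
        bB (size a) + 1
      omega

end Pool.Agent.H18.KR
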