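import Pool.Agent.H18.KR.PtC
import Pool.Agent.H18.KR.PtR
import Pool.Agent.H18.KR.CfgG
import Pool.Agent.H18.KR.SrtB

/-!
# Module PtV (about 200 lines). The verifier is computable in polynomial time.

* `ptFin`: `fin` is `ptRun` with `Z = blocks.drop K`, `o = if cfgOk … then some (cfgItems …, 0) else none`,
  `T a = 2 (2L+1) R`, `B a = 5 (lam.sum + mu.sum) ((2L+1) R)`, `R = 2 (L+1)`; the bounds are `cfg_good`
  (it gives `1 ≤ m`), `cfg_pot`, `cfg_phi` with `n = lam.sum + mu.sum`: if `cfgOk`, then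
  `(zk Y k).sum = Dl L lam mu k ≤ lam.sum + mu.sum`; `(take K).length ≤ K`; the hypothesis `hbl` on the lengths
  of the blocks.
* `ptValid`: `IsPart n l` is `sortedB l = true ∧ l.sum = n` (`sortedB_iff`), `two` by `PolyTime.forallMem`,
  `PolyTime.drop`.
* `ptNorm`: `PolyTime.ite`, pairs.
* `ptVV`: `size x.1` is computable (`PolyTime.sizeU`, `PolyTime.unatToNat`) and polynomially bounded in
  `size x`; `w : Str` is converted by `PolyTime.strToList'` (`strToList` is the identity on bit strings;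
  check its definition); blocks of `grp (R+1) _` have length at most `R + 1` (`List.length_take`).
-/

set_option autoImplicit false

namespace Pool.Agent.H18.KR

open Pool.Agent.H80.Poly

variable {α : Type} [BEnc α]

private theorem ptv_drop (l : List ℕ) (i : ℕ) : (l.drop i).sum ≤ l.sum := by
  have h := List.sum_take_add_sum_drop l i
  omega

private theorem ptv_Dl (L : ℕ) (lam mu : List ℕ) (k : ℕ) : Dl L lam mu k ≤ lam.sum + mu.sum := by
  unfold Dl
  have h1 := ptv_drop lam (k - L)
  have h2 := ptv_drop mu (L - k)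
  split_ifs <;> omega

theorem ptFin {L : α → ℕ} {lam mu : α → List ℕ} {bl : α → List (List ℕ)} (hL : PolyTime L)
    (bd : ∃ b, PB b ∧ ∀ a, L a ≤ b (size a)) (hl : PolyTime lam) (hm : PolyTime mu)
    (hb : PolyTime bl) (hbl : ∀ a, ∀ y ∈ bl a, y.length ≤ 2 * (L a + 1) + 1) :
    PolyTime (fun a => fin (L a) (lam a) (mu a) (bl a)) := by
  have hK : PolyTime (fun a => 2 * L a + 1) := ((PolyTime.const 2).mul hL).succ
  have hR : PolyTime (fun a => 2 * (L a + 1)) := (PolyTime.const 2).mul hL.succ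
  have hY : PolyTime (fun a => (bl a).take (2 * L a + 1)) := hb.take hK
  have hY2 : ∀ a, ∀ y ∈ (bl a).take (2 * L a + 1), y.length ≤ 2 * (L a + 1) + 1 :=
    fun a y hy => hbl a y (List.mem_of_mem_take hy)
  have ho : PolyTime (fun a => if cfgOk (L a) (lam a) (mu a) ((bl a).take (2 * L a + 1)) then
      some (cfgItems (L a) ((bl a).take (2 * L a + 1)), 0) else none) :=
    PolyTime.ite (ptCfgOk hL bd hl hm hY)
      (PolyTime.some ((ptCfgItems hL bd hY).pair (PolyTime.const 0))) (PolyTime.const none)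
  have hBp : PolyTime (fun a => 5 * ((lam a).sum + (mu a).sum) * ((2 * L a + 1) * (2 * (L a + 1)))) :=
    ((PolyTime.const 5).mul (hl.sum.add hm.sum)).mul (hK.mul hR)
  refine ptRun (Z := fun a => (bl a).drop (2 * L a + 1))
    (T := fun a => 2 * (2 * L a + 1) * (2 * (L a + 1)))
    (B := fun a => 5 * ((lam a).sum + (mu a).sum) * ((2 * L a + 1) * (2 * (L a + 1))))
    (hb.drop hK) ho ?_ hBp.size_le ?_
  · obtain ⟨b0, hb0, h0⟩ := bd
    refine ⟨fun n => 2 * (2 * b0 n + 1) * (2 * (b0 n + 1)),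
      ((PB.const 2).mul (((PB.const 2).mul hb0).add (PB.const 1))).mul
        ((PB.const 2).mul (hb0.add (PB.const 1))), fun a => ?_⟩
    have h1 := h0 a
    show 2 * (2 * L a + 1) * (2 * (L a + 1)) ≤
      2 * (2 * b0 (size a) + 1) * (2 * (b0 (size a) + 1))
    exact Nat.mul_le_mul (by omega) (by omega)
  · intro a σ hσ
    by_cases hc : cfgOk (L a) (lam a) (mu a) ((bl a).take (2 * L a + 1))
    · simp only [if_pos hc, Option.some.injEq] at hσ
      subst hσ
      refine ⟨fun x hx => (cfg_good (L a) (2 * (L a + 1)) _ (hY2 a) x hx).1,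
        cfg_pot (L a) (2 * (L a + 1)) _ (hY2 a), ?_⟩
      refine cfg_phi (L a) (2 * (L a + 1)) ((lam a).sum + (mu a).sum) _ (hY2 a)
        (List.length_take_le _ _) fun k hk => ?_
      rw [(hc k hk).2.2.1]
      exact ptv_Dl _ _ _ _
    · simp only [if_neg hc] at hσ
      exact absurd hσ (by simp)

private theorem ptv_part {n : α → ℕ} {l : α → List ℕ} (hn : PolyTime n) (hl : PolyTime l) :
    PolyTime (fun a => sortedB (l a) && decide ((l a).sum = n a)) :=
  (ptSorted hl).and (PolyTime.eq hl.sum hn)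

private theorem ptv_two {l : α → List ℕ} (hl : PolyTime l) :
    PolyTime (fun a => decide (two (l a))) := by
  have h1 : PolyTime (fun a => decide (∀ x ∈ (l a).drop 2, x = 0)) :=
    PolyTime.forallMem (P := fun _ x => x = 0) (hl.drop (PolyTime.const 2))
      (PolyTime.eq PolyTime.snd' (PolyTime.const 0))
  exact h1.congr fun a => decide_eq_decide.2 Iff.rfl

theorem ptValid : PolyTime (fun x : Inp => decide (Valid x)) := by
  have hx : PolyTime (fun x : Inp => x) := PolyTime.id
  have hs : PolyTime (fun x : Inp => x.1.sum) := hx.fst.sum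
  have h1 := ((ptv_part hs hx.fst).and ((ptv_part hs hx.snd.fst).and
    ((ptv_part hs hx.snd.snd).and ((ptv_two hx.fst).or ((ptv_two hx.snd.fst).or
      (ptv_two hx.snd.snd))))))
  refine h1.congr fun x => ?_
  rw [Bool.eq_iff_iff]
  simp only [Bool.and_eq_true, Bool.or_eq_true, decide_eq_true_eq, sortedB_iff]
  exact ⟨fun h => ⟨⟨h.1.1, rfl⟩, h.2⟩, fun h => ⟨⟨h.1.1, trivial⟩, h.2⟩⟩

theorem ptNorm : PolyTime norm := by
  have hx : PolyTime (fun x : Inp => x) := PolyTime.id
  have h1 : PolyTime (fun x : Inp => if two x.2.2 then x else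
      if two x.2.1 then (x.1, x.2.2, x.2.1) else (x.2.1, x.2.2, x.1)) :=
    PolyTime.ite (ptv_two hx.snd.snd) hx
      (PolyTime.ite (ptv_two hx.snd.fst) (hx.fst.pair (hx.snd.snd.pair hx.snd.fst))
        (hx.snd.fst.pair (hx.snd.snd.pair hx.fst)))
  exact h1

theorem blocks_length (b R M : ℕ) (w : List Bool) : ∀ y ∈ blocks b R M w, y.length ≤ R + 1 := by
  intro y hy
  unfold blocks grp at hy
  obtain ⟨i, _, rfl⟩ := List.mem_map.1 hy
  exact List.length_take_le _ _

/-- the form needed (module FinS) -/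
theorem ptVVg {S : α → ℕ} {x : α → Inp} {w : α → List Bool} (hS : PolyTime S)
    (bd : ∃ b, PB b ∧ ∀ a, S a ≤ b (size a)) (hx : PolyTime x) (hw : PolyTime w) :
    PolyTime (fun a => VV (S a) (x a) (w a)) := by
  obtain ⟨b, hb, hle⟩ := bd
  have hN : PolyTime (fun a => norm (x a)) := ptNorm.comp hx
  have hbb : PolyTime (fun a => bb (S a)) :=
    ((PolyTime.const 4).mul hS).add (PolyTime.const 10)
  have hR : PolyTime (fun a => 2 * (S a + 1)) := (PolyTime.const 2).mul hS.succ
  have hK : PolyTime (fun a => 2 * S a + 1) := ((PolyTime.const 2).mul hS).succ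
  have hTT : PolyTime (fun a => TT (S a)) := ((PolyTime.const 2).mul hK).mul hR
  have hbl : PolyTime (fun a =>
      blocks (bb (S a)) (2 * (S a + 1)) (2 * S a + 1 + TT (S a)) (w a)) := by
    refine ptBlocks hbb hR (hK.add hTT) ?_ hw
    refine ⟨fun n => (2 * b n + 1 + 2 * (2 * b n + 1) * (2 * (b n + 1))) * (2 * (b n + 1) + 1), ?_,
      fun a => ?_⟩
    · have h2 : PB (fun n => 2 * b n + 1) := ((PB.const 2).mul hb).add (PB.const 1)
      have h3 : PB (fun n => 2 * (b n + 1)) := (PB.const 2).mul (hb.add (PB.const 1))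
      exact (h2.add (((PB.const 2).mul h2).mul h3)).mul (h3.add (PB.const 1))
    · have h1 := hle a
      show (2 * S a + 1 + 2 * (2 * S a + 1) * (2 * (S a + 1))) *
          (2 * (S a + 1) + 1) ≤
        (2 * b (size a) + 1 + 2 * (2 * b (size a) + 1) * (2 * (b (size a) + 1))) *
          (2 * (b (size a) + 1) + 1)
      refine Nat.mul_le_mul (Nat.add_le_add (by omega) (Nat.mul_le_mul (by omega) (by omega)))
        (by omega)
  have hfin : PolyTime (fun a =>
      fin (S a) (norm (x a)).1 (norm (x a)).2.1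
        (blocks (bb (S a)) (2 * (S a + 1)) (2 * S a + 1 + TT (S a)) (w a))) :=
    ptFin hS ⟨b, hb, hle⟩ hN.fst hN.snd.fst hbl fun a => blocks_length _ _ _ _
  have he : PolyTime (fun a =>
      (some (([] : List (ℕ × ℕ)), (norm (x a)).1.sum - 2 * (norm (x a)).2.2.getD 1 0) :
        Option St)) :=
    PolyTime.some ((PolyTime.const ([] : List (ℕ × ℕ))).pair
      (hN.fst.sum.sub ((PolyTime.const 2).mul (ptGetD 0 hN.snd.snd (PolyTime.const 1)))))
  have h1 := (ptValid.comp hx).and (PolyTime.eq hfin he)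
  refine h1.congr fun a => ?_
  unfold VV
  congr 1

end Pool.Agent.H18.KR
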