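import Pool.Agent.H18.KR.MainA
import Pool.Agent.H18.KR.Norm
import Pool.Agent.H18.KR.CntW
import Pool.Agent.H18.KR.PtV
import Pool.Agent.H18.KR.BndS

/-!
# Module FinS (about 120 lines). Assembly, with a parameter `S ≥ size x`.

`ffS_eq`: for valid `x`, `VV S x w` is the condition on `fin S …`;
`card_ofFn`, `count_fin` with `L = S`, `b = bb S`, `T = TT S`, `e = n - 2k`, `k = (norm x).2.2.getD 1 0`;
`runs_eq` (`norm_valid`, `norm_length`, `boundsS`, `chi_two_list` for `2k ≤ n`; `(norm x).1.sum = x.1.sum`),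
`kronL_eq` with `m = S + 1`, `norm_kron`. `gk_eq`: a rational number that is a natural number equals its
`num.toNat` (`Rat.num_natCast`). `sharpP_comp`: let `q` be a polynomial with `size (t a) ≤ q.eval (size a)`
(`PolyTime.size_le`), `V (a, w) = VV (q.eval (size a)) (t a) w`, `p = wl ∘ q` as a polynomial
(`p.eval S = wl (q.eval S)`); `V` is computable in polynomial time by `ptVVg` (`PolyTime.natEval`,
`PolyTime.sizeU`, `PolyTime.unatToNat`, `PolyTime.strToList'`), `PolyTime.tm2`.
-/

set_option autoImplicit false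

namespace Pool.Agent.H18.KR

open Finset Pool.Agent.H80.Poly

theorem ffS_eq (S : ℕ) (x : Inp) (hS : size x ≤ S) (h : Valid x) :
    (ffS S x : ℚ) = kronL x.1.sum x.1 x.2.1 x.2.2 := by
  obtain ⟨h1, h2, h3, h4⟩ := norm_valid h
  have hk : 2 * (norm x).2.2.getD 1 0 ≤ x.1.sum :=
    (chi_two_list (n := 0) (norm x).2.2 h3 h4 1).2
  obtain ⟨l1, l2⟩ := norm_length x
  obtain ⟨b1, b2, b3⟩ := boundsS x S hS
  have e1 : ffS S x = ((lists (univ : Finset Bool)
      ((2 * S + 1 + TT S) * (2 * (S + 1) + 1) * bb S)).filter fun w =>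
      fin S (norm x).1 (norm x).2.1 (blocks (bb S) (2 * (S + 1)) (2 * S + 1 + TT S) w) =
        some ([], x.1.sum - 2 * (norm x).2.2.getD 1 0)).card := by
    rw [← card_ofFn]
    unfold ffS
    refine congrArg Finset.card (Finset.filter_congr fun w _ => ?_)
    have hs : (norm x).1.sum = x.1.sum := h1.2
    simp only [VV, hs, h, decide_true, Bool.true_and, decide_eq_true_eq]
    exact Iff.rfl
  rw [e1, count_fin]
  have e2 := runs_eq (bb S) S x.1.sum (TT S) ((norm x).2.2.getD 1 0) (norm x).1 (norm x).2.1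
    (by omega) (by omega) h1 h2 hk (le_refl _) b1 b2 b3
  rw [e2, ← norm_kron]
  exact (kronL_eq x.1.sum (S + 1) _ _ _ (by omega) (by omega) h3 h4).symm

theorem ffS_zero (S : ℕ) (x : Inp) (h : ¬ Valid x) : ffS S x = 0 := by
  unfold ffS
  rw [Finset.card_eq_zero, Finset.filter_eq_empty_iff]
  intro w _
  simp [VV, h]

theorem gk_eq_ffS (S : ℕ) (x : Inp) (hS : size x ≤ S) : gk x = ffS S x := by
  unfold gk
  split_ifs with h
  · rw [← ffS_eq S x hS h, Rat.num_natCast, Int.toNat_natCast]
  · exact (ffS_zero S x h).symm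

theorem gk_eq (x : Inp) (h : Valid x) : (gk x : ℚ) = kronL x.1.sum x.1 x.2.1 x.2.2 := by
  rw [gk_eq_ffS (size x) x (le_refl _)]
  exact ffS_eq (size x) x (le_refl _) h

private theorem card_cast {N M : ℕ} (h : N = M) (P : List Bool → Bool) :
    (univ.filter fun w : Fin N → Bool => P (List.ofFn w) = true).card =
      (univ.filter fun w : Fin M → Bool => P (List.ofFn w) = true).card := by
  subst h; rfl

theorem sharpP_comp {α : Type} [BEnc α] (t : α → Inp) (ht : PolyTime t) :
    InSharpP (fun a => gk (t a)) := by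
  obtain ⟨b, ⟨q, hq⟩, hb⟩ := ht.size_le
  have hle : ∀ a, size (t a) ≤ q.eval (size a) := fun a => (hb a).trans (hq _)
  let P : Polynomial ℕ := (2 * Polynomial.X + 1 +
    2 * (2 * Polynomial.X + 1) * (2 * (Polynomial.X + 1))) *
    (2 * (Polynomial.X + 1) + 1) * (4 * Polynomial.X + 10)
  have hP : ∀ n, P.eval n = wl n := by
    intro n
    simp [P, wl, TT, bb]
  refine ⟨P.comp q, fun y => VV (q.eval (size y.1)) (t y.1) y.2, ?_, fun a => ?_⟩
  · refine PolyTime.tm2 ?_
    have hfst : PolyTime (fun y : α × Pool.Agent.H80.Poly.Str => y.1) := PolyTime.fst'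
    refine ptVVg (w := fun y : α × Pool.Agent.H80.Poly.Str => strToList y.2) ?_ ?_ (ht.comp hfst)
      (PolyTime.strToList'.comp PolyTime.snd')
    · exact (PolyTime.sizeU.comp hfst).unatToNat.natEval q
    · refine ⟨fun n => q.eval n, PB.eval q, fun y => eval_mono q ?_⟩
      show (enc y.1).length ≤ (enc y).length
      rw [enc_prod, length_pr]
      omega
  · show gk (t a) = _
    rw [gk_eq_ffS (q.eval (size a)) (t a) (hle a)]
    unfold ffS
    have h : wl (q.eval (size a)) = (P.comp q).eval (enc a).length := by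
      rw [Polynomial.eval_comp, hP]
    exact card_cast h (fun w => VV (q.eval (size a)) (t a) w)

end Pool.Agent.H18.KR
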