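import Pool.Agent.H18.KR.Cr

/-!
# Module GRec (about 150 lines). The recursion of `gg`.

Let all widths of `κ` be at most `J`, `J ≥ 1`, and `κ' = κ + single (J-1) 1` (one more string of
width `J`). Then `fm κ' α = fm κ α + Qw α J` (`fm_add_left`, `fm_single_left`), so `cr` with `w = J`
says

  `aa κ' d = q^{-d} aa κ d - q^{-|κ|} Σ_{m + d' = d-J-1} [m+1] q^{d'} aa κ d'`.      (1)

Work in `PowerSeries F`. Let `A = mk (aa κ)`, `A' = mk (aa κ')`, `E = mk (ep q)`, `G = mk (gg κ) = A E`,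
`G' = A' E`, `f = mk (q^d/(q)_d)`; `f E = 1` by `euler1`, so `A = G f`, `A' = G' f`. `E` satisfies
`(1 - X) E(qx)`... precisely: with `E(x) = (qx;q)_∞` one has `rescale q⁻¹ E = (1 - X) E` and
`E = (1 - qX) rescale q E`; coefficientwise
`q^{-n} ep n = ep n - ep (n-1)` and `ep n = q^n ep n - q q^{n-1} ep (n-1)` (from
`ep n (1 - q^n) = - q^n ep (n-1)`).  (1) says (as `Σ_m [m+1] x^m = 1/((1-x)(1-qx))`):

  `A' (1-X)(1-qX) = (rescale q⁻¹ A) (1-X)(1-qX) - q^{-|κ|} X^{J+1} rescale q A`.        (2)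

Multiply (2) by `E` and use `A = G f`: `rescale q⁻¹ A * (1-X) E = rescale q⁻¹ A * rescale q⁻¹ E =
rescale q⁻¹ G`, and `rescale q A * E = rescale q A * (1-qX) rescale q E = (1-qX) rescale q G`. So
`G' (1-X)(1-qX) = (1-qX) rescale q⁻¹ G - q^{-|κ|} X^{J+1} (1-qX) rescale q G`, cancel `1 - qX`:

  `G' (1-X) = rescale q⁻¹ G - q^{-|κ|} X^{J+1} rescale q G`,

which is the claim (coefficient of `x^{d+1}`).
-/

set_option autoImplicit false

namespace Pool.Agent.H18.KR

open Finset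

variable {F : Type} [Field F] {q : F}

private lemma gr_ep (hq : ∀ n : ℕ, 0 < n → q ^ n ≠ 1) (m : ℕ) :
    ep q (m + 1) * (1 - q ^ (m + 1)) = -(q ^ (m + 1) * ep q m) := by
  have h1 : qf q m ≠ 0 := qf_ne hq m
  have h2 : (1 : F) - q ^ (m + 1) ≠ 0 := sub_ne_zero.2 fun h => hq (m + 1) (Nat.succ_pos m) h.symm
  have h3 : (m + 1) * (m + 1 + 1) / 2 = m * (m + 1) / 2 + (m + 1) := by
    have : (m + 1) * (m + 1 + 1) = m * (m + 1) + (m + 1) * 2 := by ring
    rw [this, Nat.add_mul_div_right _ _ (by norm_num)]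
  unfold ep
  rw [qf_succ, h3]
  field_simp
  ring

private lemma gr_one_sub (φ : PowerSeries F) (c : F) (n : ℕ) :
    PowerSeries.coeff (n + 1) (φ * (1 - PowerSeries.C c * PowerSeries.X)) =
      PowerSeries.coeff (n + 1) φ - c * PowerSeries.coeff n φ := by
  have : φ * (1 - PowerSeries.C c * PowerSeries.X) = φ - PowerSeries.C c * (φ * PowerSeries.X) := by
    ring
  rw [this, map_sub, PowerSeries.coeff_C_mul, PowerSeries.coeff_succ_mul_X]

private lemma gr_one_sub0 (φ : PowerSeries F) (c : F) :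
    PowerSeries.coeff 0 (φ * (1 - PowerSeries.C c * PowerSeries.X)) = PowerSeries.coeff 0 φ := by
  have : φ * (1 - PowerSeries.C c * PowerSeries.X) = φ - PowerSeries.C c * (φ * PowerSeries.X) := by
    ring
  rw [this, map_sub, PowerSeries.coeff_C_mul, PowerSeries.coeff_zero_mul_X, mul_zero, sub_zero]

private lemma gr_E1 (hq0 : q ≠ 0) (hq : ∀ n : ℕ, 0 < n → q ^ n ≠ 1) :
    PowerSeries.mk (ep q) * (1 - PowerSeries.C 1 * PowerSeries.X) =
      PowerSeries.rescale q⁻¹ (PowerSeries.mk (ep q)) := by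
  ext n
  rw [PowerSeries.coeff_rescale, PowerSeries.coeff_mk]
  cases n with
  | zero => rw [gr_one_sub0, PowerSeries.coeff_mk, pow_zero, one_mul]
  | succ n =>
    rw [gr_one_sub, PowerSeries.coeff_mk, PowerSeries.coeff_mk, one_mul, inv_pow]
    have h1 := gr_ep hq n
    have h2 : q ^ (n + 1) ≠ 0 := pow_ne_zero _ hq0
    field_simp
    linear_combination (-1 : F) * h1

private lemma gr_E2 (hq : ∀ n : ℕ, 0 < n → q ^ n ≠ 1) :
    PowerSeries.rescale q (PowerSeries.mk (ep q)) * (1 - PowerSeries.C q * PowerSeries.X) =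
      PowerSeries.mk (ep q) := by
  ext n
  cases n with
  | zero =>
    rw [gr_one_sub0, PowerSeries.coeff_rescale, PowerSeries.coeff_mk, pow_zero, one_mul]
  | succ n =>
    rw [gr_one_sub, PowerSeries.coeff_rescale, PowerSeries.coeff_rescale, PowerSeries.coeff_mk,
      PowerSeries.coeff_mk]
    have h1 := gr_ep hq n
    linear_combination (-1 : F) * h1

private lemma gr_H (hq : ∀ n : ℕ, 0 < n → q ^ n ≠ 1) :
    PowerSeries.mk (fun m => (1 - q ^ (m + 1)) / (1 - q)) *
      (1 - PowerSeries.C 1 * PowerSeries.X) * (1 - PowerSeries.C q * PowerSeries.X) = 1 := by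
  have h0 : (1 : F) - q ≠ 0 := sub_ne_zero.2 fun h => hq 1 one_pos (by rw [pow_one]; exact h.symm)
  have h1 : PowerSeries.mk (fun m => (1 - q ^ (m + 1)) / (1 - q)) *
      (1 - PowerSeries.C 1 * PowerSeries.X) = PowerSeries.mk (fun m => q ^ m) := by
    ext n
    cases n with
    | zero =>
      rw [gr_one_sub0, PowerSeries.coeff_mk, PowerSeries.coeff_mk]
      field_simp
      ring
    | succ n =>
      rw [gr_one_sub, PowerSeries.coeff_mk, PowerSeries.coeff_mk, PowerSeries.coeff_mk]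
      field_simp
      ring
  rw [h1]
  ext n
  cases n with
  | zero => rw [gr_one_sub0, PowerSeries.coeff_mk, pow_zero, PowerSeries.coeff_zero_one]
  | succ n =>
    rw [gr_one_sub, PowerSeries.coeff_mk, PowerSeries.coeff_mk, PowerSeries.coeff_one,
      if_neg (Nat.succ_ne_zero n)]
    ring

private lemma gr_A (hq0 : q ≠ 0) (hq : ∀ n : ℕ, 0 < n → q ^ n ≠ 1) (J : ℕ) (hJ : 1 ≤ J) (κ : Str)
    (hκ : ∀ i ∈ κ.support, i < J) :
    PowerSeries.mk (aa q (κ + Finsupp.single (J - 1) 1)) =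
      PowerSeries.rescale q⁻¹ (PowerSeries.mk (aa q κ)) -
        PowerSeries.C (q⁻¹ ^ sz κ) * (PowerSeries.X ^ (J + 1) *
          (PowerSeries.mk (fun m => (1 - q ^ (m + 1)) / (1 - q)) *
            PowerSeries.rescale q (PowerSeries.mk (aa q κ)))) := by
  ext d
  rw [map_sub, PowerSeries.coeff_C_mul, PowerSeries.coeff_X_pow_mul', PowerSeries.coeff_rescale,
    PowerSeries.coeff_mk, PowerSeries.coeff_mk]
  have h1 := cr hq0 hq J κ hκ d
  have h2 : aa q (κ + Finsupp.single (J - 1) 1) d =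
      ∑ α ∈ Pd d, q ^ ((fm α α : ℤ) - (fm κ α : ℤ) - (Qw α J : ℤ)) / qfp q α := by
    unfold aa
    refine sum_congr rfl fun α _ => ?_
    rw [fm_add_left, fm_single_left, one_mul, Nat.sub_add_cancel hJ, Nat.cast_add, sub_sub]
  rw [h2, h1]
  congr 1
  split_ifs with h
  · congr 1
    rw [PowerSeries.coeff_mul]
    refine sum_congr rfl fun x _ => ?_
    rw [PowerSeries.coeff_mk, PowerSeries.coeff_rescale, PowerSeries.coeff_mk]
  · rw [mul_zero]

private lemma gr_G (κ : Str) : PowerSeries.mk (gg q κ) =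
    PowerSeries.mk (aa q κ) * PowerSeries.mk (ep q) := by
  ext d
  rw [PowerSeries.coeff_mul, PowerSeries.coeff_mk]
  refine sum_congr rfl fun x _ => ?_
  rw [PowerSeries.coeff_mk, PowerSeries.coeff_mk]

theorem gg_rec (hq0 : q ≠ 0) (hq : ∀ n : ℕ, 0 < n → q ^ n ≠ 1) (J : ℕ) (hJ : 1 ≤ J) (κ : Str)
    (hκ : ∀ i ∈ κ.support, i < J) (d : ℕ) :
    gg q (κ + Finsupp.single (J - 1) 1) (d + 1) - gg q (κ + Finsupp.single (J - 1) 1) d =
      q ^ (-((d : ℤ) + 1)) * gg q κ (d + 1) -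
        if J ≤ d then q ^ (-(sz κ : ℤ)) * q ^ ((d : ℤ) - J) * gg q κ (d - J) else 0 := by
  have hA := gr_A hq0 hq J hJ κ hκ
  have hE1 := gr_E1 hq0 hq
  have hE2 := gr_E2 hq
  have hH := gr_H hq
  have hG := gr_G (q := q) κ
  have hG' := gr_G (q := q) (κ + Finsupp.single (J - 1) 1)
  have hGi : PowerSeries.rescale q⁻¹ (PowerSeries.mk (gg q κ)) =
      PowerSeries.rescale q⁻¹ (PowerSeries.mk (aa q κ)) *
        PowerSeries.rescale q⁻¹ (PowerSeries.mk (ep q)) := by rw [hG, map_mul]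
  have hGr : PowerSeries.rescale q (PowerSeries.mk (gg q κ)) =
      PowerSeries.rescale q (PowerSeries.mk (aa q κ)) *
        PowerSeries.rescale q (PowerSeries.mk (ep q)) := by rw [hG, map_mul]
  set A := PowerSeries.mk (aa q κ)
  set A' := PowerSeries.mk (aa q (κ + Finsupp.single (J - 1) 1))
  set E := PowerSeries.mk (ep q)
  set H := PowerSeries.mk (fun m => (1 - q ^ (m + 1)) / (1 - q))
  set Ai := PowerSeries.rescale q⁻¹ A
  set Ar := PowerSeries.rescale q A
  set Ei := PowerSeries.rescale q⁻¹ E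
  set Er := PowerSeries.rescale q E
  have hne : (1 - PowerSeries.C q * PowerSeries.X : PowerSeries F) ≠ 0 := by
    intro h
    have := congrArg (PowerSeries.coeff 0) h
    simp at this
  have key : PowerSeries.mk (gg q (κ + Finsupp.single (J - 1) 1)) *
      (1 - PowerSeries.C 1 * PowerSeries.X) =
      PowerSeries.rescale q⁻¹ (PowerSeries.mk (gg q κ)) -
        PowerSeries.C (q⁻¹ ^ sz κ) * (PowerSeries.X ^ (J + 1) *
          PowerSeries.rescale q (PowerSeries.mk (gg q κ))) := by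
    refine mul_right_cancel₀ hne ?_
    rw [hG', hGi, hGr, hA, ← hE1]
    linear_combination (-(PowerSeries.C (q⁻¹ ^ sz κ) * PowerSeries.X ^ (J + 1) * Ar * E)) * hH +
      (PowerSeries.C (q⁻¹ ^ sz κ) * PowerSeries.X ^ (J + 1) * Ar) * hE2
  have h1 := congrArg (PowerSeries.coeff (d + 1)) key
  rw [gr_one_sub, PowerSeries.coeff_mk, PowerSeries.coeff_mk, one_mul, map_sub,
    PowerSeries.coeff_C_mul, PowerSeries.coeff_X_pow_mul', PowerSeries.coeff_rescale,
    PowerSeries.coeff_mk] at h1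
  rw [h1, ← Nat.cast_succ, zpow_neg, zpow_natCast, inv_pow]
  congr 1
  by_cases h : J ≤ d
  · have h2 : d + 1 - (J + 1) = d - J := by omega
    rw [if_pos h, if_pos (by omega), h2, PowerSeries.coeff_rescale, PowerSeries.coeff_mk, zpow_neg,
      zpow_natCast, inv_pow, ← Nat.cast_sub h, zpow_natCast, mul_assoc]
  · rw [if_neg h, if_neg (by omega), mul_zero]

end Pool.Agent.H18.KR
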