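import Pool.Agent.H18.KR.QNum

/-!
# Module Vdm (about 120 lines). q-Vandermonde.

`vdm_gen`: for natural numbers `M`, `n`, `k` with `k ≤ M + n`
`[M+n choose k] = Σ_{j ≤ k, j ≤ n, k - j ≤ M} q^{j (M - k + j)} [M choose k-j] [n choose j]`,
here `[a choose b] = gb q (a - b) b`. Induction on `n` (all `k`) with Pascal's rule in the form
`[n+1 choose j] = [n choose j] + q^{n+1-j} [n choose j-1]` (`gb_pascal` with `P = n + 1 - j`: note
`gb q (P-1) j = [n choose j]`, `gb q P (j-1) = [n choose j-1]`) and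
`[M+n+1 choose k] = [M+n choose k] + q^{M+n+1-k} [M+n choose k-1]`.

`vdm` is the case `M = c`, `n = e - c - 1`, `k = c - 1`, `j = x - 1`: the exponent is
`(x-1)(c-(c-1)+x-1) = (x-1) x`, `[c choose c - x] = [c choose x] = gb q (c-x) x`,
`[e-c-1 choose x-1] = gb q (e-c-x) (x-1)`, `[e-1 choose c-1] = gb q (e-c) (c-1)`. For `x > e - c`
(and `x ≥ 2`) the last factor is zero by `gb_eq_zero` (`-(x-1) ≤ e-c-x < 0`).
You may also prove `vdm` in any other way.
-/

set_option autoImplicit false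

namespace Pool.Agent.H18.KR

open Finset

variable {F : Type} [Field F] {q : F}

private def BB (q : F) (M : ℤ) (k : ℕ) : F := gb q (M - k) k

private lemma BB_zero (q : F) (M : ℤ) : BB q M 0 = 1 := gb_zero q _

private lemma BB_zero_succ (q : F) (k : ℕ) : BB q 0 (k + 1) = 0 :=
  gb_eq_zero (by push_cast; omega) (by push_cast; omega)

private lemma BB_pascal (hq0 : q ≠ 0) (hq : ∀ n : ℕ, 0 < n → q ^ n ≠ 1) (M : ℤ) (k : ℕ) :
    BB q (M + 1) (k + 1) = BB q M (k + 1) + q ^ (M - k) * BB q M k := by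
  have h := gb_pascal hq0 hq (M - k) k
  have e1 : M + 1 - ((k + 1 : ℕ) : ℤ) = M - k := by push_cast; ring
  have e2 : M - ((k + 1 : ℕ) : ℤ) = M - k - 1 := by push_cast; ring
  unfold BB
  rw [e1, e2, h]

private lemma vdm_gen (hq0 : q ≠ 0) (hq : ∀ n : ℕ, 0 < n → q ^ n ≠ 1) (M : ℤ) (n : ℕ) :
    ∀ k : ℕ, BB q (M + n) k =
      ∑ j ∈ range (k + 1), q ^ ((j : ℤ) * (M - k + j)) * (BB q M (k - j) * BB q n j) := by
  induction n with
  | zero =>
    intro k
    rw [sum_range_succ', sum_eq_zero]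
    · simp [BB_zero]
    · intro j _
      rw [Nat.cast_zero, BB_zero_succ, mul_zero, mul_zero]
  | succ n ih =>
    intro k
    rcases k with _ | k
    · simp [BB_zero]
    · have e1 : M + ((n + 1 : ℕ) : ℤ) = M + n + 1 := by push_cast; ring
      rw [e1, BB_pascal hq0 hq, ih, ih]
      have e2 : ∑ j ∈ range (k + 1 + 1), q ^ ((j : ℤ) * (M - ((k + 1 : ℕ) : ℤ) + j)) *
          (BB q M (k + 1 - j) * BB q ((n + 1 : ℕ) : ℤ) j) =
          (∑ j ∈ range (k + 1), q ^ (((j + 1 : ℕ) : ℤ) * (M - ((k + 1 : ℕ) : ℤ) + ((j + 1 : ℕ) : ℤ))) *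
          (BB q M (k - j) * (BB q n (j + 1) + q ^ ((n : ℤ) - j) * BB q n j))) +
          BB q M (k + 1) := by
        rw [sum_range_succ']
        congr 1
        · refine sum_congr rfl fun j _ => ?_
          rw [show k + 1 - (j + 1) = k - j by omega, Nat.cast_add n 1, Nat.cast_one,
            BB_pascal hq0 hq]
        · simp [BB_zero]
      rw [e2, sum_range_succ' _ (k + 1)]
      have e3 : q ^ (M + n - k) * ∑ j ∈ range (k + 1), q ^ ((j : ℤ) * (M - k + j)) *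
          (BB q M (k - j) * BB q n j) = ∑ j ∈ range (k + 1),
          q ^ (((j + 1 : ℕ) : ℤ) * (M - ((k + 1 : ℕ) : ℤ) + ((j + 1 : ℕ) : ℤ))) *
          (BB q M (k - j) * (q ^ ((n : ℤ) - j) * BB q n j)) := by
        rw [mul_sum]
        refine sum_congr rfl fun j _ => ?_
        have e4 : q ^ (M + n - k) * q ^ ((j : ℤ) * (M - k + j)) =
            q ^ (((j + 1 : ℕ) : ℤ) * (M - ((k + 1 : ℕ) : ℤ) + ((j + 1 : ℕ) : ℤ))) *
              q ^ ((n : ℤ) - j) := by
          rw [← zpow_add₀ hq0, ← zpow_add₀ hq0]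
          congr 1
          push_cast
          ring
        calc q ^ (M + n - k) * (q ^ ((j : ℤ) * (M - k + j)) * (BB q M (k - j) * BB q n j))
            = (q ^ (M + n - k) * q ^ ((j : ℤ) * (M - k + j))) * (BB q M (k - j) * BB q n j) := by
              ring
          _ = _ := by rw [e4]; ring
      rw [e3]
      have e5 : q ^ (((0 : ℕ) : ℤ) * (M - ((k + 1 : ℕ) : ℤ) + ((0 : ℕ) : ℤ))) *
          (BB q M (k + 1 - 0) * BB q n 0) = BB q M (k + 1) := by
        simp [BB_zero]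
      rw [e5, add_right_comm, ← sum_add_distrib]
      congr 1
      refine sum_congr rfl fun j _ => ?_
      rw [show k + 1 - (j + 1) = k - j by omega]
      ring

theorem vdm (hq0 : q ≠ 0) (hq : ∀ n : ℕ, 0 < n → q ^ n ≠ 1) {c e : ℕ} (hc : 1 ≤ c) (h : c < e) :
    gb q ((e : ℤ) - c) (c - 1) =
      ∑ x ∈ Icc 1 c, q ^ (x * (x - 1)) *
        (gb q ((c : ℤ) - x) x * gb q ((e : ℤ) - c - x) (x - 1)) := by
  obtain ⟨k, rfl⟩ : ∃ k, c = k + 1 := ⟨c - 1, by omega⟩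
  obtain ⟨n, rfl⟩ : ∃ n, e = k + 1 + n + 1 := ⟨e - (k + 1) - 1, by omega⟩
  have h1 := vdm_gen hq0 hq ((k + 1 : ℕ) : ℤ) n k
  have e1 : ((k + 1 + n + 1 : ℕ) : ℤ) - ((k + 1 : ℕ) : ℤ) = ((k + 1 : ℕ) : ℤ) + n - k := by
    push_cast; ring
  have e2 : gb q (((k + 1 + n + 1 : ℕ) : ℤ) - ((k + 1 : ℕ) : ℤ)) (k + 1 - 1) =
      BB q (((k + 1 : ℕ) : ℤ) + n) k := by
    rw [e1]
    rfl
  rw [e2, h1]
  refine sum_bij (fun j _ => j + 1) ?_ ?_ ?_ ?_
  · intro j hj
    rw [mem_range] at hj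
    rw [mem_Icc]
    omega
  · intro a _ b _ hab
    omega
  · intro x hx
    rw [mem_Icc] at hx
    exact ⟨x - 1, by rw [mem_range]; omega, by omega⟩
  · intro j hj
    rw [mem_range] at hj
    have e3 : q ^ ((j : ℤ) * (((k + 1 : ℕ) : ℤ) - k + j)) = q ^ ((j + 1) * (j + 1 - 1)) := by
      rw [← zpow_natCast]
      congr 1
      push_cast
      ring
    have e4 : BB q ((k + 1 : ℕ) : ℤ) (k - j) = gb q (((k + 1 : ℕ) : ℤ) - ((j + 1 : ℕ) : ℤ)) (j + 1) := by
      unfold BB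
      have e5 : ((k + 1 : ℕ) : ℤ) - ((k - j : ℕ) : ℤ) = ((j + 1 : ℕ) : ℤ) := by omega
      have e6 : ((k + 1 : ℕ) : ℤ) - ((j + 1 : ℕ) : ℤ) = ((k - j : ℕ) : ℤ) := by omega
      rw [e5, e6, gb_nat hq0 hq, gb_nat hq0 hq, show j + 1 + (k - j) = k - j + (j + 1) by omega,
        mul_comm (qf q (j + 1))]
    have e7 : BB q n j = gb q (((k + 1 + n + 1 : ℕ) : ℤ) - ((k + 1 : ℕ) : ℤ) - ((j + 1 : ℕ) : ℤ))
        (j + 1 - 1) := by
      unfold BB
      rw [Nat.add_sub_cancel]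
      congr 1
      push_cast
      ring
    rw [e3, e4, e7]

end Pool.Agent.H18.KR
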