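import Pool.Agent.H18.KR.Dec
import Pool.Agent.H18.KR.Vdm

/-!
# Module HH (about 150 lines). The sum over the strings with `c` parts and total width `e`.

`hh q c e = Σ_{cnt α = c, sz α = e} q^{(α,α)}/(q)_α`.

(1) `hh q c e = 0` for `e < c` (`cnt_le_sz`), `hh q 0 0 = 1`, `hh q 0 e = 0` for `e > 0`.
(2) Peeling (`sum_dec` with `w = 1`, applied to a summand that is zero unless `cnt α = c`): a string
`α` is `a` strings of width one (`loS 1 α = single 0 a`, `sz = cnt = a`, `fm = a^2`,
`qfp = qf q a`) and `γ = hiS 1 α`; `cnt α = a + cnt γ`, `sz α = a + cnt γ + sz γ`, so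
`sz γ = e - c`; `fm α α = a^2 + 2 a c' + c'^2 + fm γ γ = c^2 + fm γ γ` with `c' = cnt γ`. Hence for
`c ≤ e`:   `hh q c e = Σ_{c' ≤ c} q^{c^2} hh q c' (e - c) / qf q (c - c')`.
(3) `hh_closed` by strong induction on `e`. For `e = c ≥ 1` only `c' = 0` contributes:
`hh q c c = q^{c^2}/qf q c`. For `e > c ≥ 1` the term `c' = 0` is zero, the terms with
`c' > e - c` are zero, and by induction
`hh q c' (e-c) = q^{c'^2 - c' + e - c} gb q (e-c-c') (c'-1) / qf q c'` for `1 ≤ c' ≤ e - c` (for
`c' > e - c`, `c' ≥ 2` the value `gb q (e-c-c') (c'-1)` is zero as well, `gb_eq_zero`), and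
`1/(qf q c' * qf q (c-c')) = gb q (c-c') c' / qf q c` (`gb_nat`). So
`hh q c e = q^{c^2 + e - c}/qf q c * Σ_{c'=1}^c q^{c'(c'-1)} gb q (c-c') c' gb q (e-c-c') (c'-1)`,
which is `vdm`.
-/

set_option autoImplicit false

namespace Pool.Agent.H18.KR

open Finset

variable {F : Type} [Field F] {q : F}

theorem hh_of_lt {c e : ℕ} (h : e < c) : hh q c e = 0 := by
  unfold hh
  refine Finset.sum_eq_zero fun α hα => ?_
  exfalso
  obtain ⟨h1, h2⟩ := mem_filter.1 hα
  have h3 := mem_Pd.1 h1
  have h4 := cnt_le_sz α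
  omega

theorem hh_zero_zero : hh q 0 0 = 1 := by
  unfold hh
  have h : (Pd 0).filter (fun α => cnt α = 0) = {0} := by
    rw [Pd_zero]
    ext α
    rw [mem_filter, mem_singleton]
    constructor
    · exact fun h => h.1
    · rintro rfl
      exact ⟨rfl, cnt_zero⟩
  rw [h, Finset.sum_singleton, fm_zero_left, qfp_zero]
  simp

theorem hh_zero_pos {e : ℕ} (h : 0 < e) : hh q 0 e = 0 := by
  unfold hh
  refine Finset.sum_eq_zero fun α hα => ?_
  exfalso
  obtain ⟨h1, h2⟩ := mem_filter.1 hα
  have h3 := mem_Pd.1 h1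
  have h4 : α = 0 := by
    ext i
    by_contra hcon
    have h5 : i ∈ α.support := Finsupp.mem_support_iff.2 hcon
    have h6 : α i ≤ cnt α :=
      Finset.single_le_sum (f := fun i => α i) (fun _ _ => Nat.zero_le _) h5
    rw [h2] at h6
    exact hcon (Nat.le_zero.1 h6)
  rw [h4, sz_zero] at h3
  omega

private lemma hh_lo (α : Str) : loS 1 α = Finsupp.single 0 (α 0) := by
  ext i
  rcases Nat.eq_zero_or_pos i with hi | hi
  · subst hi
    rw [Finsupp.single_eq_same]
    exact Finsupp.filter_apply_pos _ _ Nat.zero_lt_one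
  · rw [Finsupp.single_eq_of_ne (by omega)]
    by_contra hcon
    have h1 := loS_support 1 α i (Finsupp.mem_support_iff.2 hcon)
    omega

private lemma hh_cnt (α : Str) : cnt α = α 0 + cnt (hiS 1 α) := by
  rw [cnt_dec 1 α, hh_lo, cnt_single]

private lemma hh_sz (α : Str) : sz α = cnt α + sz (hiS 1 α) := by
  rw [hh_cnt α, sz_dec 1 α, hh_lo, sz_single]
  ring

private lemma hh_fm (α : Str) : fm α α = cnt α ^ 2 + fm (hiS 1 α) (hiS 1 α) := by
  rw [hh_cnt α, fm_dec 1 α, hh_lo, fm_single_left, Qw_single, sz_single]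
  simp only [Nat.zero_add, min_self, one_mul]
  ring

private lemma hh_qfp (q : F) (α : Str) : qfp q α = qf q (α 0) * qfp q (hiS 1 α) := by
  rw [qfp_dec q 1 α, hh_lo]
  congr 1
  exact Finsupp.prod_single_index (h := fun _ a => qf q a) (qf_zero q)

/-- peeling off the strings of width one -/
private lemma hh_peel {c e : ℕ} (h : c ≤ e) :
    hh q c e = ∑ c' ∈ range (c + 1), q ^ (c ^ 2) * hh q c' (e - c) / qf q (c - c') := by
  have h1 : hh q c e = ∑ γ ∈ (Pd (e - c)).filter (fun γ => cnt γ ≤ c),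
      q ^ (c ^ 2) * (q ^ fm γ γ / qfp q γ) / qf q (c - cnt γ) := by
    unfold hh
    refine Finset.sum_bij' (fun α _ => hiS 1 α)
      (fun γ _ => Finsupp.single 0 (c - cnt γ) + upS 1 γ) ?_ ?_ ?_ ?_ ?_
    · intro α hα
      obtain ⟨h2, h3⟩ := mem_filter.1 hα
      have h4 := mem_Pd.1 h2
      have h5 := hh_sz α
      have h6 := hh_cnt α
      exact mem_filter.2 ⟨mem_Pd.2 (by omega), by omega⟩
    · intro γ hγ
      obtain ⟨h2, h3⟩ := mem_filter.1 hγ
      have h4 := mem_Pd.1 h2
      refine mem_filter.2 ⟨mem_Pd.2 ?_, ?_⟩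
      · rw [sz_add, sz_single, sz_upS, h4]
        omega
      · rw [cnt_add, cnt_single, cnt_upS]
        omega
    · intro α hα
      obtain ⟨h2, h3⟩ := mem_filter.1 hα
      have h6 := hh_cnt α
      have h7 : c - cnt (hiS 1 α) = α 0 := by omega
      change Finsupp.single 0 (c - cnt (hiS 1 α)) + upS 1 (hiS 1 α) = α
      rw [h7, ← hh_lo]
      exact dec_eq 1 α
    · intro γ hγ
      refine hiS_add 1 _ _ ?_
      intro i hi
      have h2 := Finsupp.support_single_subset hi
      rw [mem_singleton] at h2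
      omega
    · intro α hα
      obtain ⟨h2, h3⟩ := mem_filter.1 hα
      have h6 := hh_cnt α
      have h7 : c - cnt (hiS 1 α) = α 0 := by omega
      rw [h7, hh_fm, hh_qfp, h3, pow_add]
      rw [div_mul_eq_div_div, mul_div_assoc', div_right_comm]
  have h2 : ∀ γ ∈ (Pd (e - c)).filter (fun γ => cnt γ ≤ c), cnt γ ∈ range (c + 1) := by
    intro γ hγ
    have h3 := (mem_filter.1 hγ).2
    exact mem_range.2 (by omega)
  rw [h1, ← Finset.sum_fiberwise_of_maps_to h2]
  refine Finset.sum_congr rfl fun c' hc' => ?_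
  have hc := mem_range.1 hc'
  have h3 : ((Pd (e - c)).filter (fun γ => cnt γ ≤ c)).filter (fun γ => cnt γ = c') =
      (Pd (e - c)).filter (fun γ => cnt γ = c') := by
    ext γ
    rw [mem_filter, mem_filter, mem_filter]
    constructor
    · exact fun h => ⟨h.1.1, h.2⟩
    · exact fun h => ⟨⟨h.1, by omega⟩, h.2⟩
  rw [h3, hh, Finset.mul_sum, Finset.sum_div]
  refine Finset.sum_congr rfl fun γ hγ => ?_
  rw [(mem_filter.1 hγ).2]

theorem hh_closed (hq0 : q ≠ 0) (hq : ∀ n : ℕ, 0 < n → q ^ n ≠ 1) {c e : ℕ} (hc : 1 ≤ c)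
    (h : c ≤ e) :
    hh q c e = q ^ (c * (c - 1) + e) * gb q ((e : ℤ) - c) (c - 1) / qf q c := by
  induction e using Nat.strong_induction_on generalizing c with
  | _ e ih =>
    rw [hh_peel h]
    have hcc : c * (c - 1) + c = c ^ 2 := by
      obtain ⟨k, rfl⟩ : ∃ k, c = k + 1 := ⟨c - 1, by omega⟩
      rw [Nat.add_sub_cancel]
      ring
    rcases Nat.lt_or_ge c e with hce | hce
    · -- `c < e`
      have hterm : ∀ c' ∈ Icc 1 c, hh q c' (e - c) =
          q ^ (c' * (c' - 1) + (e - c)) * gb q ((e : ℤ) - c - c') (c' - 1) / qf q c' := by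
        intro c' hc'
        obtain ⟨h1, h2⟩ := mem_Icc.1 hc'
        rcases Nat.lt_or_ge (e - c) c' with h3 | h3
        · rw [hh_of_lt h3, gb_eq_zero (by omega) (by omega)]
          simp
        · rw [ih (e - c) (by omega) h1 h3]
          have h4 : ((e - c : ℕ) : ℤ) - c' = (e : ℤ) - c - c' := by omega
          rw [h4]
      rw [Finset.sum_range_succ', hh_zero_pos (by omega)]
      have h1 : ∑ k ∈ range c, q ^ (c ^ 2) * hh q (k + 1) (e - c) / qf q (c - (k + 1)) =
          ∑ x ∈ Icc 1 c, q ^ (c ^ 2) * hh q x (e - c) / qf q (c - x) := by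
        refine Finset.sum_bij' (fun k _ => k + 1) (fun x _ => x - 1) ?_ ?_ ?_ ?_ ?_
        · intro k hk
          rw [mem_range] at hk
          rw [mem_Icc]
          omega
        · intro x hx
          rw [mem_Icc] at hx
          rw [mem_range]
          omega
        · intro k hk
          exact Nat.add_sub_cancel k 1
        · intro x hx
          rw [mem_Icc] at hx
          exact Nat.sub_add_cancel hx.1
        · intro k hk
          rfl
      rw [h1, mul_zero, zero_div, add_zero, vdm hq0 hq hc hce, Finset.mul_sum, Finset.sum_div]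
      refine Finset.sum_congr rfl fun x hx => ?_
      rw [hterm x hx]
      obtain ⟨h2, h3⟩ := mem_Icc.1 hx
      have h4 : (c : ℤ) - x = ((c - x : ℕ) : ℤ) := by omega
      have h5 : c - x + x = c := by omega
      rw [h4, gb_nat hq0 hq, h5]
      have n1 := qf_ne hq (c - x)
      have n2 := qf_ne hq x
      have n3 := qf_ne hq c
      have h6 : c * (c - 1) + e = c ^ 2 + (e - c) := by omega
      rw [h6, pow_add q (x * (x - 1)), pow_add q (c ^ 2)]
      field_simp
    · -- `c = e`
      have hce' : e = c := le_antisymm hce h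
      subst hce'
      rw [Finset.sum_range_succ', Finset.sum_eq_zero, Nat.sub_self, hh_zero_zero, Nat.sub_zero,
        sub_self, hcc]
      · have h1 := gb_nat hq0 hq 0 (e - 1)
        rw [Nat.cast_zero, Nat.zero_add, qf_zero, one_mul, div_self (qf_ne hq _)] at h1
        rw [h1]
        ring
      · intro k _
        rw [Nat.sub_self, hh_of_lt (Nat.succ_pos k)]
        simp

end Pool.Agent.H18.KR
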