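import Pool.Agent.H18.KR.HH

/-!
# Module HId (about 130 lines). The identity used in Cr.

For `c, e ≥ 1`: `q^{-e} (1 - q^e) hh(c, e) = Σ_{m + e' = e - 1} [m+1] q^{e'} hh(c-1, e')`,
`[m+1] = (1-q^{m+1})/(1-q)`.

If `e < c` both sides are zero (`hh_of_lt`). `c = 1`: the right side is the term `e' = 0`:
`(1-q^e)/(1-q)`, and `hh(1, e) = q^e/(1-q)`. `c ≥ 2`, `e ≥ c`: by `hh_closed` the left side is
`(1-q^e) q^{c(c-1)} [e-1 choose c-1]/(q)_c = q^{c(c-1)} [e choose c]/(q)_{c-1}` (as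
`(1-q^e) [e-1 choose c-1] = (1-q^c) [e choose c]`, `gb_nat`), the right side is
`q^{(c-1)(c-2)}/(q)_{c-1} Σ_{e' = c-1}^{e-1} [e-e'] q^{2e'} [e'-1 choose c-2]`. So one needs

  (S)  `Σ_{e'=c-1}^{e-1} [e-e'] q^{2e'} [e'-1 choose c-2] = q^{2(c-1)} [e choose c]`   (`e ≥ c - 1`,
both sides are zero for `e = c-1`).

Proof of (S), with `c = k + 2`, `e = k + 2 + n`, `e' = k + 1 + j`: let `S(n)` be the left side and
`T(n) = Σ_{j ≤ n} q^{2j} [k+j choose k]`. As `[n+2-j] = 1 + q [n+1-j]`,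
`S(n+1) = T(n+1) + q S(n)`, so it is enough to show
`T(n+1) = [n+1+k+2 choose k+2] - q [n+k+2 choose k+2]`, and this again by induction on `n`.
-/

set_option autoImplicit false

namespace Pool.Agent.H18.KR

open Finset

variable {F : Type} [Field F] {q : F}

theorem hid_T (hq0 : q ≠ 0) (hq : ∀ n : ℕ, 0 < n → q ^ n ≠ 1) (k n : ℕ) :
    ∑ j ∈ range (n + 2), q ^ (2 * j) * gb q (j : ℤ) k =
      gb q ((n + 1 : ℕ) : ℤ) (k + 2) - q * gb q (n : ℤ) (k + 2) := by
  have hn := qf_ne hq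
  induction n with
  | zero =>
    rw [sum_range_succ, sum_range_succ, sum_range_zero]
    simp only [gb_nat hq0 hq]
    have e1 : qf q (0 + 1 + (k + 2)) = qf q k * (1 - q ^ (k + 1)) * (1 - q ^ (k + 2)) *
        (1 - q ^ (k + 3)) := by
      rw [show 0 + 1 + (k + 2) = k + 2 + 1 by ring, qf_succ, qf_succ, qf_succ]
    have e2 : qf q (0 + (k + 2)) = qf q k * (1 - q ^ (k + 1)) * (1 - q ^ (k + 2)) := by
      rw [show 0 + (k + 2) = k + 1 + 1 by ring, qf_succ, qf_succ]
    have e3 : qf q (k + 2) = qf q k * (1 - q ^ (k + 1)) * (1 - q ^ (k + 2)) := by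
      rw [qf_succ, qf_succ]
    have e4 : qf q (0 + 1 + k) = qf q k * (1 - q ^ (k + 1)) := by
      rw [show 0 + 1 + k = k + 1 by ring, qf_succ]
    have e5 : qf q (0 + k) = qf q k := by rw [zero_add]
    have e6 : qf q (0 + 1) = 1 - q := by rw [qf_succ, qf_zero, one_mul, zero_add, pow_one]
    rw [e1, e2, e3, e4, e5, e6, qf_zero]
    have h0 := hn k
    have h1 : 1 - q ^ (k + 1) ≠ 0 := by
      rw [sub_ne_zero]; exact fun h => hq _ (Nat.succ_pos _) h.symm
    have h2 : 1 - q ^ (k + 2) ≠ 0 := by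
      rw [sub_ne_zero]; exact fun h => hq _ (Nat.succ_pos _) h.symm
    have h3 : 1 - q ≠ 0 := by
      rw [sub_ne_zero]; exact fun h => hq 1 one_pos (by rw [pow_one]; exact h.symm)
    field_simp
    ring
  | succ n ih =>
    rw [sum_range_succ, ih]
    simp only [gb_nat hq0 hq]
    have e1 : qf q (n + 1 + 1 + (k + 2)) = qf q (n + k + 2) * (1 - q ^ (n + k + 3)) *
        (1 - q ^ (n + k + 4)) := by
      rw [show n + 1 + 1 + (k + 2) = n + k + 3 + 1 by ring, qf_succ,
        show n + k + 3 = n + k + 2 + 1 by ring, qf_succ]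
    have e2 : qf q (n + 1 + (k + 2)) = qf q (n + k + 2) * (1 - q ^ (n + k + 3)) := by
      rw [show n + 1 + (k + 2) = n + k + 2 + 1 by ring, qf_succ]
    have e3 : qf q (n + (k + 2)) = qf q (n + k + 2) := by
      rw [show n + (k + 2) = n + k + 2 by ring]
    have e4 : qf q (n + 2 + k) = qf q (n + k + 2) := by
      rw [show n + 2 + k = n + k + 2 by ring]
    have e5 : qf q (k + 2) = qf q k * (1 - q ^ (k + 1)) * (1 - q ^ (k + 2)) := by
      rw [qf_succ, qf_succ]
    have e6 : qf q (n + 1 + 1) = qf q n * (1 - q ^ (n + 1)) * (1 - q ^ (n + 2)) := by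
      rw [qf_succ, qf_succ]
    have e7 : qf q (n + 1) = qf q n * (1 - q ^ (n + 1)) := by
      rw [qf_succ]
    rw [e1, e2, e3, e4, e5, e6, e7]
    have h0 := hn k
    have h0' := hn n
    have h1 : 1 - q ^ (k + 1) ≠ 0 := by
      rw [sub_ne_zero]; exact fun h => hq _ (Nat.succ_pos _) h.symm
    have h2 : 1 - q ^ (k + 2) ≠ 0 := by
      rw [sub_ne_zero]; exact fun h => hq _ (Nat.succ_pos _) h.symm
    have h3 : 1 - q ^ (n + 1) ≠ 0 := by
      rw [sub_ne_zero]; exact fun h => hq _ (Nat.succ_pos _) h.symm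
    have h4 : 1 - q ^ (n + 2) ≠ 0 := by
      rw [sub_ne_zero]; exact fun h => hq _ (Nat.succ_pos _) h.symm
    field_simp
    ring

theorem hid_S (hq0 : q ≠ 0) (hq : ∀ n : ℕ, 0 < n → q ^ n ≠ 1) (k n : ℕ) :
    ∑ j ∈ range (n + 1), (1 - q ^ (n + 1 - j)) / (1 - q) * (q ^ (2 * j) * gb q (j : ℤ) k) =
      gb q (n : ℤ) (k + 2) := by
  have hn := qf_ne hq
  have h3 : 1 - q ≠ 0 := by
    rw [sub_ne_zero]; exact fun h => hq 1 one_pos (by rw [pow_one]; exact h.symm)
  induction n with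
  | zero =>
    rw [sum_range_succ, sum_range_zero, gb_nat hq0 hq, gb_nat hq0 hq]
    simp only [zero_add, Nat.sub_zero, pow_one, mul_zero, pow_zero, one_mul, qf_zero]
    rw [div_self h3, div_self (hn k), div_self (hn _)]
    ring
  | succ n ih =>
    have key : ∀ j ∈ range (n + 2), (1 - q ^ (n + 1 + 1 - j)) / (1 - q) *
        (q ^ (2 * j) * gb q (j : ℤ) k) = q ^ (2 * j) * gb q (j : ℤ) k +
        q * ((1 - q ^ (n + 1 - j)) / (1 - q) * (q ^ (2 * j) * gb q (j : ℤ) k)) := by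
      intro j hj
      have hj' : j ≤ n + 1 := by rw [mem_range] at hj; omega
      rw [show n + 1 + 1 - j = (n + 1 - j) + 1 by omega, pow_succ]
      field_simp
      ring
    rw [show n + 1 + 1 = n + 2 from rfl] at *
    rw [sum_congr rfl key, sum_add_distrib, ← mul_sum, hid_T hq0 hq, sum_range_succ, ih]
    rw [Nat.sub_self, pow_zero, sub_self, zero_div, zero_mul, add_zero]
    ring

theorem hh_id (hq0 : q ≠ 0) (hq : ∀ n : ℕ, 0 < n → q ^ n ≠ 1) {c e : ℕ} (hc : 1 ≤ c)
    (he : 1 ≤ e) :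
    q⁻¹ ^ e * (1 - q ^ e) * hh q c e =
      ∑ x ∈ antidiagonal (e - 1), (1 - q ^ (x.1 + 1)) / (1 - q) * (q ^ x.2 * hh q (c - 1) x.2) := by
  have hn := qf_ne hq
  have h3 : 1 - q ≠ 0 := by
    rw [sub_ne_zero]; exact fun h => hq 1 one_pos (by rw [pow_one]; exact h.symm)
  rcases Nat.lt_or_ge e c with hlt | hge
  · rw [hh_of_lt hlt, mul_zero]
    symm
    apply sum_eq_zero
    intro x hx
    rw [HasAntidiagonal.mem_antidiagonal] at hx
    rw [hh_of_lt (show x.2 < c - 1 by omega)]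
    ring
  rcases Nat.lt_or_ge c 2 with h1 | h2
  · obtain rfl : c = 1 := by omega
    have e1 : hh q 1 e = q ^ e / (1 - q) := by
      rw [hh_closed hq0 hq le_rfl he]
      rw [show 1 - 1 = 0 from rfl, gb_zero]
      rw [show qf q 1 = 1 - q by rw [qf_succ, qf_zero, one_mul, zero_add, pow_one]]
      simp
    rw [e1, Finset.sum_eq_single (e - 1, 0)]
    · rw [show 1 - 1 = 0 from rfl, hh_zero_zero, show e - 1 + 1 = e by omega]
      rw [inv_pow]
      have := pow_ne_zero e hq0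
      field_simp
      try simp
    · intro x hx hne
      rw [HasAntidiagonal.mem_antidiagonal] at hx
      have : 0 < x.2 := by
        rcases Nat.eq_zero_or_pos x.2 with h | h
        · exfalso; apply hne; ext
          · simp only; omega
          · simpa using h
        · exact h
      rw [show 1 - 1 = 0 from rfl, hh_zero_pos this]
      ring
    · intro h
      exfalso; apply h
      rw [HasAntidiagonal.mem_antidiagonal]; omega
  · obtain ⟨k, rfl⟩ : ∃ k, c = k + 2 := ⟨c - 2, by omega⟩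
    obtain ⟨n, rfl⟩ : ∃ n, e = k + 2 + n := ⟨e - (k + 2), by omega⟩
    rw [hh_closed hq0 hq hc hge]
    rw [show k + 2 - 1 = k + 1 by omega, show k + 2 + n - 1 = k + 1 + n by omega]
    rw [show ((k + 2 + n : ℕ) : ℤ) - ((k + 2 : ℕ) : ℤ) = ((n : ℕ) : ℤ) by push_cast; ring]
    have hR : ∑ x ∈ antidiagonal (k + 1 + n), (1 - q ^ (x.1 + 1)) / (1 - q) *
        (q ^ x.2 * hh q (k + 1) x.2) =
        ∑ j ∈ range (n + 1), (1 - q ^ (n + 1 - j)) / (1 - q) *
          (q ^ (k + 1 + j) * hh q (k + 1) (k + 1 + j)) := by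
      rw [← Finset.Nat.sum_antidiagonal_swap,
        Finset.Nat.sum_antidiagonal_eq_sum_range_succ_mk]
      simp only [Prod.fst_swap, Prod.snd_swap]
      rw [show (k + 1 + n).succ = (k + 1) + (n + 1) by omega, Finset.sum_range_add]
      have hz : ∑ x ∈ range (k + 1), (1 - q ^ (k + 1 + n - x + 1)) / (1 - q) *
          (q ^ x * hh q (k + 1) x) = 0 := by
        apply sum_eq_zero
        intro x hx
        rw [mem_range] at hx
        rw [hh_of_lt hx]
        ring
      rw [hz, zero_add]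
      apply sum_congr rfl
      intro j hj
      rw [mem_range] at hj
      rw [show k + 1 + n - (k + 1 + j) + 1 = n + 1 - j by omega]
    rw [hR]
    have hT : ∀ j ∈ range (n + 1), (1 - q ^ (n + 1 - j)) / (1 - q) *
          (q ^ (k + 1 + j) * hh q (k + 1) (k + 1 + j)) =
          (q ^ ((k + 1) * (k + 2)) / qf q (k + 1)) *
          ((1 - q ^ (n + 1 - j)) / (1 - q) * (q ^ (2 * j) * gb q (j : ℤ) k)) := by
      intro j hj
      rw [hh_closed hq0 hq (show 1 ≤ k + 1 by omega) (show k + 1 ≤ k + 1 + j by omega)]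
      rw [show k + 1 - 1 = k by omega,
        show ((k + 1 + j : ℕ) : ℤ) - ((k + 1 : ℕ) : ℤ) = ((j : ℕ) : ℤ) by push_cast; ring]
      have : q ^ ((k + 1) * (k + 2)) * q ^ (2 * j) =
          q ^ (k + 1 + j) * q ^ ((k + 1) * k + (k + 1 + j)) := by
        rw [← pow_add, ← pow_add]; congr 1; ring
      have h0 := hn (k + 1)
      field_simp
      linear_combination -(1 - q ^ (n + 1 - j)) * gb q (j : ℤ) k * this
    rw [sum_congr rfl hT, ← mul_sum, hid_S hq0 hq, gb_nat hq0 hq, gb_nat hq0 hq]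
    rw [show qf q (n + (k + 2)) = qf q (n + (k + 1)) * (1 - q ^ (k + 2 + n)) by
      rw [show n + (k + 2) = n + (k + 1) + 1 by ring, qf_succ]; congr 3; ring]
    have a1 := hn (k + 1)
    have a2 := hn (k + 2)
    have a3 := hn n
    have a4 := pow_ne_zero (k + 2 + n) hq0
    rw [inv_pow, show (k + 2) * (k + 1) + (k + 2 + n) = (k + 1) * (k + 2) + (k + 2 + n) by ring,
      pow_add q ((k + 1) * (k + 2)) (k + 2 + n)]
    field_simp

end Pool.Agent.H18.KR
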