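import Pool.Agent.H18.KR.CfB

/-!
# Module SumUp (about 60 lines). Summing over the strings at one node first.

`m ↦ (update m k 0, m k)` is a bijection from `Cfg d` onto the pairs `(m0, α)`,
`m0 ∈ Cfg (update d k 0)`, `α ∈ Pd (d k)` (for such `m0`: `m0 k = 0` by `Pd_zero`); the inverse is
`(m0, α) ↦ update m0 k α`. `Finset.sum_sigma'`/`Finset.sum_product'` and `Finset.sum_bij'`.
-/

set_option autoImplicit false

namespace Pool.Agent.H18.KR

open Finset

variable {I : Type} [Fintype I] [DecidableEq I]

theorem apply_eq_zero_of_mem {d : I → ℕ} {k : I} {m : Cf I}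
    (h : m ∈ Cfg (Function.update d k 0)) : m k = 0 := by
  have h1 : m k ∈ Pd 0 := by
    have := (Fintype.mem_piFinset.1 h) k
    rwa [Function.update_self] at this
  rw [Pd_zero] at h1
  exact Finset.mem_singleton.1 h1

theorem sum_Cfg_update {M : Type} [AddCommMonoid M] (d : I → ℕ) (k : I) (f : Cf I → M) :
    ∑ m ∈ Cfg d, f m =
      ∑ m ∈ Cfg (Function.update d k 0), ∑ α ∈ Pd (d k), f (Function.update m k α) := by
  rw [← Finset.sum_product']
  refine Finset.sum_bij' (fun m _ => (Function.update m k 0, m k))
    (fun x _ => Function.update x.1 k x.2) ?_ ?_ ?_ ?_ ?_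
  · intro m hm
    have hm' := mem_Cfg.1 hm
    refine Finset.mem_product.2 ⟨mem_Cfg.2 fun l => ?_, mem_Pd.2 (hm' k)⟩
    by_cases hl : l = k
    · subst hl
      simp only [Function.update_self]
      simp [sz]
    · simp only [Function.update_of_ne hl]
      exact hm' l
  · rintro ⟨m, α⟩ hx
    obtain ⟨h1, h2⟩ := Finset.mem_product.1 hx
    have h1' := mem_Cfg.1 h1
    refine mem_Cfg.2 fun l => ?_
    by_cases hl : l = k
    · subst hl
      simp only [Function.update_self]
      exact mem_Pd.1 h2
    · simp only [Function.update_of_ne hl]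
      have := h1' l
      rwa [Function.update_of_ne hl] at this
  · intro m hm
    simp only [Function.update_idem, Function.update_eq_self]
  · rintro ⟨m, α⟩ hx
    obtain ⟨h1, h2⟩ := Finset.mem_product.1 hx
    have h3 : m k = 0 := apply_eq_zero_of_mem h1
    simp only [Function.update_idem, Function.update_self]
    rw [← h3, Function.update_eq_self]
  · intro m hm
    simp only [Function.update_idem, Function.update_eq_self]

end Pool.Agent.H18.KR
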