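import Pool.Agent.H18.KR.Cls
import Pool.Agent.H18.KR.SumUp

/-!
# Module MN (about 250 lines). The configurations with a negative vacancy number cancel.

Let `d` be the total widths, and let `2 d_k ≤ Σ_{l ~ k} d_l` for all `k` with `N k = 0` (`hdom`).

(1) `exists_top`: by `Pv_large`, for `w ≥ max(max d, 2 max d)` all vacancy numbers are nonnegative
(`N k = 0`: `hdom`; `N k ≥ 1`: `w ≥ 2 d_k`). So if some vacancy number of `m` is negative there is
a largest `w0` for which some `Pv G N m k w0 < 0` (`Nat.find` for the reversed order, or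
`Nat.findGreatest`).

(2) `Pv_same`: let `α, α'` have indices `< w0` and the same total width. Then for all `l` and
`w ≥ w0` the vacancy numbers of `update m k (α + β)` and `update m k (α' + β)` agree, since
`Qw α w = sz α = sz α' = Qw α' w` (`Qw_eq_sz`).

(3) Let `B` be the set of the bad configurations in `Cfg d`. For `m ∈ B` let `w0 = w0(m)` be as in (1),
`k0(m) = pick {k | Pv G N m k w0 < 0}` where `pick : Finset I → I` chooses an element of every
nonempty finset, and `key m = (w0, k0, update m k0 (long part of m k0))`, the long part being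
`(m k0).filter (fun i => w0 ≤ i)`. Let `m ∈ B`, `(w0, k0, m1) = key m`, `β = m1 k0`,
`D0 = sz (loS w0 (m k0)) = d k0 - sz β`. The elements of `B` with the same key are exactly the
`update m1 k0 (α + β)`, `α ∈ Pd D0` with indices `< w0`: an element `m'` with the same key equals
`update m1 k0 (loS w0 (m' k0) + β)`; conversely for such an `α` the configuration
`m' = update m1 k0 (α + β)` lies in `Cfg d`, by (2) it has the same vacancy numbers as `m` for all
`w ≥ w0`, so it is bad with the same `w0`, the same set `{k | Pv < 0}`, the same `k0`, and the same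
long part at `k0` and the same strings elsewhere.
(4) The map `α ↦ update m1 k0 (α + β)` is injective, so the sum of `wt` over the fibre of the key is
`Σ_α wt G N s (update m1 k0 (α + m1 k0))`, which is zero by `class_sum` for `m1`, `k0`, `w0`, `D0`:
`h1` is `Pv G N m k0 w0 < 0` and `h2` is `0 ≤ Pv G N m k0 (w0 + 1)` (`Pv_update_self`, `Qw_add`,
`Qw (loS w0 (m k0)) w = D0` for `w ≥ w0`; `nbs G m1 k0 = nbs G m k0` by `nbs_update_self`).
(5) Hence `Σ_{m ∈ B} wt = 0` (`Finset.sum_fiberwise_of_maps_to` with the image of the key, in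
classical decidability), and `NN = Σ_{AdmAll} wt + Σ_{B} wt`.
-/

set_option autoImplicit false

namespace Pool.Agent.H18.KR

open Finset

variable {I : Type} [Fintype I] [DecidableEq I] (G : SimpleGraph I) [DecidableRel G.Adj]
variable {F : Type} [Field F] {s : F}

private theorem mn_large (N : I → ℕ) (d : I → ℕ) (hdom : ∀ k, N k = 0 → 2 * d k ≤ nbd G d k)
    (m : Cf I) (hm : m ∈ Cfg d) (w : ℕ) (hw : 2 * ∑ l, d l ≤ w) (k : I) : 0 ≤ Pv G N m k w := by
  have hle : ∀ l, d l ≤ ∑ l, d l := fun l =>
    Finset.single_le_sum (f := fun l => d l) (fun _ _ => Nat.zero_le _) (mem_univ l)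
  rw [Pv_large hm k (w := w) (fun l => by have := hle l; omega)]
  have hk := hle k
  rcases Nat.eq_zero_or_pos (N k) with h0 | h0
  · have h1 : (2 * d k : ℤ) ≤ (nbd G d k : ℤ) := by exact_mod_cast hdom k h0
    rw [h0]
    push_cast
    linarith
  · have h1 : (1 : ℤ) ≤ (N k : ℤ) := by exact_mod_cast h0
    have h2 : (2 * d k : ℤ) ≤ (w : ℤ) := by exact_mod_cast (by omega : 2 * d k ≤ w)
    have h3 : (0 : ℤ) ≤ (nbd G d k : ℤ) := Int.natCast_nonneg _
    have h4 : (0 : ℤ) ≤ (w : ℤ) := Int.natCast_nonneg _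
    nlinarith

theorem exists_top (N : I → ℕ) (d : I → ℕ) (hdom : ∀ k, N k = 0 → 2 * d k ≤ nbd G d k) (m : Cf I)
    (hm : m ∈ Cfg d) (hbad : ¬ AdmAll G N m) :
    ∃ w0, (∃ k, Pv G N m k w0 < 0) ∧ ∀ w, w0 < w → ∀ k, 0 ≤ Pv G N m k w := by
  classical
  have hbad' : ∃ w, ∃ k, Pv G N m k w < 0 := by
    unfold AdmAll at hbad
    push Not at hbad
    obtain ⟨k, w, h⟩ := hbad
    exact ⟨w, k, h⟩
  obtain ⟨w1, hw1⟩ := hbad'
  have hw1W : w1 ≤ 2 * ∑ l, d l := by
    by_contra hlt
    obtain ⟨k, hk⟩ := hw1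
    exact absurd (mn_large G N d hdom m hm w1 (not_le.1 hlt).le k) (not_le.2 hk)
  refine ⟨Nat.findGreatest (fun w => ∃ k, Pv G N m k w < 0) (2 * ∑ l, d l),
    Nat.findGreatest_spec (P := fun w => ∃ k, Pv G N m k w < 0) hw1W hw1, ?_⟩
  intro w hw k
  by_contra hlt
  rcases le_or_gt w (2 * ∑ l, d l) with h | h
  · exact Nat.findGreatest_is_greatest hw h ⟨k, not_le.1 hlt⟩
  · exact hlt (mn_large G N d hdom m hm w h.le k)

theorem Pv_same (N : I → ℕ) (m : Cf I) (k : I) (w0 : ℕ) (α α' β : Str)
    (h : ∀ i ∈ α.support, i < w0) (h' : ∀ i ∈ α'.support, i < w0) (hs : sz α = sz α') (l : I)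
    (w : ℕ) (hw : w0 ≤ w) :
    Pv G N (Function.update m k (α + β)) l w = Pv G N (Function.update m k (α' + β)) l w := by
  have e : Qw (α + β) w = Qw (α' + β) w := by
    rw [Qw_add, Qw_add, Qw_eq_sz (fun i hi => lt_of_lt_of_le (h i hi) hw),
      Qw_eq_sz (fun i hi => lt_of_lt_of_le (h' i hi) hw), hs]
  by_cases hl : l = k
  · subst hl
    rw [Pv_update_self, Pv_update_self, e]
  · by_cases ha : G.Adj l k
    · rw [Pv_update_adj m ha (α + β), Pv_update_adj m ha (α' + β), e]
    · rw [Pv_update_not m ha hl, Pv_update_not m ha hl]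

/-- the long part of a multiset of strings -/
private noncomputable def lg (w : ℕ) (α : Str) : Str := α.filter fun i => ¬ i < w

private theorem lo_add_lg (w : ℕ) (α : Str) : loS w α + lg w α = α :=
  Finsupp.filter_add_filter_not α (fun i => i < w)

private theorem lg_support (w : ℕ) (α : Str) : ∀ i ∈ (lg w α).support, w ≤ i := by
  intro i hi
  unfold lg at hi
  rw [Finsupp.support_filter, mem_filter] at hi
  exact not_lt.1 hi.2

private theorem lg_of_lt (w : ℕ) (α : Str) (h : ∀ i ∈ α.support, i < w) : lg w α = 0 := by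
  unfold lg
  rw [Finsupp.filter_eq_zero_iff]
  intro i hi
  by_contra h0
  exact hi (h i (Finsupp.mem_support_iff.2 h0))

private theorem lg_of_ge (w : ℕ) (α : Str) (h : ∀ i ∈ α.support, w ≤ i) : lg w α = α := by
  unfold lg
  rw [Finsupp.filter_eq_self_iff]
  intro i hi
  exact not_lt.2 (h i (Finsupp.mem_support_iff.2 hi))

private theorem lg_add' (w : ℕ) (α β : Str) : lg w (α + β) = lg w α + lg w β :=
  Finsupp.filter_add

private theorem lo_of_lt (w : ℕ) (α : Str) (h : ∀ i ∈ α.support, i < w) : loS w α = α := by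
  have h1 := lo_add_lg w α
  rw [lg_of_lt w α h, add_zero] at h1
  exact h1

private theorem lo_of_ge (w : ℕ) (α : Str) (h : ∀ i ∈ α.support, w ≤ i) : loS w α = 0 := by
  have h1 := lo_add_lg w α
  rw [lg_of_ge w α h] at h1
  exact add_eq_right.mp h1

private theorem lo_add' (w : ℕ) (α β : Str) : loS w (α + β) = loS w α + loS w β :=
  Finsupp.filter_add

/-- the property of the top level -/
private def IsTop (N : I → ℕ) (m : Cf I) (w0 : ℕ) : Prop :=
  (∃ k, Pv G N m k w0 < 0) ∧ ∀ w, w0 < w → ∀ k, 0 ≤ Pv G N m k w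

private theorem IsTop.unique {G : SimpleGraph I} [DecidableRel G.Adj] {N : I → ℕ} {m : Cf I}
    {w w' : ℕ} (h : IsTop G N m w) (h' : IsTop G N m w') : w = w' := by
  obtain ⟨⟨k, hk⟩, h2⟩ := h
  obtain ⟨⟨k', hk'⟩, h2'⟩ := h'
  rcases lt_trichotomy w w' with hlt | heq | hgt
  · exact absurd (h2 w' hlt k') (not_le.2 hk')
  · exact heq
  · exact absurd (h2' w hgt k) (not_le.2 hk)

open Classical in
private noncomputable def topw (N : I → ℕ) (m : Cf I) : ℕ :=
  if h : ∃ w, IsTop G N m w then h.choose else 0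

private theorem topw_eq {G : SimpleGraph I} [DecidableRel G.Adj] {N : I → ℕ} {m : Cf I} {w : ℕ}
    (h : IsTop G N m w) : topw G N m = w := by
  have h1 : ∃ w, IsTop G N m w := ⟨w, h⟩
  unfold topw
  rw [dif_pos h1]
  exact h1.choose_spec.unique h

open Classical in
theorem bad_sum (N : I → ℕ) (hs0 : s ≠ 0) (hs : ∀ n : ℕ, 0 < n → (s ^ 2) ^ n ≠ 1) (d : I → ℕ)
    (hdom : ∀ k, N k = 0 → 2 * d k ≤ nbd G d k) :
    ∑ m ∈ (Cfg d).filter (fun m => ¬ AdmAll G N m), wt G N s m = 0 := by
  rcases isEmpty_or_nonempty I with hI | ⟨⟨i0⟩⟩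
  · refine Finset.sum_eq_zero fun m hm => ?_
    exact absurd (fun k => isEmptyElim k) (mem_filter.1 hm).2
  -- the chosen node
  obtain ⟨pick, hpick⟩ : ∃ pick : Finset I → I, ∀ K : Finset I, K.Nonempty → pick K ∈ K :=
    ⟨fun K => if h : K.Nonempty then h.choose else i0, fun K h => by
      simp only [dif_pos h]
      exact h.choose_spec⟩
  obtain ⟨KK, hKK⟩ : ∃ KK : Cf I → Finset I,
      ∀ m, KK m = univ.filter (fun k => Pv G N m k (topw G N m) < 0) := ⟨_, fun _ => rfl⟩
  obtain ⟨key, hkey⟩ : ∃ key : Cf I → ℕ × I × Cf I, ∀ m, key m =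
      (topw G N m, pick (KK m),
        Function.update m (pick (KK m)) (lg (topw G N m) (m (pick (KK m))))) := ⟨_, fun _ => rfl⟩
  rw [← Finset.sum_fiberwise_of_maps_to (s := (Cfg d).filter (fun m => ¬ AdmAll G N m))
    (t := ((Cfg d).filter (fun m => ¬ AdmAll G N m)).image key) (g := key)
    (fun x hx => mem_image_of_mem _ hx)]
  refine Finset.sum_eq_zero fun y hy => ?_
  obtain ⟨m, hm, rfl⟩ := mem_image.1 hy
  rw [mem_filter] at hm
  obtain ⟨hmC, hmB⟩ := hm
  have htop : ∃ w0, IsTop G N m w0 := exists_top G N d hdom m hmC hmB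
  obtain ⟨w0, hw0⟩ := htop
  have ht : topw G N m = w0 := topw_eq hw0
  have hne : (KK m).Nonempty := by
    obtain ⟨k, hk⟩ := hw0.1
    refine ⟨k, ?_⟩
    rw [hKK, mem_filter, ht]
    exact ⟨mem_univ k, hk⟩
  obtain ⟨k0, hk0⟩ : ∃ k0, k0 = pick (KK m) := ⟨_, rfl⟩
  have hk0K : Pv G N m k0 w0 < 0 := by
    have h1 := hpick (KK m) hne
    rw [← hk0, hKK, mem_filter, ht] at h1
    exact h1.2
  obtain ⟨β, hβ⟩ : ∃ β, β = lg w0 (m k0) := ⟨_, rfl⟩
  have hβs : ∀ i ∈ β.support, w0 ≤ i := by
    rw [hβ]
    exact lg_support w0 (m k0)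
  obtain ⟨α0, hα0⟩ : ∃ α0, α0 = loS w0 (m k0) := ⟨_, rfl⟩
  have hα0s : ∀ i ∈ α0.support, i < w0 := by
    rw [hα0]
    exact loS_support w0 (m k0)
  have hmk : α0 + β = m k0 := by
    rw [hα0, hβ]
    exact lo_add_lg w0 (m k0)
  have hkm : key m = (w0, k0, Function.update m k0 β) := by
    rw [hkey, ht, ← hk0, hβ]
  have hupd : Function.update m k0 (α0 + β) = m := by
    rw [hmk]
    exact Function.update_eq_self k0 m
  -- the classes
  have hcls : ∀ α : Str, (∀ i ∈ α.support, i < w0) → sz α = sz α0 →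
      Function.update m k0 (α + β) ∈ (Cfg d).filter (fun m => ¬ AdmAll G N m) ∧
        key (Function.update m k0 (α + β)) = key m := by
    intro α hα hsz
    have hP : ∀ l w, w0 ≤ w → Pv G N (Function.update m k0 (α + β)) l w = Pv G N m l w := by
      intro l w hw
      rw [Pv_same G N m k0 w0 α α0 β hα hα0s hsz l w hw, hupd]
    have hT : IsTop G N (Function.update m k0 (α + β)) w0 := by
      refine ⟨⟨k0, ?_⟩, fun w hw k => ?_⟩
      · rw [hP k0 w0 le_rfl]
        exact hk0K
      · rw [hP k w hw.le]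
        exact hw0.2 w hw k
    have hT' : topw G N (Function.update m k0 (α + β)) = w0 := topw_eq hT
    have hK' : KK (Function.update m k0 (α + β)) = KK m := by
      rw [hKK, hKK, hT', ht]
      refine Finset.filter_congr fun k _ => ?_
      rw [hP k w0 le_rfl]
    refine ⟨?_, ?_⟩
    · rw [mem_filter, mem_Cfg]
      refine ⟨fun l => ?_, fun hadm => ?_⟩
      · by_cases hl : l = k0
        · subst hl
          rw [Function.update_self, sz_add, hsz, ← sz_add, hmk]
          exact mem_Cfg.1 hmC l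
        · rw [Function.update_of_ne hl]
          exact mem_Cfg.1 hmC l
      · have := hadm k0 w0
        rw [hP k0 w0 le_rfl] at this
        exact absurd this (not_le.2 hk0K)
    · rw [hkey, hT', hK', ← hk0, hkm]
      have e1 : lg w0 (Function.update m k0 (α + β) k0) = β := by
        rw [Function.update_self, lg_add', lg_of_lt w0 α hα, lg_of_ge w0 β hβs, zero_add]
      rw [e1, Function.update_idem]
  have hsum : ∑ x ∈ ((Cfg d).filter (fun m => ¬ AdmAll G N m)).filter (fun x => key x = key m),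
      wt G N s x = ∑ α ∈ (Pd (sz α0)).filter (fun α => ∀ i ∈ α.support, i < w0),
        wt G N s (Function.update (Function.update m k0 β) k0
          (α + Function.update m k0 β k0)) := by
    symm
    refine Finset.sum_bij' (i := fun α _ => Function.update (Function.update m k0 β) k0
        (α + Function.update m k0 β k0)) (j := fun x _ => loS w0 (x k0)) ?_ ?_ ?_ ?_ ?_
    · intro α hα
      rw [mem_filter, mem_Pd] at hα
      obtain ⟨c1, c2⟩ := hcls α hα.2 hα.1
      rw [mem_filter, Function.update_idem, Function.update_self]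
      exact ⟨c1, c2⟩
    · intro x hx
      rw [mem_filter, mem_filter, hkm, hkey] at hx
      obtain ⟨⟨hxC, -⟩, hxk⟩ := hx
      rw [Prod.mk.injEq, Prod.mk.injEq] at hxk
      obtain ⟨x1, x2, x3⟩ := hxk
      rw [x1, x2] at x3
      have hlg : lg w0 (x k0) = β := by
        have := congrFun x3 k0
        rwa [Function.update_self, Function.update_self] at this
      rw [mem_filter, mem_Pd]
      refine ⟨?_, loS_support w0 (x k0)⟩
      have e1 : sz (loS w0 (x k0)) + sz β = sz (x k0) := by
        rw [← hlg, ← sz_add, lo_add_lg]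
      have e2 : sz α0 + sz β = sz (m k0) := by rw [← sz_add, hmk]
      have e3 := mem_Cfg.1 hxC k0
      have e4 := mem_Cfg.1 hmC k0
      omega
    · intro α hα
      rw [mem_filter, mem_Pd] at hα
      simp only [Function.update_self]
      rw [lo_add', lo_of_lt w0 α hα.2, lo_of_ge w0 β hβs, add_zero]
    · intro x hx
      rw [mem_filter, mem_filter, hkm, hkey] at hx
      obtain ⟨-, hxk⟩ := hx
      rw [Prod.mk.injEq, Prod.mk.injEq] at hxk
      obtain ⟨x1, x2, x3⟩ := hxk
      rw [x1, x2] at x3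
      have hlg : lg w0 (x k0) = β := by
        have := congrFun x3 k0
        rwa [Function.update_self, Function.update_self] at this
      simp only [Function.update_self, Function.update_idem]
      funext l
      by_cases hl : l = k0
      · subst hl
        rw [Function.update_self, ← hlg, lo_add_lg]
      · rw [Function.update_of_ne hl]
        have := congrFun x3 l
        rw [Function.update_of_ne hl, Function.update_of_ne hl] at this
        exact this.symm
    · intro α _
      rfl
  rw [hsum]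
  have q1 : Qw (m k0) w0 = sz α0 + Qw β w0 := by
    rw [← hmk, Qw_add, Qw_eq_sz hα0s]
  have q2 : Qw (m k0) (w0 + 1) = sz α0 + Qw β (w0 + 1) := by
    rw [← hmk, Qw_add, Qw_eq_sz (w := w0 + 1) (fun i hi => Nat.lt_succ_of_lt (hα0s i hi))]
  refine class_sum G N hs0 hs (Function.update m k0 β) k0 w0 (sz α0) ?_ ?_ ?_
  · rw [Function.update_self]
    exact hβs
  · rw [Function.update_self, nbs_update_self]
    have := hk0K
    unfold Pv at this
    rw [q1] at this
    push_cast at this
    exact this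
  · rw [Function.update_self, nbs_update_self]
    have := hw0.2 (w0 + 1) (Nat.lt_succ_self w0) k0
    unfold Pv at this
    rw [q2] at this
    push_cast at this
    exact this

open Classical in
theorem NN_eq_adm (N : I → ℕ) (hs0 : s ≠ 0) (hs : ∀ n : ℕ, 0 < n → (s ^ 2) ^ n ≠ 1) (d : I → ℕ)
    (hdom : ∀ k, N k = 0 → 2 * d k ≤ nbd G d k) :
    NN G N s d = ∑ m ∈ (Cfg d).filter (fun m => AdmAll G N m), wt G N s m := by
  unfold NN
  rw [← Finset.sum_filter_add_sum_filter_not (Cfg d) (fun m => AdmAll G N m),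
    bad_sum G N hs0 hs d hdom, add_zero]

end Pool.Agent.H18.KR
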