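import Pool.Agent.H18.KR.Defs4
import Pool.Agent.H18.KR.Cen
import Pool.Agent.H18.KR.MN
import Pool.Agent.H18.KR.Cvx
import Pool.Agent.H18.KR.FLm
import Pool.Agent.H18.KR.AA0

/-!
# Module Koh (about 180 lines). The formula of O'Hara and Zeilberger.

Let `I = Unit`, `G = ⊥`, `N () = P + 2`, `d () = m`, `q = s ^ 2`. Then `nbs`, `nbd` are zero, `Pv G N m' () (i+1) =
vk P (m' ()) i`, `Cfg d` corresponds to `Pd m`. By `NN_eq_adm`, `admAll_iff_adm` (`hdom` is vacuous: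
`N () ≠ 0`) and `wt_eq`: `NN = s^((P+2) m) Σ_{α adm} ∏ gh s (vk P α i) (α i)`. On the other hand by `NN_eq`
`NN = Σ_{x ∈ antidiagonal d} coeff x.1 (AA s) coeff x.2 (AA s⁻¹) q^((P+2) x.2)`;
`coeff x (AA G s) = aa (s^2) 0 (x ())` (`EE = 2 fm`, `fm 0 α = 0`), `= q^a/(q)_a` by `aa_zero`, and for `s⁻¹`
with `q⁻¹`; so by `euler_N` with `N = P + 2` it is `q^m gb q P m = s^(2m + P m) gh s P m`. Cancel
`s^((P+2) m)`. (antidiagonals of `Unit →₀ ℕ` correspond to antidiagonals of `ℕ` via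
`Finsupp.single ()`; `Finset.sum_nbij'`.)
-/

set_option autoImplicit false

namespace Pool.Agent.H18.KR

open Finset

variable {F : Type} [Field F] {s : F}

private theorem koh_nbs (m : Cf Unit) (k : Unit) : nbs (⊥ : SimpleGraph Unit) m k = 0 := by
  unfold nbs
  simp

private theorem koh_EE (m : Cf Unit) :
    EE (⊥ : SimpleGraph Unit) m = 2 * (fm (m ()) (m ()) : ℤ) := by
  unfold EE
  rw [Fintype.sum_unique]
  have h : (default : Unit) = () := rfl
  rw [koh_nbs, fm_zero_right, h, Nat.cast_zero, sub_zero]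

private theorem koh_Pv (P : ℕ) (m : Cf Unit) (i : ℕ) :
    Pv (⊥ : SimpleGraph Unit) (fun _ => P + 2) m () (i + 1) = vk (P : ℤ) (m ()) i := by
  unfold Pv vk
  rw [koh_nbs, Qw_zero]
  push_cast
  ring

private theorem koh_coeff (s : F) (hs0 : s ≠ 0) (hs : ∀ n : ℕ, 0 < n → (s ^ 2) ^ n ≠ 1)
    (a : ℕ) : MvPowerSeries.coeff (Finsupp.single () a) (AA (⊥ : SimpleGraph Unit) s) =
      (s ^ 2) ^ a / qf (s ^ 2) a := by
  rw [coeff_AA, ← aa_zero (pow_ne_zero 2 hs0) hs, aa]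
  refine Finset.sum_nbij' (fun m : Cf Unit => m ()) (fun α _ => α) ?_ ?_ ?_ ?_ ?_
  · intro m hm
    rw [mem_Cfg] at hm
    rw [mem_Pd, hm ()]
    simp
  · intro α hα
    rw [mem_Pd] at hα
    rw [mem_Cfg]
    intro k
    simp [hα]
  · intro m _
    rfl
  · intro α _
    rfl
  · intro m _
    rw [koh_EE, Fintype.prod_unique, fm_zero_left, Nat.cast_zero, sub_zero, zpow_mul, zpow_ofNat]

private theorem koh_NN1 (hs0 : s ≠ 0) (hs : ∀ n : ℕ, 0 < n → (s ^ 2) ^ n ≠ 1) (P m : ℕ) :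
    NN (⊥ : SimpleGraph Unit) (fun _ => P + 2) s (fun _ => m) =
      (s ^ 2) ^ m * gb (s ^ 2) (P : ℤ) m := by
  have h1 := NN_eq (⊥ : SimpleGraph Unit) (fun _ => P + 2) hs0 hs (Finsupp.single () m)
  have h2 : (fun k => (Finsupp.single () m : Unit →₀ ℕ) k) = fun _ => m := by
    funext k
    simp
  have hsi : ∀ n : ℕ, 0 < n → (s⁻¹ ^ 2) ^ n ≠ 1 := by
    intro n hn
    rw [inv_pow]
    exact hq_inv hs n hn
  rw [h2] at h1
  rw [h1, Finsupp.antidiagonal_single, Finset.sum_map]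
  have h3 := euler_N (pow_ne_zero 2 hs0) hs (P + 2) m
  have h4 : ((P + 2 : ℕ) : ℤ) - 2 = (P : ℤ) := by push_cast; ring
  rw [h4] at h3
  rw [← h3]
  refine Finset.sum_congr rfl fun x _ => ?_
  have h5 : ∑ k : Unit, (P + 2) * (Finsupp.single () x.2 : Unit →₀ ℕ) k = (P + 2) * x.2 := by
    simp
  have h6 := koh_coeff s hs0 hs x.1
  have h7 := koh_coeff s⁻¹ (inv_ne_zero hs0) hsi x.2
  rw [inv_pow] at h7
  change MvPowerSeries.coeff (Finsupp.single () x.1) (AA (⊥ : SimpleGraph Unit) s) *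
    (MvPowerSeries.coeff (Finsupp.single () x.2) (AA (⊥ : SimpleGraph Unit) s⁻¹) *
      (s ^ 2) ^ (∑ k : Unit, (P + 2) * (Finsupp.single () x.2 : Unit →₀ ℕ) k)) = _
  rw [h5, h6, h7]

theorem koh (hs0 : s ≠ 0) (hs : ∀ n : ℕ, 0 < n → (s ^ 2) ^ n ≠ 1) (P m : ℕ) :
    gh s (P : ℤ) m = ∑ α ∈ (Pd m).filter (fun α => ∀ i ∈ α.support, 0 ≤ vk P α i),
      α.prod fun i a => gh s (vk P α i) a := by
  classical
  have h1 := koh_NN1 hs0 hs P m
  rw [NN_eq_adm (⊥ : SimpleGraph Unit) (fun _ => P + 2) hs0 hs (fun _ => m)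
    (fun k h => absurd h (by omega))] at h1
  have h2 : ∑ m' ∈ (Cfg (fun _ : Unit => m)).filter
      (fun m' => AdmAll (⊥ : SimpleGraph Unit) (fun _ => P + 2) m'),
        wt (⊥ : SimpleGraph Unit) (fun _ => P + 2) s m' =
      ∑ α ∈ (Pd m).filter (fun α => ∀ i ∈ α.support, 0 ≤ vk P α i),
        s ^ (((P : ℤ) + 2) * (m : ℤ)) * α.prod fun i a => gh s (vk P α i) a := by
    refine Finset.sum_nbij' (fun m : Cf Unit => m ()) (fun α _ => α) ?_ ?_ ?_ ?_ ?_
    · intro m' hm'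
      rw [mem_filter] at hm' ⊢
      have h3 := (admAll_iff_adm (⊥ : SimpleGraph Unit) (fun _ => P + 2) (fun _ => m)
        (fun k h => absurd h (by omega)) m' hm'.1).1 hm'.2
      refine ⟨?_, fun i hi => ?_⟩
      · rw [mem_Pd]
        exact mem_Cfg.1 hm'.1 ()
      · rw [← koh_Pv]
        exact h3 () i hi
    · intro α hα
      rw [mem_filter] at hα ⊢
      have h4 : (fun _ : Unit => α) ∈ Cfg (fun _ : Unit => m) :=
        mem_Cfg.2 fun _ => mem_Pd.1 hα.1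
      refine ⟨h4, (admAll_iff_adm (⊥ : SimpleGraph Unit) (fun _ => P + 2) (fun _ => m)
        (fun k h => absurd h (by omega)) _ h4).2 ?_⟩
      intro k i hi
      have := hα.2 i hi
      rw [← koh_Pv P (fun _ => α) i] at this
      exact this
    · intro m _
      rfl
    · intro α _
      rfl
    · intro m' hm'
      rw [mem_filter] at hm'
      have h5 : sz (m' ()) = m := mem_Cfg.1 hm'.1 ()
      rw [wt_eq _ _ hs0, Fintype.sum_unique, Fintype.prod_unique]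
      have h6 : (default : Unit) = () := rfl
      rw [h6, h5]
      simp only [koh_Pv]
      push_cast
      rfl
  rw [h2, ← Finset.mul_sum] at h1
  have h7 : s ^ (((P : ℤ) + 2) * (m : ℤ)) ≠ 0 := zpow_ne_zero _ hs0
  apply mul_left_cancel₀ h7
  have h8 : s ^ (((P : ℤ) + 2) * (m : ℤ)) * s ^ (-((P : ℤ) * (m : ℤ))) = (s ^ 2) ^ m := by
    rw [← zpow_add₀ hs0, ← pow_mul, ← zpow_natCast]
    congr 1
    push_cast
    ring
  rw [h1, gh, ← mul_assoc, h8]

end Pool.Agent.H18.KR
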