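import Pool.Agent.H18.KR.Koh

/-!
# Module KohT (about 120 lines). The formula with the strings `(1^m)` iterated.

In `koh` the term `α = single 0 m` (all strings of width `1`; the only `α ∈ Pd m` with `α 0 = m`) has
`vk P α 0 = P + 2 - 2m = P - (2m - 2)` and is `gh s (P - (2m-2)) m` if `2m - 2 ≤ P` and is absent otherwise.
So `gh s P m = [2m-2 ≤ P] gh s (P-(2m-2)) m + Σ_{α, α 0 ≠ m, adm}`; strong induction on `P`
(`2m - 2 > 0`). For the sum over `t`: `(t+1)(2m-2) ≤ P` iff `2m-2 ≤ P` and `t(2m-2) ≤ P - (2m-2)`.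
-/

set_option autoImplicit false

namespace Pool.Agent.H18.KR

open Finset

variable {F : Type} [Field F] {s : F}

/-- the admissible `α ≠ (1^m)` -/
noncomputable def Ad (P m : ℕ) : Finset Str :=
  (Pd m).filter fun α => α 0 ≠ m ∧ ∀ i ∈ α.support, 0 ≤ vk P α i

private theorem kohT_gh_zero (s : F) (P : ℤ) : gh s P 0 = 1 := by
  simp [gh, gb, qf]

private theorem kohT_eq_single {m : ℕ} {α : Str} (h : sz α = m) (h0 : α 0 = m) :
    α = Finsupp.single 0 m := by
  have h1 : Finsupp.single 0 (α 0) + α.erase 0 = α := Finsupp.single_add_erase 0 α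
  have h2 := congrArg sz h1
  rw [sz_add, sz_single, h, h0] at h2
  have h3 : sz (α.erase 0) = 0 := by omega
  rw [sz_eq_zero] at h3
  rw [h3, h0, add_zero] at h1
  exact h1.symm

private theorem kohT_vk (P : ℤ) (m : ℕ) :
    vk P (Finsupp.single 0 m) 0 = P + 2 - 2 * (m : ℤ) := by
  unfold vk
  rw [Qw_single]
  simp

theorem koh_step (hs0 : s ≠ 0) (hs : ∀ n : ℕ, 0 < n → (s ^ 2) ^ n ≠ 1) (P m : ℕ) (hm : 2 ≤ m) :
    gh s (P : ℤ) m = (if 2 * m - 2 ≤ P then gh s ((P - (2 * m - 2) : ℕ) : ℤ) m else 0) +
      ∑ α ∈ Ad P m, α.prod fun i a => gh s (vk P α i) a := by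
  classical
  rw [koh hs0 hs P m, ← Finset.sum_filter_add_sum_filter_not
    ((Pd m).filter (fun α => ∀ i ∈ α.support, 0 ≤ vk P α i)) (fun α : Str => α 0 = m)]
  congr 1
  · have hsup : (Finsupp.single 0 m : Str).support = {0} :=
      Finsupp.support_single_ne_zero 0 (by omega)
    have h1 : ∀ α ∈ ((Pd m).filter (fun α => ∀ i ∈ α.support, 0 ≤ vk P α i)).filter
        (fun α : Str => α 0 = m), α = Finsupp.single 0 m := by
      intro α hα
      rw [mem_filter, mem_filter] at hα
      exact kohT_eq_single (mem_Pd.1 hα.1.1) hα.2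
    by_cases hc : 2 * m - 2 ≤ P
    · rw [if_pos hc]
      have h2 : ((Pd m).filter (fun α => ∀ i ∈ α.support, 0 ≤ vk P α i)).filter
          (fun α : Str => α 0 = m) = {Finsupp.single 0 m} := by
        ext α
        rw [mem_singleton]
        constructor
        · exact h1 α
        · rintro rfl
          rw [mem_filter, mem_filter]
          refine ⟨⟨mem_Pd.2 (by rw [sz_single]; omega), ?_⟩, by simp⟩
          intro i hi
          rw [hsup, mem_singleton] at hi
          subst hi
          rw [kohT_vk]
          omega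
      have h3 : (Finsupp.single 0 m : Str).prod
          (fun i a => gh s (vk (P : ℤ) (Finsupp.single 0 m) i) a) =
          gh s (vk (P : ℤ) (Finsupp.single 0 m) 0) m :=
        Finsupp.prod_single_index (kohT_gh_zero s _)
      rw [h2, sum_singleton, h3, kohT_vk]
      congr 1
      omega
    · rw [if_neg hc]
      refine sum_eq_zero fun α hα => ?_
      exfalso
      have h2 := h1 α hα
      subst h2
      rw [mem_filter, mem_filter] at hα
      have h3 := hα.1.2 0 (by rw [hsup]; exact mem_singleton_self 0)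
      rw [kohT_vk] at h3
      omega
  · unfold Ad
    rw [filter_filter]
    refine sum_congr ?_ fun _ _ => rfl
    refine filter_congr fun α _ => ?_
    exact and_comm

theorem kohT (hs0 : s ≠ 0) (hs : ∀ n : ℕ, 0 < n → (s ^ 2) ^ n ≠ 1) (P m : ℕ) (hm : 2 ≤ m) :
    gh s (P : ℤ) m = ∑ t ∈ (range (P + 1)).filter (fun t => t * (2 * m - 2) ≤ P),
      ∑ α ∈ Ad (P - t * (2 * m - 2)) m,
        α.prod fun i a => gh s (vk ((P - t * (2 * m - 2) : ℕ) : ℤ) α i) a := by
  classical
  obtain ⟨c, hc⟩ : ∃ c, 2 * m - 2 = c := ⟨_, rfl⟩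
  obtain ⟨g, hg⟩ : ∃ g : ℕ → F, ∀ Q, g Q = ∑ α ∈ Ad Q m,
      α.prod fun i a => gh s (vk (Q : ℤ) α i) a := ⟨_, fun _ => rfl⟩
  have hc2 : 2 ≤ c := by omega
  have key : ∀ P : ℕ, gh s (P : ℤ) m =
      ∑ t ∈ range (P + 1), if t * c ≤ P then g (P - t * c) else 0 := by
    intro P
    induction P using Nat.strong_induction_on with
    | _ P ih =>
      rw [koh_step hs0 hs P m hm, sum_range_succ', ← hg, hc]
      congr 1
      · by_cases h : c ≤ P
        · rw [if_pos h, ih (P - c) (by omega)]
          refine Finset.sum_subset_zero_on_sdiff (range_subset_range.2 (by omega)) ?_ ?_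
          · intro t ht
            rw [mem_sdiff, mem_range, mem_range] at ht
            rw [if_neg]
            intro h1
            have h2 : (t + 1) * c = t * c + c := by ring
            have h3 : t * 2 ≤ t * c := Nat.mul_le_mul_left t hc2
            omega
          · intro t _
            have h2 : (t + 1) * c = t * c + c := by ring
            rw [h2]
            by_cases h4 : t * c ≤ P - c
            · rw [if_pos h4, if_pos (by omega)]
              congr 1
              omega
            · rw [if_neg h4, if_neg (by omega)]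
        · rw [if_neg h]
          symm
          refine sum_eq_zero fun t _ => if_neg ?_
          have h2 : (t + 1) * c = t * c + c := by ring
          omega
      · simp
  rw [key P, sum_filter, hc]
  refine sum_congr rfl fun t _ => ?_
  rw [hg]

end Pool.Agent.H18.KR
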