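import Pool.Agent.H18.KR.Burn
import Pool.Agent.H18.KR.PadL

/-!
# Module KrA (about 80 lines). `g(λ, μ, (n-k, k)) = a_k - a_{k-1}`.

By `chi_two` with `a = n - k`, `b = k`, the second term for `k ≥ 1` is `fixc σ ![n - (k-1), k-1]`, and for
`k = 0` it is zero (`fixc_neg`). Expand `chi lam σ * chi mu σ` as a double sum over `w, w'`, exchange the
sums, and use `burnside` with `η = sh lam w`, `θ = sh mu w'` (`Σ_i sh lam w i = Σ lam = n`, since
`Σ_i w i = Σ_i i`).
-/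

set_option autoImplicit false

namespace Pool.Agent.H18.KR

open Finset

theorem sum_sh {r : ℕ} (lam : Fin r → ℕ) (w : Equiv.Perm (Fin r)) :
    ∑ i, sh lam w i = ((∑ i, lam i : ℕ) : ℤ) := by
  unfold sh
  rw [sum_add_distrib, sum_sub_distrib]
  have h : ∑ i, ((w i : Fin r) : ℤ) = ∑ i : Fin r, ((i : ℕ) : ℤ) := Equiv.sum_comp w fun i : Fin r => ((i : ℕ) : ℤ)
  rw [h]
  push_cast
  ring

private lemma sum_akk {r : ℕ} (n k : ℕ) (hk : k ≤ n) (lam mu : Fin r → ℕ) (hl : ∑ i, lam i = n) :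
    ∑ σ : Equiv.Perm (Fin n), chi lam σ * chi mu σ * (fixc σ ![(n : ℤ) - k, (k : ℤ)] : ℤ) =
      (n.factorial : ℤ) * akk n lam mu k := by
  have h1 : ∀ σ : Equiv.Perm (Fin n),
      chi lam σ * chi mu σ * (fixc σ ![(n : ℤ) - k, (k : ℤ)] : ℤ) =
        ∑ w : Equiv.Perm (Fin r), ∑ w' : Equiv.Perm (Fin r),
          (Equiv.Perm.sign w : ℤ) * (Equiv.Perm.sign w' : ℤ) *
            ((fixc σ (sh lam w) * fixc σ (sh mu w') * fixc σ ![(n : ℤ) - k, (k : ℤ)] : ℕ) : ℤ) := by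
    intro σ
    unfold chi
    rw [sum_mul_sum, sum_mul]
    refine sum_congr rfl fun w _ => ?_
    rw [sum_mul]
    refine sum_congr rfl fun w' _ => ?_
    push_cast
    ring
  rw [sum_congr rfl fun σ _ => h1 σ, sum_comm]
  unfold akk
  rw [mul_sum]
  refine sum_congr rfl fun w _ => ?_
  rw [sum_comm, mul_sum]
  refine sum_congr rfl fun w' _ => ?_
  rw [← mul_sum]
  have h2 := burnside k hk (sh lam w) (sh mu w') (by rw [sum_sh, hl])
  have h3 : ∑ σ : Equiv.Perm (Fin n),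
      ((fixc σ (sh lam w) * fixc σ (sh mu w') * fixc σ ![(n : ℤ) - k, (k : ℤ)] : ℕ) : ℤ) =
      ((n.factorial * cT n k (sh lam w) (sh mu w') : ℕ) : ℤ) := by
    rw [← h2]
    push_cast
    rfl
  rw [h3]
  push_cast
  ring

theorem kron_two {r : ℕ} (n k : ℕ) (hk : k ≤ n) (lam mu : Fin r → ℕ) (hl : ∑ i, lam i = n) :
    kron n lam mu ![n - k, k] =
      (akk n lam mu k : ℚ) - (if k = 0 then 0 else (akk n lam mu (k - 1) : ℚ)) := by
  have hn : (n.factorial : ℚ) ≠ 0 := by exact_mod_cast n.factorial_ne_zero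
  have h0 : ∀ σ : Equiv.Perm (Fin n), chi ![n - k, k] σ =
      (fixc σ ![(n : ℤ) - k, (k : ℤ)] : ℤ) -
        (if k = 0 then 0 else (fixc σ ![(n : ℤ) - (k - 1 : ℕ), ((k - 1 : ℕ) : ℤ)] : ℤ)) := by
    intro σ
    rw [chi_two]
    have e1 : (((n - k : ℕ) : ℤ)) = (n : ℤ) - k := by push_cast [hk]; ring
    rw [e1]
    congr 1
    split_ifs with hk0
    · subst hk0
      rw [fixc_neg σ _ 1 (by simp)]
      rfl
    · have e2 : (((k - 1 : ℕ) : ℤ)) = (k : ℤ) - 1 := by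
        have : 1 ≤ k := Nat.one_le_iff_ne_zero.2 hk0
        push_cast [this]
        ring
      rw [e2]
      have e3 : (n : ℤ) - k + 1 = (n : ℤ) - (k - 1) := by ring
      rw [e3]
  unfold kron
  rw [div_eq_iff hn]
  have h4 : (∑ σ : Equiv.Perm (Fin n), ((chi lam σ * chi mu σ * chi ![n - k, k] σ : ℤ) : ℚ)) =
      ((∑ σ : Equiv.Perm (Fin n), chi lam σ * chi mu σ * chi ![n - k, k] σ : ℤ) : ℚ) := by
    push_cast
    rfl
  rw [h4]
  have h5 : ∑ σ : Equiv.Perm (Fin n), chi lam σ * chi mu σ * chi ![n - k, k] σ =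
      (n.factorial : ℤ) * akk n lam mu k -
        (if k = 0 then 0 else (n.factorial : ℤ) * akk n lam mu (k - 1)) := by
    have e4 : ∀ σ : Equiv.Perm (Fin n), chi lam σ * chi mu σ * chi ![n - k, k] σ =
        chi lam σ * chi mu σ * (fixc σ ![(n : ℤ) - k, (k : ℤ)] : ℤ) -
        (if k = 0 then 0 else
          chi lam σ * chi mu σ * (fixc σ ![(n : ℤ) - (k - 1 : ℕ), ((k - 1 : ℕ) : ℤ)] : ℤ)) := by
      intro σ
      rw [h0, mul_sub]
      split_ifs
      · simp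
      · rfl
    rw [sum_congr rfl fun σ _ => e4 σ, sum_sub_distrib, sum_akk n k hk lam mu hl]
    congr 1
    split_ifs with hk0
    · simp
    · exact sum_akk n (k - 1) (by omega) lam mu hl
  rw [h5]
  split_ifs
  · push_cast
    ring
  · push_cast
    ring

end Pool.Agent.H18.KR
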