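import Pool.Agent.H18.KR.Ch2

/-!
# Module LinI (about 150 lines). Comparing coefficients.

`s = RatFunc.X` in `RatFunc ℚ` satisfies the hypotheses (`X_ok`). Multiply `h` by `s - s⁻¹`
(`ch2_mul_sub`): `Σ_e R e (s^(e+1) - s^(-(e+1))) = Σ_k a k (s^(2k-n+1) - s^(2k-n-1))`. Multiply by `s^M`,
`M = n + E + 2`, to get an identity of polynomials in `X` (`RatFunc.algebraMap_injective`, `RatFunc.X` is
the image of `Polynomial.X`), and compare the coefficients of `s^(M - (n - 2k) - 1)` with `2k ≤ n`: on the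
left only `-R (n-2k)` (the exponents `e + 1` are positive, `-(n-2k)-1` is negative), on the right `a (k-1) - a k`
(`k ≥ 1`) or `- a 0`.
-/

set_option autoImplicit false

namespace Pool.Agent.H18.KR

open Finset

theorem X_ok : (RatFunc.X : RatFunc ℚ) ≠ 0 ∧
    ∀ n : ℕ, 0 < n → ((RatFunc.X : RatFunc ℚ) ^ 2) ^ n ≠ 1 := by
  refine ⟨RatFunc.X_ne_zero, fun n hn h => ?_⟩
  have h1 : algebraMap (Polynomial ℚ) (RatFunc ℚ) ((Polynomial.X ^ 2) ^ n) =
      algebraMap (Polynomial ℚ) (RatFunc ℚ) 1 := by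
    rw [map_pow, map_pow, RatFunc.algebraMap_X, h, map_one]
  have h2 := RatFunc.algebraMap_injective ℚ h1
  have h3 := congrArg Polynomial.natDegree h2
  rw [← pow_mul, Polynomial.natDegree_X_pow, Polynomial.natDegree_one] at h3
  omega

/-- the monomial `X ^ (M + z)` -/
private noncomputable def pz (M : ℕ) (z : ℤ) : Polynomial ℚ := Polynomial.X ^ ((M : ℤ) + z).toNat

private lemma pz_map (M : ℕ) (z : ℤ) (hz : 0 ≤ (M : ℤ) + z) :
    algebraMap (Polynomial ℚ) (RatFunc ℚ) (pz M z) = RatFunc.X ^ (M : ℤ) * RatFunc.X ^ z := by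
  rw [pz, map_pow, RatFunc.algebraMap_X, ← zpow_add₀ RatFunc.X_ne_zero, ← zpow_natCast,
    Int.toNat_of_nonneg hz]

private lemma pz_coeff (M N : ℕ) (z : ℤ) (hz : 0 ≤ (M : ℤ) + z) :
    (pz M z).coeff N = if (N : ℤ) = M + z then 1 else 0 := by
  rw [pz, Polynomial.coeff_X_pow]
  by_cases h : (N : ℤ) = M + z
  · rw [if_pos h, if_pos (by omega)]
  · rw [if_neg h, if_neg (by omega)]

theorem linI (n E : ℕ) (hE : n ≤ E) (R : ℕ → ℕ) (a : ℕ → ℤ)
    (h : ∑ e ∈ range (E + 1), (R e : RatFunc ℚ) * ch2 RatFunc.X e =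
      ∑ k ∈ range (n + 1), (a k : RatFunc ℚ) * RatFunc.X ^ (2 * (k : ℤ) - (n : ℤ)))
    (k : ℕ) (hk : 2 * k ≤ n) :
    (R (n - 2 * k) : ℤ) = a k - (if k = 0 then 0 else a (k - 1)) := by
  set X : RatFunc ℚ := RatFunc.X with hX
  have hX0 : X ≠ 0 := RatFunc.X_ne_zero
  set M : ℕ := E + n + 2 with hM
  -- the polynomial identity
  have hpoly : ∑ e ∈ range (E + 1), ((R e : ℕ) : Polynomial ℚ) *
        (pz M ((e : ℤ) + 1) - pz M (-((e : ℤ) + 1))) =
      ∑ k ∈ range (n + 1), ((a k : ℤ) : Polynomial ℚ) *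
        (pz M (2 * (k : ℤ) - n + 1) - pz M (2 * (k : ℤ) - n - 1)) := by
    apply RatFunc.algebraMap_injective ℚ
    rw [map_sum, map_sum]
    have h1 := congrArg (fun u => X ^ (M : ℤ) * (u * (X - X⁻¹))) h
    simp only [sum_mul, mul_sum] at h1
    refine Eq.trans (sum_congr rfl fun e he => ?_) (h1.trans (sum_congr rfl fun k hk => ?_))
    · have he' := mem_range.1 he
      rw [map_mul, map_natCast, map_sub, pz_map _ _ (by omega), pz_map _ _ (by omega)]
      rw [mul_assoc (R e : RatFunc ℚ), ch2_mul_sub hX0]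
      ring
    · have hk' := mem_range.1 hk
      rw [map_mul, map_intCast, map_sub, pz_map _ _ (by omega), pz_map _ _ (by omega)]
      rw [← hX, zpow_add₀ hX0, zpow_sub₀ hX0 _ 1, zpow_one]
      field_simp
  have hc := congrArg (fun u => Polynomial.coeff u (M - (n - 2 * k + 1))) hpoly
  simp only [Polynomial.finsetSum_coeff, Polynomial.coeff_natCast_mul,
    Polynomial.coeff_intCast_mul, Polynomial.coeff_sub] at hc
  have hL : ∑ e ∈ range (E + 1), (R e : ℚ) *
      ((pz M ((e : ℤ) + 1)).coeff (M - (n - 2 * k + 1)) -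
        (pz M (-((e : ℤ) + 1))).coeff (M - (n - 2 * k + 1))) = -(R (n - 2 * k) : ℚ) := by
    rw [sum_eq_single (n - 2 * k)]
    · rw [pz_coeff _ _ _ (by omega), pz_coeff _ _ _ (by omega), if_neg (by omega),
        if_pos (by omega)]
      ring
    · intro e he hne
      have he' := mem_range.1 he
      rw [pz_coeff _ _ _ (by omega), pz_coeff _ _ _ (by omega), if_neg (by omega),
        if_neg (by omega)]
      ring
    · intro h2
      rw [mem_range] at h2
      omega
  have hR : ∑ j ∈ range (n + 1), (a j : ℚ) *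
      ((pz M (2 * (j : ℤ) - n + 1)).coeff (M - (n - 2 * k + 1)) -
        (pz M (2 * (j : ℤ) - n - 1)).coeff (M - (n - 2 * k + 1))) =
      (if k = 0 then 0 else (a (k - 1) : ℚ)) - a k := by
    have h3 : ∀ j ∈ range (n + 1), (a j : ℚ) *
        ((pz M (2 * (j : ℤ) - n + 1)).coeff (M - (n - 2 * k + 1)) -
          (pz M (2 * (j : ℤ) - n - 1)).coeff (M - (n - 2 * k + 1))) =
        (if j + 1 = k then (a j : ℚ) else 0) - (if j = k then (a j : ℚ) else 0) := by
      intro j hj
      have hj' := mem_range.1 hj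
      rw [pz_coeff _ _ _ (by omega), pz_coeff _ _ _ (by omega)]
      have e1 : (((M - (n - 2 * k + 1) : ℕ) : ℤ) = M + (2 * (j : ℤ) - n + 1)) ↔ j + 1 = k := by
        omega
      have e2 : (((M - (n - 2 * k + 1) : ℕ) : ℤ) = M + (2 * (j : ℤ) - n - 1)) ↔ j = k := by
        omega
      simp only [e1, e2]
      split_ifs <;> ring
    rw [sum_congr rfl h3, sum_sub_distrib]
    congr 1
    · rcases Nat.eq_zero_or_pos k with h0 | h0
      · rw [if_pos h0]
        refine sum_eq_zero fun j _ => ?_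
        rw [if_neg (by omega)]
      · rw [if_neg h0.ne', sum_eq_single (k - 1)]
        · rw [if_pos (by omega)]
        · intro j _ hj
          rw [if_neg (by omega)]
        · intro h2
          rw [mem_range] at h2
          omega
    · rw [sum_eq_single k]
      · rw [if_pos rfl]
      · intro j _ hj
        rw [if_neg hj]
      · intro h2
        rw [mem_range] at h2
        omega
  rw [hL, hR] at hc
  have hfin : (R (n - 2 * k) : ℚ) = a k - (if k = 0 then 0 else (a (k - 1) : ℚ)) := by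
    linarith
  rcases Nat.eq_zero_or_pos k with h0 | h0
  · rw [if_pos h0] at hfin ⊢
    exact_mod_cast hfin
  · rw [if_neg h0.ne'] at hfin ⊢
    exact_mod_cast hfin

end Pool.Agent.H18.KR
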