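import Pool.Agent.H18.KR.LstB
import Pool.Agent.H18.KR.Defs5

/-!
# Module LstG (about 120 lines). Grouping, bit strings and numbers.

`grp_append`: `grp g (M+1) (l1 ++ l2) = l1 :: grp g M l2` if `l1.length = g`
(`List.range_succ_eq_map`, `List.drop_append`). `sum_lists_grp` by induction on `M` with
`sum_lists_add`, `sum_lists_succ` (`(M+1) * g = g + M * g`). `sum_bits`: the value `val` (least significant bit
first) is a bijection from the bit strings of length `b` onto `{0, …, 2^b - 1}`: `val_lt`; injective
by induction on the length (`val (x :: l) = x.toNat + 2 val l`); surjective by cardinality or by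
induction. `sum_blocks`: `sum_lists_grp` (for `b`), `sum_lists_map` (for `val`), `sum_lists_grp` (for
`R + 1`); `M * (R+1) * b`.
-/

set_option autoImplicit false

namespace Pool.Agent.H18.KR

open Finset

variable {α M : Type} [AddCommMonoid M]

theorem grp_append {g N : ℕ} (l1 l2 : List α) (h : l1.length = g) :
    grp g (N + 1) (l1 ++ l2) = l1 :: grp g N l2 := by
  unfold grp
  rw [List.range_succ_eq_map, List.map_cons, List.map_map]
  congr 1
  · simp [List.take_append, h]
  · apply List.map_congr_left
    intro i _
    simp only [Function.comp]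
    have e : (i + 1) * g = g + i * g := by ring
    rw [Nat.succ_eq_add_one, e, ← List.drop_drop]
    congr 2
    rw [← h, List.drop_left]

theorem sum_lists_grp (A : Finset α) (g N : ℕ) (f : List (List α) → M) :
    ∑ l ∈ lists A (N * g), f (grp g N l) = ∑ l ∈ lists (lists A g) N, f l := by
  induction N generalizing f with
  | zero =>
    rw [sum_lists_zero, Nat.zero_mul, sum_lists_zero]
    rfl
  | succ N ih =>
    have e : (N + 1) * g = g + N * g := by ring
    rw [e, sum_lists_add, sum_lists_succ]
    refine Finset.sum_congr rfl fun l1 h1 => ?_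
    have h1' := (mem_lists.1 h1).1
    have : ∀ l' ∈ lists A (N * g), f (grp g (N + 1) (l1 ++ l')) = f (l1 :: grp g N l') := by
      intro l' _
      rw [grp_append l1 l' h1']
    rw [Finset.sum_congr rfl this]
    exact ih (fun l => f (l1 :: l))

private theorem val_inj : ∀ (x y : List Bool), x.length = y.length →
    Pool.Agent.H80.Poly.val x = Pool.Agent.H80.Poly.val y → x = y
  | [], [], _, _ => rfl
  | [], b :: l, h, _ => by simp at h
  | b :: l, [], h, _ => by simp at h
  | a :: x, b :: y, h, hv => by
    simp only [Pool.Agent.H80.Poly.val] at hv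
    have h' : x.length = y.length := by simpa using h
    have hab : a = b := by
      cases a <;> cases b <;> simp at hv <;> first | rfl | omega
    subst hab
    have : Pool.Agent.H80.Poly.val x = Pool.Agent.H80.Poly.val y := by omega
    rw [val_inj x y h' this]

private theorem val_surj : ∀ (b n : ℕ), n < 2 ^ b →
    ∃ x : List Bool, x.length = b ∧ Pool.Agent.H80.Poly.val x = n
  | 0, n, h => ⟨[], rfl, by simp at h; simp [Pool.Agent.H80.Poly.val, h]⟩
  | b + 1, n, h => by
    obtain ⟨x, hx, hv⟩ := val_surj b (n / 2) (by rw [pow_succ] at h; omega)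
    refine ⟨decide (n % 2 = 1) :: x, by simp [hx], ?_⟩
    simp only [Pool.Agent.H80.Poly.val, hv]
    by_cases hn : n % 2 = 1
    · simp [hn]; omega
    · simp [hn]; omega

theorem sum_bits (b n : ℕ) (f : List ℕ → M) :
    ∑ l ∈ lists (lists (univ : Finset Bool) b) n, f (l.map Pool.Agent.H80.Poly.val) =
      ∑ l ∈ lists (range (2 ^ b)) n, f l := by
  apply sum_lists_map
  · intro a ha
    have := (mem_lists.1 ha).1
    rw [Finset.mem_range, ← this]
    exact Pool.Agent.H80.Poly.val_lt a
  · intro a ha a' ha' h
    exact val_inj a a' ((mem_lists.1 ha).1.trans (mem_lists.1 ha').1.symm) h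
  · intro n hn
    obtain ⟨x, hx, hv⟩ := val_surj b n (Finset.mem_range.1 hn)
    exact ⟨x, mem_lists.2 ⟨hx, fun _ _ => Finset.mem_univ _⟩, hv⟩

theorem sum_blocks (b R N : ℕ) (f : List (List ℕ) → M) :
    ∑ w ∈ lists (univ : Finset Bool) (N * (R + 1) * b), f (blocks b R N w) =
      ∑ Y ∈ lists (blks b R) N, f Y := by
  unfold blocks
  rw [sum_lists_grp (univ : Finset Bool) b (N * (R + 1))
    (fun l => f (grp (R + 1) N (l.map Pool.Agent.H80.Poly.val)))]
  rw [sum_bits b (N * (R + 1)) (fun l => f (grp (R + 1) N l))]
  rw [sum_lists_grp (range (2 ^ b)) (R + 1) N f]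
  rfl

end Pool.Agent.H18.KR
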