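import Pool.Agent.H18.KR.Stp1
import Pool.Agent.H18.KR.StpI
import Pool.Agent.H18.KR.Defs5

/-!
# Module Mach (about 120 lines). The machine computes the decomposition.

`run (y :: Z) σ = (stepB y σ).bind (run Z)` (`foldl` starting from `none` stays `none`). By
`sum_lists_succ` (the card of a filter is a sum of `if`s, `Finset.card_filter`),
`nruns b R (T+1) σ e = Σ_{y ∈ blks b R} (stepB y σ).elim 0 (fun σ' => nruns b R T σ' e)`.
Induction on `T` for all `σ`: for `T = 0`, `pot σ = 0` and `Good` imply `σ.1 = []` (each item contributes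
`2m - 1 ≥ 1`), `nruns = [e = c]`, and `c = Phi σ < 2^b`. Step: `step_sum`, `step_good` (`y.length = R + 1`),
`step_phi`, `step_pot` (`pot σ' ≤ pot σ - 1 ≤ T`).
-/

set_option autoImplicit false

namespace Pool.Agent.H18.KR

open Finset

variable {F : Type} [Field F] {s : F}

private theorem mach_foldl_none (Z : List (List ℕ)) :
    Z.foldl (fun o y => o.bind (stepB y)) (none : Option St) = none := by
  induction Z with
  | nil => rfl
  | cons y Z ih => exact ih

private theorem mach_run_cons (y : List ℕ) (Z : List (List ℕ)) (σ : St) :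
    run (y :: Z) σ = (stepB y σ).elim none (run Z) := by
  unfold run
  rw [List.foldl_cons]
  change Z.foldl (fun o y => o.bind (stepB y)) (stepB y σ) = _
  cases h : stepB y σ with
  | none => exact mach_foldl_none Z
  | some τ => rfl

private theorem mach_nruns_sum (b R T : ℕ) (σ : St) (e : ℕ) :
    nruns b R T σ e = ∑ Z ∈ lists (blks b R) T, if run Z σ = some ([], e) then 1 else 0 := by
  unfold nruns
  rw [Finset.card_filter]

theorem nruns_zero (b R : ℕ) (σ : St) (e : ℕ) :
    nruns b R 0 σ e = if σ = ([], e) then 1 else 0 := by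
  rw [mach_nruns_sum, sum_lists_zero]
  have h : run [] σ = some σ := rfl
  rw [h]
  by_cases h1 : σ = ([], e)
  · rw [if_pos h1, if_pos (by rw [h1])]
  · rw [if_neg h1, if_neg (fun h2 => h1 (Option.some.inj h2))]

theorem nruns_succ (b R T : ℕ) (σ : St) (e : ℕ) :
    nruns b R (T + 1) σ e = ∑ y ∈ blks b R, (stepB y σ).elim 0 (fun σ' => nruns b R T σ' e) := by
  rw [mach_nruns_sum, sum_lists_succ]
  refine Finset.sum_congr rfl fun y _ => ?_
  cases h : stepB y σ with
  | none =>
    refine Finset.sum_eq_zero fun Z _ => ?_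
    rw [mach_run_cons, h, if_neg]
    intro h1
    cases h1
  | some τ =>
    change _ = nruns b R T τ e
    rw [mach_nruns_sum]
    refine Finset.sum_congr rfl fun Z _ => ?_
    rw [mach_run_cons, h]
    rfl

theorem mach (hs0 : s ≠ 0) (hs : ∀ n : ℕ, 0 < n → (s ^ 2) ^ n ≠ 1) (b R T : ℕ) (σ : St)
    (hg : Good R σ) (hR : R < 2 ^ b) (hP : Phi σ < 2 ^ b) (hT : pot σ ≤ T) :
    ∑ e ∈ range (2 ^ b), (nruns b R T σ e : F) * ch2 s e = vl s σ := by
  induction T generalizing σ with
  | zero =>
    obtain ⟨l, c⟩ := σ
    have hl : l = [] := by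
      rcases l with _ | ⟨x, rest⟩
      · rfl
      · exfalso
        have h1 := (hg x (List.mem_cons_self ..)).1
        simp only [pot, List.map_cons, List.sum_cons] at hT
        omega
    subst hl
    have hc : c < 2 ^ b := by
      simpa [Phi] using hP
    rw [Finset.sum_eq_single c]
    · rw [nruns_zero, if_pos rfl]
      simp [vl]
    · intro e _ he
      rw [nruns_zero, if_neg]
      · simp
      · intro h
        exact he (Prod.mk.inj h).2.symm
    · intro h
      exact absurd (mem_range.2 hc) h
  | succ T ih =>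
    rw [← step_sum hs0 hs b R σ hg hR hP]
    have h1 : ∀ e ∈ range (2 ^ b), (nruns b R (T + 1) σ e : F) * ch2 s e =
        ∑ y ∈ blks b R, (((stepB y σ).elim 0 (fun σ' => nruns b R T σ' e) : ℕ) : F) * ch2 s e := by
      intro e _
      rw [nruns_succ, Nat.cast_sum, Finset.sum_mul]
    rw [Finset.sum_congr rfl h1, Finset.sum_comm]
    refine Finset.sum_congr rfl fun y hy => ?_
    cases h : stepB y σ with
    | none =>
      refine Finset.sum_eq_zero fun e _ => ?_
      simp
    | some τ =>
      change ∑ e ∈ range (2 ^ b), (nruns b R T τ e : F) * ch2 s e = vl s τ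
      have hy2 : y.length ≤ R + 1 := by
        unfold blks at hy
        rw [mem_lists] at hy
        exact hy.1.le
      refine ih τ (step_good hy2 hg h) ((step_phi h).trans_lt hP) ?_
      have := step_pot (fun x hx => (hg x hx).1) h
      omega

end Pool.Agent.H18.KR
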