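import Pool.Agent.H18.KR.Coef
import Pool.Agent.H18.KR.Cen
import Pool.Agent.H18.KR.Dom
import Pool.Agent.H18.KR.MN
import Pool.Agent.H18.KR.Cvx

/-!
# Module Main1 (about 60 lines). The fermionic formula for the numbers `a_k`, centred.

`NN_path` and `NN_eq_adm` (`hdom_dd`), `admAll_iff_adm`; `wt_eq`: `Σ_k N k sz (m k) = 3 dd L = 3 n`
(`mem_Cfg`, `dd_centre`). `(s^2)^(n+k) = s^(3n) s^(2k-n)`; cancel `s^(3n)`.
-/

set_option autoImplicit false

namespace Pool.Agent.H18.KR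

open Finset

variable {F : Type} [Field F] {s : F}

open Classical in
theorem main1 (L n : ℕ) (lam mu : Fin (L + 1) → ℕ) (hl : ∑ i, lam i = n) (hm : ∑ i, mu i = n)
    (hla : Antitone lam) (hma : Antitone mu)
    (hs0 : s ≠ 0) (hs : ∀ n : ℕ, 0 < n → (s ^ 2) ^ n ≠ 1) :
    ∑ m ∈ (Cfg (dd lam mu)).filter (fun m => Adm (PG (2 * L + 1)) (Nc L 3) m),
        ∏ k, ((m k).prod fun i a => gh s (Pv (PG (2 * L + 1)) (Nc L 3) m k (i + 1)) a) =
      ∑ k ∈ range (n + 1), (akk n lam mu k : F) * s ^ (2 * (k : ℤ) - (n : ℤ)) := by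
  have hdom := hdom_dd L n lam mu hl hm hla hma
  have h1 := NN_path L n lam mu hl hm hs0 hs
  rw [NN_eq_adm (PG (2 * L + 1)) (Nc L 3) hs0 hs (dd lam mu) hdom] at h1
  have hf : (Cfg (dd lam mu)).filter (fun m => AdmAll (PG (2 * L + 1)) (Nc L 3) m) =
      (Cfg (dd lam mu)).filter (fun m => Adm (PG (2 * L + 1)) (Nc L 3) m) :=
    filter_congr fun m hm' => admAll_iff_adm (PG (2 * L + 1)) (Nc L 3) (dd lam mu) hdom m hm'
  rw [hf] at h1
  have hw : ∀ m ∈ (Cfg (dd lam mu)).filter (fun m => Adm (PG (2 * L + 1)) (Nc L 3) m),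
      wt (PG (2 * L + 1)) (Nc L 3) s m = s ^ (3 * (n : ℤ)) *
        ∏ k, ((m k).prod fun i a => gh s (Pv (PG (2 * L + 1)) (Nc L 3) m k (i + 1)) a) := by
    intro m hm'
    rw [mem_filter] at hm'
    rw [wt_eq (PG (2 * L + 1)) (Nc L 3) hs0 m]
    congr 2
    rw [sum_eq_single (⟨L, by omega⟩ : Fin (2 * L + 1))]
    · have h2 : sz (m ⟨L, by omega⟩) = n := by
        rw [mem_Cfg.1 hm'.1 ⟨L, by omega⟩]
        exact dd_centre L n lam mu hl ⟨L, by omega⟩ rfl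
      rw [h2]
      simp [Nc]
    · intro k _ hk
      have h3 : k.val ≠ L := fun h => hk (Fin.ext h)
      simp [Nc, h3]
    · intro h
      exact absurd (mem_univ _) h
  rw [sum_congr rfl hw, ← mul_sum] at h1
  have hne : s ^ (3 * (n : ℤ)) ≠ 0 := zpow_ne_zero _ hs0
  apply mul_left_cancel₀ hne
  rw [h1, mul_sum]
  refine sum_congr rfl fun k _ => ?_
  have h4 : s ^ (3 * (n : ℤ)) * s ^ (2 * (k : ℤ) - (n : ℤ)) = (s ^ 2) ^ (n + k) := by
    rw [← zpow_add₀ hs0, ← pow_mul, ← zpow_natCast]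
    congr 1
    push_cast
    ring
  rw [← h4]
  ring

end Pool.Agent.H18.KR
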