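import Pool.Agent.H18.KR.Mach
import Pool.Agent.H18.KR.CfgS
import Pool.Agent.H18.KR.CfgG
import Pool.Agent.H18.KR.Main1
import Pool.Agent.H18.KR.LinI
import Pool.Agent.H18.KR.KrA

/-!
# Module MainA (about 120 lines). Counting runs gives the Kronecker coefficient.

`F = RatFunc ℚ`, `s = RatFunc.X` (`X_ok`). Let `R = 2(L+1)`, `lamF i = lam.getD i 0`. For `Y ∈ cfgs b L lam mu`:
`Good R`, `pot ≤ T`, `Phi ≤ 5 n (2L+1) R < 2^b` (`cfg_good`, `cfg_pot`, `cfg_phi`; `(zk Y k).sum = Dl ≤ n`). By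
`mach`: `Σ_e (Σ_Y nruns b R T (cfgItems L Y, 0) e) ch2 s e = Σ_Y vl s (cfgItems L Y, 0)`, which is
`Σ_k a_k s^(2k-n)` by `sum_cfgs` and `main1` (`Antitone` from `Pairwise (≥)`; `Σ lamF = lam.sum`). `linI` with
`E = 2^b - 1 ≥ n`. Finally `kron_two`.
-/

set_option autoImplicit false

namespace Pool.Agent.H18.KR

open Finset

theorem runs_eq (b L n T k : ℕ) (lam mu : List ℕ) (hll : lam.length ≤ L + 1)
    (hml : mu.length ≤ L + 1) (hl : IsPart n lam) (hm : IsPart n mu) (hk : 2 * k ≤ n)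
    (hT : 2 * (2 * L + 1) * (2 * (L + 1)) ≤ T) (hn : n < 2 ^ b) (hR : 2 * (L + 1) < 2 ^ b)
    (hb : 5 * n * ((2 * L + 1) * (2 * (L + 1))) < 2 ^ b) :
    ((∑ Y ∈ cfgs b L lam mu, nruns b (2 * (L + 1)) T (cfgItems L Y, 0) (n - 2 * k) : ℕ) : ℚ) =
      kron n (fun i : Fin (L + 1) => lam.getD i 0) (fun i : Fin (L + 1) => mu.getD i 0)
        ![n - k, k] := by
  classical
  have hls := cfgS_sum_getD hll hl
  have hms := cfgS_sum_getD hml hm
  have hla : Antitone fun i : Fin (L + 1) => lam.getD i 0 := cfgS_antitone hl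
  have hma : Antitone fun i : Fin (L + 1) => mu.getD i 0 := cfgS_antitone hm
  obtain ⟨hs0, hs⟩ := X_ok
  have h1 : ∀ Y ∈ cfgs b L lam mu,
      ∑ e ∈ range (2 ^ b), (nruns b (2 * (L + 1)) T (cfgItems L Y, 0) e : RatFunc ℚ) *
        ch2 RatFunc.X e = vl (RatFunc.X : RatFunc ℚ) (cfgItems L Y, 0) := by
    intro Y hY
    obtain ⟨a1, a2, a3⟩ := cfgS_mem hY
    have a4 : ∀ y ∈ Y, y.length ≤ 2 * (L + 1) + 1 := fun y hy => (a2 y hy).le
    refine mach hs0 hs b (2 * (L + 1)) T _ (cfg_good L _ Y a4) hR ?_ ((cfg_pot L _ Y a4).trans hT)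
    refine lt_of_le_of_lt (cfg_phi L (2 * (L + 1)) n Y a4 a1.le fun j hj => ?_) hb
    rw [(a3 j hj).2.2.1]
    exact (Dl_eq L lam mu hll hml ⟨j, hj⟩).trans_le (dd_le L n _ _ hls hms ⟨j, hj⟩)
  have h2 := sum_cfgs (RatFunc.X : RatFunc ℚ) b L n lam mu hll hml hl hm hn
  have h3 := main1 L n _ _ hls hms hla hma hs0 hs
  have h4 : ∑ e ∈ range (2 ^ b - 1 + 1),
      ((∑ Y ∈ cfgs b L lam mu, nruns b (2 * (L + 1)) T (cfgItems L Y, 0) e : ℕ) : RatFunc ℚ) *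
        ch2 RatFunc.X e =
      ∑ k ∈ range (n + 1), (akk n (fun i : Fin (L + 1) => lam.getD i 0)
        (fun i : Fin (L + 1) => mu.getD i 0) k : RatFunc ℚ) *
          RatFunc.X ^ (2 * (k : ℤ) - (n : ℤ)) := by
    rw [Nat.sub_add_cancel Nat.one_le_two_pow, ← h3, ← h2, ← sum_congr rfl h1, sum_comm]
    refine sum_congr rfl fun e _ => ?_
    rw [Nat.cast_sum, sum_mul]
  have h5 := linI n (2 ^ b - 1) (by omega) _ _ h4 k hk
  rw [kron_two n k (by omega) _ _ hls]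
  have h6 := congrArg (Int.cast : ℤ → ℚ) h5
  rw [Int.cast_natCast] at h6
  rw [h6]
  push_cast
  split_ifs <;> rfl

end Pool.Agent.H18.KR
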