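import Pool.Agent.H18.KR.PP
import Pool.Agent.H18.KR.EmI

/-!
# Module NNs (about 120 lines). The generating series of the unrestricted sums for the path.

Let `q = s ^ 2`, `K = 2L + 1`, `c_p = 3` if the root `p = [a, b]` contains the centre `L` (crossing
roots) and `c_p = 0` otherwise; `Σ_k Nc L 3 k * rt p k = c_p`. By `prod_formula` for `s` and for `s⁻¹`
(`(s⁻¹)^2 = q⁻¹`; hypotheses by `hq_inv`), applying the ring homomorphism
`R = MvPowerSeries.rescale (fun k => q ^ N k)` to the latter and `em_rescale`: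
`A(s) ∏ em rt (epS q) = 1`, `R A(s⁻¹) ∏ em rt (rescale (q^{c_p}) (epS q⁻¹)) = 1`.
The product: `NNser ∏_p em (rt p) (epS q * rescale (q^{c_p}) (epS q⁻¹)) = 1` (`em_mul`, `NNser_eq`). The
factor of a crossing root is `em rt ((1 - qX)(1 - q²X)) = (1 - q z^rt)(1 - q² z^rt)` (`epS_mul_inv3`,
`em_mul`, `em_geo`). For a non-crossing root, `em rt (epS q * epS q⁻¹) * (1 - z^rt) = 1` (`epS_mul_inv`).
Multiply by the product of the `1 - z^rt` over the non-crossing roots.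
(`Finset.prod_filter_mul_prod_filter_not`.)
-/

set_option autoImplicit false

namespace Pool.Agent.H18.KR

open Finset

variable {F : Type} [Field F] {s : F}

private lemma rt_ne {K : ℕ} {a b : Fin K} (h : a ≤ b) : rt a b ≠ 0 := by
  intro h0
  have h1 := DFunLike.congr_fun h0 a
  have h2 : rt a b a = 1 := by
    show (if a ≤ a ∧ a ≤ b then 1 else 0) = 1
    rw [if_pos ⟨le_rfl, h⟩]
  rw [h2] at h1
  exact one_ne_zero h1

private lemma prod_rt (L : ℕ) (a b : Fin (2 * L + 1)) (q : F) :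
    ((rt a b).prod fun k e => (q ^ Nc L 3 k) ^ e) =
      if a.val ≤ L ∧ L ≤ b.val then q ^ 3 else 1 := by
  have hL : L < 2 * L + 1 := by omega
  rw [Finsupp.prod_fintype _ _ (fun k => pow_zero _)]
  rw [Finset.prod_eq_single (⟨L, hL⟩ : Fin (2 * L + 1))]
  · have h1 : Nc L 3 ⟨L, hL⟩ = 3 := by
      unfold Nc
      rw [if_pos rfl]
    have h2 : rt a b ⟨L, hL⟩ = if a.val ≤ L ∧ L ≤ b.val then 1 else 0 := rfl
    rw [h1, h2]
    split_ifs
    · rw [pow_one]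
    · rw [pow_zero]
  · intro k _ hk
    have h1 : Nc L 3 k = 0 := by
      unfold Nc
      rw [if_neg]
      intro h
      exact hk (Fin.ext h)
    rw [h1, pow_zero, one_pow]
  · intro h
    exact absurd (Finset.mem_univ _) h

theorem NNser_path (L : ℕ) (hs0 : s ≠ 0) (hs : ∀ n : ℕ, 0 < n → (s ^ 2) ^ n ≠ 1) :
    NNser (PG (2 * L + 1)) (Nc L 3) s *
      (∏ p ∈ (Rts (2 * L + 1)).filter (fun p => p.1.val ≤ L ∧ L ≤ p.2.val),
        (1 - MvPowerSeries.monomial (rt p.1 p.2) (s ^ 2)) *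
          (1 - MvPowerSeries.monomial (rt p.1 p.2) ((s ^ 2) ^ 2))) =
      ∏ p ∈ (Rts (2 * L + 1)).filter (fun p => ¬ (p.1.val ≤ L ∧ L ≤ p.2.val)),
        (1 - MvPowerSeries.monomial (rt p.1 p.2) (1 : F)) := by
  have hq0 : s ^ 2 ≠ 0 := pow_ne_zero 2 hs0
  have h1 := prod_formula (2 * L + 1) hs0 hs
  have h2 := prod_formula (2 * L + 1) (inv_ne_zero hs0) (s := s⁻¹) (by
    intro n hn
    rw [inv_pow s 2]
    exact hq_inv hs n hn)
  rw [inv_pow s 2] at h2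
  obtain ⟨q, hq⟩ : ∃ q : F, q = s ^ 2 := ⟨_, rfl⟩
  rw [← hq] at h1 h2 hs hq0 ⊢
  have h3 := congrArg (MvPowerSeries.rescale (fun k => q ^ Nc L 3 k)) h2
  rw [map_mul, map_one, map_prod] at h3
  have h4 := NNser_eq (PG (2 * L + 1)) (Nc L 3) hs0 (by rw [← hq]; exact hs)
  rw [← hq] at h4
  obtain ⟨W, hW⟩ : ∃ W : Fin (2 * L + 1) × Fin (2 * L + 1) → MvPowerSeries (Fin (2 * L + 1)) F,
    W = fun p => em (rt p.1 p.2) (epS q * PowerSeries.rescale
      (if p.1.val ≤ L ∧ L ≤ p.2.val then q ^ 3 else 1) (epS q⁻¹)) := ⟨_, rfl⟩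
  have h5 : NNser (PG (2 * L + 1)) (Nc L 3) s * ∏ p ∈ Rts (2 * L + 1), W p = 1 := by
    have h6 : ∏ p ∈ Rts (2 * L + 1), W p = (∏ p ∈ Rts (2 * L + 1), em (rt p.1 p.2) (epS q)) *
        ∏ p ∈ Rts (2 * L + 1), MvPowerSeries.rescale (fun k => q ^ Nc L 3 k)
          (em (rt p.1 p.2) (epS q⁻¹)) := by
      rw [← Finset.prod_mul_distrib]
      refine Finset.prod_congr rfl fun p hp => ?_
      have hp' : p.1 ≤ p.2 := (Finset.mem_filter.1 hp).2
      rw [em_rescale, prod_rt, ← em_mul (rt_ne hp'), hW]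
    rw [h6, h4]
    linear_combination (MvPowerSeries.rescale (fun k => q ^ Nc L 3 k) (AA (PG (2 * L + 1)) s⁻¹) *
      ∏ p ∈ Rts (2 * L + 1), MvPowerSeries.rescale (fun k => q ^ Nc L 3 k)
          (em (rt p.1 p.2) (epS q⁻¹))) * h1 + h3
  rw [← Finset.prod_filter_mul_prod_filter_not (Rts (2 * L + 1))
    (fun p => p.1.val ≤ L ∧ L ≤ p.2.val)] at h5
  have h7 : ∏ p ∈ (Rts (2 * L + 1)).filter (fun p => p.1.val ≤ L ∧ L ≤ p.2.val), W p =
      ∏ p ∈ (Rts (2 * L + 1)).filter (fun p => p.1.val ≤ L ∧ L ≤ p.2.val),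
        (1 - MvPowerSeries.monomial (rt p.1 p.2) q) *
          (1 - MvPowerSeries.monomial (rt p.1 p.2) (q ^ 2)) := by
    refine Finset.prod_congr rfl fun p hp => ?_
    obtain ⟨hp1, hp2⟩ := Finset.mem_filter.1 hp
    have hp' : p.1 ≤ p.2 := (Finset.mem_filter.1 hp1).2
    rw [hW]
    show em (rt p.1 p.2) (epS q * PowerSeries.rescale
      (if p.1.val ≤ L ∧ L ≤ p.2.val then q ^ 3 else 1) (epS q⁻¹)) = _
    rw [if_pos hp2, epS_mul_inv3 hq0 hs, em_mul (rt_ne hp'), em_geo (rt_ne hp'),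
      em_geo (rt_ne hp')]
  have h8 : (∏ p ∈ (Rts (2 * L + 1)).filter (fun p => ¬ (p.1.val ≤ L ∧ L ≤ p.2.val)), W p) *
      ∏ p ∈ (Rts (2 * L + 1)).filter (fun p => ¬ (p.1.val ≤ L ∧ L ≤ p.2.val)),
        (1 - MvPowerSeries.monomial (rt p.1 p.2) (1 : F)) = 1 := by
    rw [← Finset.prod_mul_distrib]
    refine Finset.prod_eq_one fun p hp => ?_
    obtain ⟨hp1, hp2⟩ := Finset.mem_filter.1 hp
    have hp' : p.1 ≤ p.2 := (Finset.mem_filter.1 hp1).2
    rw [hW]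
    show em (rt p.1 p.2) (epS q * PowerSeries.rescale
      (if p.1.val ≤ L ∧ L ≤ p.2.val then q ^ 3 else 1) (epS q⁻¹)) * _ = _
    rw [if_neg hp2, PowerSeries.rescale_one, RingHom.id_apply, ← em_geo (rt_ne hp'),
      ← em_mul (rt_ne hp'), map_one, one_mul, epS_mul_inv hq0 hs, em_one (rt_ne hp')]
  rw [h7] at h5
  linear_combination (∏ p ∈ (Rts (2 * L + 1)).filter (fun p => ¬ (p.1.val ≤ L ∧ L ≤ p.2.val)),
        (1 - MvPowerSeries.monomial (rt p.1 p.2) (1 : F))) * h5 -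
    (NNser (PG (2 * L + 1)) (Nc L 3) s *
      (∏ p ∈ (Rts (2 * L + 1)).filter (fun p => p.1.val ≤ L ∧ L ≤ p.2.val),
        (1 - MvPowerSeries.monomial (rt p.1 p.2) q) *
          (1 - MvPowerSeries.monomial (rt p.1 p.2) (q ^ 2)))) * h8

end Pool.Agent.H18.KR
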