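import Pool.Agent.H18.KR.StrB
import Pool.Agent.H18.KR.QNum
import Pool.Agent.H18.KR.AntiP

/-!
# Module OneFL (about 100 lines). Factorisation of the unrestricted sum at one node.

For each `α`: `α.prod (fun i a => gb q (u i - 2 Qw α (i+1)) a)` is, by `gb_expand` and `prod_anti'`
(apply it with `g i a = (qf q a)⁻¹`, `h i b = ep q b * q^{b P_i}`, `P_i = u i - 2 Qw α (i+1)` fixed),
`Σ_{(β,γ), β+γ=α} 1/(q)_β * ∏ ep(γ_i) * q^{Σ γ_i u_i - 2 fm γ α}`, and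
`fm γ α = fm γ β + fm γ γ`, `fm α α = fm β β + 2 fm γ β + fm γ γ`; so the exponent of `q` in
`q^{fm α α - v·α}` times this is `fm β β - v·β - fm γ γ + (u-v)·γ`: the mixed terms cancel. Moreover
`ep q b = 1/qf q⁻¹ b` (`inv_qf_inv`). Finally the sum over `α ∈ Pd D` and `β + γ = α` is the sum
over `(x, y) ∈ antidiagonal D`, `β ∈ Pd x`, `γ ∈ Pd y` (`sz_add`, `mem_Pd`, `Finset.sum_sigma'`,
`Finset.sum_bij'`).
-/

set_option autoImplicit false

namespace Pool.Agent.H18.KR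

open Finset

variable {F : Type} [Field F] {q : F}

private theorem ofl_zpow_sum (hq0 : q ≠ 0) (γ : Str) (e : ℕ → ℕ → ℤ) :
    (γ.prod fun i b => q ^ e i b) = q ^ γ.sum e := by
  classical
  unfold Finsupp.prod Finsupp.sum
  induction γ.support using Finset.induction_on with
  | empty => simp
  | insert a s ha ih => rw [prod_insert ha, sum_insert ha, ih, zpow_add₀ hq0]

private theorem ofl_exp (u : ℕ → ℤ) (α γ : Str) :
    (γ.sum fun i b => (b : ℤ) * (u i - 2 * (Qw α (i + 1) : ℤ))) =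
      (γ.sum fun i b => u i * (b : ℤ)) - 2 * (fm γ α : ℤ) := by
  unfold fm Finsupp.sum
  push_cast
  rw [mul_sum, ← sum_sub_distrib]
  refine sum_congr rfl fun i _ => ?_
  ring

private theorem ofl_lin (v : ℕ → ℤ) (β γ : Str) :
    ((β + γ).sum fun i a => v i * (a : ℤ)) =
      (β.sum fun i a => v i * (a : ℤ)) + (γ.sum fun i a => v i * (a : ℤ)) :=
  Finsupp.sum_add_index' (fun i => by simp) fun i a b => by push_cast; ring

private theorem ofl_sub (u v : ℕ → ℤ) (γ : Str) :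
    (γ.sum fun i a => (u i - v i) * (a : ℤ)) =
      (γ.sum fun i a => u i * (a : ℤ)) - (γ.sum fun i a => v i * (a : ℤ)) := by
  unfold Finsupp.sum
  rw [← sum_sub_distrib]
  refine sum_congr rfl fun i _ => ?_
  ring

private theorem ofl_term (hq0 : q ≠ 0) (hq : ∀ n : ℕ, 0 < n → q ^ n ≠ 1) (u v : ℕ → ℤ)
    (α : Str) :
    q ^ ((fm α α : ℤ) - α.sum fun i a => v i * (a : ℤ)) *
        (α.prod fun i a => gb q (u i - 2 * (Qw α (i + 1) : ℤ)) a) =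
      ∑ y ∈ antidiagonal α,
        (q ^ ((fm y.1 y.1 : ℤ) - y.1.sum fun i a => v i * (a : ℤ)) / qfp q y.1) *
        (q⁻¹ ^ ((fm y.2 y.2 : ℤ) - y.2.sum fun i a => (u i - v i) * (a : ℤ)) / qfp q⁻¹ y.2) := by
  have h1 : (α.prod fun i a => gb q (u i - 2 * (Qw α (i + 1) : ℤ)) a) =
      ∑ y ∈ antidiagonal α, (y.1.prod fun _ a => (qf q a)⁻¹) *
        (y.2.prod fun i b => ep q b * q ^ ((b : ℤ) * (u i - 2 * (Qw α (i + 1) : ℤ)))) := by
    rw [← prod_anti' α (fun _ a => (qf q a)⁻¹)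
      (fun i b => ep q b * q ^ ((b : ℤ) * (u i - 2 * (Qw α (i + 1) : ℤ))))
      (fun i => by simp [qf_zero]) (fun i => by simp [ep_zero])]
    unfold Finsupp.prod
    exact prod_congr rfl fun i _ => gb_expand hq0 hq _ _
  rw [h1, mul_sum]
  refine sum_congr rfl fun y hy => ?_
  obtain ⟨β, γ⟩ := y
  rw [HasAntidiagonal.mem_antidiagonal] at hy
  simp only at hy ⊢
  subst hy
  have h2 : (β.prod fun _ a => (qf q a)⁻¹) = (qfp q β)⁻¹ := by
    unfold qfp Finsupp.prod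
    rw [Finset.prod_inv_distrib]
  have h3 : (γ.prod fun i b => ep q b * q ^ ((b : ℤ) * (u i - 2 * (Qw (β + γ) (i + 1) : ℤ)))) =
      (qfp q⁻¹ γ)⁻¹ * q ^ ((γ.sum fun i b => u i * (b : ℤ)) - 2 * (fm γ (β + γ) : ℤ)) := by
    rw [Finsupp.prod_mul, ofl_zpow_sum hq0, ofl_exp]
    congr 1
    unfold qfp Finsupp.prod
    rw [← Finset.prod_inv_distrib]
    exact prod_congr rfl fun i _ => (inv_qf_inv hq0 hq _).symm
  rw [h2, h3, ofl_lin, ofl_sub, fm_add_right γ β γ, fm_add_left β γ (β + γ), fm_add_right β β γ,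
    fm_add_right γ β γ, fm_comm β γ, inv_zpow']
  have key : q ^ (((fm β β + fm γ β + (fm γ β + fm γ γ) : ℕ) : ℤ)
        - ((β.sum fun i a => v i * (a : ℤ)) + γ.sum fun i a => v i * (a : ℤ))) *
      q ^ ((γ.sum fun i b => u i * (b : ℤ)) - 2 * ((fm γ β + fm γ γ : ℕ) : ℤ)) =
      q ^ ((fm β β : ℤ) - β.sum fun i a => v i * (a : ℤ)) *
      q ^ (-((fm γ γ : ℤ) - ((γ.sum fun i a => u i * (a : ℤ)) - γ.sum fun i a => v i * (a : ℤ)))) := by
    rw [← zpow_add₀ hq0, ← zpow_add₀ hq0]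
    congr 1
    push_cast
    ring
  rw [div_eq_mul_inv, div_eq_mul_inv]
  calc _ = (q ^ (((fm β β + fm γ β + (fm γ β + fm γ γ) : ℕ) : ℤ)
        - ((β.sum fun i a => v i * (a : ℤ)) + γ.sum fun i a => v i * (a : ℤ))) *
      q ^ ((γ.sum fun i b => u i * (b : ℤ)) - 2 * ((fm γ β + fm γ γ : ℕ) : ℤ))) *
        ((qfp q β)⁻¹ * (qfp q⁻¹ γ)⁻¹) := by ring
    _ = _ := by rw [key]; ring

theorem one_fl (hq0 : q ≠ 0) (hq : ∀ n : ℕ, 0 < n → q ^ n ≠ 1) (u v : ℕ → ℤ) (D : ℕ) :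
    ∑ α ∈ Pd D, q ^ ((fm α α : ℤ) - α.sum fun i a => v i * (a : ℤ)) *
        (α.prod fun i a => gb q (u i - 2 * (Qw α (i + 1) : ℤ)) a) =
      ∑ x ∈ antidiagonal D,
        (∑ β ∈ Pd x.1, q ^ ((fm β β : ℤ) - β.sum fun i a => v i * (a : ℤ)) / qfp q β) *
        (∑ γ ∈ Pd x.2, q⁻¹ ^ ((fm γ γ : ℤ) - γ.sum fun i a => (u i - v i) * (a : ℤ)) /
          qfp q⁻¹ γ) := by
  rw [sum_congr rfl fun α _ => ofl_term hq0 hq u v α]
  simp_rw [sum_mul_sum, ← sum_product']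
  rw [sum_sigma', sum_sigma']
  refine sum_bij' (fun p _ => ⟨(sz p.2.1, sz p.2.2), p.2⟩) (fun p _ => ⟨p.2.1 + p.2.2, p.2⟩)
    ?_ ?_ ?_ ?_ ?_
  · rintro ⟨α, β, γ⟩ h
    simp only [mem_sigma, HasAntidiagonal.mem_antidiagonal, mem_Pd, mem_product] at h ⊢
    refine ⟨?_, trivial, trivial⟩
    rw [← sz_add, h.2, h.1]
  · rintro ⟨x, β, γ⟩ h
    simp only [mem_sigma, HasAntidiagonal.mem_antidiagonal, mem_Pd, mem_product] at h ⊢
    refine ⟨?_, trivial⟩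
    rw [sz_add, h.2.1, h.2.2, h.1]
  · rintro ⟨α, β, γ⟩ h
    simp only [mem_sigma, HasAntidiagonal.mem_antidiagonal, mem_Pd] at h ⊢
    rw [h.2]
  · rintro ⟨x, β, γ⟩ h
    simp only [mem_sigma, HasAntidiagonal.mem_antidiagonal, mem_Pd, mem_product] at h ⊢
    rw [h.2.1, h.2.2]
  · rintro ⟨α, β, γ⟩ h
    rfl

end Pool.Agent.H18.KR
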