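import Pool.Agent.H18.KR.PathR

/-!
# Module PathM (about 120 lines). A series invariant under all reflections of the path is constant.

`path_max`: extend `d` by `0` at both ends; `2 d_k ≤ d_{k-1} + d_{k+1}` (`nbd_PG`), so the differences are
nondecreasing, and a convex sequence that is `0` at both ends is `≤ 0`. Or: let `M > 0` be the maximum
and `k` the smallest node where it is attained; then `2 M = 2 d_k ≤ d_{k-1} + d_{k+1} < 2 M`
(`d_{k-1} < M`, or `k = 0` and the term is missing).

`eq_one_of_symK`: suppose some coefficient at `d ≠ 0` is nonzero; choose such a `d` with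
`Σ_k d k` minimal (`WellFounded.min`, or strong induction on the total degree). For each `k`:
`d k ≤ nbd d k` by (2) of `SymK`; let `d' = Finsupp.update d k (nbd d k - d k)`, its coefficient is the same
(1), so it is nonzero. `d' ≠ 0`: otherwise the coefficient is that of the constant term... precisely:
if `d' = 0` then `d` is supported in `{k}`, `nbd d k = 0` (no neighbour of `k` is `k`), and
`d k ≤ nbd d k = 0`, so `d = 0`, a contradiction. By minimality `Σ d ≤ Σ d'`, so `2 d k ≤ nbd d k`. By
`path_max`, `d = 0`.
-/

set_option autoImplicit false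

namespace Pool.Agent.H18.KR

open Finset

variable {K : ℕ} {F : Type} [Field F]

theorem path_max (d : Fin K → ℕ) (h : ∀ k, 2 * d k ≤ nbd (PG K) d k) : ∀ k, d k = 0 := by
  classical
  let e : ℕ → ℕ := fun n => if h : 0 < n ∧ n ≤ K then d ⟨n - 1, by omega⟩ else 0
  have e0 : e 0 = 0 := by
    simp only [e]
    rw [dif_neg (by omega)]
  have eK : e (K + 1) = 0 := by
    simp only [e]
    rw [dif_neg (by omega)]
  have e1 : ∀ (n : ℕ) (hn : n < K), e (n + 1) = d ⟨n, hn⟩ := by
    intro n hn
    simp only [e]
    rw [dif_pos (by omega)]
    simp only [Nat.add_sub_cancel]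
  have e2 : ∀ n, n < K → 2 * e (n + 1) ≤ e n + e (n + 2) := by
    intro n hn
    have h1 := h ⟨n, hn⟩
    rw [nbd_PG] at h1
    rw [e1 n hn]
    refine h1.trans (le_of_eq ?_)
    congr 1
    · by_cases h2 : 0 < n
      · rw [dif_pos h2]
        obtain ⟨m, rfl⟩ : ∃ m, n = m + 1 := ⟨n - 1, by omega⟩
        rw [e1 m (by omega)]
        simp only [Nat.add_sub_cancel]
      · rw [dif_neg h2]
        have : n = 0 := by omega
        rw [this, e0]
    · by_cases h2 : n + 1 < K
      · rw [dif_pos h2, e1 (n + 1) h2]
      · rw [dif_neg h2]
        have : n + 2 = K + 1 := by omega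
        rw [this, eK]
  by_contra hne
  push Not at hne
  obtain ⟨k, hk⟩ := hne
  have hex : ∃ n, e (n + 1) ≠ 0 := ⟨k.val, by rw [e1 k.val k.2]; exact hk⟩
  have hn1 := Nat.find_spec hex
  have hmin := fun m => Nat.find_min (H := hex) (m := m)
  set n0 := Nat.find hex
  have hn0 : e n0 = 0 := by
    rcases Nat.eq_zero_or_pos n0 with h2 | h2
    · rw [h2, e0]
    · have h3 := hmin (n0 - 1) (by omega)
      rw [not_ne_iff, Nat.sub_add_cancel h2] at h3
      exact h3
  have hn0K : n0 < K := by
    by_contra h2
    apply hn1
    simp only [e]
    rw [dif_neg (by omega)]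
  have hind : ∀ j, n0 + j ≤ K → e (n0 + j) < e (n0 + j + 1) := by
    intro j
    induction j with
    | zero =>
      intro _
      rw [Nat.add_zero, hn0]
      omega
    | succ j ih =>
      intro hj
      have h3 := ih (by omega)
      have h4 := e2 (n0 + j) (by omega)
      rw [show n0 + (j + 1) = n0 + j + 1 by omega]
      rw [show n0 + j + 2 = n0 + j + 1 + 1 by omega] at h4
      omega
  have h5 := hind (K - n0) (by omega)
  rw [show n0 + (K - n0) = K by omega, eK] at h5
  omega

theorem eq_one_of_symK (φ : MvPowerSeries (Fin K) F) (h : ∀ k, SymK (PG K) k φ)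
    (h1 : MvPowerSeries.constantCoeff φ = 1) : φ = 1 := by
  classical
  have key : ∀ n, ∀ d : Fin K →₀ ℕ, ∑ l, d l = n → d ≠ 0 → MvPowerSeries.coeff d φ = 0 := by
    intro n
    induction n using Nat.strong_induction_on with
    | _ n ih =>
      intro d hd hd0
      by_contra hc
      have h2 : ∀ k, d k ≤ nbd (PG K) (fun l => d l) k := by
        intro k
        by_contra h3
        exact hc ((h k).2 d (by omega))
      have h3 : ∃ k, nbd (PG K) (fun l => d l) k < 2 * d k := by
        by_contra h4
        push Not at h4
        apply hd0
        ext k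
        exact path_max (fun l => d l) h4 k
      obtain ⟨k, hk⟩ := h3
      have hne : ∀ l, l ≠ k → d.update k (nbd (PG K) (fun l => d l) k - d k) l = d l := by
        intro l hl
        rw [Finsupp.coe_update, Function.update_of_ne hl]
      have hek : d.update k (nbd (PG K) (fun l => d l) k - d k) k =
          nbd (PG K) (fun l => d l) k - d k := by
        rw [Finsupp.coe_update, Function.update_self]
      have hck := (h k).1 d (d.update k (nbd (PG K) (fun l => d l) k - d k))
        (fun l hl => (hne l hl).symm) (by rw [hek]; have := h2 k; omega)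
      rw [hck] at hc
      apply hc
      refine ih _ ?_ _ rfl ?_
      · rw [← hd]
        refine Finset.sum_lt_sum (fun l _ => ?_) ⟨k, Finset.mem_univ _, ?_⟩
        · by_cases hl : l = k
          · subst hl
            rw [hek]
            omega
          · rw [hne l hl]
        · rw [hek]
          have := h2 k
          omega
      · intro h0
        apply hd0
        have h5 : ∀ l, l ≠ k → d l = 0 := by
          intro l hl
          rw [← hne l hl, h0]
          rfl
        have h6 : nbd (PG K) (fun l => d l) k = 0 := by
          unfold nbd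
          refine Finset.sum_eq_zero fun l hl => h5 l ?_
          rw [Finset.mem_filter] at hl
          exact ((PG K).ne_of_adj hl.2).symm
        ext l
        by_cases hl : l = k
        · subst hl
          have := h2 l
          simp only [Finsupp.coe_zero, Pi.zero_apply]
          omega
        · rw [h5 l hl]
          rfl
  ext d
  rw [MvPowerSeries.coeff_one]
  by_cases hd : d = 0
  · rw [if_pos hd, hd, MvPowerSeries.coeff_zero_eq_constantCoeff_apply, h1]
  · rw [if_neg hd]
    exact key _ d rfl hd

end Pool.Agent.H18.KR
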