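import Pool.Agent.H18.KR.Defs3

/-!
# Module SymM (about 80 lines). Products of invariant series.

`SymK G k φ`: (1) the coefficients of `d` and `d'` agree if `d` and `d'` agree off `k` and
`d k + d' k = nbd G d k`; (2) the coefficient of `d` is zero if `d k > nbd G d k`.
Note `nbd G d k` does not depend on `d k` (`k` is not its own neighbour) and is additive in `d`.

`symK_mul`: let `d, d'` be as in (1). In `Σ_{x ∈ antidiagonal d} φ_{x.1} ψ_{x.2}` only the terms with
`x.1 k ≤ nbd x.1 k` and `x.2 k ≤ nbd x.2 k` are nonzero; reflecting both,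
`x.i ↦ Function.update (x.i) k (nbd x.i k - x.i k)` (as finsupps: `Finsupp.update`), is a bijection onto
such terms of the antidiagonal of `d'` (an involution up to exchanging `d` and `d'`), and the
coefficients agree (`Finset.sum_bij_ne_zero` or `sum_nbij'` after filtering). (2): if `d k > nbd d k` then
for every `x` in the antidiagonal `x.1 k > nbd x.1 k` or `x.2 k > nbd x.2 k`.
`symK_one`: the coefficient of `1` at `d` is nonzero only for `d = 0`; if `d = 0` then `d' k = nbd 0 = 0`.
-/

set_option autoImplicit false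

namespace Pool.Agent.H18.KR

open Finset

variable {I : Type} [Fintype I] [DecidableEq I] (G : SimpleGraph I) [DecidableRel G.Adj]
variable {F : Type} [Field F] {k : I}

omit [DecidableEq I] in
private theorem nbd_congr' {d d' : I → ℕ} (h : ∀ l, l ≠ k → d l = d' l) :
    nbd G d k = nbd G d' k := by
  unfold nbd
  refine sum_congr rfl fun l hl => h l ?_
  rw [mem_filter] at hl
  exact (G.ne_of_adj hl.2).symm

omit [DecidableEq I] in
private theorem nbd_add' (d d' : I → ℕ) :
    nbd G (fun l => d l + d' l) k = nbd G d k + nbd G d' k := by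
  unfold nbd
  exact sum_add_distrib

variable (k) in
private noncomputable def rf (e : I →₀ ℕ) : I →₀ ℕ := e.update k (nbd G (fun l => e l) k - e k)

private theorem rf_ne (e : I →₀ ℕ) {l : I} (h : l ≠ k) : rf G k e l = e l := by
  unfold rf
  rw [Finsupp.coe_update, Function.update_of_ne h]

private theorem rf_k (e : I →₀ ℕ) : rf G k e k = nbd G (fun l => e l) k - e k := by
  unfold rf
  rw [Finsupp.coe_update, Function.update_self]

private theorem nbd_rf (e : I →₀ ℕ) : nbd G (fun l => rf G k e l) k = nbd G (fun l => e l) k :=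
  nbd_congr' G fun _ h => rf_ne G e h

private theorem rf_rf {e : I →₀ ℕ} (h : e k ≤ nbd G (fun l => e l) k) :
    rf G k (rf G k e) = e := by
  ext l
  by_cases hl : l = k
  · subst hl
    rw [rf_k, nbd_rf, rf_k]
    omega
  · rw [rf_ne G _ hl, rf_ne G _ hl]

private theorem rf_add {d d' : I →₀ ℕ} (h : ∀ l, l ≠ k → d l = d' l)
    (hk : d k + d' k = nbd G (fun l => d l) k) {x y : I →₀ ℕ} (hxy : x + y = d)
    (hx : x k ≤ nbd G (fun l => x l) k) (hy : y k ≤ nbd G (fun l => y l) k) :
    rf G k x + rf G k y = d' := by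
  ext l
  rw [Finsupp.add_apply]
  by_cases hl : l = k
  · subst hl
    rw [rf_k, rf_k]
    have h1 : nbd G (fun l => d l) l = nbd G (fun l => x l) l + nbd G (fun l => y l) l := by
      rw [← nbd_add', ← hxy]
      rfl
    have h2 : x l + y l = d l := by rw [← hxy]; rfl
    omega
  · rw [rf_ne G _ hl, rf_ne G _ hl, ← h l hl, ← hxy]
    rfl

theorem symK_one : SymK G k (1 : MvPowerSeries I F) := by
  classical
  constructor
  · intro d d' h hk
    rw [MvPowerSeries.coeff_one, MvPowerSeries.coeff_one]
    have h1 : d = 0 ↔ d' = 0 := by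
      constructor
      · rintro rfl
        have h2 : nbd G (fun l => (0 : I →₀ ℕ) l) k = 0 := by simp [nbd]
        rw [h2] at hk
        ext l
        by_cases hl : l = k
        · subst hl
          simp only [Finsupp.coe_zero, Pi.zero_apply] at hk ⊢
          omega
        · rw [← h l hl]
      · rintro rfl
        have h2 : nbd G (fun l => d l) k = 0 := by
          rw [nbd_congr' G (d' := fun _ => 0) (fun l hl => by rw [h l hl]; rfl)]
          simp [nbd]
        rw [h2] at hk
        ext l
        by_cases hl : l = k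
        · subst hl
          simp only [Finsupp.coe_zero, Pi.zero_apply] at hk ⊢
          omega
        · rw [h l hl]
    by_cases h3 : d = 0
    · rw [if_pos h3, if_pos (h1.1 h3)]
    · rw [if_neg h3, if_neg fun h4 => h3 (h1.2 h4)]
  · intro d hd
    rw [MvPowerSeries.coeff_one, if_neg]
    rintro rfl
    simp at hd

theorem symK_mul {φ ψ : MvPowerSeries I F} (h1 : SymK G k φ) (h2 : SymK G k ψ) :
    SymK G k (φ * ψ) := by
  classical
  have key : ∀ d : I →₀ ℕ, ∑ x ∈ antidiagonal d,
      MvPowerSeries.coeff x.1 φ * MvPowerSeries.coeff x.2 ψ =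
      ∑ x ∈ (antidiagonal d).filter (fun x => x.1 k ≤ nbd G (fun l => x.1 l) k ∧
        x.2 k ≤ nbd G (fun l => x.2 l) k),
      MvPowerSeries.coeff x.1 φ * MvPowerSeries.coeff x.2 ψ := by
    intro d
    symm
    refine sum_filter_of_ne fun x _ hx => ?_
    by_contra hc
    apply hx
    rw [not_and_or, not_le, not_le] at hc
    rcases hc with hc | hc
    · rw [h1.2 _ hc, zero_mul]
    · rw [h2.2 _ hc, mul_zero]
  constructor
  · intro d d' h hk
    have h' : ∀ l, l ≠ k → d' l = d l := fun l hl => (h l hl).symm
    have hk' : d' k + d k = nbd G (fun l => d' l) k := by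
      rw [nbd_congr' G h', ← hk, add_comm]
    rw [MvPowerSeries.coeff_mul, MvPowerSeries.coeff_mul, key, key]
    refine sum_nbij' (fun x => (rf G k x.1, rf G k x.2)) (fun x => (rf G k x.1, rf G k x.2))
      ?_ ?_ ?_ ?_ ?_
    · intro x hx
      rw [mem_filter, HasAntidiagonal.mem_antidiagonal] at hx
      rw [mem_filter, HasAntidiagonal.mem_antidiagonal]
      refine ⟨rf_add G h hk hx.1 hx.2.1 hx.2.2, ?_, ?_⟩
      · simp only [rf_k, nbd_rf]
        omega
      · simp only [rf_k, nbd_rf]
        omega
    · intro x hx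
      rw [mem_filter, HasAntidiagonal.mem_antidiagonal] at hx
      rw [mem_filter, HasAntidiagonal.mem_antidiagonal]
      refine ⟨rf_add G h' hk' hx.1 hx.2.1 hx.2.2, ?_, ?_⟩
      · simp only [rf_k, nbd_rf]
        omega
      · simp only [rf_k, nbd_rf]
        omega
    · intro x hx
      rw [mem_filter] at hx
      simp only [rf_rf G hx.2.1, rf_rf G hx.2.2]
    · intro x hx
      rw [mem_filter] at hx
      simp only [rf_rf G hx.2.1, rf_rf G hx.2.2]
    · intro x hx
      rw [mem_filter] at hx
      simp only
      rw [h1.1 x.1 (rf G k x.1) (fun l hl => (rf_ne G _ hl).symm) (by rw [rf_k]; omega),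
        h2.1 x.2 (rf G k x.2) (fun l hl => (rf_ne G _ hl).symm) (by rw [rf_k]; omega)]
  · intro d hd
    rw [MvPowerSeries.coeff_mul]
    refine sum_eq_zero fun x hx => ?_
    rw [HasAntidiagonal.mem_antidiagonal] at hx
    have h3 : nbd G (fun l => d l) k = nbd G (fun l => x.1 l) k + nbd G (fun l => x.2 l) k := by
      rw [← nbd_add', ← hx]
      rfl
    have h4 : x.1 k + x.2 k = d k := by rw [← hx]; rfl
    rcases Nat.lt_or_ge (nbd G (fun l => x.1 l) k) (x.1 k) with h5 | h5
    · rw [h1.2 _ h5, zero_mul]
    · rw [h2.2 x.2 (by omega), mul_zero]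

end Pool.Agent.H18.KR
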