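import Pool.Agent.H18.KR.Em
import Pool.Agent.H18.KR.SymM

/-!
# Module SymR (about 150 lines). A product over a set of exponents that is stable under the reflection.

By `MvPowerSeries.coeff_prod` (or by induction) the coefficient of `∏_{p ∈ s} em (α p) u` at `d` is
`Σ_{e : s → ℕ, Σ e_p α_p = d} ∏ u_{e_p}`. The involution `σ` of `s` acts on the `e`
(`e ↦ e ∘ σ`), and `Σ_p e_{σ p} α_p = Σ_p e_p α_{σ p}` (`σ` is an involution) is the reflection of
`d = Σ_p e_p α_p`: off `k` it agrees with `d`, and at `k` the sum of both is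
`Σ e_p (α p k + α (σ p) k) = Σ e_p nbd (α p) k = nbd d k`. This gives both (1) and (2) of `SymK`:
(2): if such an `e` exists then `d k ≤ nbd d k`.

Another way (perhaps shorter): split off the orbits of `σ` by induction on `s`: for a fixed point `p` of
`σ` the series `em (α p) u` is invariant, for `p ≠ σ p` the product `em (α p) u * em (α (σ p)) u` is;
use `symK_mul`.
-/

set_option autoImplicit false

namespace Pool.Agent.H18.KR

open Finset

variable {I : Type} [Fintype I] [DecidableEq I] (G : SimpleGraph I) [DecidableRel G.Adj]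
variable {F : Type} [Field F] {k : I}

omit [DecidableEq I] in
private lemma nbd_congr {f g : I → ℕ} (h : ∀ l, l ≠ k → f l = g l) : nbd G f k = nbd G g k := by
  unfold nbd
  refine sum_congr rfl fun l hl => h l ?_
  rintro rfl
  exact G.loopless.irrefl _ (mem_filter.1 hl).2

omit [DecidableEq I] in
private lemma nbd_add' (f g : I →₀ ℕ) : nbd G (fun l => (f + g) l) k =
    nbd G (fun l => f l) k + nbd G (fun l => g l) k := by
  unfold nbd
  rw [← sum_add_distrib]
  exact sum_congr rfl fun l _ => Finsupp.add_apply _ _ _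

omit [DecidableEq I] in
private lemma nbd_smul' (m : ℕ) (f : I →₀ ℕ) : nbd G (fun l => (m • f) l) k =
    m * nbd G (fun l => f l) k := by
  unfold nbd
  rw [mul_sum]
  exact sum_congr rfl fun l _ => by
    change (m • f) l = m * f l
    rw [Finsupp.smul_apply, smul_eq_mul]

/-- reflection of one exponent -/
private noncomputable def rf (k : I) (d : I →₀ ℕ) : I →₀ ℕ :=
  d.update k (nbd G (fun l => d l) k - d k)

private lemma rf_ne (d : I →₀ ℕ) {l : I} (h : l ≠ k) : rf G k d l = d l := by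
  unfold rf
  rw [Finsupp.coe_update, Function.update_of_ne h]

private lemma rf_k (d : I →₀ ℕ) : rf G k d k = nbd G (fun l => d l) k - d k := by
  unfold rf
  rw [Finsupp.coe_update, Function.update_self]

private lemma nbd_rf (d : I →₀ ℕ) : nbd G (fun l => rf G k d l) k = nbd G (fun l => d l) k :=
  nbd_congr G fun _ h => rf_ne G d h

private lemma rf_rf {d : I →₀ ℕ} (h : d k ≤ nbd G (fun l => d l) k) : rf G k (rf G k d) = d := by
  ext l
  by_cases hl : l = k
  · subst hl
    rw [rf_k, nbd_rf, rf_k]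
    omega
  · rw [rf_ne G _ hl, rf_ne G _ hl]

private lemma rf_le (d : I →₀ ℕ) : rf G k d k ≤ nbd G (fun l => rf G k d l) k := by
  rw [nbd_rf, rf_k]
  exact Nat.sub_le _ _

/-- the relation `ψ` is the reflection of `φ` -/
private def SP (k : I) (φ ψ : MvPowerSeries I F) : Prop :=
  (∀ d d' : I →₀ ℕ, (∀ l, l ≠ k → d l = d' l) → d k + d' k = nbd G (fun l => d l) k →
    MvPowerSeries.coeff d φ = MvPowerSeries.coeff d' ψ) ∧
  (∀ d : I →₀ ℕ, nbd G (fun l => d l) k < d k → MvPowerSeries.coeff d φ = 0) ∧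
  ∀ d : I →₀ ℕ, nbd G (fun l => d l) k < d k → MvPowerSeries.coeff d ψ = 0

private lemma sp_one : SP G k (1 : MvPowerSeries I F) 1 := by
  have h0 : ∀ d : I →₀ ℕ, nbd G (fun l => d l) k < d k →
      MvPowerSeries.coeff d (1 : MvPowerSeries I F) = 0 := by
    intro d hd
    rw [MvPowerSeries.coeff_one, if_neg]
    rintro rfl
    simp at hd
  refine ⟨fun d d' h1 h2 => ?_, h0, h0⟩
  have hiff : d = 0 ↔ d' = 0 := by
    constructor
    · rintro rfl
      have h3 : nbd G (fun l => (0 : I →₀ ℕ) l) k = 0 := by simp [nbd]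
      rw [h3] at h2
      ext l
      by_cases hl : l = k
      · subst hl
        rw [Finsupp.zero_apply]
        omega
      · exact (h1 l hl).symm
    · rintro rfl
      have h3 : nbd G (fun l => d l) k = 0 := by
        rw [nbd_congr G h1]
        simp [nbd]
      rw [h3] at h2
      ext l
      by_cases hl : l = k
      · subst hl
        rw [Finsupp.zero_apply]
        omega
      · exact h1 l hl
  rw [MvPowerSeries.coeff_one, MvPowerSeries.coeff_one]
  by_cases hd : d = 0
  · rw [if_pos hd, if_pos (hiff.1 hd)]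
  · rw [if_neg hd, if_neg fun h => hd (hiff.2 h)]

private lemma sp_mul {φ ψ φ' ψ' : MvPowerSeries I F} (h1 : SP G k φ ψ) (h2 : SP G k φ' ψ') :
    SP G k (φ * φ') (ψ * ψ') := by
  have hz : ∀ {a b : MvPowerSeries I F}, (∀ d : I →₀ ℕ, nbd G (fun l => d l) k < d k →
      MvPowerSeries.coeff d a = 0) → (∀ d : I →₀ ℕ, nbd G (fun l => d l) k < d k →
      MvPowerSeries.coeff d b = 0) → ∀ d : I →₀ ℕ, nbd G (fun l => d l) k < d k →
      MvPowerSeries.coeff d (a * b) = 0 := by
    intro a b ha hb d hd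
    rw [MvPowerSeries.coeff_mul]
    refine sum_eq_zero fun x hx => ?_
    rw [HasAntidiagonal.mem_antidiagonal] at hx
    subst hx
    rw [nbd_add', Finsupp.add_apply] at hd
    by_cases h3 : nbd G (fun l => x.1 l) k < x.1 k
    · rw [ha _ h3, zero_mul]
    · rw [hb x.2 (by omega), mul_zero]
  refine ⟨fun d d' e1 e2 => ?_, hz h1.2.1 h2.2.1, hz h1.2.2 h2.2.2⟩
  rw [MvPowerSeries.coeff_mul, MvPowerSeries.coeff_mul]
  have hle : ∀ {a b : MvPowerSeries I F}, (∀ d : I →₀ ℕ, nbd G (fun l => d l) k < d k →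
      MvPowerSeries.coeff d a = 0) → (∀ d : I →₀ ℕ, nbd G (fun l => d l) k < d k →
      MvPowerSeries.coeff d b = 0) → ∀ x : (I →₀ ℕ) × (I →₀ ℕ),
      MvPowerSeries.coeff x.1 a * MvPowerSeries.coeff x.2 b ≠ 0 →
      x.1 k ≤ nbd G (fun l => x.1 l) k ∧ x.2 k ≤ nbd G (fun l => x.2 l) k := by
    intro a b ha hb x hx
    constructor
    · by_contra h3
      exact hx (by rw [ha _ (not_le.1 h3), zero_mul])
    · by_contra h3
      exact hx (by rw [hb _ (not_le.1 h3), mul_zero])
  have hmem : ∀ {c c' : I →₀ ℕ} (x : (I →₀ ℕ) × (I →₀ ℕ)), (∀ l, l ≠ k → c l = c' l) →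
      c k + c' k = nbd G (fun l => c l) k → x.1 + x.2 = c →
      x.1 k ≤ nbd G (fun l => x.1 l) k → x.2 k ≤ nbd G (fun l => x.2 l) k →
      rf G k x.1 + rf G k x.2 = c' := by
    intro c c' x f1 f2 f3 f4 f5
    subst f3
    rw [nbd_add', Finsupp.add_apply] at f2
    ext l
    by_cases hl : l = k
    · subst hl
      rw [Finsupp.add_apply, rf_k, rf_k]
      omega
    · rw [Finsupp.add_apply, rf_ne G _ hl, rf_ne G _ hl, ← f1 l hl, Finsupp.add_apply]
  have e2' : d' k + d k = nbd G (fun l => d' l) k := by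
    rw [← nbd_congr G e1, add_comm]
    exact e2
  refine sum_bij_ne_zero (fun x _ _ => (rf G k x.1, rf G k x.2)) ?_ ?_ ?_ ?_
  · intro x hx hx0
    obtain ⟨h3, h4⟩ := hle h1.2.1 h2.2.1 x hx0
    exact HasAntidiagonal.mem_antidiagonal.2 (hmem x e1 e2 (HasAntidiagonal.mem_antidiagonal.1 hx) h3 h4)
  · intro x hx hx0 y hy hy0 hxy
    obtain ⟨h3, h4⟩ := hle h1.2.1 h2.2.1 x hx0
    obtain ⟨h5, h6⟩ := hle h1.2.1 h2.2.1 y hy0
    rw [Prod.mk.injEq] at hxy
    refine Prod.ext ?_ ?_
    · rw [← rf_rf G h3, hxy.1, rf_rf G h5]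
    · rw [← rf_rf G h4, hxy.2, rf_rf G h6]
  · intro y hy hy0
    obtain ⟨h3, h4⟩ := hle h1.2.2 h2.2.2 y hy0
    have h5 := hmem y (fun l hl => (e1 l hl).symm) e2' (HasAntidiagonal.mem_antidiagonal.1 hy) h3 h4
    refine ⟨(rf G k y.1, rf G k y.2), HasAntidiagonal.mem_antidiagonal.2 h5, ?_, ?_⟩
    · have h6 : MvPowerSeries.coeff (rf G k y.1) φ = MvPowerSeries.coeff y.1 ψ :=
        h1.1 _ _ (fun l hl => rf_ne G _ hl) (by rw [nbd_rf, rf_k]; omega)
      have h7 : MvPowerSeries.coeff (rf G k y.2) φ' = MvPowerSeries.coeff y.2 ψ' :=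
        h2.1 _ _ (fun l hl => rf_ne G _ hl) (by rw [nbd_rf, rf_k]; omega)
      change MvPowerSeries.coeff (rf G k y.1) φ * MvPowerSeries.coeff (rf G k y.2) φ' ≠ 0
      rw [h6, h7]
      exact hy0
    · exact Prod.ext (rf_rf G h3) (rf_rf G h4)
  · intro x hx hx0
    obtain ⟨h3, h4⟩ := hle h1.2.1 h2.2.1 x hx0
    rw [h1.1 x.1 (rf G k x.1) (fun l hl => (rf_ne G _ hl).symm) (by rw [rf_k]; omega),
      h2.1 x.2 (rf G k x.2) (fun l hl => (rf_ne G _ hl).symm) (by rw [rf_k]; omega)]

private lemma sp_em {a b : I →₀ ℕ} (u : PowerSeries F) (ha : a ≠ 0) (hb : b ≠ 0)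
    (h1 : ∀ l, l ≠ k → b l = a l) (h2 : a k + b k = nbd G (fun l => a l) k) :
    SP G k (em a u) (em b u) := by
  have h2' : a k + b k = nbd G (fun l => b l) k := by
    rw [nbd_congr G h1]
    exact h2
  have hz : ∀ {c e : I →₀ ℕ}, c k + e k = nbd G (fun l => c l) k → ∀ d : I →₀ ℕ,
      nbd G (fun l => d l) k < d k → MvPowerSeries.coeff d (em c u) = 0 := by
    intro c e hc d hd
    refine coeff_em_of_ne u fun m hm => ?_
    subst hm
    rw [nbd_smul', Finsupp.smul_apply, smul_eq_mul] at hd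
    have h3 : m * c k ≤ m * nbd G (fun l => c l) k := Nat.mul_le_mul_left m (by omega)
    omega
  have key : ∀ {c e d d' : I →₀ ℕ}, (∀ l, l ≠ k → e l = c l) →
      c k + e k = nbd G (fun l => c l) k → (∀ l, l ≠ k → d l = d' l) →
      d k + d' k = nbd G (fun l => d l) k → ∀ m : ℕ, d = m • c → d' = m • e := by
    intro c e d d' f1 f2 f3 f4 m hm
    subst hm
    rw [nbd_smul', Finsupp.smul_apply, smul_eq_mul, ← f2, mul_add] at f4
    ext l
    by_cases hl : l = k
    · subst hl
      rw [Finsupp.smul_apply, smul_eq_mul]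
      omega
    · rw [← f3 l hl, Finsupp.smul_apply, Finsupp.smul_apply, f1 l hl]
  refine ⟨fun d d' e1 e2 => ?_, hz h2, hz (by rw [add_comm]; exact h2')⟩
  have e2' : d' k + d k = nbd G (fun l => d' l) k := by
    rw [← nbd_congr G e1, add_comm]
    exact e2
  by_cases hd : ∃ m : ℕ, d = m • a
  · obtain ⟨m, hm⟩ := hd
    have hm' := key h1 h2 e1 e2 m hm
    rw [hm, hm', coeff_em_smul ha, coeff_em_smul hb]
  · have hd' : ∀ m : ℕ, d' ≠ m • b := by
      intro m hm
      exact hd ⟨m, key (fun l hl => (h1 l hl).symm) (by rw [add_comm]; exact h2')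
        (fun l hl => (e1 l hl).symm) e2' m hm⟩
    rw [coeff_em_of_ne u fun m hm => hd ⟨m, hm⟩, coeff_em_of_ne u hd']

theorem symK_prod_em {ι : Type} [DecidableEq ι] (s : Finset ι) (α : ι → I →₀ ℕ) (σ : ι → ι)
    (u : PowerSeries F) (hs : ∀ p ∈ s, σ p ∈ s) (hσ : ∀ p ∈ s, σ (σ p) = p)
    (h0 : ∀ p ∈ s, α p ≠ 0) (h1 : ∀ p ∈ s, ∀ l, l ≠ k → α (σ p) l = α p l)
    (h2 : ∀ p ∈ s, α p k + α (σ p) k = nbd G (fun l => α p l) k) :
    SymK G k (∏ p ∈ s, em (α p) u) := by
  classical
  have hsp : SP G k (∏ p ∈ s, em (α p) u) (∏ p ∈ s, em (α (σ p)) u) := by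
    have hgen : ∀ t : Finset ι, t ⊆ s →
        SP G k (∏ p ∈ t, em (α p) u) (∏ p ∈ t, em (α (σ p)) u) := by
      intro t
      induction t using Finset.induction_on with
      | empty =>
        intro _
        rw [prod_empty, prod_empty]
        exact sp_one G
      | insert p t hp ih =>
        intro ht
        rw [prod_insert hp, prod_insert hp]
        have hps : p ∈ s := ht (mem_insert_self p t)
        exact sp_mul G (sp_em G u (h0 p hps) (h0 _ (hs p hps)) (h1 p hps) (h2 p hps))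
          (ih fun x hx => ht (mem_insert_of_mem hx))
    exact hgen s (Subset.refl s)
  have heq : ∏ p ∈ s, em (α (σ p)) u = ∏ p ∈ s, em (α p) u :=
    prod_nbij' σ σ hs hs hσ hσ fun p _ => rfl
  rw [heq] at hsp
  exact ⟨hsp.1, hsp.2.1⟩

end Pool.Agent.H18.KR
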