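import Pool.Agent.H18.KR.SymA
import Pool.Agent.H18.KR.SymR
import Pool.Agent.H18.KR.PathM

/-!
# Module PP (about 80 lines). The product formula for the path.

`Φ = A(z) ∏_{roots} (q z^α; q)_∞`. For every node `k`, `Φ` is the product of
`em (single k 1) (epS q) * A` (`symK_AA`; `rt k k = single k 1`) and of the product over
`(Rts K).erase (k, k)` (`symK_prod_em` with `exists_refl`). So `SymK (PG K) k Φ` for all `k` (`symK_mul`;
`Finset.mul_prod_erase`). The constant term is `1`: `constantCoeff` is a ring homomorphism,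
`constantCoeff_em`, the constant term of `epS` is `ep q 0 = 1` (`ep_zero`), that of `A` is the sum over
`Cfg 0 = {0}` (`Pd_zero`) of `s ^ 0 / 1`. `eq_one_of_symK`.
-/

set_option autoImplicit false

namespace Pool.Agent.H18.KR

open Finset

variable {F : Type} [Field F] {s : F}

private theorem pp_rt_self {K : ℕ} (k : Fin K) : rt k k = Finsupp.single k 1 := by
  ext l
  rw [rt_apply, Finsupp.single_apply]
  refine if_congr ?_ rfl rfl
  constructor
  · rintro ⟨h1, h2⟩
    exact le_antisymm h1 h2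
  · rintro rfl
    exact ⟨le_rfl, le_rfl⟩

private theorem pp_zero_mem {K : ℕ} (m : Cf (Fin K)) : m ∈ Cfg (fun _ : Fin K => 0) ↔ m = fun _ => 0 := by
  rw [mem_Cfg]
  constructor
  · intro h
    funext k
    exact sz_eq_zero.1 (h k)
  · rintro rfl k
    exact sz_zero

private theorem pp_const_AA (K : ℕ) : MvPowerSeries.constantCoeff (AA (PG K) s) = 1 := by
  have h1 : MvPowerSeries.constantCoeff (AA (PG K) s) =
      ∑ m ∈ Cfg (fun _ : Fin K => 0), s ^ EE (PG K) m / ∏ k, qfp (s ^ 2) (m k) := rfl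
  have h2 : Cfg (fun _ : Fin K => 0) = {fun _ => 0} := by
    ext m
    rw [pp_zero_mem, mem_singleton]
  rw [h1, h2, sum_singleton]
  have h3 : EE (PG K) (fun _ => (0 : Str)) = 0 := by
    unfold EE
    refine Finset.sum_eq_zero fun k _ => ?_
    rw [fm_zero_left, fm_zero_left]
    simp
  rw [h3, zpow_zero, Finset.prod_congr rfl fun k _ => qfp_zero (s ^ 2), Finset.prod_const_one,
    div_one]

theorem prod_formula (K : ℕ) (hs0 : s ≠ 0) (hs : ∀ n : ℕ, 0 < n → (s ^ 2) ^ n ≠ 1) :
    AA (PG K) s * ∏ p ∈ Rts K, em (rt p.1 p.2) (epS (s ^ 2)) = 1 := by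
  classical
  refine eq_one_of_symK _ (fun k => ?_) ?_
  · have hk : (k, k) ∈ Rts K := by
      unfold Rts
      rw [mem_filter]
      exact ⟨mem_univ _, le_rfl⟩
    obtain ⟨σ, h1, h2, h3, h4⟩ := exists_refl k
    have e1 := symK_AA (PG K) hs0 hs k
    have e2 : SymK (PG K) k (∏ p ∈ (Rts K).erase (k, k), em (rt p.1 p.2) (epS (s ^ 2))) := by
      refine symK_prod_em (PG K) ((Rts K).erase (k, k)) (fun p => rt p.1 p.2) σ (epS (s ^ 2))
        h1 h2 ?_ h3 h4
      intro p hp
      have hp' : p ∈ Rts K := mem_of_mem_erase hp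
      unfold Rts at hp'
      exact rt_ne_zero (mem_filter.1 hp').2
    have e3 := symK_mul (PG K) e1 e2
    rw [← pp_rt_self k] at e3
    rw [← Finset.mul_prod_erase (Rts K) (fun p => em (rt p.1 p.2) (epS (s ^ 2))) hk]
    have e4 : AA (PG K) s * (em (rt (k, k).1 (k, k).2) (epS (s ^ 2)) *
        ∏ x ∈ (Rts K).erase (k, k), em (rt x.1 x.2) (epS (s ^ 2))) =
        em (rt k k) (epS (s ^ 2)) * AA (PG K) s *
        ∏ x ∈ (Rts K).erase (k, k), em (rt x.1 x.2) (epS (s ^ 2)) := by
      ring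
    rw [e4]
    exact e3
  · rw [map_mul, pp_const_AA, map_prod, one_mul]
    refine Finset.prod_eq_one fun p hp => ?_
    unfold Rts at hp
    rw [constantCoeff_em (rt_ne_zero (mem_filter.1 hp).2)]
    unfold epS
    rw [PowerSeries.constantCoeff_mk]
    simp [ep, qf]

end Pool.Agent.H18.KR
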