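import Pool.Agent.H18.KR.Defs5

/-!
# Module PtA (about 150 lines). Basic functions are computable in polynomial time.

Use the library `Pool.Agent.H80.Poly` (files `Lists`, `Nat`, `More`): `PolyTime.map`, `PolyTime.sum`,
`PolyTime.min`, `PolyTime.foldl_add`, `PolyTime.ite`, `PolyTime.mem`, `PolyTime.eq`, `PolyTime.zipWith`,
`PolyTime.all`, `PolyTime.countP` (`List.count` is `countP (· == w)`), `PolyTime.drop`, `PolyTime.headD`
(`l.getD i d = (l.drop i).headD d`), `PolyTime.tail`.
The pattern for functions with parameters: a function of `a` and the list entry `x` is given as a function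
of the pair `(a, x)`, see `PolyTime.map`. In `ptDistinct` the accumulator is a list of entries of `z`: the size
grows by at most `2 size x + 1 ≤ size z` per step (`size_of_mem`, `foldl_add`).
-/

set_option autoImplicit false

namespace Pool.Agent.H18.KR

open Pool.Agent.H80.Poly

variable {α β : Type} [BEnc α] [BEnc β]

theorem ptQl {z : α → List ℕ} {w : α → ℕ} (hz : PolyTime z) (hw : PolyTime w) :
    PolyTime (fun a => Ql (z a) (w a)) :=
  (PolyTime.map (g := fun p : α × ℕ => min (w p.1) p.2) hz
    ((hw.comp PolyTime.fst').min PolyTime.snd')).sum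

theorem ptDistinct {z : α → List ℕ} (hz : PolyTime z) : PolyTime (fun a => distinct (z a)) := by
  have hw : PolyTime (fun w : α × List ℕ × ℕ => w) := PolyTime.id
  have h1 : PolyTime (fun w : α × List ℕ × ℕ => decide (w.2.2 = 0 ∨ w.2.2 ∈ w.2.1)) :=
    PolyTime.decOr (PolyTime.eq hw.snd.snd (PolyTime.const 0)) (PolyTime.mem hw.snd.snd hw.snd.fst)
  exact PolyTime.foldl_add (σ := List ℕ) (f := fun _ => []) (l := z)
    (h := fun w => if w.2.2 = 0 ∨ w.2.2 ∈ w.2.1 then w.2.1 else w.2.2 :: w.2.1) hz
    (PolyTime.const _) (PolyTime.ite h1 hw.snd.fst (hw.snd.snd.cons hw.snd.fst)) (by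
      obtain ⟨bl, hbl, hbls⟩ := hz.size_le
      refine ⟨bl, hbl, ?_⟩
      intro a s x hx
      have h1 := size_of_mem hx
      have h2 := hbls a
      simp only
      split_ifs
      · exact Nat.le_add_right _ _
      · rw [size_cons]
        simp only [size] at *
        omega)

theorem ptSorted {z : α → List ℕ} (hz : PolyTime z) : PolyTime (fun a => sortedB (z a)) := by
  have hw : PolyTime (fun w : α × ℕ × ℕ => w) := PolyTime.id
  have h1 := PolyTime.zipWith (g := fun w : α × ℕ × ℕ => decide (w.2.2 ≤ w.2.1)) hz hz.tail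
    (PolyTime.le hw.snd.snd hw.snd.fst)
  exact PolyTime.all (g := fun w : α × Bool => w.2) h1 PolyTime.snd'

theorem ptCount {z : α → List ℕ} {w : α → ℕ} (hz : PolyTime z) (hw : PolyTime w) :
    PolyTime (fun a => (z a).count (w a)) := by
  have hp : PolyTime (fun p : α × ℕ => p) := PolyTime.id
  refine (PolyTime.countP (g := fun p : α × ℕ => decide (p.2 = w p.1)) hz
    (PolyTime.eq hp.snd (hw.comp hp.fst))).congr (fun a => ?_)
  rw [List.count_eq_countP]
  rfl

theorem ptGetD {l : α → List β} {i : α → ℕ} (d : β) (hl : PolyTime l) (hi : PolyTime i) :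
    PolyTime (fun a => (l a).getD (i a) d) := by
  refine (PolyTime.headD d (hl.drop hi)).congr (fun a => ?_)
  rw [List.headD_eq_head?_getD, List.head?_drop, List.getD_eq_getElem?_getD]

theorem ptItems {z : α → List ℕ} {f : α × ℕ → ℕ} (hz : PolyTime z) (hf : PolyTime f) :
    PolyTime (fun a => items (fun w => f (a, w)) (z a)) := by
  have hp : PolyTime (fun p : α × ℕ => p) := PolyTime.id
  exact PolyTime.map
    (g := fun p : α × ℕ => (f p - 2 * Ql (z p.1) p.2, (z p.1).count p.2)) (ptDistinct hz)
    ((hf.sub ((PolyTime.const 2).mul (ptQl (hz.comp hp.fst) hp.snd))).pair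
      (ptCount (hz.comp hp.fst) hp.snd))

theorem ptGrp {g M : α → ℕ} {l : α → List β} (hg : PolyTime g) (hM : PolyTime M)
    (bd : ∃ b, PB b ∧ ∀ a, M a ≤ b (size a)) (hl : PolyTime l) :
    PolyTime (fun a => grp (g a) (M a) (l a)) := by
  have hp : PolyTime (fun p : α × ℕ => p) := PolyTime.id
  exact PolyTime.map
    (g := fun p : α × ℕ => ((l p.1).drop (p.2 * g p.1)).take (g p.1)) (PolyTime.range hM bd)
    (((hl.comp hp.fst).drop (hp.snd.mul (hg.comp hp.fst))).take (hg.comp hp.fst))

theorem ptBlocks {b R M : α → ℕ} {w : α → List Bool} (hb : PolyTime b) (hR : PolyTime R)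
    (hM : PolyTime M) (bd : ∃ b, PB b ∧ ∀ a, M a * (R a + 1) ≤ b (size a)) (hw : PolyTime w) :
    PolyTime (fun a => blocks (b a) (R a) (M a) (w a)) := by
  have h1 := ptGrp hb (hM.mul hR.succ) bd hw
  have h2 : PolyTime (fun a => (grp (b a) (M a * (R a + 1)) (w a)).map
      Pool.Agent.H80.Poly.val) :=
    PolyTime.map (g := fun p : α × List Bool => Pool.Agent.H80.Poly.val p.2) h1
      (PolyTime.val PolyTime.snd')
  obtain ⟨c, hc, hcd⟩ := bd
  exact ptGrp hR.succ hM ⟨c, hc, fun a => (Nat.le_mul_of_pos_right _ (Nat.succ_pos _)).trans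
    (hcd a)⟩ h2

end Pool.Agent.H18.KR
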