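import Pool.Agent.H18.KR.PtA

/-!
# Module PtB (about 120 lines). One step of the machine is computable in polynomial time.

`stepB y σ` with `σ = (l, c)`: `PolyTime.listCase` for `l` (`uncons`), then `PolyTime.ite` with the conditions
decided by `PolyTime.decAnd`, `PolyTime.le`, `PolyTime.eq`, `PolyTime.mod`, `PolyTime.forallMem`, arithmetic
`PolyTime.mul`, `PolyTime.sub`, `PolyTime.add`; `ptSorted`, `ptQl`, `ptItems`, `PolyTime.append`,
`PolyTime.headD`, `PolyTime.tail`, `PolyTime.sum`. It may help to state the body of each case as a separate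
definition/lemma on `(P, m, rest, c, y)` and to conclude with `PolyTime.congr`.
-/

set_option autoImplicit false

namespace Pool.Agent.H18.KR

open Pool.Agent.H80.Poly

/-- the argument of the second case: first item, other items, block, state -/
private abbrev TT1 : Type := ((ℕ × ℕ) × List (ℕ × ℕ)) × (List ℕ × St)

private theorem ptB_nil : PolyTime (fun x : List ℕ × St =>
    if ∀ t ∈ x.1, t = 0 then (Option.some (([] : List (ℕ × ℕ)), x.2.2) : Option St) else none) := by
  have hX : PolyTime (fun x : List ℕ × St => x) := PolyTime.id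
  refine PolyTime.ite ?_ ?_ (PolyTime.const _)
  · exact PolyTime.forallMem (P := fun (_ : List ℕ × St) (t : ℕ) => t = 0) hX.fst
      (PolyTime.eq PolyTime.snd' (PolyTime.const 0))
  · exact ((PolyTime.const _).pair hX.snd.snd).some

private theorem ptB_one : PolyTime (fun z : TT1 =>
    if z.2.2.2 ≤ z.2.1.headD 0 + z.1.1.1 ∧ z.1.1.1 ≤ z.2.1.headD 0 + z.2.2.2 ∧
        z.2.1.headD 0 ≤ z.2.2.2 + z.1.1.1 ∧ (z.2.2.2 + z.1.1.1 + z.2.1.headD 0) % 2 = 0 ∧
        ∀ x ∈ z.2.1.tail, x = 0 then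
      (Option.some (z.1.2, z.2.1.headD 0) : Option St)
    else none) := by
  have hT : PolyTime (fun z : TT1 => z) := PolyTime.id
  have hP : PolyTime (fun z : TT1 => z.1.1.1) := hT.fst.fst.fst
  have hr : PolyTime (fun z : TT1 => z.1.2) := hT.fst.snd
  have hy : PolyTime (fun z : TT1 => z.2.1) := hT.snd.fst
  have hc : PolyTime (fun z : TT1 => z.2.2.2) := hT.snd.snd.snd
  have hh : PolyTime (fun z : TT1 => z.2.1.headD 0) := PolyTime.headD 0 hy
  refine PolyTime.ite ?_ (hr.pair hh).some (PolyTime.const _)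
  refine PolyTime.decAnd (PolyTime.le hc (hh.add hP)) ?_
  refine PolyTime.decAnd (PolyTime.le hP (hh.add hc)) ?_
  refine PolyTime.decAnd (PolyTime.le hh (hc.add hP)) ?_
  refine PolyTime.decAnd
    (PolyTime.eq (PolyTime.mod ((hc.add hP).add hh) (PolyTime.const 2)) (PolyTime.const 0)) ?_
  exact PolyTime.forallMem (P := fun (_ : TT1) (t : ℕ) => t = 0) hy.tail
    (PolyTime.eq PolyTime.snd' (PolyTime.const 0))

private theorem ptB_vac : PolyTime (fun z : TT1 =>
    z.1.1.1 - z.2.1.headD 0 * (2 * z.1.1.2 - 2) + 2) := by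
  have hT : PolyTime (fun z : TT1 => z) := PolyTime.id
  have hP : PolyTime (fun z : TT1 => z.1.1.1) := hT.fst.fst.fst
  have hm : PolyTime (fun z : TT1 => z.1.1.2) := hT.fst.fst.snd
  have hy : PolyTime (fun z : TT1 => z.2.1) := hT.snd.fst
  have hh : PolyTime (fun z : TT1 => z.2.1.headD 0) := PolyTime.headD 0 hy
  exact (hP.sub (hh.mul (((PolyTime.const 2).mul hm).sub (PolyTime.const 2)))).add
    (PolyTime.const 2)

private theorem ptB_two : PolyTime (fun z : TT1 =>
    if z.2.1.headD 0 * (2 * z.1.1.2 - 2) ≤ z.1.1.1 ∧ sortedB z.2.1.tail = true ∧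
        z.2.1.tail.sum = z.1.1.2 ∧ 2 ≤ z.2.1.tail.headD 0 ∧
        ∀ w ∈ z.2.1.tail, 2 * Ql z.2.1.tail w ≤
          (z.1.1.1 - z.2.1.headD 0 * (2 * z.1.1.2 - 2) + 2) * w then
      (Option.some (items (fun w => (z.1.1.1 - z.2.1.headD 0 * (2 * z.1.1.2 - 2) + 2) * w)
        z.2.1.tail ++ z.1.2, z.2.2.2) : Option St)
    else none) := by
  have hT : PolyTime (fun z : TT1 => z) := PolyTime.id
  have hP : PolyTime (fun z : TT1 => z.1.1.1) := hT.fst.fst.fst
  have hm : PolyTime (fun z : TT1 => z.1.1.2) := hT.fst.fst.snd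
  have hr : PolyTime (fun z : TT1 => z.1.2) := hT.fst.snd
  have hy : PolyTime (fun z : TT1 => z.2.1) := hT.snd.fst
  have hc : PolyTime (fun z : TT1 => z.2.2.2) := hT.snd.snd.snd
  have hh : PolyTime (fun z : TT1 => z.2.1.headD 0) := PolyTime.headD 0 hy
  have ht : PolyTime (fun z : TT1 => z.2.1.tail) := hy.tail
  have hU : PolyTime (fun u : TT1 × ℕ => u) := PolyTime.id
  have hv : PolyTime (fun u : TT1 × ℕ =>
      (u.1.1.1.1 - u.1.2.1.headD 0 * (2 * u.1.1.1.2 - 2) + 2) * u.2) :=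
    (ptB_vac.comp hU.fst).mul hU.snd
  refine PolyTime.ite ?_ ?_ (PolyTime.const _)
  · refine PolyTime.decAnd (PolyTime.le
      (hh.mul (((PolyTime.const 2).mul hm).sub (PolyTime.const 2))) hP) ?_
    refine PolyTime.decAnd (PolyTime.eq (ptSorted ht) (PolyTime.const true)) ?_
    refine PolyTime.decAnd (PolyTime.eq (PolyTime.sum ht) hm) ?_
    refine PolyTime.decAnd (PolyTime.le (PolyTime.const 2) (PolyTime.headD 0 ht)) ?_
    exact PolyTime.forallMem (P := fun (z : TT1) (w : ℕ) => 2 * Ql z.2.1.tail w ≤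
      (z.1.1.1 - z.2.1.headD 0 * (2 * z.1.1.2 - 2) + 2) * w) ht
      (PolyTime.le ((PolyTime.const 2).mul (ptQl (ht.comp hU.fst) hU.snd)) hv)
  · exact (((ptItems ht hv).append hr).pair hc).some

theorem ptStep : PolyTime (fun x : List ℕ × St => stepB x.1 x.2) := by
  have hX : PolyTime (fun x : List ℕ × St => x) := PolyTime.id
  have hT : PolyTime (fun z : TT1 => z) := PolyTime.id
  have hm : PolyTime (fun z : TT1 => z.1.1.2) := hT.fst.fst.snd
  have hg := PolyTime.ite (c := fun z : TT1 => z.1.1.2 = 1) (PolyTime.eq hm (PolyTime.const 1))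
    ptB_one ptB_two
  refine (PolyTime.listCase (l := fun x : List ℕ × St => x.2.1) hX.snd.fst ptB_nil hg).congr ?_
  rintro ⟨y, ⟨l, c⟩⟩
  rcases l with _ | ⟨⟨P, m⟩, rest⟩
  · rfl
  · rfl

end Pool.Agent.H18.KR
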