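import Pool.Agent.H18.KR.PtA

/-!
# Module PtC (about 150 lines). Configurations are checked in polynomial time.

`Dl`: `PolyTime.ite`, `PolyTime.drop`, `PolyTime.sum`, `PolyTime.sub`. `zk`: `ptGetD`, `PolyTime.tail`. `vac2`:
sums of `ptQl`s. `cfgItems`: `PolyTime.range` (with the bound on `L`) and `PolyTime.flatMap`, `ptItems` with
parameters `(a, k)`. `cfgOk`: `∀ k < 2L+1, P` is `∀ k ∈ List.range (2L+1), P`: `PolyTime.forallMem`, and inside
`PolyTime.decAnd`, `PolyTime.eq`, `PolyTime.forallMem` for `w ∈ zk Y k`, `PolyTime.le`.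
-/

set_option autoImplicit false

namespace Pool.Agent.H18.KR

open Pool.Agent.H80.Poly

variable {α : Type} [BEnc α]

theorem ptDl {L k : α → ℕ} {lam mu : α → List ℕ} (hL : PolyTime L) (hk : PolyTime k)
    (hl : PolyTime lam) (hm : PolyTime mu) :
    PolyTime (fun a => Dl (L a) (lam a) (mu a) (k a)) :=
  PolyTime.ite (c := fun a => L a ≤ k a) (PolyTime.le hL hk) (hl.drop (hk.sub hL)).sum
    (hm.drop (hL.sub hk)).sum

theorem ptZk {Y : α → List (List ℕ)} {k : α → ℕ} (hY : PolyTime Y) (hk : PolyTime k) :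
    PolyTime (fun a => zk (Y a) (k a)) :=
  (ptGetD [] hY hk).tail

theorem ptVac2 {L k w : α → ℕ} {Y : α → List (List ℕ)} (hL : PolyTime L) (hY : PolyTime Y)
    (hk : PolyTime k) (hw : PolyTime w) :
    PolyTime (fun a => vac2 (L a) (Y a) (k a) (w a)) := by
  have h1 : PolyTime (fun a => if k a = L a then 3 * w a else 0) :=
    PolyTime.ite (c := fun a => k a = L a) (PolyTime.eq hk hL) ((PolyTime.const 3).mul hw)
      (PolyTime.const 0)
  have h2 : PolyTime (fun a => Ql (((([] : List ℕ) :: Y a).getD (k a) []).tail) (w a)) :=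
    ptQl (ptGetD [] (PolyTime.cons (PolyTime.const []) hY) hk).tail hw
  have h3 : PolyTime (fun a => Ql (zk (Y a) (k a + 1)) (w a)) := ptQl (ptZk hY hk.succ) hw
  exact (h1.add h2).add h3

private theorem ptRg {L : α → ℕ} (hL : PolyTime L)
    (bd : ∃ b, PB b ∧ ∀ a, L a ≤ b (size a)) :
    PolyTime (fun a => List.range (2 * L a + 1)) := by
  obtain ⟨b, hb, hbd⟩ := bd
  refine PolyTime.range ((PolyTime.const 2).mul hL).succ
    ⟨fun n => 2 * b n + 1, ((PB.const 2).mul hb).add (PB.const 1), fun a => ?_⟩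
  have := hbd a
  simp only
  omega

theorem ptCfgItems {L : α → ℕ} {Y : α → List (List ℕ)} (hL : PolyTime L)
    (bd : ∃ b, PB b ∧ ∀ a, L a ≤ b (size a)) (hY : PolyTime Y) :
    PolyTime (fun a => cfgItems (L a) (Y a)) := by
  have hp : PolyTime (fun p : α × ℕ => p) := PolyTime.id
  have hp2 : PolyTime (fun p : (α × ℕ) × ℕ => p) := PolyTime.id
  have h1 : PolyTime (fun p : (α × ℕ) × ℕ => vac2 (L p.1.1) (Y p.1.1) p.1.2 p.2) :=
    ptVac2 (hL.comp hp2.fst.fst) (hY.comp hp2.fst.fst) hp2.fst.snd hp2.snd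
  have h2 : PolyTime (fun p : α × ℕ => items (fun w => vac2 (L p.1) (Y p.1) p.2 w)
      (zk (Y p.1) p.2)) :=
    ptItems (f := fun p : (α × ℕ) × ℕ => vac2 (L p.1.1) (Y p.1.1) p.1.2 p.2)
      (ptZk (hY.comp hp.fst) hp.snd) h1
  exact PolyTime.flatMap (g := fun p : α × ℕ => items (fun w => vac2 (L p.1) (Y p.1) p.2 w)
      (zk (Y p.1) p.2)) (ptRg hL bd) h2

theorem ptCfgOk {L : α → ℕ} {lam mu : α → List ℕ} {Y : α → List (List ℕ)} (hL : PolyTime L)
    (bd : ∃ b, PB b ∧ ∀ a, L a ≤ b (size a)) (hl : PolyTime lam) (hm : PolyTime mu)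
    (hY : PolyTime Y) :
    PolyTime (fun a => decide (cfgOk (L a) (lam a) (mu a) (Y a))) := by
  have hp : PolyTime (fun p : α × ℕ => p) := PolyTime.id
  have hp2 : PolyTime (fun p : (α × ℕ) × ℕ => p) := PolyTime.id
  have h1 : PolyTime (fun p : α × ℕ => decide (((Y p.1).getD p.2 []).headD 0 = 0)) :=
    PolyTime.eq (PolyTime.headD 0 (ptGetD [] (hY.comp hp.fst) hp.snd)) (PolyTime.const 0)
  have hz : PolyTime (fun p : α × ℕ => zk (Y p.1) p.2) := ptZk (hY.comp hp.fst) hp.snd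
  have h2 : PolyTime (fun p : α × ℕ => decide (sortedB (zk (Y p.1) p.2) = true)) :=
    PolyTime.eq (ptSorted hz) (PolyTime.const true)
  have h3 : PolyTime (fun p : α × ℕ => decide ((zk (Y p.1) p.2).sum =
      Dl (L p.1) (lam p.1) (mu p.1) p.2)) :=
    PolyTime.eq hz.sum (ptDl (hL.comp hp.fst) hp.snd (hl.comp hp.fst) (hm.comp hp.fst))
  have h4 : PolyTime (fun p : (α × ℕ) × ℕ => decide (2 * Ql (zk (Y p.1.1) p.1.2) p.2 ≤
      vac2 (L p.1.1) (Y p.1.1) p.1.2 p.2)) :=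
    PolyTime.le ((PolyTime.const 2).mul (ptQl (ptZk (hY.comp hp2.fst.fst) hp2.fst.snd) hp2.snd))
      (ptVac2 (hL.comp hp2.fst.fst) (hY.comp hp2.fst.fst) hp2.fst.snd hp2.snd)
  have h5 : PolyTime (fun p : α × ℕ => decide (∀ w ∈ zk (Y p.1) p.2,
      2 * Ql (zk (Y p.1) p.2) w ≤ vac2 (L p.1) (Y p.1) p.2 w)) :=
    PolyTime.forallMem (P := fun (p : α × ℕ) (w : ℕ) => 2 * Ql (zk (Y p.1) p.2) w ≤
      vac2 (L p.1) (Y p.1) p.2 w) hz h4
  have h6 := PolyTime.forallMem (P := fun (a : α) (k : ℕ) => ((Y a).getD k []).headD 0 = 0 ∧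
      sortedB (zk (Y a) k) = true ∧ (zk (Y a) k).sum = Dl (L a) (lam a) (mu a) k ∧
      ∀ w ∈ zk (Y a) k, 2 * Ql (zk (Y a) k) w ≤ vac2 (L a) (Y a) k w) (ptRg hL bd)
    (PolyTime.decAnd h1 (PolyTime.decAnd h2 (PolyTime.decAnd h3 h5)))
  refine h6.congr (fun a => ?_)
  refine decide_eq_decide.2 ?_
  unfold cfgOk
  simp only [List.mem_range]

end Pool.Agent.H18.KR
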