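import Pool.Agent.H18.KR.StrO
import Pool.Agent.H18.KR.SrtB
import Pool.Agent.H18.KR.KohT

/-!
# Module StpC (about 200 lines). One step of the machine: `m ≥ 2`.

`blks b R = lists (range (2^b)) (R+1)`; by `sum_lists_succ` the sum is `Σ_{h < 2^b} Σ_{z ∈ lists (range (2^b)) R}`
with `y = h :: z` (`headD = h`, `tail = z`). For `h = t` with `t(2m-2) ≤ P` (then `t ≤ P < 2^b` and
`t ∈ range (P+1)`), put `Pt = P - t(2m-2)`. The sum over the `z` that are sorted with sum `m` and head `≥ 2` and
with `2 Ql z w ≤ (Pt + 2) w` for `w ∈ z` is by `sum_sorted` (`d = m ≤ R < 2^b = B`; `cnt α ≤ sz α = m ≤ R`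
automatically) the sum over `α ∈ Ad Pt m`: `α = strOf z`; `α 0 = z.count 1 = m` iff all positive entries
are `1` iff the head is `≤ 1` (`z` sorted, sum `m`); `vk Pt α i = (Pt+2)(i+1) - 2 Ql z (i+1) ≥ 0` for
`i + 1 ∈ z` (`mem_support_strOf`, `Qw_strOf`). By `prod_items` with `g P' a = gh s (P' : ℤ) a` the value of the new
state is `ch2 s c * ∏ gh s (vk Pt α i) (α i) * ∏ rest` (natural subtraction is exact). `kohT`.
-/

set_option autoImplicit false

namespace Pool.Agent.H18.KR

open Finset

variable {F : Type} [Field F] {s : F}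

private lemma stpC_count_le (l : List ℕ) : l.count 1 ≤ l.sum := by
  induction l with
  | nil => simp
  | cons x l ih =>
    rw [List.count_cons, List.sum_cons]
    by_cases h : x = 1
    · subst h
      simp only [BEq.rfl, if_true]
      omega
    · have h1 : (x == 1) = false := by simp [h]
      simp only [h1, Bool.false_eq_true, if_false]
      omega

private lemma stpC_count_eq (l : List ℕ) (h : ∀ x ∈ l, x ≤ 1) : l.count 1 = l.sum := by
  induction l with
  | nil => simp
  | cons x l ih =>
    rw [List.count_cons, List.sum_cons, ih fun y hy => h y (List.mem_cons_of_mem _ hy)]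
    have hx := h x List.mem_cons_self
    by_cases h1 : x = 1
    · subst h1
      simp only [BEq.rfl, if_true]
      omega
    · have h2 : (x == 1) = false := by simp [h1]
      simp only [h2, Bool.false_eq_true, if_false]
      omega

private lemma stpC_head {l : List ℕ} (hs : sortedB l = true) : ∀ x ∈ l, x ≤ l.headD 0 := by
  rw [sortedB_iff] at hs
  cases l with
  | nil => simp
  | cons y l =>
    intro x hx
    rw [List.headD_cons]
    rcases List.mem_cons.1 hx with rfl | h
    · exact le_refl _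
    · exact (List.pairwise_cons.1 hs).1 x h

private lemma stpC_iff {l : List ℕ} {m : ℕ} (hs : sortedB l = true) (hm : l.sum = m) :
    2 ≤ l.headD 0 ↔ strOf l 0 ≠ m := by
  rw [strOf_apply]
  constructor
  · intro h1 h2
    cases l with
    | nil => simp at h1
    | cons y l =>
      rw [List.headD_cons] at h1
      rw [List.count_cons] at h2
      have h3 : (y == 0 + 1) = false := by
        simp
        omega
      simp only [h3, Bool.false_eq_true, if_false] at h2
      have h4 : l.count (0 + 1) ≤ l.sum := stpC_count_le l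
      rw [List.sum_cons] at hm
      omega
  · intro h1
    by_contra h2
    apply h1
    rw [← hm]
    exact stpC_count_eq l fun x hx => by
      have := stpC_head hs x hx
      omega

private lemma stpC_adm (l : List ℕ) (Pt : ℕ) :
    (∀ w ∈ l, 2 * Ql l w ≤ (Pt + 2) * w) ↔
      ∀ i ∈ (strOf l).support, 0 ≤ vk (Pt : ℤ) (strOf l) i := by
  constructor
  · intro h i hi
    have h1 := h (i + 1) (mem_support_strOf.1 hi)
    rw [vk, Qw_strOf]
    have h2 : ((2 * Ql l (i + 1) : ℕ) : ℤ) ≤ (((Pt + 2) * (i + 1) : ℕ) : ℤ) := by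
      exact_mod_cast h1
    push_cast at h2
    linarith
  · intro h w hw
    cases w with
    | zero =>
      have h1 : Ql l 0 = 0 := by
        unfold Ql
        simp
      rw [h1]
      omega
    | succ i =>
      have h1 := h i (mem_support_strOf.2 hw)
      rw [vk, Qw_strOf] at h1
      have h2 : ((2 * Ql l (i + 1) : ℕ) : ℤ) ≤ (((Pt + 2) * (i + 1) : ℕ) : ℤ) := by
        push_cast
        linarith
      exact_mod_cast h2

private lemma stpC_vl (s : F) (l : List ℕ) (Pt c : ℕ) (rest : List (ℕ × ℕ))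
    (h : ∀ w ∈ l, 2 * Ql l w ≤ (Pt + 2) * w) :
    vl s (items (fun w => (Pt + 2) * w) l ++ rest, c) =
      ch2 s c * (rest.map fun x => gh s (x.1 : ℤ) x.2).prod *
        (strOf l).prod fun i a => gh s (vk (Pt : ℤ) (strOf l) i) a := by
  rw [vl]
  simp only [List.map_append, List.prod_append]
  rw [prod_items (fun w => (Pt + 2) * w) l (fun P a => gh s (P : ℤ) a)]
  have h1 : ((strOf l).prod fun i a => gh s ((((Pt + 2) * (i + 1) -
      2 * Qw (strOf l) (i + 1) : ℕ)) : ℤ) a) =
      (strOf l).prod fun i a => gh s (vk (Pt : ℤ) (strOf l) i) a := by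
    refine Finsupp.prod_congr fun i hi => ?_
    have h2 := h (i + 1) (mem_support_strOf.1 hi)
    rw [← Qw_strOf] at h2
    rw [vk, Nat.cast_sub h2]
    push_cast
    rfl
  rw [h1]
  ring

theorem step_sum_two (hs0 : s ≠ 0) (hs : ∀ n : ℕ, 0 < n → (s ^ 2) ^ n ≠ 1) (b R P m c : ℕ)
    (rest : List (ℕ × ℕ)) (hm : 2 ≤ m) (hmR : m ≤ R) (hR : R < 2 ^ b) (hP : P < 2 ^ b) :
    ∑ y ∈ blks b R, (stepB y ((P, m) :: rest, c)).elim 0 (vl s) =
      vl s ((P, m) :: rest, c) := by
  classical
  set K : F := ch2 s c * (rest.map fun x => gh s (x.1 : ℤ) x.2).prod with hK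
  set G : ℕ → Str → F := fun Pt α =>
    if α 0 ≠ m ∧ ∀ i ∈ α.support, 0 ≤ vk (Pt : ℤ) α i then
      K * α.prod fun i a => gh s (vk (Pt : ℤ) α i) a else 0 with hG
  have hval : ∀ (a : ℕ) (l : List ℕ),
      (stepB (a :: l) ((P, m) :: rest, c)).elim 0 (vl s) =
        if a * (2 * m - 2) ≤ P then
          (if sortedB l = true ∧ l.sum = m then G (P - a * (2 * m - 2)) (strOf l) else 0)
        else 0 := by
    intro a l
    have hm1 : m ≠ 1 := by omega
    have hst : stepB (a :: l) ((P, m) :: rest, c) =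
        if a * (2 * m - 2) ≤ P ∧ sortedB l = true ∧ l.sum = m ∧ 2 ≤ l.headD 0 ∧
          ∀ w ∈ l, 2 * Ql l w ≤ (P - a * (2 * m - 2) + 2) * w then
          some (items (fun w => (P - a * (2 * m - 2) + 2) * w) l ++ rest, c)
        else none := by
      change (if m = 1 then _ else _) = _
      rw [if_neg hm1]
      rfl
    rw [hst]
    by_cases h1 : a * (2 * m - 2) ≤ P
    · rw [if_pos h1]
      by_cases h2 : sortedB l = true ∧ l.sum = m
      · rw [if_pos h2]
        simp only [hG]
        have h3 := stpC_iff h2.1 h2.2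
        have h4 := stpC_adm l (P - a * (2 * m - 2))
        by_cases h5 : strOf l 0 ≠ m ∧
            ∀ i ∈ (strOf l).support, 0 ≤ vk ((P - a * (2 * m - 2) : ℕ) : ℤ) (strOf l) i
        · rw [if_pos h5, if_pos ⟨h1, h2.1, h2.2, h3.2 h5.1, h4.2 h5.2⟩]
          change vl s _ = _
          rw [stpC_vl s l _ c rest (h4.2 h5.2)]
        · rw [if_neg h5, if_neg fun h6 => h5 ⟨h3.1 h6.2.2.2.1, h4.1 h6.2.2.2.2⟩]
          rfl
      · rw [if_neg h2, if_neg fun h6 => h2 ⟨h6.2.1, h6.2.2.1⟩]
        rfl
    · rw [if_neg h1, if_neg fun h6 => h1 h6.1]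
      rfl
  have hin : ∀ Pt : ℕ, ∑ l ∈ lists (range (2 ^ b)) R,
      (if sortedB l = true ∧ l.sum = m then G Pt (strOf l) else 0) =
      K * ∑ α ∈ Ad Pt m, α.prod fun i a => gh s (vk (Pt : ℤ) α i) a := by
    intro Pt
    rw [← Finset.sum_filter, sum_sorted (2 ^ b) R m (lt_of_le_of_lt hmR hR) (G Pt)]
    have h1 : (Pd m).filter (fun α => cnt α ≤ R) = Pd m := by
      refine Finset.filter_true_of_mem fun α hα => ?_
      have h2 := cnt_le_sz α
      rw [mem_Pd.1 hα] at h2
      omega
    rw [h1, hG, ← Finset.sum_filter, Finset.mul_sum]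
    rfl
  unfold blks
  rw [sum_lists_succ]
  have hout : ∀ a ∈ range (2 ^ b), ∑ l ∈ lists (range (2 ^ b)) R,
      (stepB (a :: l) ((P, m) :: rest, c)).elim 0 (vl s) =
      if a * (2 * m - 2) ≤ P then
        K * ∑ α ∈ Ad (P - a * (2 * m - 2)) m,
          α.prod fun i a' => gh s (vk ((P - a * (2 * m - 2) : ℕ) : ℤ) α i) a'
      else 0 := by
    intro a _
    rw [Finset.sum_congr rfl fun l _ => hval a l]
    by_cases h1 : a * (2 * m - 2) ≤ P
    · simp only [if_pos h1]
      exact hin _
    · simp only [if_neg h1]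
      exact Finset.sum_const_zero
  rw [Finset.sum_congr rfl hout, ← Finset.sum_filter]
  have hset : (range (2 ^ b)).filter (fun a => a * (2 * m - 2) ≤ P) =
      (range (P + 1)).filter (fun t => t * (2 * m - 2) ≤ P) := by
    ext a
    rw [Finset.mem_filter, Finset.mem_filter, Finset.mem_range, Finset.mem_range]
    constructor
    · rintro ⟨_, h2⟩
      refine ⟨?_, h2⟩
      have h3 : a * 1 ≤ a * (2 * m - 2) := Nat.mul_le_mul_left a (by omega)
      omega
    · rintro ⟨h1, h2⟩
      exact ⟨by omega, h2⟩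
  rw [hset, ← Finset.mul_sum, ← kohT hs0 hs P m hm, hK, vl]
  simp only [List.map_cons, List.prod_cons]
  ring

end Pool.Agent.H18.KR
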