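import Pool.Agent.H18.KR.StpA
import Pool.Agent.H18.KR.StpC

/-!
# Module Stp1. One step of the machine preserves the value (complete).
-/

set_option autoImplicit false

namespace Pool.Agent.H18.KR

open Finset

variable {F : Type} [Field F] {s : F}

theorem step_sum (hs0 : s ≠ 0) (hs : ∀ n : ℕ, 0 < n → (s ^ 2) ^ n ≠ 1) (b R : ℕ) (σ : St)
    (hg : Good R σ) (hR : R < 2 ^ b) (hP : Phi σ < 2 ^ b) :
    ∑ y ∈ blks b R, (stepB y σ).elim 0 (vl s) = vl s σ := by
  obtain ⟨l, c⟩ := σ
  cases l with
  | nil => exact step_sum_nil s b R c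
  | cons x rest =>
    obtain ⟨P, m⟩ := x
    have hm := hg (P, m) (List.mem_cons_self ..)
    simp only at hm
    simp only [Phi, List.map_cons, List.sum_cons] at hP
    have h1 : P ≤ P * m := Nat.le_mul_of_pos_right P (by omega)
    by_cases h : m = 1
    · subst h
      exact step_sum_one hs0 hs b R P c rest (by omega)
    · exact step_sum_two hs0 hs b R P m c rest (by omega) hm.2 hR (by omega)

end Pool.Agent.H18.KR
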