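import Pool.Agent.H18.KR.StrO
import Pool.Agent.H18.KR.LstB
import Pool.Agent.H18.KR.Ch2

/-!
# Module StpA (about 120 lines). One step of the machine: no items, or `m = 1`.

`blks b R = lists (range (2^b)) (R+1)`; by `sum_lists_succ` the sum is `Σ_{h < 2^b} Σ_{z ∈ lists (range (2^b)) R}`
with `y = h :: z` (`headD = h`, `tail = z`).
* `step_sum_nil`: only `y = 0…0` (`List.replicate (R+1) 0`) is accepted.
* `step_sum_one` (`m = 1`): `z = 0…0` and `h = c' ∈ CG c P` (the conditions say this; `c' ≤ c + P < 2^b`), so the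
  sum is `(Σ_{c' ∈ CG c P} ch2 s c') ∏ rest = ch2 s c * ch2 s P * ∏ rest` (`ch2_mul`, `gh_one`).
-/

set_option autoImplicit false

namespace Pool.Agent.H18.KR

open Finset

variable {F : Type} [Field F] {s : F}

theorem StpA.sum_zero {M : Type} [AddCommMonoid M] (b n : ℕ) (a : M) :
    ∑ y ∈ lists (range (2 ^ b)) n, (if ∀ x ∈ y, x = 0 then a else 0) = a := by
  rw [Finset.sum_eq_single (List.replicate n 0)]
  · rw [if_pos]
    intro x hx
    exact List.eq_of_mem_replicate hx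
  · intro y hy hne
    rw [if_neg]
    intro h
    rw [mem_lists] at hy
    exact hne (List.eq_replicate_iff.2 ⟨hy.1, h⟩)
  · intro h
    exfalso
    apply h
    rw [mem_lists]
    refine ⟨List.length_replicate, fun x hx => ?_⟩
    rw [List.eq_of_mem_replicate hx]
    exact mem_range.2 (Nat.two_pow_pos b)

theorem step_sum_nil (s : F) (b R c : ℕ) :
    ∑ y ∈ blks b R, (stepB y ([], c)).elim 0 (vl s) = vl s ([], c) := by
  unfold blks
  rw [← StpA.sum_zero b (R + 1) (vl s ([], c))]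
  refine Finset.sum_congr rfl fun y _ => ?_
  unfold stepB
  simp only
  split_ifs <;> rfl

theorem StpA.step_one (h c P : ℕ) (z : List ℕ) (rest : List (ℕ × ℕ)) :
    (stepB (h :: z) ((P, 1) :: rest, c)).elim 0 (vl s) =
      if (c ≤ h + P ∧ P ≤ h + c ∧ h ≤ c + P ∧ (c + P + h) % 2 = 0) then
        (if ∀ x ∈ z, x = 0 then vl s (rest, h) else 0) else 0 := by
  unfold stepB
  simp only [if_true, List.headD_cons, List.tail_cons]
  by_cases h1 : c ≤ h + P ∧ P ≤ h + c ∧ h ≤ c + P ∧ (c + P + h) % 2 = 0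
  · rw [if_pos h1]
    obtain ⟨a1, a2, a3, a4⟩ := h1
    by_cases h2 : ∀ x ∈ z, x = 0
    · rw [if_pos h2, if_pos ⟨a1, a2, a3, a4, h2⟩]
      rfl
    · rw [if_neg h2, if_neg (fun h => h2 h.2.2.2.2)]
      rfl
  · rw [if_neg h1, if_neg (fun h => h1 ⟨h.1, h.2.1, h.2.2.1, h.2.2.2.1⟩)]
    rfl

theorem step_sum_one (hs0 : s ≠ 0) (hs : ∀ n : ℕ, 0 < n → (s ^ 2) ^ n ≠ 1) (b R P c : ℕ)
    (rest : List (ℕ × ℕ)) (hP : c + P < 2 ^ b) :
    ∑ y ∈ blks b R, (stepB y ((P, 1) :: rest, c)).elim 0 (vl s) =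
      vl s ((P, 1) :: rest, c) := by
  unfold blks
  rw [sum_lists_succ]
  have h1 : ∀ h ∈ range (2 ^ b), ∑ z ∈ lists (range (2 ^ b)) R,
      (stepB (h :: z) ((P, 1) :: rest, c)).elim 0 (vl s) =
      if (c ≤ h + P ∧ P ≤ h + c ∧ h ≤ c + P ∧ (c + P + h) % 2 = 0) then vl s (rest, h) else 0 := by
    intro h _
    rw [Finset.sum_congr rfl fun z _ => StpA.step_one h c P z rest]
    by_cases h1 : c ≤ h + P ∧ P ≤ h + c ∧ h ≤ c + P ∧ (c + P + h) % 2 = 0
    · simp only [if_pos h1]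
      exact StpA.sum_zero b R _
    · simp only [if_neg h1]
      exact Finset.sum_const_zero
  rw [Finset.sum_congr rfl h1, ← Finset.sum_filter]
  have h2 : (range (2 ^ b)).filter (fun h => c ≤ h + P ∧ P ≤ h + c ∧ h ≤ c + P ∧
      (c + P + h) % 2 = 0) = CG c P := by
    unfold CG
    ext x
    rw [mem_filter, mem_filter, mem_range, mem_range]
    omega
  rw [h2]
  have hs2 : s ^ 2 ≠ 1 := by
    have h := hs 1 Nat.one_pos
    rwa [pow_one] at h
  unfold vl
  simp only [List.map_cons, List.prod_cons]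
  rw [gh_one hs0 hs, ← Finset.sum_mul, ← ch2_mul hs0 hs2]
  ring

end Pool.Agent.H18.KR
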