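import Pool.Agent.H18.KR.Defs

/-!
# Module StrB (about 180 lines). Basic properties of strings.

Recall: `α i` is the number of strings of width `i + 1`; `sz` total width, `cnt` number,
`Qw α w = Σ min(w, width)`, `fm α β = Σ Σ min(width, width')`.

Everything is `Finsupp.sum_add_index'`, `Finsupp.sum_single_index`, and sums over supports.
`mem_Pd`: if `sz α = d` then every `i` in the support satisfies `i + 1 ≤ d` and `α i ≤ d`
(`Finset.single_le_sum`), and `Finset.mem_finsupp_iff`. `fm_comm`: `fm α β = Σ_i Σ_j α i * β j *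
min (i+1) (j+1)` (`Finset.sum_comm`). `sz_le_fm`: the diagonal terms `a * min(i+1)(i+1) * a ≥
(i+1) a`.
-/

set_option autoImplicit false

namespace Pool.Agent.H18.KR

open Finset

theorem sz_zero : sz 0 = 0 := by simp [sz]
theorem cnt_zero : cnt 0 = 0 := by simp [cnt]
theorem Qw_zero (w : ℕ) : Qw 0 w = 0 := by simp [Qw]
theorem Qw_w0 (α : Str) : Qw α 0 = 0 := by simp [Qw]
theorem fm_zero_left (α : Str) : fm 0 α = 0 := by simp [fm]
theorem fm_zero_right (α : Str) : fm α 0 = 0 := by simp [fm, Qw]

theorem sz_add (α β : Str) : sz (α + β) = sz α + sz β := by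
  unfold sz
  exact Finsupp.sum_add_index' (fun i => by simp) (fun i a b => by ring)

theorem cnt_add (α β : Str) : cnt (α + β) = cnt α + cnt β := by
  unfold cnt
  exact Finsupp.sum_add_index' (fun i => rfl) (fun i a b => rfl)

theorem Qw_add (α β : Str) (w : ℕ) : Qw (α + β) w = Qw α w + Qw β w := by
  unfold Qw
  exact Finsupp.sum_add_index' (fun i => by simp) (fun i a b => by ring)

theorem sz_single (i a : ℕ) : sz (Finsupp.single i a) = (i + 1) * a := by
  unfold sz
  exact Finsupp.sum_single_index (by simp)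

theorem cnt_single (i a : ℕ) : cnt (Finsupp.single i a) = a := by
  unfold cnt
  exact Finsupp.sum_single_index rfl

theorem Qw_single (i a w : ℕ) : Qw (Finsupp.single i a) w = min w (i + 1) * a := by
  unfold Qw
  exact Finsupp.sum_single_index (by simp)

theorem fm_add_left (α β γ : Str) : fm (α + β) γ = fm α γ + fm β γ := by
  unfold fm
  exact Finsupp.sum_add_index' (fun i => by simp) (fun i a b => by ring)

theorem fm_add_right (α β γ : Str) : fm α (β + γ) = fm α β + fm α γ := by
  unfold fm
  rw [← Finsupp.sum_add]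
  refine Finsupp.sum_congr fun i _ => ?_
  rw [Qw_add, mul_add]

theorem fm_comm (α β : Str) : fm α β = fm β α := by
  unfold fm Qw
  simp only [Finsupp.sum, Finset.mul_sum]
  rw [Finset.sum_comm]
  refine Finset.sum_congr rfl fun j _ => Finset.sum_congr rfl fun i _ => ?_
  rw [min_comm (i + 1) (j + 1)]
  ring

theorem fm_single_left (i a : ℕ) (β : Str) : fm (Finsupp.single i a) β = a * Qw β (i + 1) := by
  unfold fm
  exact Finsupp.sum_single_index (by simp)

theorem fm_single_right (i a : ℕ) (β : Str) : fm β (Finsupp.single i a) = a * Qw β (i + 1) := by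
  rw [fm_comm, fm_single_left]

theorem sz_sum {ι : Type} (s : Finset ι) (f : ι → Str) : sz (∑ i ∈ s, f i) = ∑ i ∈ s, sz (f i) := by
  let φ : Str →+ ℕ := { toFun := sz, map_zero' := sz_zero, map_add' := sz_add }
  exact map_sum φ f s

theorem Qw_sum {ι : Type} (s : Finset ι) (f : ι → Str) (w : ℕ) :
    Qw (∑ i ∈ s, f i) w = ∑ i ∈ s, Qw (f i) w := by
  let φ : Str →+ ℕ :=
    { toFun := fun α => Qw α w, map_zero' := Qw_zero w, map_add' := fun α β => Qw_add α β w }
  exact map_sum φ f s

theorem fm_sum_left {ι : Type} (s : Finset ι) (f : ι → Str) (γ : Str) :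
    fm (∑ i ∈ s, f i) γ = ∑ i ∈ s, fm (f i) γ := by
  let φ : Str →+ ℕ :=
    { toFun := fun α => fm α γ, map_zero' := fm_zero_left γ,
      map_add' := fun α β => fm_add_left α β γ }
  exact map_sum φ f s

theorem le_sz {α : Str} {i : ℕ} (h : i ∈ α.support) : i + 1 ≤ sz α := by
  have h1 : 1 ≤ α i := Nat.one_le_iff_ne_zero.2 (Finsupp.mem_support_iff.1 h)
  have h2 : (i + 1) * α i ≤ sz α :=
    Finset.single_le_sum (f := fun i => (i + 1) * α i) (fun _ _ => Nat.zero_le _) h
  calc i + 1 = (i + 1) * 1 := (mul_one _).symm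
    _ ≤ (i + 1) * α i := Nat.mul_le_mul_left _ h1
    _ ≤ sz α := h2

theorem apply_le_sz (α : Str) (i : ℕ) : α i ≤ sz α := by
  by_cases h : i ∈ α.support
  · have h2 : (i + 1) * α i ≤ sz α :=
      Finset.single_le_sum (f := fun i => (i + 1) * α i) (fun _ _ => Nat.zero_le _) h
    calc α i = 1 * α i := (one_mul _).symm
      _ ≤ (i + 1) * α i := Nat.mul_le_mul_right _ (Nat.le_add_left 1 i)
      _ ≤ sz α := h2
  · rw [Finsupp.notMem_support_iff.1 h]
    exact Nat.zero_le _

theorem mem_Pd {d : ℕ} {α : Str} : α ∈ Pd d ↔ sz α = d := by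
  unfold Pd
  rw [mem_filter, Finset.mem_finsupp_iff]
  constructor
  · rintro ⟨-, h⟩
    exact h
  · intro h
    refine ⟨⟨fun i hi => ?_, fun i _ => ?_⟩, h⟩
    · rw [mem_range]
      have := le_sz hi
      omega
    · rw [mem_range]
      have := apply_le_sz α i
      omega

/-- all widths are at most `w` -/
theorem Qw_eq_sz {α : Str} {w : ℕ} (h : ∀ i ∈ α.support, i < w) : Qw α w = sz α := by
  unfold Qw sz
  refine Finset.sum_congr rfl fun i hi => ?_
  have h1 := h i hi
  change min w (i + 1) * α i = (i + 1) * α i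
  rw [min_eq_right (by omega : i + 1 ≤ w)]

theorem Qw_le_sz (α : Str) (w : ℕ) : Qw α w ≤ sz α := by
  unfold Qw sz
  exact Finset.sum_le_sum fun i _ => Nat.mul_le_mul_right _ (min_le_right _ _)

/-- all widths are at least `w` -/
theorem Qw_eq_mul {α : Str} {w : ℕ} (h : ∀ i ∈ α.support, w ≤ i + 1) : Qw α w = w * cnt α := by
  unfold Qw cnt Finsupp.sum
  rw [Finset.mul_sum]
  refine Finset.sum_congr rfl fun i hi => ?_
  change min w (i + 1) * α i = w * α i
  rw [min_eq_left (h i hi)]

theorem Qw_one (α : Str) : Qw α 1 = cnt α := by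
  rw [Qw_eq_mul (fun i _ => Nat.le_add_left 1 i), one_mul]

theorem Qw_mono (α : Str) {w w' : ℕ} (h : w ≤ w') : Qw α w ≤ Qw α w' := by
  unfold Qw
  exact Finset.sum_le_sum fun i _ => Nat.mul_le_mul_right _ (min_le_min_right _ h)

/-- the second difference of `Qw` -/
theorem Qw_second (α : Str) (w : ℕ) : 2 * Qw α (w + 1) = Qw α w + Qw α (w + 2) + α w := by
  induction α using Finsupp.induction_linear with
  | zero => simp [Qw]
  | add α β ha hb =>
    rw [Qw_add, Qw_add, Qw_add, Finsupp.add_apply]
    omega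
  | single i a =>
    rw [Qw_single, Qw_single, Qw_single]
    rcases lt_trichotomy i w with h | h | h
    · rw [Finsupp.single_eq_of_ne (by omega), min_eq_right (by omega), min_eq_right (by omega),
        min_eq_right (by omega)]
      ring
    · rw [h, Finsupp.single_eq_same, min_eq_left (by omega), min_eq_left (by omega),
        min_eq_right (by omega)]
      ring
    · rw [Finsupp.single_eq_of_ne (by omega), min_eq_left (by omega), min_eq_left (by omega),
        min_eq_left (by omega)]
      ring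

theorem cnt_le_sz (α : Str) : cnt α ≤ sz α := by
  rw [← Qw_one]
  exact Qw_le_sz α 1

theorem sz_le_fm (α : Str) : sz α ≤ fm α α := by
  unfold fm
  refine Finset.sum_le_sum fun i hi => ?_
  have h1 : 1 ≤ α i := Nat.one_le_iff_ne_zero.2 (Finsupp.mem_support_iff.1 hi)
  have h2 : min (i + 1) (i + 1) * α i ≤ Qw α (i + 1) :=
    Finset.single_le_sum (f := fun j => min (i + 1) (j + 1) * α j) (fun _ _ => Nat.zero_le _) hi
  rw [min_self] at h2
  calc (i + 1) * α i = α i * ((i + 1) * 1) := by ring
    _ ≤ α i * ((i + 1) * α i) := Nat.mul_le_mul_left _ (Nat.mul_le_mul_left _ h1)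
    _ ≤ α i * Qw α (i + 1) := Nat.mul_le_mul_left _ h2

theorem sz_eq_zero {α : Str} : sz α = 0 ↔ α = 0 := by
  constructor
  · intro h
    ext i
    have := apply_le_sz α i
    rw [h] at this
    exact Nat.le_zero.1 this
  · rintro rfl
    exact sz_zero

theorem Pd_zero : Pd 0 = {0} := by
  ext α
  rw [mem_Pd, sz_eq_zero, mem_singleton]

theorem qfp_zero {F : Type} [Field F] (q : F) : qfp q 0 = 1 := by simp [qfp]

theorem qfp_ne {F : Type} [Field F] {q : F} (hq : ∀ n : ℕ, 0 < n → q ^ n ≠ 1) (α : Str) :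
    qfp q α ≠ 0 := by
  unfold qfp
  refine Finset.prod_ne_zero_iff.2 fun i _ => ?_
  refine Finset.prod_ne_zero_iff.2 fun j _ => ?_
  exact sub_ne_zero.2 (hq (j + 1) (Nat.succ_pos j)).symm

end Pool.Agent.H18.KR
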