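import Pool.Agent.H18.KR.Defs4
import Pool.Agent.H18.KR.StrB

/-!
# Module StrO (about 200 lines). Lists of widths as strings.

`strOf z = Σ_{x ∈ z, x > 0} single (x - 1) 1`. `sz`, `Qw · w`, `cnt` are additive (`sz_add`, `Qw_add`,
`cnt_add` of module StrB) and known on `single`; induction on the list. `distinct`: the accumulator
has no duplicates and contains exactly the nonzero entries read so far (prove this for `foldl` with a
general start). `prod_strOf`: both sides are the product over the distinct positive `w` of
`f w (z.count w)` (`strOf_apply`, `List.prod_map` over a nodup list as a `Finset.prod`: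
`List.prod_toFinset`; the support of `strOf z` is the image of `distinct z` under `w ↦ w - 1`).
`prod_items` is `prod_strOf` with `Qw_strOf`. `sum_count`: the sum of the multiplicities of the distinct
positive entries is at most the length; with weights `w` it is the sum.
-/

set_option autoImplicit false

namespace Pool.Agent.H18.KR

open Finset

variable {M : Type} [CommMonoid M]

theorem strOf_nil : strOf [] = 0 := by
  simp [strOf]

theorem strOf_cons (x : ℕ) (z : List ℕ) :
    strOf (x :: z) = (if x = 0 then 0 else Finsupp.single (x - 1) 1) + strOf z := by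
  simp [strOf]

theorem strOf_apply (z : List ℕ) (i : ℕ) : strOf z i = z.count (i + 1) := by
  induction z with
  | nil => simp [strOf_nil]
  | cons x z ih =>
    rw [strOf_cons, Finsupp.add_apply, ih, List.count_cons]
    by_cases hx : x = 0
    · subst hx
      simp
    · rw [if_neg hx]
      by_cases h : x = i + 1
      · subst h
        simp [add_comm]
      · rw [Finsupp.single_eq_of_ne (by omega)]
        simp [h]

theorem mem_support_strOf {z : List ℕ} {i : ℕ} : i ∈ (strOf z).support ↔ i + 1 ∈ z := by
  rw [Finsupp.mem_support_iff, strOf_apply, ← List.count_pos_iff, Nat.pos_iff_ne_zero]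

theorem sz_strOf (z : List ℕ) : sz (strOf z) = z.sum := by
  induction z with
  | nil => simp [strOf_nil, sz_zero]
  | cons x z ih =>
    rw [strOf_cons, sz_add, ih, List.sum_cons]
    by_cases hx : x = 0
    · subst hx
      simp [sz_zero]
    · rw [if_neg hx, sz_single]
      congr 1
      omega

theorem cnt_strOf_cons_le (x : ℕ) (z : List ℕ) :
    cnt (strOf (x :: z)) ≤ (if x = 0 then 0 else 1) + cnt (strOf z) := by
  rw [strOf_cons, cnt_add]
  by_cases hx : x = 0
  · simp [hx, cnt_zero]
  · rw [if_neg hx, if_neg hx, cnt_single]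

theorem cnt_strOf_le (z : List ℕ) : cnt (strOf z) ≤ z.length := by
  induction z with
  | nil => simp [strOf_nil, cnt_zero]
  | cons x z ih =>
    refine (cnt_strOf_cons_le x z).trans ?_
    rw [List.length_cons]
    split_ifs <;> omega

theorem Ql_cons (x : ℕ) (z : List ℕ) (w : ℕ) : Ql (x :: z) w = min w x + Ql z w := by
  simp [Ql]

theorem Qw_strOf (z : List ℕ) (w : ℕ) : Qw (strOf z) w = Ql z w := by
  induction z with
  | nil => simp [strOf_nil, Qw_zero, Ql]
  | cons x z ih =>
    rw [strOf_cons, Qw_add, ih, Ql_cons]
    by_cases hx : x = 0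
    · subst hx
      simp [Qw_zero]
    · rw [if_neg hx, Qw_single, mul_one, Nat.sub_add_cancel (Nat.pos_of_ne_zero hx)]

theorem Ql_le_sum (z : List ℕ) (w : ℕ) : Ql z w ≤ z.sum := by
  induction z with
  | nil => simp [Ql]
  | cons x z ih =>
    rw [Ql_cons, List.sum_cons]
    exact add_le_add (min_le_right _ _) ih

theorem le_Ql {z : List ℕ} {w : ℕ} (h : w ∈ z) : w ≤ Ql z w := by
  induction z with
  | nil => simp at h
  | cons x z ih =>
    rw [Ql_cons]
    rcases List.mem_cons.1 h with rfl | h
    · rw [min_self]
      exact Nat.le_add_right _ _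
    · exact (ih h).trans (Nat.le_add_left _ _)

theorem mem_distinct_aux {w : ℕ} (z : List ℕ) : ∀ acc : List ℕ,
    (w ∈ z.foldl (fun acc x => if x = 0 ∨ x ∈ acc then acc else x :: acc) acc ↔
      w ∈ acc ∨ (w ∈ z ∧ w ≠ 0)) := by
  induction z with
  | nil => simp
  | cons x z ih =>
    intro acc
    rw [List.foldl_cons, ih]
    by_cases hx : x = 0 ∨ x ∈ acc
    · rw [if_pos hx, List.mem_cons]
      constructor
      · rintro (h | ⟨h, h0⟩)
        · exact Or.inl h
        · exact Or.inr ⟨Or.inr h, h0⟩
      · rintro (h | ⟨h | h, h0⟩)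
        · exact Or.inl h
        · rcases hx with hx | hx
          · exact absurd (h.trans hx) h0
          · exact Or.inl (h ▸ hx)
        · exact Or.inr ⟨h, h0⟩
    · rw [if_neg hx, List.mem_cons, List.mem_cons]
      rw [not_or] at hx
      constructor
      · rintro ((h | h) | ⟨h, h0⟩)
        · exact Or.inr ⟨Or.inl h, fun h0 => hx.1 (h.symm.trans h0)⟩
        · exact Or.inl h
        · exact Or.inr ⟨Or.inr h, h0⟩
      · rintro (h | ⟨h | h, h0⟩)
        · exact Or.inl (Or.inr h)
        · exact Or.inl (Or.inl h)
        · exact Or.inr ⟨h, h0⟩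

theorem mem_distinct {z : List ℕ} {w : ℕ} : w ∈ distinct z ↔ w ∈ z ∧ w ≠ 0 := by
  unfold distinct
  rw [mem_distinct_aux]
  simp

theorem nodup_distinct_aux (z : List ℕ) : ∀ acc : List ℕ, acc.Nodup →
    (z.foldl (fun acc x => if x = 0 ∨ x ∈ acc then acc else x :: acc) acc).Nodup := by
  induction z with
  | nil => exact fun acc h => h
  | cons x z ih =>
    intro acc h
    rw [List.foldl_cons]
    apply ih
    by_cases hx : x = 0 ∨ x ∈ acc
    · rw [if_pos hx]
      exact h
    · rw [if_neg hx]
      rw [not_or] at hx
      exact List.nodup_cons.2 ⟨hx.2, h⟩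

theorem nodup_distinct (z : List ℕ) : (distinct z).Nodup :=
  nodup_distinct_aux z [] List.nodup_nil

theorem prod_strOf (z : List ℕ) (f : ℕ → ℕ → M) :
    (strOf z).prod (fun i a => f (i + 1) a) = ((distinct z).map fun w => f w (z.count w)).prod := by
  rw [← List.prod_toFinset (fun w => f w (z.count w)) (nodup_distinct z)]
  unfold Finsupp.prod
  refine Finset.prod_nbij' (fun i => i + 1) (fun w => w - 1) ?_ ?_ ?_ ?_ ?_
  · intro i hi
    rw [List.mem_toFinset, mem_distinct]
    exact ⟨mem_support_strOf.1 hi, Nat.succ_ne_zero i⟩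
  · intro w hw
    rw [List.mem_toFinset, mem_distinct] at hw
    rw [mem_support_strOf, Nat.sub_add_cancel (Nat.pos_of_ne_zero hw.2)]
    exact hw.1
  · intro i _
    rfl
  · intro w hw
    rw [List.mem_toFinset, mem_distinct] at hw
    exact Nat.sub_add_cancel (Nat.pos_of_ne_zero hw.2)
  · intro i _
    change f (i + 1) (strOf z i) = f (i + 1) (z.count (i + 1))
    rw [strOf_apply]

theorem sum_strOf {N : Type} [AddCommMonoid N] (z : List ℕ) (f : ℕ → ℕ → N) :
    (strOf z).sum (fun i a => f (i + 1) a) = ((distinct z).map fun w => f w (z.count w)).sum := by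
  rw [← List.sum_toFinset (fun w => f w (z.count w)) (nodup_distinct z)]
  unfold Finsupp.sum
  refine Finset.sum_nbij' (fun i => i + 1) (fun w => w - 1) ?_ ?_ ?_ ?_ ?_
  · intro i hi
    rw [List.mem_toFinset, mem_distinct]
    exact ⟨mem_support_strOf.1 hi, Nat.succ_ne_zero i⟩
  · intro w hw
    rw [List.mem_toFinset, mem_distinct] at hw
    rw [mem_support_strOf, Nat.sub_add_cancel (Nat.pos_of_ne_zero hw.2)]
    exact hw.1
  · intro i _
    rfl
  · intro w hw
    rw [List.mem_toFinset, mem_distinct] at hw
    exact Nat.sub_add_cancel (Nat.pos_of_ne_zero hw.2)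
  · intro i _
    change f (i + 1) (strOf z i) = f (i + 1) (z.count (i + 1))
    rw [strOf_apply]

theorem prod_items (h : ℕ → ℕ) (z : List ℕ) (g : ℕ → ℕ → M) :
    ((items h z).map fun x => g x.1 x.2).prod =
      (strOf z).prod fun i a => g (h (i + 1) - 2 * Qw (strOf z) (i + 1)) a := by
  have h1 := prod_strOf z (fun w a => g (h w - 2 * Qw (strOf z) w) a)
  refine Eq.trans ?_ h1.symm
  unfold items
  rw [List.map_map]
  congr 1
  refine List.map_congr_left fun w _ => ?_
  change g (h w - 2 * Ql z w) (z.count w) = g (h w - 2 * Qw (strOf z) w) (z.count w)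
  rw [Qw_strOf]

theorem sum_count (z : List ℕ) : ((distinct z).map fun w => w * z.count w).sum = z.sum := by
  rw [← sum_strOf z (fun w a => w * a), ← sz_strOf z]
  rfl

theorem sum_count_eq (z : List ℕ) : ((distinct z).map fun w => z.count w).sum = cnt (strOf z) := by
  rw [← sum_strOf z (fun _ a => a)]
  rfl

theorem sum_count_le (z : List ℕ) : ((distinct z).map fun w => z.count w).sum ≤ z.length := by
  rw [sum_count_eq]
  exact cnt_strOf_le z

/-- if the sum is positive and some entry is at least two, there are at most `sum - 1` positive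
entries -/
theorem sum_count_lt (z : List ℕ) (x : ℕ) (hx : x ∈ z) (h2 : 2 ≤ x) :
    ((distinct z).map fun w => z.count w).sum + 1 ≤ z.sum := by
  rw [sum_count_eq]
  induction z with
  | nil => simp at hx
  | cons y z ih =>
    have h1 := cnt_strOf_cons_le y z
    rw [List.sum_cons]
    rcases List.mem_cons.1 hx with rfl | hx
    · have h3 : cnt (strOf z) ≤ z.sum := by
        rw [← sz_strOf z]
        exact cnt_le_sz _
      rw [if_neg (by omega)] at h1
      omega
    · have h3 := ih hx
      split_ifs at h1 <;> omega

end Pool.Agent.H18.KR
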