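import Pool.Agent.H18.KR.Em
import Pool.Agent.H18.KR.SumUp
import Pool.Agent.H18.KR.PalT

/-!
# Module SymA (about 150 lines). `(q z_k; q)_∞ A(z)` is invariant under the reflection at `k`.

Let `q = s ^ 2`. By `sum_Cfg_update` and `EE_update`, for every `d : I →₀ ℕ`,
`coeff d (AA G s) = Σ_{m ∈ Cfg (update d k 0)} C(m) * aa q (nbs G m k) (d k)`,
`C(m) = s ^ EE G m / ∏_{l ≠ k} qfp q (m l)` (for `m` in this set `m k = 0`, `qfp q 0 = 1`).
The product with `em (single k 1) (epS q)`: the coefficient of `d` is
`Σ_{i + j = d k} ep q j * coeff (update d k i) (AA G s)`, so by the definition of `gg` it is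
`Σ_{m ∈ Cfg (update d k 0)} C(m) * gg q (nbs G m k) (d k)`. By `pal_gg` (module PalT) `gg q κ` is
palindromic of degree `sz κ`, and `sz (nbs G m k) = nbd G d k` by `sz_nbs`, `mem_Cfg` (`nbd_congr`).
-/

set_option autoImplicit false

namespace Pool.Agent.H18.KR

open Finset

variable {I : Type} [Fintype I] [DecidableEq I] (G : SimpleGraph I) [DecidableRel G.Adj]
variable {F : Type} [Field F] {s : F}

private lemma syma_coeff_AA (hs0 : s ≠ 0) (k : I) (d : I →₀ ℕ) :
    MvPowerSeries.coeff d (AA G s) =
      ∑ m ∈ Cfg (Function.update (fun l => d l) k 0),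
        s ^ EE G m / (∏ l, qfp (s ^ 2) (m l)) * aa (s ^ 2) (nbs G m k) (d k) := by
  change ∑ m ∈ Cfg (fun k => d k), s ^ EE G m / ∏ k, qfp (s ^ 2) (m k) = _
  rw [sum_Cfg_update (fun l => d l) k]
  refine Finset.sum_congr rfl fun m hm => ?_
  have hmk : m k = 0 := apply_eq_zero_of_mem hm
  have hup : Function.update m k 0 = m := by
    conv_rhs => rw [← Function.update_eq_self k m]
    rw [hmk]
  rw [aa, Finset.mul_sum]
  refine Finset.sum_congr rfl fun α _ => ?_
  have h1 : s ^ EE G (Function.update m k α) = s ^ EE G m *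
      (s ^ 2) ^ ((fm α α : ℤ) - (fm (nbs G m k) α : ℤ)) := by
    have h3 : (s ^ 2 : F) = s ^ (2 : ℤ) := by norm_cast
    rw [h3, ← zpow_mul, ← zpow_add₀ hs0, EE_update, hup]
  have h2 : ∏ l, qfp (s ^ 2) (Function.update m k α l) =
      (∏ l, qfp (s ^ 2) (m l)) * qfp (s ^ 2) α := by
    rw [← Finset.mul_prod_erase univ (fun l => qfp (s ^ 2) (Function.update m k α l))
      (Finset.mem_univ k), ← Finset.mul_prod_erase univ (fun l => qfp (s ^ 2) (m l))
      (Finset.mem_univ k)]
    have h4 : ∏ l ∈ univ.erase k, qfp (s ^ 2) (Function.update m k α l) =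
        ∏ l ∈ univ.erase k, qfp (s ^ 2) (m l) := by
      refine Finset.prod_congr rfl fun l hl => ?_
      rw [Function.update_of_ne (Finset.mem_erase.1 hl).1]
    rw [h4, hmk, qfp_zero, one_mul]
    simp only [Function.update_self]
    ring
  rw [h1, h2, mul_div_mul_comm]

theorem coeff_em_mul_AA (hs0 : s ≠ 0) (k : I) (d : I →₀ ℕ) :
    MvPowerSeries.coeff d (em (Finsupp.single k 1) (epS (s ^ 2)) * AA G s) =
      ∑ m ∈ Cfg (Function.update (fun l => d l) k 0),
        s ^ EE G m / (∏ l, qfp (s ^ 2) (m l)) * gg (s ^ 2) (nbs G m k) (d k) := by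
  have hne : (Finsupp.single k 1 : I →₀ ℕ) ≠ 0 := by
    rw [Ne, Finsupp.single_eq_zero]
    exact one_ne_zero
  have hsm : ∀ j : ℕ, (Finsupp.single k j : I →₀ ℕ) = j • Finsupp.single k 1 := by
    intro j
    rw [Finsupp.smul_single, smul_eq_mul, mul_one]
  have hR : ∑ m ∈ Cfg (Function.update (fun l => d l) k 0),
        s ^ EE G m / (∏ l, qfp (s ^ 2) (m l)) * gg (s ^ 2) (nbs G m k) (d k) =
      ∑ x ∈ antidiagonal (d k), ep (s ^ 2) x.2 *
        ∑ m ∈ Cfg (Function.update (fun l => d l) k 0),
          s ^ EE G m / (∏ l, qfp (s ^ 2) (m l)) * aa (s ^ 2) (nbs G m k) x.1 := by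
    simp only [gg, Finset.mul_sum]
    rw [Finset.sum_comm]
    refine Finset.sum_congr rfl fun x _ => Finset.sum_congr rfl fun m _ => ?_
    ring
  rw [hR, MvPowerSeries.coeff_mul]
  symm
  refine Finset.sum_of_injOn (fun x => (Finsupp.single k x.2, Finsupp.update d k x.1))
    ?_ ?_ ?_ ?_
  · intro x hx y hy hxy
    simp only [Prod.mk.injEq] at hxy
    have h1 := DFunLike.congr_fun hxy.1 k
    have h2 := DFunLike.congr_fun hxy.2 k
    simp only [Finsupp.single_eq_same, Finsupp.coe_update, Function.update_self] at h1 h2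
    exact Prod.ext h2 h1
  · intro x hx
    have hx' := HasAntidiagonal.mem_antidiagonal.1 (Finset.mem_coe.1 hx)
    refine Finset.mem_coe.2 (HasAntidiagonal.mem_antidiagonal.2 ?_)
    ext l
    simp only [Finsupp.add_apply, Finsupp.coe_update]
    by_cases hl : l = k
    · subst hl
      rw [Finsupp.single_eq_same, Function.update_self]
      omega
    · rw [Finsupp.single_eq_of_ne hl, Function.update_of_ne hl, zero_add]
  · intro p hp hnot
    have hp' := HasAntidiagonal.mem_antidiagonal.1 hp
    rw [coeff_em_of_ne _ fun j hj => ?_, zero_mul]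
    apply hnot
    rw [← hsm j] at hj
    have hk : p.1 k + p.2 k = d k := by rw [← hp', Finsupp.add_apply]
    refine ⟨(p.2 k, j), Finset.mem_coe.2 (HasAntidiagonal.mem_antidiagonal.2 ?_), ?_⟩
    · rw [hj, Finsupp.single_eq_same] at hk
      change p.2 k + j = d k
      omega
    · refine Prod.ext hj.symm ?_
      ext l
      simp only [Finsupp.coe_update]
      by_cases hl : l = k
      · subst hl
        rw [Function.update_self]
      · rw [Function.update_of_ne hl, ← hp', Finsupp.add_apply, hj, Finsupp.single_eq_of_ne hl,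
          zero_add]
  · intro x hx
    change _ = MvPowerSeries.coeff (Finsupp.single k x.2) (em (Finsupp.single k 1) (epS (s ^ 2))) *
      MvPowerSeries.coeff (Finsupp.update d k x.1) (AA G s)
    rw [syma_coeff_AA G hs0 k, hsm x.2, coeff_em_smul hne, epS, PowerSeries.coeff_mk]
    have h1 : Function.update (fun l => (Finsupp.update d k x.1) l) k 0 =
        Function.update (fun l => d l) k 0 := by
      funext l
      by_cases hl : l = k
      · subst hl
        rw [Function.update_self, Function.update_self]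
      · rw [Function.update_of_ne hl, Function.update_of_ne hl, Finsupp.coe_update,
          Function.update_of_ne hl]
    have h2 : (Finsupp.update d k x.1) k = x.1 := by
      rw [Finsupp.coe_update, Function.update_self]
    rw [h1, h2]

theorem symK_AA (hs0 : s ≠ 0) (hs : ∀ n : ℕ, 0 < n → (s ^ 2) ^ n ≠ 1) (k : I) :
    SymK G k (em (Finsupp.single k 1) (epS (s ^ 2)) * AA G s) := by
  have hq0 : s ^ 2 ≠ 0 := pow_ne_zero 2 hs0
  have hsz : ∀ (d : I →₀ ℕ) (m : Cf I), m ∈ Cfg (Function.update (fun l => d l) k 0) →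
      sz (nbs G m k) = nbd G (fun l => d l) k := by
    intro d m hm
    rw [sz_nbs]
    refine nbd_congr fun l hl => ?_
    rw [mem_Cfg.1 hm l, Function.update_of_ne hl]
  constructor
  · intro d d' hdd hk
    rw [coeff_em_mul_AA G hs0, coeff_em_mul_AA G hs0]
    have h1 : Function.update (fun l => d l) k 0 = Function.update (fun l => d' l) k 0 := by
      funext l
      by_cases hl : l = k
      · subst hl
        rw [Function.update_self, Function.update_self]
      · rw [Function.update_of_ne hl, Function.update_of_ne hl]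
        exact hdd l hl
    rw [← h1]
    refine Finset.sum_congr rfl fun m hm => ?_
    congr 1
    have h2 := pal_gg hq0 hs (nbs G m k)
    rw [hsz d m hm] at h2
    rw [h2.1 (d k) (by omega)]
    congr 1
    omega
  · intro d hd
    rw [coeff_em_mul_AA G hs0]
    refine Finset.sum_eq_zero fun m hm => ?_
    have h2 := pal_gg hq0 hs (nbs G m k)
    rw [hsz d m hm] at h2
    rw [h2.2 (d k) hd, mul_zero]

end Pool.Agent.H18.KR
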