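import Pool.Agent.H18.KR.Defs7

/-!
# Module TAlt (about 150 lines). Alternating polynomials times power sums.

* `alt_mul_psum`: `psum k * det (X_i^{β_j}) = Σ_j det (X_i^{(β + k e_j)_j'})`. Expand
  `alt β = Σ_w sgn(w) ∏_j X_{w j}^{β j}` (`Matrix.det_apply'`); multiplying by `Σ_i X_i^k = Σ_j X_{w j}^k` gives
  `Σ_j Σ_w sgn(w) ∏_{j'} X_{w j'}^{β j' + k [j' = j]}`.
* `alt_comp`: permuting the columns multiplies by the sign (`Matrix.det_permute'`).
* `alt_eq_zero`: two equal columns (`Matrix.det_zero_of_column_eq`).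
* `coeff_alt`: for strictly increasing `β, γ` the coefficient of `X^γ` in `alt β` is `[β = γ]`: it is
  `Σ_w sgn(w) [∀ j, γ (w j) = β j]`, and `γ ∘ w = β` with both strictly increasing forces `w = 1`
  (a strictly monotone permutation of `Fin r` is the identity).
-/

set_option autoImplicit false

namespace Pool.Agent.H18.KR

open Finset

variable {r : ℕ}

/-- expansion of `alt` -/
theorem alt_eq_sum (β : Fin r → ℕ) :
    alt β = ∑ w : Equiv.Perm (Fin r), ((Equiv.Perm.sign w : ℤ) : MvPolynomial (Fin r) ℤ) *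
      ∏ j, (MvPolynomial.X (w j) : MvPolynomial (Fin r) ℤ) ^ β j := by
  unfold alt
  rw [Matrix.det_apply']
  rfl

theorem alt_mul_psum (β : Fin r → ℕ) (k : ℕ) :
    alt β * MvPolynomial.psum (Fin r) ℤ k = ∑ j, alt (Function.update β j (β j + k)) := by
  simp only [alt_eq_sum]
  rw [sum_comm, Finset.sum_mul]
  refine Finset.sum_congr rfl fun w _ => ?_
  have h1 : MvPolynomial.psum (Fin r) ℤ k =
      ∑ j, (MvPolynomial.X (w j) : MvPolynomial (Fin r) ℤ) ^ k := by
    unfold MvPolynomial.psum
    exact (Equiv.sum_comp w fun i => (MvPolynomial.X i : MvPolynomial (Fin r) ℤ) ^ k).symm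
  rw [h1, Finset.mul_sum]
  refine Finset.sum_congr rfl fun j _ => ?_
  have h2 : ∏ j', (MvPolynomial.X (w j') : MvPolynomial (Fin r) ℤ) ^
      (Function.update β j (β j + k) j') =
      (∏ j', (MvPolynomial.X (w j') : MvPolynomial (Fin r) ℤ) ^ β j') *
        MvPolynomial.X (w j) ^ k := by
    have h3 : ∀ j', (MvPolynomial.X (w j') : MvPolynomial (Fin r) ℤ) ^
        (Function.update β j (β j + k) j') =
        MvPolynomial.X (w j') ^ β j' * (if j' = j then MvPolynomial.X (w j) ^ k else 1) := by
      intro j'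
      by_cases h : j' = j
      · subst h
        simp [pow_add]
      · simp [h]
    simp only [h3, Finset.prod_mul_distrib]
    rw [Finset.prod_ite_eq' univ j]
    simp
  rw [h2, mul_assoc]

theorem alt_comp (β : Fin r → ℕ) (w : Equiv.Perm (Fin r)) :
    alt (β ∘ w) = (Equiv.Perm.sign w : ℤ) • alt β := by
  unfold alt
  have h := Matrix.det_permute' w
    (Matrix.of fun i j => (MvPolynomial.X i : MvPolynomial (Fin r) ℤ) ^ β j)
  rw [zsmul_eq_mul]
  exact h

theorem alt_eq_zero (β : Fin r → ℕ) {i j : Fin r} (hij : i ≠ j) (h : β i = β j) : alt β = 0 := by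
  unfold alt
  refine Matrix.det_zero_of_column_eq hij fun k => ?_
  simp only [Matrix.of_apply, h]

/-- the monomial `∏_j X_{w j}^{β j}` -/
theorem prod_X_perm (β : Fin r → ℕ) (w : Equiv.Perm (Fin r)) :
    ∏ j, (MvPolynomial.X (w j) : MvPolynomial (Fin r) ℤ) ^ β j =
      MvPolynomial.monomial (Finsupp.equivFunOnFinite.symm fun i => β (w.symm i)) 1 := by
  have h1 : ∏ j, (MvPolynomial.X (w j) : MvPolynomial (Fin r) ℤ) ^ β j =
      ∏ i, (MvPolynomial.X i : MvPolynomial (Fin r) ℤ) ^ β (w.symm i) := by
    rw [← Equiv.prod_comp w fun i => (MvPolynomial.X i : MvPolynomial (Fin r) ℤ) ^ β (w.symm i)]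
    simp
  rw [h1, MvPolynomial.monomial_eq, MvPolynomial.C_1, one_mul, Finsupp.prod_fintype]
  · rfl
  · intro i
    exact pow_zero _

theorem coeff_alt (β γ : Fin r → ℕ) (hβ : StrictMono β) (hγ : StrictMono γ) :
    MvPolynomial.coeff (Finsupp.equivFunOnFinite.symm γ) (alt β) = if β = γ then 1 else 0 := by
  have key : ∀ w : Equiv.Perm (Fin r),
      MvPolynomial.coeff (Finsupp.equivFunOnFinite.symm γ)
        (((Equiv.Perm.sign w : ℤ) : MvPolynomial (Fin r) ℤ) *
          ∏ j, (MvPolynomial.X (w j) : MvPolynomial (Fin r) ℤ) ^ β j) =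
        if w = 1 then (if β = γ then 1 else 0) else 0 := by
    intro w
    rw [prod_X_perm, ← zsmul_eq_mul, MvPolynomial.coeff_smul, MvPolynomial.coeff_monomial]
    by_cases hw : (Finsupp.equivFunOnFinite.symm fun i => β (w.symm i)) =
        Finsupp.equivFunOnFinite.symm γ
    · have h1 : (fun i => β (w.symm i)) = γ := Finsupp.equivFunOnFinite.symm.injective hw
      have h2 : β = γ := by
        refine (hβ.range_inj hγ).1 ?_
        rw [← h1]
        ext x
        constructor
        · rintro ⟨i, rfl⟩
          exact ⟨w i, by simp⟩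
        · rintro ⟨i, rfl⟩
          exact ⟨w.symm i, rfl⟩
      have h3 : w = 1 := by
        have h4 : ∀ i, w.symm i = i := by
          intro i
          apply hβ.injective
          rw [h2]
          exact (congrFun (h2 ▸ h1) i)
        ext i
        have := h4 (w i)
        simp only [Equiv.symm_apply_apply] at this
        rw [← this]
        rfl
      subst h3
      rw [if_pos hw, if_pos rfl, if_pos h2]
      simp
    · rw [if_neg hw]
      by_cases h1 : w = 1
      · subst h1
        have h2 : β ≠ γ := by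
          intro h
          apply hw
          rw [← h]
          rfl
        rw [if_pos rfl, if_neg h2]
        simp
      · rw [if_neg h1]
        simp
  rw [alt_eq_sum, MvPolynomial.coeff_sum, Finset.sum_congr rfl fun w _ => key w]
  simp

end Pool.Agent.H18.KR
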