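import Pool.Agent.H18.KR.TDual

/-!
# Module TBead (about 180 lines). Beads of the conjugate partition.

`l` nonincreasing, `l.length ≤ r`, all entries `≤ m`. `beads r l = {l_i + r - 1 - i : i < r}` is strictly
decreasing in `i`, contained in `range (r + m)`, has `r` elements. `dual_beads`: with `l' j = #{i : l_i > j}` the
numbers `l_i + (r - 1 - i)` (`i < r`) and `r + j - l'_j` (`j < m`) are disjoint (`j < l_i` iff `i < l'_j`: if
`i < l'_j` then `l_i + r - 1 - i ≥ j + 1 + r - l'_j > r + j - l'_j`, otherwise `l_i ≤ j` and
`l_i + r - 1 - i ≤ j + r - 1 - l'_j`), so together they are `range (r + m)`; and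
`N - 1 - (r + j - l'_j) = l'_j + (m - 1 - j)` for `N = r + m`. (For one inclusion use disjointness, for
equality the cardinalities: `card (dual N A) = N - card A`.)
`conj_isPart`: the sum of the conjugate is `Σ_j #{i : l_i > j} = Σ_i l_i` (double counting), it is
nonincreasing. `two_conj`: if all entries are `≤ 2`, then the entries of `conj` from the third on are `0`.
-/

set_option autoImplicit false

namespace Pool.Agent.H18.KR

open Finset

private theorem tb_getD_anti {l : List ℕ} (hl : l.Pairwise (· ≥ ·)) {i j : ℕ} (h : i < j) :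
    l.getD j 0 ≤ l.getD i 0 := by
  rcases lt_or_ge j l.length with hj | hj
  · rw [List.getD_eq_getElem _ _ hj, List.getD_eq_getElem _ _ (h.trans hj)]
    exact List.pairwise_iff_getElem.1 hl i j (h.trans hj) hj h
  · rw [List.getD_eq_default _ _ hj]
    exact Nat.zero_le _

private theorem tb_getD_le {m : ℕ} {l : List ℕ} (hm : ∀ x ∈ l, x ≤ m) (i : ℕ) :
    l.getD i 0 ≤ m := by
  rcases lt_or_ge i l.length with hi | hi
  · rw [List.getD_eq_getElem _ _ hi]
    exact hm _ (List.getElem_mem hi)
  · rw [List.getD_eq_default _ _ hi]
    exact Nat.zero_le _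

private theorem tb_count {l : List ℕ} (hl : l.Pairwise (· ≥ ·)) (i j : ℕ) :
    i < l.countP (fun x => decide (j < x)) ↔ j < l.getD i 0 := by
  induction l generalizing i with
  | nil => simp
  | cons a t ih =>
    rw [List.pairwise_cons] at hl
    rw [List.countP_cons]
    by_cases h : j < a
    · rw [if_pos (by simpa using h)]
      cases i with
      | zero =>
        rw [List.getD_cons_zero]
        exact ⟨fun _ => h, fun _ => Nat.succ_pos _⟩
      | succ i =>
        rw [List.getD_cons_succ, ← ih hl.2 i]
        exact Nat.succ_lt_succ_iff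
    · have h0 : t.countP (fun x => decide (j < x)) = 0 := by
        rw [List.countP_eq_zero]
        intro x hx
        have h1 := hl.1 x hx
        simp only [decide_eq_true_eq, not_lt]
        omega
      rw [if_neg (by simpa using h), h0]
      refine ⟨fun h2 => absurd h2 (Nat.not_lt_zero _), fun h2 => ?_⟩
      exfalso
      have h3 : (a :: t).getD i 0 ≤ a := by
        refine tb_getD_le ?_ i
        intro x hx
        rcases List.mem_cons.1 hx with rfl | hx
        · exact le_rfl
        · exact hl.1 x hx
      omega

private theorem tb_conj_getD {m j : ℕ} (l : List ℕ) (hj : j < m) :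
    (conj m l).getD j 0 = l.countP (fun x => decide (j < x)) := by
  unfold conj
  rw [List.getD_eq_getElem _ _ (by rw [List.length_map, List.length_range]; exact hj),
    List.getElem_map, List.getElem_range]

private theorem tb_conj_pairwise (m : ℕ) (l : List ℕ) : (conj m l).Pairwise (· ≥ ·) := by
  unfold conj
  rw [List.pairwise_map]
  refine List.Pairwise.imp ?_ List.pairwise_lt_range
  intro a b hab
  refine List.countP_mono_left ?_
  intro x _ hx
  simp only [decide_eq_true_eq] at hx ⊢
  exact hab.trans hx

private theorem tb_dual_card {N : ℕ} {A : Finset ℕ} (hA : A ⊆ range N) :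
    (dual N A).card = N - A.card := by
  unfold dual
  rw [card_image_of_injOn, card_sdiff_of_subset hA, card_range]
  intro a ha b hb h
  have ha' := (mem_sdiff.1 (mem_coe.1 ha)).1
  have hb' := (mem_sdiff.1 (mem_coe.1 hb)).1
  rw [mem_range] at ha' hb'
  have h' : N - 1 - a = N - 1 - b := h
  omega

theorem beads_card (r : ℕ) (l : List ℕ) (hl : l.Pairwise (· ≥ ·)) : (beads r l).card = r := by
  unfold beads
  rw [card_image_of_injOn, card_range]
  intro i hi j hj h
  have hi' := mem_range.1 (mem_coe.1 hi)
  have hj' := mem_range.1 (mem_coe.1 hj)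
  have h' : l.getD i 0 + (r - 1 - i) = l.getD j 0 + (r - 1 - j) := h
  rcases lt_trichotomy i j with h1 | h1 | h1
  · have h2 := tb_getD_anti hl h1
    omega
  · exact h1
  · have h2 := tb_getD_anti hl h1
    omega

theorem beads_subset (r m : ℕ) (l : List ℕ) (hm : ∀ x ∈ l, x ≤ m) :
    beads r l ⊆ range (r + m) := by
  intro x hx
  unfold beads at hx
  rw [mem_image] at hx
  obtain ⟨i, hi, rfl⟩ := hx
  rw [mem_range] at hi ⊢
  have h := tb_getD_le hm i
  omega

theorem dual_beads (r m : ℕ) (l : List ℕ) (hl : l.Pairwise (· ≥ ·)) (hr : l.length ≤ r)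
    (hm : ∀ x ∈ l, x ≤ m) : dual (r + m) (beads r l) = beads m (conj m l) := by
  symm
  refine eq_of_subset_of_card_le ?_ ?_
  · intro x hx
    unfold beads at hx
    rw [mem_image] at hx
    obtain ⟨j, hj, rfl⟩ := hx
    rw [mem_range] at hj
    rw [tb_conj_getD l hj, mem_dual]
    have hc : l.countP (fun x => decide (j < x)) ≤ r := List.countP_le_length.trans hr
    refine ⟨by omega, ?_⟩
    intro hx
    unfold beads at hx
    rw [mem_image] at hx
    obtain ⟨i, hi, h⟩ := hx
    rw [mem_range] at hi
    have h1 := tb_count hl i j
    by_cases h2 : i < l.countP (fun x => decide (j < x))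
    · have h3 := h1.1 h2
      omega
    · have h3 : ¬ j < l.getD i 0 := fun h4 => h2 (h1.2 h4)
      omega
  · rw [tb_dual_card (beads_subset r m l hm), beads_card r l hl,
      beads_card m _ (tb_conj_pairwise m l)]
    omega

theorem dual_range (r m : ℕ) : dual (r + m) (range r) = range m := by
  ext x
  rw [mem_dual, mem_range, mem_range]
  omega

theorem conj_isPart (n m : ℕ) (l : List ℕ) (h : IsPart n l) (hm : ∀ x ∈ l, x ≤ m) :
    IsPart n (conj m l) := by
  refine ⟨tb_conj_pairwise m l, ?_⟩
  rw [← h.2]
  have h1 : ∀ f : ℕ → ℕ, ∀ k : ℕ, ((List.range k).map f).sum = ∑ j ∈ range k, f j := by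
    intro f k
    induction k with
    | zero => simp
    | succ k ih =>
      rw [List.range_succ, List.map_append, List.sum_append, ih, sum_range_succ]
      simp
  unfold conj
  rw [h1]
  clear h
  induction l with
  | nil => simp
  | cons a t ih =>
    have h2 : ∀ j ∈ range m, (a :: t).countP (fun x => decide (j < x)) =
        t.countP (fun x => decide (j < x)) + if j < a then 1 else 0 := by
      intro j _
      rw [List.countP_cons]
      by_cases h3 : j < a
      · rw [if_pos h3, if_pos (by simpa using h3)]
      · rw [if_neg h3, if_neg (by simpa using h3)]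
    rw [sum_congr rfl h2, sum_add_distrib, ih (fun x hx => hm x (List.mem_cons_of_mem _ hx)),
      List.sum_cons, add_comm]
    have h4 : (range m).filter (fun j => j < a) = range a := by
      ext j
      rw [mem_filter, mem_range, mem_range]
      have h5 := hm a List.mem_cons_self
      omega
    rw [← card_filter, h4, card_range]

theorem two_conj (m : ℕ) (l : List ℕ) (h : twoC l) : two (conj m l) := by
  intro x hx
  unfold conj at hx
  rw [← List.map_drop, List.mem_map] at hx
  obtain ⟨j, hj, rfl⟩ := hx
  have hj2 : 2 ≤ j := by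
    obtain ⟨i, hi, h1⟩ := List.mem_iff_getElem.1 hj
    rw [List.getElem_drop, List.getElem_range] at h1
    omega
  rw [List.countP_eq_zero]
  intro y hy
  have h2 := h y hy
  simp only [decide_eq_true_eq, not_lt]
  omega

end Pool.Agent.H18.KR
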