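import Pool.Agent.H18.KR.Defs7
import Pool.Agent.H18.KR.PadL

/-!
# Module TChi (about 150 lines). The character as a coefficient of an alternating polynomial.

`fixc_eq_coeff`: the coefficient of `X^η` in `Σ_f ∏_x X (f x)` is the number of the invariant `f` with fibre sizes
`η` (`∏_x X (f x) = monomial (i ↦ #{x : f x = i}) 1`).
`chi_eq_coeff`: `alt (fun j => j) = Σ_w sgn(w) ∏_i X_i^{w i}` (`Matrix.det_apply'`, perhaps `w⁻¹`). The
coefficient of `X^v`, `v i = lam (rev i) + i`, in `alt * PX` is `Σ_w sgn(w) [w i ≤ v i for all i]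
coeff (v - w) PX`; as `PX` is symmetric (`MvPolynomial.psum_isSymmetric`), or directly by reversing the
colours in `fixc`, `coeff (i ↦ lam (rev i) + i - w i) PX = fixc σ (j ↦ lam j - j + w'(j))` with
`w' = rev ∘ w ∘ rev` (`(rev j) - w (rev j) = (r-1-j) - (r-1-w' j) = w' j - j`), and `sgn w' = sgn w`; if an entry
is negative the term is `0` on both sides (`fixc_neg`).
-/

set_option autoImplicit false

namespace Pool.Agent.H18.KR

open Finset

/-- the monomial of a colouring -/
theorem prod_X_col {n r : ℕ} (f : Fin n → Fin r) :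
    ∏ x, (MvPolynomial.X (f x) : MvPolynomial (Fin r) ℤ) =
      MvPolynomial.monomial (Finsupp.equivFunOnFinite.symm
        fun i => (univ.filter fun x => f x = i).card) 1 := by
  have h1 : ∏ x, (MvPolynomial.X (f x) : MvPolynomial (Fin r) ℤ) =
      ∏ i, ∏ x ∈ univ.filter (fun x => f x = i), (MvPolynomial.X (f x) : MvPolynomial (Fin r) ℤ) :=
    (Finset.prod_fiberwise univ f fun x => (MvPolynomial.X (f x) : MvPolynomial (Fin r) ℤ)).symm
  rw [h1, MvPolynomial.monomial_eq, MvPolynomial.C_1, one_mul, Finsupp.prod_fintype]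
  · refine Finset.prod_congr rfl fun i _ => ?_
    rw [Finset.prod_congr rfl fun x hx => ?_, Finset.prod_const]
    · rfl
    · rw [(mem_filter.1 hx).2]
  · intro i
    exact pow_zero _

theorem fixc_eq_coeff {n r : ℕ} (σ : Equiv.Perm (Fin n)) (ρ : List ℕ) (h : CycL σ ρ)
    (η : Fin r → ℕ) : (fixc σ (fun i => (η i : ℤ)) : ℤ) =
      MvPolynomial.coeff (Finsupp.equivFunOnFinite.symm η) (PX r ρ) := by
  rw [← h.2.2 r, MvPolynomial.coeff_sum]
  have key : ∀ f : Fin n → Fin r, MvPolynomial.coeff (Finsupp.equivFunOnFinite.symm η)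
      (∏ x, (MvPolynomial.X (f x) : MvPolynomial (Fin r) ℤ)) =
      if ∀ i, ((univ.filter fun x => f x = i).card : ℤ) = (η i : ℤ) then 1 else 0 := by
    intro f
    rw [prod_X_col, MvPolynomial.coeff_monomial]
    by_cases h1 : ∀ i, ((univ.filter fun x => f x = i).card : ℤ) = (η i : ℤ)
    · rw [if_pos h1, if_pos]
      congr 1
      funext i
      exact_mod_cast h1 i
    · rw [if_neg h1, if_neg]
      intro h2
      apply h1
      intro i
      have h3 := congrFun (Finsupp.equivFunOnFinite.symm.injective h2) i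
      exact_mod_cast h3
  rw [Finset.sum_congr rfl fun f _ => key f, Finset.sum_ite, Finset.sum_const_zero, add_zero,
    Finset.sum_const, Finset.filter_filter]
  unfold fixc
  simp

/-- permuting the colours -/
theorem fixc_comp {n r : ℕ} (σ : Equiv.Perm (Fin n)) (η : Fin r → ℤ) (e : Equiv.Perm (Fin r)) :
    fixc σ (fun i => η (e i)) = fixc σ η := by
  unfold fixc
  refine Finset.card_bij' (fun f _ => fun x => e (f x)) (fun f _ => fun x => e.symm (f x))
    ?_ ?_ ?_ ?_
  · intro f hf
    rw [mem_filter] at hf ⊢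
    refine ⟨mem_univ _, fun x => congrArg e (hf.2.1 x), fun i => ?_⟩
    have h1 := hf.2.2 (e.symm i)
    beta_reduce at h1 ⊢
    rw [Equiv.apply_symm_apply] at h1
    rw [← h1]
    congr 2
    ext x
    simp only [mem_filter, mem_univ, true_and]
    exact ⟨fun h => by rw [← h]; simp, fun h => by rw [h]; simp⟩
  · intro f hf
    rw [mem_filter] at hf ⊢
    refine ⟨mem_univ _, fun x => congrArg e.symm (hf.2.1 x), fun i => ?_⟩
    beta_reduce
    rw [← hf.2.2 (e i)]
    congr 2
    ext x
    simp only [mem_filter, mem_univ, true_and]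
    exact ⟨fun h => by rw [← h]; simp, fun h => by rw [h]; simp⟩
  · intro f _
    funext x
    simp
  · intro f _
    funext x
    simp

/-- one term of the expansion -/
theorem coeff_mono_mul {n r : ℕ} (σ : Equiv.Perm (Fin n)) (ρ : List ℕ) (h : CycL σ ρ)
    (v m : Fin r → ℕ) :
    MvPolynomial.coeff (Finsupp.equivFunOnFinite.symm v)
      (MvPolynomial.monomial (Finsupp.equivFunOnFinite.symm m) 1 * PX r ρ) =
      (fixc σ (fun i => (v i : ℤ) - (m i : ℤ)) : ℤ) := by
  rw [MvPolynomial.coeff_monomial_mul', one_mul]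
  by_cases hle : Finsupp.equivFunOnFinite.symm m ≤ Finsupp.equivFunOnFinite.symm v
  · rw [if_pos hle]
    have hle' : ∀ i, m i ≤ v i := fun i => hle i
    have h1 : Finsupp.equivFunOnFinite.symm v - Finsupp.equivFunOnFinite.symm m =
        Finsupp.equivFunOnFinite.symm (fun i => v i - m i) := by
      ext i
      rfl
    rw [h1, ← fixc_eq_coeff σ ρ h]
    congr 2
    funext i
    have := hle' i
    omega
  · rw [if_neg hle]
    have h2 : ∃ i, v i < m i := by
      by_contra hcon
      push Not at hcon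
      exact hle fun i => hcon i
    obtain ⟨i, hi⟩ := h2
    rw [fixc_neg σ _ i (by omega)]
    rfl

theorem chi_eq_coeff {n r : ℕ} (σ : Equiv.Perm (Fin n)) (ρ : List ℕ) (h : CycL σ ρ)
    (lam : Fin r → ℕ) : chi lam σ =
      MvPolynomial.coeff (Finsupp.equivFunOnFinite.symm fun i => lam (Fin.rev i) + (i : ℕ))
        (alt (fun j : Fin r => (j : ℕ)) * PX r ρ) := by
  have hprod : ∀ w : Equiv.Perm (Fin r),
      ∏ j, (MvPolynomial.X (w j) : MvPolynomial (Fin r) ℤ) ^ (j : ℕ) =
        MvPolynomial.monomial (Finsupp.equivFunOnFinite.symm fun i => ((w.symm i : Fin r) : ℕ)) 1 := by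
    intro w
    have h1 : ∏ j, (MvPolynomial.X (w j) : MvPolynomial (Fin r) ℤ) ^ (j : ℕ) =
        ∏ i, (MvPolynomial.X i : MvPolynomial (Fin r) ℤ) ^ ((w.symm i : Fin r) : ℕ) := by
      rw [← Equiv.prod_comp w fun i =>
        (MvPolynomial.X i : MvPolynomial (Fin r) ℤ) ^ ((w.symm i : Fin r) : ℕ)]
      simp
    rw [h1, MvPolynomial.monomial_eq, MvPolynomial.C_1, one_mul, Finsupp.prod_fintype]
    · rfl
    · intro i
      exact pow_zero _
  have halt : alt (fun j : Fin r => (j : ℕ)) = ∑ w : Equiv.Perm (Fin r),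
      (Equiv.Perm.sign w : ℤ) •
        MvPolynomial.monomial (Finsupp.equivFunOnFinite.symm fun i => ((w.symm i : Fin r) : ℕ))
          (1 : ℤ) := by
    unfold alt
    rw [Matrix.det_apply']
    refine Finset.sum_congr rfl fun w _ => ?_
    rw [zsmul_eq_mul, ← hprod w]
    rfl
  rw [halt, Finset.sum_mul, MvPolynomial.coeff_sum]
  unfold chi
  refine Finset.sum_nbij' (fun w => Fin.revPerm * w⁻¹ * Fin.revPerm)
    (fun w => Fin.revPerm * w⁻¹ * Fin.revPerm) (fun _ _ => mem_univ _) (fun _ _ => mem_univ _)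
    ?_ ?_ ?_
  · intro w _
    ext i
    simp
  · intro w _
    ext i
    simp
  · intro w _
    have hs : Equiv.Perm.sign (Fin.revPerm * w⁻¹ * Fin.revPerm) = Equiv.Perm.sign w := by
      rw [map_mul, map_mul, Equiv.Perm.sign_inv, mul_comm, ← mul_assoc, Int.units_mul_self, one_mul]
    rw [hs, smul_mul_assoc, MvPolynomial.coeff_smul, coeff_mono_mul σ ρ h, smul_eq_mul]
    congr 2
    rw [← fixc_comp σ (sh lam w) Fin.revPerm]
    congr 1
    funext i
    have h3 : (Fin.revPerm * w⁻¹ * Fin.revPerm : Equiv.Perm (Fin r)).symm i =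
        Fin.rev (w (Fin.rev i)) := by
      rw [Equiv.symm_apply_eq]
      simp [Equiv.Perm.mul_apply]
    rw [h3]
    have h4 : Fin.revPerm i = Fin.rev i := rfl
    rw [h4]
    unfold sh
    have h5 := Fin.val_rev i
    have h6 := Fin.val_rev (w (Fin.rev i))
    have h7 := i.2
    have h8 := (w (Fin.rev i)).2
    push_cast
    omega

end Pool.Agent.H18.KR
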