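import Pool.Agent.H18.KR.Defs7

/-!
# Module TCyc (about 200 lines). Colourings constant on cycles.

Let `ρ` consist of the lengths of the cycles of `σ` (`σ.cycleFactorsFinset` with `c ↦ c.support.card`, i.e.
`σ.cycleType`) and one `1` for each fixed point (this is `σ.partition.parts` up to a cast, as a list
`Multiset.toList`). Sign: `Equiv.Perm.sign_of_cycleType` (`(-1)^(sum + card) = ∏ (-1)^(k-1)`, each `k ≥ 2`), a
fixed point contributes `(-1)^0`. The sum: let `Q` be the quotient of `Fin n` by `σ.SameCycle`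
(`Equiv.Perm.SameCycle.setoid σ`). The `σ`-invariant `f` are the functions on `Q` composed with the
projection; `∏_x X (f x) = ∏_{o ∈ Q} X(g o)^{|o|}` (`Finset.prod_fiberwise`-like), so the sum is
`∏_{o ∈ Q} Σ_i X_i^{|o|} = ∏_{o ∈ Q} psum |o|` (`Finset.prod_univ_sum`, `Fintype.piFinset_univ`), and the multiset
of the `|o|` is the multiset of `ρ` (orbits of non-fixed points are the supports of the cycle factors).
One may instead take `ρ` = the list of the orbit sizes and prove the sign formula for it (for instance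
from `sign_of_cycleType`, or by another route: `Equiv.Perm.sign` and the number of orbits).
-/

set_option autoImplicit false

namespace Pool.Agent.H18.KR

open Finset

private theorem tcyc_inv {n : ℕ} {σ : Equiv.Perm (Fin n)} {α : Type} {f : Fin n → α}
    (hf : ∀ x, f (σ x) = f x) {x y : Fin n} (h : σ.SameCycle x y) : f x = f y := by
  obtain ⟨k, hk⟩ := h
  have key : ∀ k : ℤ, ∀ x, f ((σ ^ k) x) = f x := by
    intro k
    induction k using Int.induction_on with
    | zero => intro x; simp
    | succ i ih =>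
      intro x
      rw [zpow_add_one, Equiv.Perm.mul_apply, ih, hf]
    | pred i ih =>
      intro x
      rw [zpow_sub_one, Equiv.Perm.mul_apply, ih]
      have h1 := hf (σ⁻¹ x)
      have h2 : σ (σ⁻¹ x) = x := by simp
      rw [h2] at h1
      exact h1.symm
  rw [← hk, key]

private theorem tcyc_sum {n : ℕ} (σ : Equiv.Perm (Fin n)) {Q : Type} [Fintype Q] [DecidableEq Q]
    (mk : Fin n → Q) (hs : Function.Surjective mk) (hm : ∀ x y, mk x = mk y ↔ σ.SameCycle x y)
    (r : ℕ) :
    ∑ f ∈ univ.filter (fun f : Fin n → Fin r => ∀ x, f (σ x) = f x),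
      ∏ x, (MvPolynomial.X (f x) : MvPolynomial (Fin r) ℤ) =
    ∏ o : Q, MvPolynomial.psum (Fin r) ℤ ((univ.filter fun x => mk x = o).card) := by
  have h1 : ∑ f ∈ univ.filter (fun f : Fin n → Fin r => ∀ x, f (σ x) = f x),
      ∏ x, (MvPolynomial.X (f x) : MvPolynomial (Fin r) ℤ) =
      ∑ g : Q → Fin r, ∏ x, (MvPolynomial.X (g (mk x)) : MvPolynomial (Fin r) ℤ) := by
    symm
    refine Finset.sum_bij (fun g _ => g ∘ mk) ?_ ?_ ?_ ?_
    · intro g _
      rw [mem_filter]
      refine ⟨mem_univ _, fun x => ?_⟩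
      have h2 : mk (σ x) = mk x := (hm _ _).2 (Equiv.Perm.sameCycle_apply_left.2 (Equiv.Perm.SameCycle.refl σ x))
      simp only [Function.comp_apply, h2]
    · intro g _ g' _ h
      exact hs.injective_comp_right h
    · intro f hf
      rw [mem_filter] at hf
      refine ⟨fun o => f (Function.surjInv hs o), mem_univ _, ?_⟩
      funext x
      have h2 : mk (Function.surjInv hs (mk x)) = mk x := Function.surjInv_eq hs _
      exact tcyc_inv hf.2 ((hm _ _).1 h2)
    · intro g _
      rfl
  rw [h1]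
  have h2 : ∀ g : Q → Fin r, ∏ x, (MvPolynomial.X (g (mk x)) : MvPolynomial (Fin r) ℤ) =
      ∏ o : Q, (MvPolynomial.X (g o) : MvPolynomial (Fin r) ℤ) ^
        ((univ.filter fun x => mk x = o).card) := by
    intro g
    have h3 := Finset.prod_comp (s := (univ : Finset (Fin n)))
      (fun o : Q => (MvPolynomial.X (g o) : MvPolynomial (Fin r) ℤ)) mk
    rw [h3, Finset.image_univ_of_surjective hs]
  rw [Finset.sum_congr rfl (fun g _ => h2 g)]
  have h4 := Finset.prod_univ_sum (fun _ : Q => (univ : Finset (Fin r)))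
    (fun (o : Q) (i : Fin r) => (MvPolynomial.X i : MvPolynomial (Fin r) ℤ) ^
        ((univ.filter fun x => mk x = o).card))
  rw [Fintype.piFinset_univ] at h4
  rw [← h4]
  rfl

private theorem tcyc_sign {n : ℕ} (σ : Equiv.Perm (Fin n)) {Q : Type} [Fintype Q] [DecidableEq Q]
    (mk : Fin n → Q) (hs : Function.Surjective mk) (hm : ∀ x y, mk x = mk y ↔ σ.SameCycle x y) :
    (Equiv.Perm.sign σ : ℤ) = ∏ o : Q, (-1 : ℤ) ^ ((univ.filter fun x => mk x = o).card - 1) := by
  have h1 : (Equiv.Perm.sign σ : ℤ) = ∏ c ∈ σ.cycleFactorsFinset, (-(-1 : ℤ) ^ (c.support.card)) := by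
    rw [Equiv.Perm.sign_of_cycleType', Equiv.Perm.cycleType_def, Multiset.map_map]
    change ((∏ c ∈ σ.cycleFactorsFinset, (-(-1 : ℤˣ) ^ (c.support.card)) : ℤˣ) : ℤ) = _
    rw [Units.coe_prod]
    refine Finset.prod_congr rfl fun c _ => ?_
    push_cast
    rfl
  rw [h1]
  have h2 : ∏ o ∈ σ.support.image mk, (-1 : ℤ) ^ ((univ.filter fun x => mk x = o).card - 1) =
      ∏ o : Q, (-1 : ℤ) ^ ((univ.filter fun x => mk x = o).card - 1) := by
    refine Finset.prod_subset (subset_univ _) fun o _ ho => ?_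
    obtain ⟨x, rfl⟩ := hs o
    have hx : σ x = x := by
      by_contra hx
      exact ho (mem_image_of_mem _ (Equiv.Perm.mem_support.2 hx))
    have h3 : (univ.filter fun y => mk y = mk x) = {x} := by
      ext y
      rw [mem_filter, mem_singleton]
      constructor
      · rintro ⟨-, hy⟩
        have h4 : σ.SameCycle x y := ((hm y x).1 hy).symm
        obtain ⟨k, hk⟩ := h4
        rw [← hk]
        exact Equiv.Perm.zpow_apply_eq_self_of_apply_eq_self hx k
      · rintro rfl
        exact ⟨mem_univ _, rfl⟩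
    rw [h3, card_singleton]
    simp
  rw [← h2]
  symm
  have hsup : ∀ o ∈ σ.support.image mk, Function.surjInv hs o ∈ σ.support := by
    intro o ho
    obtain ⟨x, hx, rfl⟩ := mem_image.1 ho
    have h4 : σ.SameCycle (Function.surjInv hs (mk x)) x := (hm _ _).1 (Function.surjInv_eq hs _)
    rw [Equiv.Perm.mem_support] at hx ⊢
    intro h5
    exact hx (h4.apply_eq_self_iff.1 h5)
  refine Finset.prod_bij (fun o _ => σ.cycleOf (Function.surjInv hs o)) ?_ ?_ ?_ ?_
  · intro o ho
    exact Equiv.Perm.cycleOf_mem_cycleFactorsFinset_iff.2 (hsup o ho)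
  · intro o ho o' ho' h
    have h5 := (Equiv.Perm.sameCycle_iff_cycleOf_eq_of_mem_support (hsup o ho) (hsup o' ho')).2 h
    have h6 := (hm _ _).2 h5
    rw [Function.surjInv_eq hs, Function.surjInv_eq hs] at h6
    exact h6
  · intro c hc
    obtain ⟨x, hx, -⟩ := (Equiv.Perm.mem_cycleFactorsFinset_iff.1 hc).1
    have hx' : x ∈ c.support := Equiv.Perm.mem_support.2 hx
    have h5 : x ∈ σ.support := Equiv.Perm.mem_cycleFactorsFinset_support_le hc hx'
    refine ⟨mk x, mem_image_of_mem _ h5, ?_⟩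
    rw [Equiv.Perm.cycle_is_cycleOf hx' hc]
    exact ((hm _ _).1 (Function.surjInv_eq hs _)).cycleOf_eq
  · intro o ho
    have h5 : (univ.filter fun x => mk x = o) = (σ.cycleOf (Function.surjInv hs o)).support := by
      ext y
      rw [mem_filter, Equiv.Perm.mem_support_cycleOf_iff' (Equiv.Perm.mem_support.1 (hsup o ho)), ← hm,
        Function.surjInv_eq hs]
      exact ⟨fun h => h.2.symm, fun h => ⟨mem_univ _, h.symm⟩⟩
    rw [h5]
    have h6 : 0 < (σ.cycleOf (Function.surjInv hs o)).support.card := by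
      rw [← h5, card_pos]
      exact ⟨Function.surjInv hs o, mem_filter.2 ⟨mem_univ _, Function.surjInv_eq hs _⟩⟩
    obtain ⟨k, hk⟩ := Nat.exists_eq_add_of_lt h6
    rw [hk]
    simp [pow_succ]

private theorem tcyc_aux {n : ℕ} (σ : Equiv.Perm (Fin n)) {Q : Type} [Fintype Q] [DecidableEq Q]
    (mk : Fin n → Q) (hs : Function.Surjective mk) (hm : ∀ x y, mk x = mk y ↔ σ.SameCycle x y) :
    CycL σ ((univ : Finset Q).toList.map fun o => (univ.filter fun x => mk x = o).card) := by
  refine ⟨?_, ?_, ?_⟩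
  · intro k hk
    obtain ⟨o, -, rfl⟩ := List.mem_map.1 hk
    obtain ⟨x, hx⟩ := hs o
    exact Finset.card_pos.2 ⟨x, mem_filter.2 ⟨mem_univ _, hx⟩⟩
  · rw [List.map_map, tcyc_sign σ mk hs hm]
    exact (Finset.prod_map_toList univ _).symm
  · intro r
    rw [tcyc_sum σ mk hs hm r]
    unfold PX
    rw [List.map_map]
    exact (Finset.prod_map_toList univ _).symm

theorem exists_cycL {n : ℕ} (σ : Equiv.Perm (Fin n)) : ∃ ρ : List ℕ, CycL σ ρ := by
  classical
  exact ⟨_, tcyc_aux σ (Q := Quotient (Equiv.Perm.SameCycle.setoid σ)) Quotient.mk''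
    Quotient.mk''_surjective (fun x y => Quotient.eq'')⟩

end Pool.Agent.H18.KR
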