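import Pool.Agent.H18.KR.TAlt

/-!
# Module TMN (about 200 lines). The rule of Murnaghan and Nakayama.

For a finset `A` of `r` naturals let `β_A` be its increasing enumeration (`A.orderEmbOfFin h`).
* `alt_move`: for `j : Fin r`, `a = β_A j`: if `a + k ∈ A` and `k ≥ 1` then `alt (update β_A j (a + k)) = 0`
  (`alt_eq_zero`); if `a + k ∉ A` then it is `(-1)^{#{b ∈ A : a < b < a + k}} alt β_{A'}`,
  `A' = insert (a + k) (A.erase a)`: the increasing enumeration of `A'` is `update β_A j (a + k)` composed with
  a cycle of length `#{…} + 1` (move the entry `j` to the place `j + #{…}`), of sign `(-1)^{#…}`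
  (`alt_comp`; e.g. `Fin.cycleIcc`, `Fin.cycleRange`, or by induction on the number of beads passed with
  transpositions of neighbours).
* `coeff_mm` by induction on `ρ` for all `A` (`PX r (k :: ρ) = psum k * PX r ρ`, `alt_mul_psum`, `alt_move`,
  `coeff_alt` for `ρ = []`; sums over `j : Fin r` are sums over `a ∈ A`).
-/

set_option autoImplicit false

namespace Pool.Agent.H18.KR

open Finset

variable {r : ℕ}

private theorem tmn_sign {r : ℕ} (w : Equiv.Perm (Fin r)) (β : Fin r → ℕ) (hβ : StrictMono β)
    (j : Fin r) (c : ℕ) (hc : β j < c) (hne : ∀ i, β i ≠ c)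
    (hw : ∀ i i', w i < w i' ↔ Function.update β j c i < Function.update β j c i') :
    (Equiv.Perm.sign w : ℤ) = (-1) ^ ((univ.filter (fun i => j < i ∧ β i < c)).card) := by
  classical
  rw [Equiv.Perm.sign_eq_prod_prod_Iio]
  push_cast
  have h1 : ∀ i' : Fin r, (∏ i ∈ Finset.Iio i', (((if w i < w i' then 1 else -1 : ℤˣ)) : ℤ)) =
      if j < i' ∧ β i' < c then (-1 : ℤ) else 1 := by
    intro i'
    have h2 : ∀ i ∈ Finset.Iio i', (((if w i < w i' then 1 else -1 : ℤˣ)) : ℤ) =
        if i = j then (if β i' < c then (-1 : ℤ) else 1) else 1 := by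
      intro i hi
      have hi' : i < i' := Finset.mem_Iio.mp hi
      by_cases hij : i = j
      · subst hij
        have hi2 : i' ≠ i := hi'.ne'
        rw [if_pos rfl]
        by_cases hb : β i' < c
        · have h3 : ¬ w i < w i' := by
            rw [hw, Function.update_self, Function.update_of_ne hi2]
            exact not_lt.mpr hb.le
          rw [if_neg h3, if_pos hb]
          rfl
        · have h3 : w i < w i' := by
            rw [hw, Function.update_self, Function.update_of_ne hi2]
            exact lt_of_le_of_ne (not_lt.mp hb) (hne i').symm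
          rw [if_pos h3, if_neg hb]
          rfl
      · rw [if_neg hij]
        have h3 : w i < w i' := by
          rw [hw, Function.update_of_ne hij]
          by_cases hi2 : i' = j
          · subst hi2
            rw [Function.update_self]
            exact (hβ hi').trans hc
          · rw [Function.update_of_ne hi2]
            exact hβ hi'
        rw [if_pos h3]
        rfl
    rw [Finset.prod_congr rfl h2, Finset.prod_ite_eq' (Finset.Iio i') j]
    by_cases hji : j < i'
    · rw [if_pos (Finset.mem_Iio.mpr hji)]
      by_cases hb : β i' < c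
      · rw [if_pos hb, if_pos ⟨hji, hb⟩]
      · rw [if_neg hb, if_neg (fun h => hb h.2)]
    · rw [if_neg (fun h => hji (Finset.mem_Iio.mp h)), if_neg (fun h => hji h.1)]
  rw [Finset.prod_congr rfl (fun i' _ => h1 i'), Finset.prod_ite, Finset.prod_const,
    Finset.prod_const_one, mul_one]

private theorem tmn_mem (A : Finset ℕ) (hA : A.card = r) {x : ℕ} (hx : x ∈ A) :
    ∃ i, A.orderEmbOfFin hA i = x := by
  have h1 : x ∈ univ.image (A.orderEmbOfFin hA) := by
    rw [image_orderEmbOfFin_univ]
    exact hx
  obtain ⟨i, -, hi⟩ := Finset.mem_image.mp h1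
  exact ⟨i, hi⟩

private theorem tmn_card (A : Finset ℕ) (hA : A.card = r) (j : Fin r) (c : ℕ) :
    (univ.filter (fun i => j < i ∧ A.orderEmbOfFin hA i < c)).card =
      (A.filter (fun b => A.orderEmbOfFin hA j < b ∧ b < c)).card := by
  classical
  refine Finset.card_bij (fun i _ => A.orderEmbOfFin hA i) ?_ ?_ ?_
  · intro i hi
    rw [Finset.mem_filter] at hi
    rw [Finset.mem_filter]
    exact ⟨orderEmbOfFin_mem A hA i, (A.orderEmbOfFin hA).strictMono hi.2.1, hi.2.2⟩
  · intro i _ i' _ h
    exact (A.orderEmbOfFin hA).injective h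
  · intro b hb
    rw [Finset.mem_filter] at hb
    obtain ⟨i, hi⟩ := tmn_mem A hA hb.1
    refine ⟨i, ?_, hi⟩
    rw [Finset.mem_filter]
    refine ⟨Finset.mem_univ _, ?_, ?_⟩
    · rw [← hi] at hb
      exact (A.orderEmbOfFin hA).lt_iff_lt.mp hb.2.1
    · rw [hi]
      exact hb.2.2

theorem alt_move (A : Finset ℕ) (hA : A.card = r) (k : ℕ) (hk : 1 ≤ k) (j : Fin r) :
    alt (Function.update (A.orderEmbOfFin hA) j (A.orderEmbOfFin hA j + k)) =
      if h : A.orderEmbOfFin hA j + k ∉ A then
        (-1 : ℤ) ^ ((A.filter (fun b => A.orderEmbOfFin hA j < b ∧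
          b < A.orderEmbOfFin hA j + k)).card) •
          alt (((insert (A.orderEmbOfFin hA j + k)
            (A.erase (A.orderEmbOfFin hA j))).orderEmbOfFin (k := r) (by
              rw [card_insert_of_notMem (fun h' => h (mem_of_mem_erase h')),
                card_erase_of_mem (orderEmbOfFin_mem A hA j), hA]
              have := j.2
              omega)) : Fin r → ℕ)
      else 0 := by
  classical
  by_cases h : A.orderEmbOfFin hA j + k ∉ A
  · rw [dif_pos h]
    have hA' : (insert (A.orderEmbOfFin hA j + k) (A.erase (A.orderEmbOfFin hA j))).card = r := by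
      rw [card_insert_of_notMem (fun h' => h (mem_of_mem_erase h')),
        card_erase_of_mem (orderEmbOfFin_mem A hA j), hA]
      have := j.2
      omega
    have hu : ∀ i, Function.update (A.orderEmbOfFin hA) j (A.orderEmbOfFin hA j + k) i ∈
        insert (A.orderEmbOfFin hA j + k) (A.erase (A.orderEmbOfFin hA j)) := by
      intro i
      by_cases hij : i = j
      · subst hij
        rw [Function.update_self]
        exact Finset.mem_insert_self _ _
      · rw [Function.update_of_ne hij]
        refine Finset.mem_insert_of_mem (Finset.mem_erase.mpr ⟨?_, orderEmbOfFin_mem A hA i⟩)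
        exact fun h2 => hij ((A.orderEmbOfFin hA).injective h2)
    have hinj : Function.Injective
        (Function.update (A.orderEmbOfFin hA) j (A.orderEmbOfFin hA j + k)) := by
      intro i i' hii
      by_cases hij : i = j
      · by_cases hij' : i' = j
        · rw [hij, hij']
        · exfalso
          rw [hij, Function.update_self, Function.update_of_ne hij'] at hii
          apply h
          rw [hii]
          exact orderEmbOfFin_mem A hA i'
      · by_cases hij' : i' = j
        · exfalso
          rw [hij', Function.update_self, Function.update_of_ne hij] at hii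
          apply h
          rw [← hii]
          exact orderEmbOfFin_mem A hA i
        · rw [Function.update_of_ne hij, Function.update_of_ne hij'] at hii
          exact (A.orderEmbOfFin hA).injective hii
    have hex : ∀ i, ∃ i', (insert (A.orderEmbOfFin hA j + k)
        (A.erase (A.orderEmbOfFin hA j))).orderEmbOfFin hA' i' =
        Function.update (A.orderEmbOfFin hA) j (A.orderEmbOfFin hA j + k) i :=
      fun i => tmn_mem _ hA' (hu i)
    choose w0 hw0 using hex
    have hw0inj : Function.Injective w0 := by
      intro i i' hii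
      apply hinj
      rw [← hw0 i, ← hw0 i', hii]
    let w : Equiv.Perm (Fin r) := Equiv.ofBijective w0 (Finite.injective_iff_bijective.mp hw0inj)
    have hw : ∀ i, (insert (A.orderEmbOfFin hA j + k)
        (A.erase (A.orderEmbOfFin hA j))).orderEmbOfFin hA' (w i) =
        Function.update (A.orderEmbOfFin hA) j (A.orderEmbOfFin hA j + k) i := hw0
    have hcomp : Function.update (A.orderEmbOfFin hA) j (A.orderEmbOfFin hA j + k) =
        ((insert (A.orderEmbOfFin hA j + k)
          (A.erase (A.orderEmbOfFin hA j))).orderEmbOfFin hA' : Fin r → ℕ) ∘ w := by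
      funext i
      exact (hw i).symm
    have hs : (Equiv.Perm.sign w : ℤ) = (-1) ^ ((A.filter (fun b => A.orderEmbOfFin hA j < b ∧
          b < A.orderEmbOfFin hA j + k)).card) := by
      rw [tmn_sign w (A.orderEmbOfFin hA) (A.orderEmbOfFin hA).strictMono j
        (A.orderEmbOfFin hA j + k) (by omega) (fun i hi => h (hi ▸ orderEmbOfFin_mem A hA i)) ?_,
        tmn_card]
      intro i i'
      rw [← hw i, ← hw i', OrderEmbedding.lt_iff_lt]
    conv_lhs => rw [hcomp]
    rw [alt_comp, hs]
  · rw [dif_neg h]
    rw [not_not] at h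
    obtain ⟨i, hi⟩ := tmn_mem A hA h
    have hij : i ≠ j := by
      rintro rfl
      omega
    refine alt_eq_zero _ hij ?_
    rw [Function.update_of_ne hij, Function.update_self, hi]

theorem coeff_mm (ρ : List ℕ) (hρ : ∀ k ∈ ρ, 1 ≤ k) (A B : Finset ℕ) (hA : A.card = r)
    (hB : B.card = r) :
    MvPolynomial.coeff (Finsupp.equivFunOnFinite.symm (B.orderEmbOfFin hB : Fin r → ℕ))
      (alt (A.orderEmbOfFin hA : Fin r → ℕ) * PX r ρ) = mm ρ A B := by
  classical
  induction ρ generalizing A with
  | nil =>
    have h1 : PX r [] = 1 := by simp [PX]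
    rw [h1, mul_one, coeff_alt _ _ (A.orderEmbOfFin hA).strictMono (B.orderEmbOfFin hB).strictMono]
    unfold mm
    have h2 : (A.orderEmbOfFin hA : Fin r → ℕ) = B.orderEmbOfFin hB ↔ A = B := by
      constructor
      · intro h
        rw [← image_orderEmbOfFin_univ A hA, ← image_orderEmbOfFin_univ B hB]
        have h3 : (univ : Finset (Fin r)).image (A.orderEmbOfFin hA : Fin r → ℕ) =
            univ.image (B.orderEmbOfFin hB : Fin r → ℕ) := by rw [h]
        exact h3
      · intro h
        subst h
        rfl
    simp only [h2]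
  | cons k ρ ih =>
    have hk : 1 ≤ k := hρ k (List.mem_cons_self)
    have hρ' : ∀ k ∈ ρ, 1 ≤ k := fun k hk => hρ k (List.mem_cons_of_mem _ hk)
    have h1 : PX r (k :: ρ) = MvPolynomial.psum (Fin r) ℤ k * PX r ρ := by simp [PX]
    rw [h1, ← mul_assoc, alt_mul_psum, Finset.sum_mul, MvPolynomial.coeff_sum]
    have h2 : ∀ j : Fin r, MvPolynomial.coeff
        (Finsupp.equivFunOnFinite.symm (B.orderEmbOfFin hB : Fin r → ℕ))
        (alt (Function.update (A.orderEmbOfFin hA) j (A.orderEmbOfFin hA j + k)) * PX r ρ) =
        (fun a => if a + k ∉ A then (-1 : ℤ) ^ ((A.filter (fun b => a < b ∧ b < a + k)).card) *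
          mm ρ (insert (a + k) (A.erase a)) B else 0) (A.orderEmbOfFin hA j) := by
      intro j
      rw [alt_move A hA k hk j]
      by_cases h : A.orderEmbOfFin hA j + k ∉ A
      · rw [dif_pos h]
        simp only [if_pos h]
        rw [smul_mul_assoc, MvPolynomial.coeff_smul, ih hρ', smul_eq_mul]
      · rw [dif_neg h]
        simp only [if_neg h, zero_mul, MvPolynomial.coeff_zero]
    rw [Finset.sum_congr rfl (fun j _ => h2 j)]
    have h3 : ∀ G : ℕ → ℤ, ∑ j : Fin r, G (A.orderEmbOfFin hA j) = ∑ a ∈ A, G a := by
      intro G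
      have h4 : ∑ a ∈ univ.map (A.orderEmbOfFin hA).toEmbedding, G a =
          ∑ j : Fin r, G (A.orderEmbOfFin hA j) := Finset.sum_map _ _ _
      rw [← h4, map_orderEmbOfFin_univ]
    rw [h3 (fun a => if a + k ∉ A then (-1 : ℤ) ^ ((A.filter (fun b => a < b ∧ b < a + k)).card) *
          mm ρ (insert (a + k) (A.erase a)) B else 0), ← Finset.sum_filter]
    rfl

end Pool.Agent.H18.KR
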