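import Pool.Agent.H18.KR.TBead
import Pool.Agent.H18.KR.TMN
import Pool.Agent.H18.KR.TChi
import Pool.Agent.H18.KR.TCyc
import Pool.Agent.H18.KR.Norm

/-!
# Module TConj (about 120 lines). The character of the conjugate partition.

`chi_eq_mm`: for `l` nonincreasing with `l.length ≤ r`: `chi l.get σ = chi (fun i : Fin r => l.getD i 0) σ`
(`chi_getD`), and by `chi_eq_coeff` it is the coefficient at `i ↦ l.getD (r-1-i) 0 + i`, which is the
increasing enumeration of `beads r l` (`Finset.orderEmbOfFin_unique`); `alt (fun j => j)` is `alt` of the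
increasing enumeration of `range r`. `coeff_mm` gives `mm ρ (range r) (beads r l)`.
`chi_conj`: `mm_dual` with `N = r + m`, `dual_range`, `dual_beads`; for `conj m l` (length `m`) use
`chi_eq_mm` with `r := m`. The sign is `CycL`.
-/

set_option autoImplicit false

namespace Pool.Agent.H18.KR

open Finset

private theorem getD_anti {l : List ℕ} (hl : l.Pairwise (· ≥ ·)) {a b : ℕ} (h : a ≤ b) :
    l.getD b 0 ≤ l.getD a 0 := by
  by_cases hb : b < l.length
  · have ha : a < l.length := lt_of_le_of_lt h hb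
    rw [List.getD_eq_getElem l 0 hb, List.getD_eq_getElem l 0 ha]
    rcases Nat.eq_or_lt_of_le h with h1 | h1
    · subst h1
      exact le_rfl
    · exact List.pairwise_iff_getElem.mp hl a b ha hb h1
  · rw [List.getD_eq_default l 0 (by omega)]
    exact Nat.zero_le _

theorem chi_eq_mm {n : ℕ} (σ : Equiv.Perm (Fin n)) (ρ : List ℕ) (h : CycL σ ρ) (r : ℕ)
    (l : List ℕ) (hl : l.Pairwise (· ≥ ·)) (hr : l.length ≤ r) :
    chi l.get σ = mm ρ (range r) (beads r l) := by
  rw [← chi_getD l r hr σ, chi_eq_coeff σ ρ h,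
    ← coeff_mm ρ h.1 (range r) (beads r l) (card_range r) (beads_card r l hl)]
  have h1 : (fun j : Fin r => (j : ℕ)) = ((range r).orderEmbOfFin (card_range r) : Fin r → ℕ) :=
    Finset.orderEmbOfFin_unique _ (fun x => mem_range.2 x.2) (fun a b hab => hab)
  have h2 : (fun i : Fin r => l.getD (Fin.rev i : Fin r) 0 + (i : ℕ)) =
      ((beads r l).orderEmbOfFin (beads_card r l hl) : Fin r → ℕ) := by
    refine Finset.orderEmbOfFin_unique _ (fun i => ?_) (fun a b hab => ?_)
    · unfold beads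
      rw [mem_image]
      refine ⟨(Fin.rev i : Fin r), mem_range.2 (Fin.rev i).2, ?_⟩
      have h3 : ((Fin.rev i : Fin r) : ℕ) = r - (i + 1) := Fin.val_rev i
      have h4 := i.2
      congr 1
      rw [h3]
      omega
    · have h3 : ((Fin.rev a : Fin r) : ℕ) = r - (a + 1) := Fin.val_rev a
      have h4 : ((Fin.rev b : Fin r) : ℕ) = r - (b + 1) := Fin.val_rev b
      have hab' : (a : ℕ) < b := hab
      have h5 : l.getD (Fin.rev a : Fin r) 0 ≤ l.getD (Fin.rev b : Fin r) 0 :=
        getD_anti hl (by rw [h3, h4]; omega)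
      exact Nat.add_lt_add_of_le_of_lt h5 hab'
  rw [← h1, ← h2]

theorem chi_conj {n : ℕ} (σ : Equiv.Perm (Fin n)) (m : ℕ) (l : List ℕ) (hl : l.Pairwise (· ≥ ·))
    (hm : ∀ x ∈ l, x ≤ m) :
    chi (conj m l).get σ = (Equiv.Perm.sign σ : ℤ) * chi l.get σ := by
  obtain ⟨ρ, hρ⟩ := exists_cycL σ
  have hc : (conj m l).Pairwise (· ≥ ·) := (conj_isPart l.sum m l ⟨hl, rfl⟩ hm).1
  have hlen : (conj m l).length ≤ m := by
    unfold conj
    rw [List.length_map, List.length_range]
  rw [chi_eq_mm σ ρ hρ m (conj m l) hc hlen, chi_eq_mm σ ρ hρ l.length l hl le_rfl,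
    ← dual_range l.length m, ← dual_beads l.length m l hl le_rfl hm,
    mm_dual (l.length + m) ρ hρ.1 (range l.length) (beads l.length l)
      (range_subset_range.2 (Nat.le_add_right _ _)) (beads_subset _ _ _ hm), hρ.2.1]

private theorem sgn_sq {n : ℕ} (σ : Equiv.Perm (Fin n)) :
    (Equiv.Perm.sign σ : ℤ) * (Equiv.Perm.sign σ : ℤ) = 1 := by
  rcases Int.units_eq_one_or (Equiv.Perm.sign σ) with h | h <;> rw [h] <;> rfl

theorem kronL_conj13 (n m m' : ℕ) (lam mu nu : List ℕ) (hl : lam.Pairwise (· ≥ ·))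
    (hn : nu.Pairwise (· ≥ ·)) (hlm : ∀ x ∈ lam, x ≤ m) (hnm : ∀ x ∈ nu, x ≤ m') :
    kronL n (conj m lam) mu (conj m' nu) = kronL n lam mu nu := by
  unfold kronL kron
  congr 1
  refine Finset.sum_congr rfl fun σ _ => ?_
  rw [chi_conj σ m lam hl hlm, chi_conj σ m' nu hn hnm]
  congr 1
  have h := sgn_sq σ
  calc (Equiv.Perm.sign σ : ℤ) * chi lam.get σ * chi mu.get σ *
        ((Equiv.Perm.sign σ : ℤ) * chi nu.get σ) =
      ((Equiv.Perm.sign σ : ℤ) * (Equiv.Perm.sign σ : ℤ)) *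
        (chi lam.get σ * chi mu.get σ * chi nu.get σ) := by ring
    _ = _ := by rw [h, one_mul]

theorem kronL_conj12 (n m m' : ℕ) (lam mu nu : List ℕ) (hl : lam.Pairwise (· ≥ ·))
    (hn : mu.Pairwise (· ≥ ·)) (hlm : ∀ x ∈ lam, x ≤ m) (hnm : ∀ x ∈ mu, x ≤ m') :
    kronL n (conj m lam) (conj m' mu) nu = kronL n lam mu nu := by
  unfold kronL kron
  congr 1
  refine Finset.sum_congr rfl fun σ _ => ?_
  rw [chi_conj σ m lam hl hlm, chi_conj σ m' mu hn hnm]
  congr 1
  have h := sgn_sq σ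
  calc (Equiv.Perm.sign σ : ℤ) * chi lam.get σ * ((Equiv.Perm.sign σ : ℤ) * chi mu.get σ) *
        chi nu.get σ =
      ((Equiv.Perm.sign σ : ℤ) * (Equiv.Perm.sign σ : ℤ)) *
        (chi lam.get σ * chi mu.get σ * chi nu.get σ) := by ring
    _ = _ := by rw [h, one_mul]

end Pool.Agent.H18.KR
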