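import Pool.Agent.H18.KR.Defs7

/-!
# Module TDual (about 180 lines). Duality of the bead moves.

* `mm_eq_zero`: if some bead of `A` is `≥ N` and `B ⊆ range N` then `mm ρ A B = 0` (induction on `ρ`: after a move
  there still is such a bead).
* `mm_dual`: induction on `ρ` for all `A ⊆ range N`. A move of `A`: `a ∈ A`, `a + k ∉ A`; if `a + k ≥ N` the term is
  zero by `mm_eq_zero`. If `a + k < N` let `a' = N - 1 - (a + k)`: `a' ∈ dual N A` (as `a + k ∉ A`) and
  `a' + k = N - 1 - a ∉ dual N A` (as `a ∈ A`); this is a bijection onto the moves of `dual N A` with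
  `a' + k < N` (the others, `a' + k ≥ N`, contribute `0` again), and the moved sets are dual to each
  other: `dual N (insert (a+k) (A.erase a)) = insert (a'+k) ((dual N A).erase a')`. The beads of `A` and of
  `dual N A` strictly between: `#{b ∈ A : a < b < a+k} + #{b ∈ dual N A : a' < b < a'+k} = k - 1` (the reversal
  maps `(a, a+k)` to `(a', a'+k)` and exchanges beads and free places). So the signs differ by
  `(-1)^(k-1)`. For `ρ = []`: `dual N` is injective on subsets of `range N`.
-/

set_option autoImplicit false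

namespace Pool.Agent.H18.KR

open Finset

theorem mem_dual {N : ℕ} {A : Finset ℕ} {x : ℕ} : x ∈ dual N A ↔ x < N ∧ N - 1 - x ∉ A := by
  unfold dual
  rw [mem_image]
  constructor
  · rintro ⟨a, ha, rfl⟩
    rw [mem_sdiff, mem_range] at ha
    refine ⟨by omega, ?_⟩
    have h : N - 1 - (N - 1 - a) = a := by omega
    rw [h]
    exact ha.2
  · rintro ⟨h1, h2⟩
    refine ⟨N - 1 - x, ?_, by omega⟩
    rw [mem_sdiff, mem_range]
    exact ⟨by omega, h2⟩

theorem mm_eq_zero (N : ℕ) (ρ : List ℕ) (A B : Finset ℕ) (hB : B ⊆ range N) (a : ℕ) (ha : a ∈ A)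
    (hN : N ≤ a) : mm ρ A B = 0 := by
  induction ρ generalizing A a with
  | nil =>
    unfold mm
    refine if_neg ?_
    rintro rfl
    have h := hB ha
    rw [mem_range] at h
    omega
  | cons k ρ ih =>
    unfold mm
    refine sum_eq_zero ?_
    intro c _
    have h : mm ρ (insert (c + k) (A.erase c)) B = 0 := by
      by_cases hc : c = a
      · exact ih _ (c + k) (mem_insert_self _ _) (by omega)
      · exact ih _ a (mem_insert_of_mem (mem_erase.2 ⟨fun h => hc h.symm, ha⟩)) hN
    rw [h, mul_zero]

private theorem td_dual_dual {N : ℕ} {A : Finset ℕ} (hA : A ⊆ range N) :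
    dual N (dual N A) = A := by
  ext x
  rw [mem_dual, mem_dual]
  constructor
  · rintro ⟨h1, h2⟩
    by_contra h3
    apply h2
    refine ⟨by omega, ?_⟩
    have h : N - 1 - (N - 1 - x) = x := by omega
    rwa [h]
  · intro h
    have h1 := hA h
    rw [mem_range] at h1
    refine ⟨h1, ?_⟩
    rintro ⟨-, h2⟩
    apply h2
    have h3 : N - 1 - (N - 1 - x) = x := by omega
    rwa [h3]

private theorem td_sub {N : ℕ} {A : Finset ℕ} : dual N A ⊆ range N := by
  intro x hx
  rw [mem_range]
  exact (mem_dual.1 hx).1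

private theorem td_move {N k a : ℕ} {A : Finset ℕ} (hk : 1 ≤ k)
    (hak : a + k < N) :
    dual N (insert (a + k) (A.erase a)) =
      insert (N - 1 - (a + k) + k) ((dual N A).erase (N - 1 - (a + k))) := by
  ext x
  rw [mem_dual, mem_insert, mem_erase, mem_insert, mem_erase, mem_dual]
  constructor
  · rintro ⟨h1, h2⟩
    by_cases h3 : x = N - 1 - (a + k) + k
    · exact Or.inl h3
    · refine Or.inr ⟨?_, h1, ?_⟩
      · intro h4
        apply h2
        exact Or.inl (by omega)
      · intro h4
        apply h2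
        exact Or.inr ⟨by omega, h4⟩
  · rintro (h | ⟨h1, h2, h3⟩)
    · refine ⟨by omega, ?_⟩
      rintro (h4 | ⟨h4, -⟩)
      · omega
      · omega
    · refine ⟨h2, ?_⟩
      rintro (h4 | ⟨-, h4⟩)
      · omega
      · exact h3 h4

private theorem td_card {N k a : ℕ} {A : Finset ℕ} (hk : 1 ≤ k) (hak : a + k < N) :
    (A.filter (fun b => a < b ∧ b < a + k)).card +
      ((dual N A).filter (fun b => N - 1 - (a + k) < b ∧ b < N - 1 - (a + k) + k)).card =
        k - 1 := by
  have h1 : A.filter (fun b => a < b ∧ b < a + k) = (Ioo a (a + k)).filter (fun b => b ∈ A) := by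
    ext b
    rw [mem_filter, mem_filter, mem_Ioo]
    exact and_comm
  have h2 : ((dual N A).filter (fun b => N - 1 - (a + k) < b ∧ b < N - 1 - (a + k) + k)).card =
      ((Ioo a (a + k)).filter (fun b => ¬ b ∈ A)).card := by
    refine card_nbij' (fun b => N - 1 - b) (fun b => N - 1 - b) ?_ ?_ ?_ ?_
    · intro b hb
      simp only [coe_filter, Set.mem_ofPred_eq, mem_Ioo, mem_dual] at hb ⊢
      exact ⟨⟨by omega, by omega⟩, hb.1.2⟩
    · intro b hb
      simp only [coe_filter, Set.mem_ofPred_eq, mem_Ioo, mem_dual] at hb ⊢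
      refine ⟨⟨by omega, ?_⟩, by omega, by omega⟩
      have h : N - 1 - (N - 1 - b) = b := by omega
      rw [h]
      exact hb.2
    · intro b hb
      simp only [coe_filter, Set.mem_ofPred_eq, mem_dual] at hb
      change N - 1 - (N - 1 - b) = b
      omega
    · intro b hb
      simp only [coe_filter, Set.mem_ofPred_eq, mem_Ioo] at hb
      change N - 1 - (N - 1 - b) = b
      omega
  rw [h1, h2, card_filter_add_card_filter_not, Nat.card_Ioo]
  omega

private theorem td_restrict {N k : ℕ} {ρ : List ℕ} {A B : Finset ℕ} (hB : B ⊆ range N) :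
    mm (k :: ρ) A B = ∑ a ∈ A.filter (fun a => a + k ∉ A ∧ a + k < N),
      (-1) ^ ((A.filter (fun b => a < b ∧ b < a + k)).card) *
        mm ρ (insert (a + k) (A.erase a)) B := by
  rw [mm]
  symm
  refine sum_subset ?_ ?_
  · intro a ha
    rw [mem_filter] at ha ⊢
    exact ⟨ha.1, ha.2.1⟩
  · intro a ha hna
    rw [mem_filter] at ha hna
    have h : N ≤ a + k := by
      by_contra h
      exact hna ⟨ha.1, ha.2, by omega⟩
    rw [mm_eq_zero N ρ _ B hB (a + k) (mem_insert_self _ _) h, mul_zero]

theorem mm_dual (N : ℕ) (ρ : List ℕ) (hρ : ∀ k ∈ ρ, 1 ≤ k) (A B : Finset ℕ) (hA : A ⊆ range N)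
    (hB : B ⊆ range N) :
    mm ρ (dual N A) (dual N B) = (ρ.map fun k => (-1 : ℤ) ^ (k - 1)).prod * mm ρ A B := by
  induction ρ generalizing A with
  | nil =>
    unfold mm
    rw [List.map_nil, List.prod_nil, one_mul]
    by_cases h : A = B
    · rw [if_pos h, h, if_pos rfl]
    · rw [if_neg h, if_neg]
      intro h2
      apply h
      rw [← td_dual_dual hA, h2, td_dual_dual hB]
  | cons k ρ ih =>
    have hk : 1 ≤ k := hρ k List.mem_cons_self
    have hρ' : ∀ k ∈ ρ, 1 ≤ k := fun x hx => hρ x (List.mem_cons_of_mem _ hx)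
    rw [td_restrict (td_sub : dual N B ⊆ range N), td_restrict hB, mul_sum, List.map_cons,
      List.prod_cons]
    symm
    refine sum_bij' (fun a _ => N - 1 - (a + k)) (fun a _ => N - 1 - (a + k)) ?_ ?_ ?_ ?_ ?_
    · intro a ha
      rw [mem_filter] at ha
      rw [mem_filter, mem_dual, mem_dual]
      refine ⟨⟨by omega, ?_⟩, ?_, by omega⟩
      · have h : N - 1 - (N - 1 - (a + k)) = a + k := by omega
        rw [h]
        exact ha.2.1
      · rintro ⟨-, h2⟩
        apply h2
        have h : N - 1 - (N - 1 - (a + k) + k) = a := by omega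
        rw [h]
        exact ha.1
    · intro a ha
      rw [mem_filter, mem_dual, mem_dual] at ha
      obtain ⟨⟨h1, h2⟩, h3, h4⟩ := ha
      rw [mem_filter]
      refine ⟨?_, ?_, by omega⟩
      · by_contra h5
        apply h3
        refine ⟨h4, ?_⟩
        exact h5
      · have h : N - 1 - (a + k) + k = N - 1 - a := by omega
        rw [h]
        exact h2
    · intro a ha
      rw [mem_filter] at ha
      omega
    · intro a ha
      rw [mem_filter] at ha
      omega
    · intro a ha
      rw [mem_filter] at ha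
      obtain ⟨h1, h2, h3⟩ := ha
      have hA1 : insert (a + k) (A.erase a) ⊆ range N := by
        intro x hx
        rw [mem_insert, mem_erase] at hx
        rcases hx with rfl | ⟨-, hx⟩
        · rw [mem_range]
          exact h3
        · exact hA hx
      rw [← td_move hk h3, ih hρ' _ hA1]
      have hc := td_card (A := A) hk h3
      have hs : ((-1 : ℤ)) ^ ((dual N A).filter (fun b => N - 1 - (a + k) < b ∧
          b < N - 1 - (a + k) + k)).card =
          (-1) ^ (k - 1) * (-1) ^ ((A.filter (fun b => a < b ∧ b < a + k)).card) := by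
        rw [← hc, pow_add, mul_right_comm, ← pow_add, ← two_mul, pow_mul, neg_one_sq, one_pow,
          one_mul]
      rw [hs]
      ring

end Pool.Agent.H18.KR
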