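import Pool.Agent.H18.KR.TConj
import Pool.Agent.H18.KR.FinS

/-!
# Module TFin (about 150 lines). Triples with a thin partition.

Let `x` be `ValidT` and `S ≥ size x`, `M = 2 S`. If a partition with at most two columns exists (and none
with two rows), `n ≤ 2 * length ≤ 2 * size x ≤ M` (`length_le_size`), so all parts are `≤ n ≤ M` and
`cj M l = conj (l.headD 0) l` with all entries `≤ l.headD 0` (`l` nonincreasing). So `tc M x` is `Valid`
(`conj_isPart`, `two_conj`; the number is again `x.1.sum`) with the same Kronecker coefficient (`kronL_conj13`,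
`kronL_conj12`). `gk_eq`. If `x` is not `ValidT` then `tc M x = ([1], [], [])` is not `Valid`.
`ptTc`: `conj` with `m` bounded: `PolyTime.range`, `PolyTime.map`, `PolyTime.countP`; `min (l.headD 0) M ≤ M`.
`ValidT` as `ptValid` in module PtV.
-/

set_option autoImplicit false

namespace Pool.Agent.H18.KR

open Finset Pool.Agent.H80.Poly

private theorem le_headD (l : List ℕ) (h : l.Pairwise (· ≥ ·)) : ∀ y ∈ l, y ≤ l.headD 0 := by
  intro y hy
  cases l with
  | nil => exact absurd hy List.not_mem_nil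
  | cons a t =>
    rcases List.mem_cons.mp hy with rfl | hy'
    · exact le_refl _
    · exact (List.pairwise_cons.mp h).1 y hy'

private theorem le_cj {n M : ℕ} {l : List ℕ} (h : IsPart n l) (hM : n ≤ M) :
    ∀ y ∈ l, y ≤ min (l.headD 0) M := by
  intro y hy
  have h1 : y ≤ n := h.2 ▸ List.single_le_sum (fun _ _ => Nat.zero_le _) y hy
  exact le_min (le_headD l h.1 y hy) (h1.trans hM)

private theorem twoC_sum {l : List ℕ} (h : twoC l) : l.sum ≤ 2 * l.length := by
  have := List.sum_le_card_nsmul l 2 h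
  rw [smul_eq_mul] at this
  omega

private theorem size_parts (x : Inp) : x.1.length ≤ size x ∧ x.2.1.length ≤ size x ∧
    x.2.2.length ≤ size x := by
  obtain ⟨a, b, c⟩ := x
  have h1 := length_le_size a
  have h2 := length_le_size b
  have h3 := length_le_size c
  rw [size_pair, size_pair]
  simp only
  omega

private theorem valid_of {n : ℕ} {a b c : List ℕ} (ha : IsPart n a) (hb : IsPart n b)
    (hc : IsPart n c) (h : two a ∨ two b ∨ two c) : Valid (a, b, c) := by
  have : a.sum = n := ha.2
  refine ⟨?_, ?_, ?_, h⟩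
  · rw [this]; exact ha
  · rw [this]; exact hb
  · rw [this]; exact hc

theorem tc_eq (M : ℕ) (x : Inp) (h : ValidT x) (hM : 2 * size x ≤ M) :
    (gk (tc M x) : ℚ) = kronL x.1.sum x.1 x.2.1 x.2.2 := by
  obtain ⟨h1, h2, h3, h4⟩ := id h
  obtain ⟨s1, s2, s3⟩ := size_parts x
  by_cases hA : two x.1 ∨ two x.2.1 ∨ two x.2.2
  · have e : tc M x = x := by
      unfold tc
      rw [if_pos h, if_pos hA]
    rw [e]
    exact gk_eq x ⟨h1, h2, h3, hA⟩
  · have hn1 : ¬ two x.1 := fun hh => hA (Or.inl hh)
    have hn2 : ¬ two x.2.1 := fun hh => hA (Or.inr (Or.inl hh))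
    have hn3 : ¬ two x.2.2 := fun hh => hA (Or.inr (Or.inr hh))
    by_cases hB : twoC x.2.2
    · have e : tc M x = (conj (min (x.1.headD 0) M) x.1, x.2.1,
          conj (min (x.2.2.headD 0) M) x.2.2) := by
        unfold tc
        rw [if_pos h, if_neg hA, if_pos hB]
        rfl
      have hn : x.1.sum ≤ M := by
        have := twoC_sum hB
        rw [h3.2] at this
        omega
      have c1 := conj_isPart x.1.sum _ x.1 h1 (le_cj h1 hn)
      have c3 := conj_isPart x.1.sum _ x.2.2 h3 (le_cj h3 hn)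
      rw [e, gk_eq _ (valid_of c1 h2 c3 (Or.inr (Or.inr (two_conj _ _ hB))))]
      show kronL (conj (min (x.1.headD 0) M) x.1).sum (conj (min (x.1.headD 0) M) x.1) x.2.1
        (conj (min (x.2.2.headD 0) M) x.2.2) = _
      rw [c1.2]
      exact kronL_conj13 _ _ _ _ _ _ h1.1 h3.1 (le_cj h1 hn) (le_cj h3 hn)
    · have e : tc M x = (conj (min (x.1.headD 0) M) x.1, conj (min (x.2.1.headD 0) M) x.2.1,
          x.2.2) := by
        unfold tc
        rw [if_pos h, if_neg hA, if_neg hB]
        rfl
      have hC : twoC x.1 ∨ twoC x.2.1 := by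
        rcases h4 with h4 | h4 | h4
        · exact Or.inl (h4.resolve_left hn1)
        · exact Or.inr (h4.resolve_left hn2)
        · exact absurd (h4.resolve_left hn3) hB
      have hn : x.1.sum ≤ M := by
        rcases hC with hC | hC
        · have := twoC_sum hC
          omega
        · have := twoC_sum hC
          rw [h2.2] at this
          omega
      have c1 := conj_isPart x.1.sum _ x.1 h1 (le_cj h1 hn)
      have c2 := conj_isPart x.1.sum _ x.2.1 h2 (le_cj h2 hn)
      have hv : two (conj (min (x.1.headD 0) M) x.1) ∨ two (conj (min (x.2.1.headD 0) M) x.2.1) ∨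
          two x.2.2 := by
        rcases hC with hC | hC
        · exact Or.inl (two_conj _ _ hC)
        · exact Or.inr (Or.inl (two_conj _ _ hC))
      rw [e, gk_eq _ (valid_of c1 c2 h3 hv)]
      show kronL (conj (min (x.1.headD 0) M) x.1).sum (conj (min (x.1.headD 0) M) x.1)
        (conj (min (x.2.1.headD 0) M) x.2.1) x.2.2 = _
      rw [c1.2]
      exact kronL_conj12 _ _ _ _ _ _ h1.1 h2.1 (le_cj h1 hn) (le_cj h2 hn)

theorem tc_zero (M : ℕ) (x : Inp) (h : ¬ ValidT x) : gk (tc M x) = 0 := by
  have e : tc M x = ([1], [], []) := by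
    unfold tc
    rw [if_neg h]
  have hv : ¬ Valid (([1], [], []) : Inp) := by
    rintro ⟨_, h2, _⟩
    have := h2.2
    simp at this
  rw [e]
  unfold gk
  rw [if_neg hv]

section pt

variable {α : Type} [BEnc α]

private theorem ptTwo' {l : α → List ℕ} (hl : PolyTime l) :
    PolyTime (fun a => decide (two (l a))) :=
  (PolyTime.forallMem (P := fun _ x => x = 0) (hl.drop (PolyTime.const 2))
    (PolyTime.eq PolyTime.snd' (PolyTime.const 0))).congr (fun a => by
      rw [Bool.eq_iff_iff, decide_eq_true_eq, decide_eq_true_eq]; exact Iff.rfl)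

private theorem ptTwoC' {l : α → List ℕ} (hl : PolyTime l) :
    PolyTime (fun a => decide (twoC (l a))) :=
  (PolyTime.forallMem (P := fun _ x => x ≤ 2) hl
    (PolyTime.le PolyTime.snd' (PolyTime.const 2))).congr (fun a => by
      rw [Bool.eq_iff_iff, decide_eq_true_eq, decide_eq_true_eq]; exact Iff.rfl)

private theorem ptPart' {n : α → ℕ} {l : α → List ℕ} (hn : PolyTime n) (hl : PolyTime l) :
    PolyTime (fun a => (sortedB (l a) && decide ((l a).sum = n a))) :=
  (ptSorted hl).and (PolyTime.eq hl.sum hn)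

private theorem part_iff (n : ℕ) (l : List ℕ) :
    (sortedB l && decide (l.sum = n)) = true ↔ IsPart n l := by
  rw [Bool.and_eq_true, sortedB_iff, decide_eq_true_eq]
  exact Iff.rfl

private theorem ptValidT {x : α → Inp} (hx : PolyTime x) :
    PolyTime (fun a => decide (ValidT (x a))) := by
  have h1 := ptPart' (hx.fst).sum hx.fst
  have h2 := ptPart' (hx.fst).sum hx.snd.fst
  have h3 := ptPart' (hx.fst).sum hx.snd.snd
  have h4 := ((ptTwo' hx.fst).or (ptTwoC' hx.fst)).or
    (((ptTwo' hx.snd.fst).or (ptTwoC' hx.snd.fst)).or ((ptTwo' hx.snd.snd).or (ptTwoC' hx.snd.snd)))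
  refine (h1.and (h2.and (h3.and h4))).congr (fun a => ?_)
  rw [Bool.eq_iff_iff, Bool.and_eq_true, part_iff, Bool.and_eq_true, part_iff, Bool.and_eq_true,
    part_iff]
  simp only [Bool.or_eq_true, decide_eq_true_eq]
  exact Iff.rfl

private theorem ptCj {M : α → ℕ} {l : α → List ℕ} (hM : PolyTime M)
    (bd : ∃ b, PB b ∧ ∀ a, M a ≤ b (size a)) (hl : PolyTime l) :
    PolyTime (fun a => cj (M a) (l a)) := by
  obtain ⟨b, hb, hb'⟩ := bd
  have hr : PolyTime (fun a => List.range (min ((l a).headD 0) (M a))) :=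
    PolyTime.range ((PolyTime.headD 0 hl).min hM)
      ⟨b, hb, fun a => (min_le_right _ _).trans (hb' a)⟩
  have hq : PolyTime (fun q : (α × ℕ) × ℕ => q) := PolyTime.id
  exact PolyTime.map
    (g := fun p : α × ℕ => (l p.1).countP (fun x => decide (p.2 < x))) hr
    (PolyTime.countP (l := fun p : α × ℕ => l p.1)
      (g := fun q : (α × ℕ) × ℕ => decide (q.1.2 < q.2)) (hl.comp PolyTime.fst')
      (PolyTime.lt hq.fst.snd hq.snd))

end pt

theorem ptTc {α : Type} [BEnc α] {M : α → ℕ} {x : α → Inp} (hM : PolyTime M)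
    (bd : ∃ b, PB b ∧ ∀ a, M a ≤ b (size a)) (hx : PolyTime x) :
    PolyTime (fun a => tc (M a) (x a)) := by
  have h1 := ptCj hM bd hx.fst
  have h2 := ptCj hM bd hx.snd.fst
  have h3 := ptCj hM bd hx.snd.snd
  have hc : PolyTime (fun a => decide (two (x a).1 ∨ two (x a).2.1 ∨ two (x a).2.2)) :=
    PolyTime.decOr (ptTwo' hx.fst) (PolyTime.decOr (ptTwo' hx.snd.fst) (ptTwo' hx.snd.snd))
  exact PolyTime.ite (ptValidT hx)
    (PolyTime.ite hc hx (PolyTime.ite (ptTwoC' hx.snd.snd) (h1.pair (hx.snd.fst.pair h3))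
      (h1.pair (h2.pair hx.snd.snd)))) (PolyTime.const _)

end Pool.Agent.H18.KR
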